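import Mathlib

/-!
# Limits
-/

set_option linter.unusedSectionVars false
set_option linter.unusedSimpArgs false
set_option linter.unusedVariables false

open Filter Topology

namespace Pool.Agent.H949.CX

/-- The number of steps. -/
noncomputable def Rm (A1 : ℝ) (m : ℕ) : ℕ := ⌈A1 * Real.log m⌉₊ + 1

theorem tendsto_nat_rpow_neg {c : ℝ} (hc : 0 < c) :
    Tendsto (fun m : ℕ => (m : ℝ) ^ (-c)) atTop (𝓝 0) :=
  (tendsto_rpow_neg_atTop hc).comp tendsto_natCast_atTop_atTop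

theorem Rm_le (A1 : ℝ) {c : ℝ} (hc : 0 < c) :
    ∀ᶠ m : ℕ in atTop, (Rm A1 m : ℝ) ≤ (m : ℝ) ^ c := by
  have h1 : Tendsto (fun x : ℝ => Real.log x * x ^ (-c)) atTop (𝓝 0) := by
    have := (isLittleO_log_rpow_atTop hc).tendsto_div_nhds_zero
    refine this.congr' ?_
    filter_upwards [eventually_gt_atTop (0 : ℝ)] with x hx
    rw [Real.rpow_neg hx.le, div_eq_mul_inv]
  have h2 : Tendsto (fun m : ℕ => |A1| * (Real.log m * (m : ℝ) ^ (-c)) + 2 * (m : ℝ) ^ (-c))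
      atTop (𝓝 (|A1| * 0 + 2 * 0)) :=
    ((h1.comp tendsto_natCast_atTop_atTop).const_mul _).add
      ((tendsto_nat_rpow_neg hc).const_mul 2)
  rw [mul_zero, mul_zero, add_zero] at h2
  filter_upwards [h2.eventually (gt_mem_nhds (show (0 : ℝ) < 1 by norm_num)),
    eventually_ge_atTop 1] with m hm hm1
  have hm0 : (0 : ℝ) < m := by exact_mod_cast hm1
  have hpos : (0 : ℝ) < (m : ℝ) ^ c := Real.rpow_pos_of_pos hm0 c
  have hinv : (m : ℝ) ^ (-c) * (m : ℝ) ^ c = 1 := by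
    rw [← Real.rpow_add hm0]; simp
  have hlog : 0 ≤ Real.log m := Real.log_nonneg (by exact_mod_cast hm1)
  have h3 : (Rm A1 m : ℝ) ≤ |A1| * Real.log m + 2 := by
    unfold Rm
    push_cast
    have h4 : (⌈A1 * Real.log m⌉₊ : ℝ) ≤ |A1| * Real.log m + 1 := by
      have h5 : (⌈|A1| * Real.log m⌉₊ : ℝ) < |A1| * Real.log m + 1 :=
        Nat.ceil_lt_add_one (by positivity)
      have h6 : ⌈A1 * Real.log m⌉₊ ≤ ⌈|A1| * Real.log m⌉₊ :=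
        Nat.ceil_mono (mul_le_mul_of_nonneg_right (le_abs_self A1) hlog)
      have h7 : (⌈A1 * Real.log m⌉₊ : ℝ) ≤ (⌈|A1| * Real.log m⌉₊ : ℝ) := by exact_mod_cast h6
      linarith
    linarith
  calc (Rm A1 m : ℝ) ≤ |A1| * Real.log m + 2 := h3
    _ = (|A1| * (Real.log m * (m : ℝ) ^ (-c)) + 2 * (m : ℝ) ^ (-c)) * (m : ℝ) ^ c := by
        calc |A1| * Real.log m + 2 = (|A1| * Real.log m + 2) * 1 := (mul_one _).symm
          _ = (|A1| * Real.log m + 2) * ((m : ℝ) ^ (-c) * (m : ℝ) ^ c) := by rw [hinv]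
          _ = _ := by ring
    _ ≤ 1 * (m : ℝ) ^ c := mul_le_mul_of_nonneg_right hm.le hpos.le
    _ = (m : ℝ) ^ c := one_mul _

/-- `(1 + m ^ (- cd / 2)) ^ (2 R)` tends to `1`. -/
theorem asy_dd (A1 : ℝ) {cd ε1 : ℝ} (hcd : 0 < cd) (hε : 0 < ε1) :
    ∀ᶠ m : ℕ in atTop, ((1 + (m : ℝ) ^ (-(cd / 2))) ^ (Rm A1 m)) ^ 2 ≤ 1 + ε1 := by
  have h1 : Tendsto (fun m : ℕ => Real.exp (2 * (m : ℝ) ^ (-(cd / 4)))) atTop (𝓝 1) := by
    have h2 : Tendsto (fun m : ℕ => 2 * (m : ℝ) ^ (-(cd / 4))) atTop (𝓝 0) := by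
      have := (tendsto_nat_rpow_neg (show 0 < cd / 4 by positivity)).const_mul 2
      simpa using this
    have h3 := (Real.continuous_exp.tendsto 0).comp h2
    rw [Real.exp_zero] at h3
    exact h3
  filter_upwards [h1.eventually (ge_mem_nhds (show (1 : ℝ) < 1 + ε1 by linarith)),
    Rm_le A1 (show 0 < cd / 4 by positivity), eventually_ge_atTop 1] with m hm hR hm1
  have hm0 : (0 : ℝ) < m := by exact_mod_cast hm1
  set x : ℝ := (m : ℝ) ^ (-(cd / 2)) with hx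
  have hx0 : 0 ≤ x := Real.rpow_nonneg hm0.le _
  calc ((1 + x) ^ (Rm A1 m)) ^ 2 ≤ (Real.exp x ^ (Rm A1 m)) ^ 2 := by
        have h3 : 1 + x ≤ Real.exp x := by linarith [Real.add_one_le_exp x]
        gcongr
    _ = Real.exp (2 * ((Rm A1 m : ℝ) * x)) := by
        rw [← Real.exp_nat_mul, ← Real.exp_nat_mul]
        push_cast
        ring_nf
    _ ≤ Real.exp (2 * (m : ℝ) ^ (-(cd / 4))) := by
        apply Real.exp_le_exp.2
        have h4 : (Rm A1 m : ℝ) * x ≤ (m : ℝ) ^ (cd / 4) * x :=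
          mul_le_mul_of_nonneg_right hR hx0
        have h5 : (m : ℝ) ^ (cd / 4) * x = (m : ℝ) ^ (-(cd / 4)) := by
          rw [hx, ← Real.rpow_add hm0]
          congr 1
          ring
        linarith
    _ ≤ 1 + ε1 := hm

theorem asy_ratio (A1 : ℝ) (Q0 : ℕ) {cd : ℝ} (hcd : 0 < cd) (hcd1 : cd ≤ 1 / 2) :
    ∀ᶠ m : ℕ in atTop, ((Q0 + 8 * Rm A1 m + 1 : ℕ) : ℝ) ≤ m / 2 ∧
      (1 + (m : ℝ) ^ (-cd)) * (m / (m - (Q0 + 8 * Rm A1 m + 1 : ℕ))) ≤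
        1 + (m : ℝ) ^ (-(cd / 2)) := by
  have h1 : Tendsto (fun m : ℕ => ((Q0 : ℝ) + 1) * (m : ℝ) ^ (-(1 / 2 : ℝ)) +
      8 * (m : ℝ) ^ (-(1 / 4 : ℝ))) atTop (𝓝 (((Q0 : ℝ) + 1) * 0 + 8 * 0)) :=
    ((tendsto_nat_rpow_neg (by norm_num)).const_mul _).add
      ((tendsto_nat_rpow_neg (by norm_num)).const_mul _)
  rw [mul_zero, mul_zero, add_zero] at h1
  have h2 := tendsto_nat_rpow_neg (show 0 < cd / 2 by positivity)
  filter_upwards [h1.eventually (ge_mem_nhds (show (0 : ℝ) < 1 / 8 by norm_num)),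
    h2.eventually (ge_mem_nhds (show (0 : ℝ) < 1 / 2 by norm_num)),
    Rm_le A1 (show (0 : ℝ) < 1 / 4 by norm_num), eventually_ge_atTop 1] with m hm hx hR hm1
  have hm0 : (0 : ℝ) < m := by exact_mod_cast hm1
  have hm1' : (1 : ℝ) ≤ m := by exact_mod_cast hm1
  set b : ℝ := ((Q0 + 8 * Rm A1 m + 1 : ℕ) : ℝ) with hb
  have hb' : b = (Q0 : ℝ) + 1 + 8 * (Rm A1 m : ℝ) := by rw [hb]; push_cast; ring
  have hb0 : 0 < b := by rw [hb]; positivity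
  -- `b ≤ m ^ (1/2) / 8`
  have hbm : b ≤ (m : ℝ) ^ (1 / 2 : ℝ) * (1 / 8) := by
    have e1 : (m : ℝ) ^ (1 / 2 : ℝ) * (m : ℝ) ^ (-(1 / 2 : ℝ)) = 1 := by
      rw [← Real.rpow_add hm0]; simp
    have e2 : (m : ℝ) ^ (1 / 2 : ℝ) * (m : ℝ) ^ (-(1 / 4 : ℝ)) = (m : ℝ) ^ (1 / 4 : ℝ) := by
      rw [← Real.rpow_add hm0]; norm_num
    have hp : 0 ≤ (m : ℝ) ^ (1 / 2 : ℝ) := Real.rpow_nonneg hm0.le _
    have h3 := mul_le_mul_of_nonneg_left hm hp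
    have h4 : (m : ℝ) ^ (1 / 2 : ℝ) * (((Q0 : ℝ) + 1) * (m : ℝ) ^ (-(1 / 2 : ℝ)) +
      8 * (m : ℝ) ^ (-(1 / 4 : ℝ))) = ((Q0 : ℝ) + 1) * ((m : ℝ) ^ (1 / 2 : ℝ) *
        (m : ℝ) ^ (-(1 / 2 : ℝ))) + 8 * ((m : ℝ) ^ (1 / 2 : ℝ) * (m : ℝ) ^ (-(1 / 4 : ℝ))) := by
      ring
    rw [h4, e1, e2, mul_one] at h3
    rw [hb']
    linarith
  have hsq : (m : ℝ) ^ (1 / 2 : ℝ) ≤ m := by
    calc (m : ℝ) ^ (1 / 2 : ℝ) ≤ (m : ℝ) ^ (1 : ℝ) :=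
          Real.rpow_le_rpow_of_exponent_le hm1' (by norm_num)
      _ = m := Real.rpow_one _
  have hbhalf : b ≤ m / 2 := by linarith
  refine ⟨hbhalf, ?_⟩
  set x : ℝ := (m : ℝ) ^ (-(cd / 2)) with hxdef
  have hx0 : 0 < x := Real.rpow_pos_of_pos hm0 _
  have hxx : (m : ℝ) ^ (-cd) = x ^ 2 := by
    rw [hxdef, ← Real.rpow_natCast, ← Real.rpow_mul hm0.le]
    congr 1
    push_cast
    ring
  rw [hxx]
  -- `b / m ≤ x / 8`
  have hbx : b / m ≤ x / 8 := by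
    rw [div_le_iff₀ hm0]
    have e3 : x * m = (m : ℝ) ^ (1 - cd / 2) := by
      rw [hxdef]
      nth_rewrite 2 [← Real.rpow_one (m : ℝ)]
      rw [← Real.rpow_add hm0]
      congr 1
      ring
    have e4 : (m : ℝ) ^ (1 / 2 : ℝ) ≤ (m : ℝ) ^ (1 - cd / 2) :=
      Real.rpow_le_rpow_of_exponent_le hm1' (by linarith)
    calc b ≤ (m : ℝ) ^ (1 / 2 : ℝ) * (1 / 8) := hbm
      _ ≤ (m : ℝ) ^ (1 - cd / 2) * (1 / 8) := by gcongr
      _ = x / 8 * m := by rw [← e3]; ring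
  have hden : 0 < (m : ℝ) - b := by linarith
  have h5 : (m : ℝ) / (m - b) ≤ 1 + 2 * (b / m) := by
    rw [div_le_iff₀ hden]
    have h6 : b / m * m = b := by field_simp
    have h7 : b / m ≤ 1 / 2 := by rw [div_le_iff₀ hm0]; linarith
    have h8 : 0 ≤ b / m := by positivity
    nlinarith
  have h9 : (1 + x ^ 2) * ((m : ℝ) / (m - b)) ≤ (1 + x ^ 2) * (1 + 2 * (x / 8)) := by
    apply mul_le_mul_of_nonneg_left _ (by positivity)
    linarith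
  refine le_trans h9 ?_
  nlinarith [mul_nonneg hx0.le (sub_nonneg.2 hx), mul_pos hx0 hx0]

theorem asy_loss (A1 K3 : ℝ) (Q0 : ℕ) {cd ε1 ε2 : ℝ} (hcd : 0 < cd) (hε : 0 < ε1)
    (hε2 : 0 < ε2) (hε21 : ε2 ≤ 1) :
    ∀ᶠ m : ℕ in atTop, (Rm A1 m : ℝ) * (((m : ℝ) ^ (1 - cd) +
      (Q0 + Rm A1 m * ⌈K3 ^ 2 * ((m : ℝ) * ε2) ^ (1 / 2 : ℝ)⌉₊ : ℕ)) / m) ≤ ε1 := by
  set c' : ℝ := min (cd / 2) (1 / 8) with hc'
  have hc'0 : 0 < c' := lt_min (by positivity) (by norm_num)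
  have h1 : Tendsto (fun m : ℕ => (m : ℝ) ^ (-(cd - c')) + (Q0 : ℝ) * (m : ℝ) ^ (-(1 - c')) +
      (K3 ^ 2 + 1) * (m : ℝ) ^ (-(1 / 2 - 2 * c'))) atTop (𝓝 (0 + (Q0 : ℝ) * 0 +
        (K3 ^ 2 + 1) * 0)) := by
    refine ((tendsto_nat_rpow_neg ?_).add ((tendsto_nat_rpow_neg ?_).const_mul _)).add
      ((tendsto_nat_rpow_neg ?_).const_mul _)
    · have := min_le_left (cd / 2) (1 / 8 : ℝ); linarith
    · have := min_le_right (cd / 2) (1 / 8 : ℝ); linarith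
    · have := min_le_right (cd / 2) (1 / 8 : ℝ); linarith
  rw [mul_zero, mul_zero, add_zero, add_zero] at h1
  filter_upwards [h1.eventually (ge_mem_nhds hε), Rm_le A1 hc'0, eventually_ge_atTop 1]
    with m hm hR hm1
  have hm0 : (0 : ℝ) < m := by exact_mod_cast hm1
  have hm1' : (1 : ℝ) ≤ m := by exact_mod_cast hm1
  set r : ℝ := (Rm A1 m : ℝ) with hr
  have hr0 : 0 ≤ r := Nat.cast_nonneg _
  have hceil : (⌈K3 ^ 2 * ((m : ℝ) * ε2) ^ (1 / 2 : ℝ)⌉₊ : ℝ) ≤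
      (K3 ^ 2 + 1) * (m : ℝ) ^ (1 / 2 : ℝ) := by
    have h2 : (⌈K3 ^ 2 * ((m : ℝ) * ε2) ^ (1 / 2 : ℝ)⌉₊ : ℝ) <
        K3 ^ 2 * ((m : ℝ) * ε2) ^ (1 / 2 : ℝ) + 1 := Nat.ceil_lt_add_one (by positivity)
    have h3 : ((m : ℝ) * ε2) ^ (1 / 2 : ℝ) ≤ (m : ℝ) ^ (1 / 2 : ℝ) := by
      apply Real.rpow_le_rpow (by positivity) _ (by norm_num)
      nlinarith
    have h4 : (1 : ℝ) ≤ (m : ℝ) ^ (1 / 2 : ℝ) := Real.one_le_rpow hm1' (by norm_num)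
    have h5 := mul_le_mul_of_nonneg_left h3 (sq_nonneg K3)
    linarith
  push_cast
  rw [← hr]
  have hrm := hR
  calc r * (((m : ℝ) ^ (1 - cd) + ((Q0 : ℝ) + r * (⌈K3 ^ 2 * ((m : ℝ) * ε2) ^ (1 / 2 : ℝ)⌉₊ : ℝ)))
        / m)
      ≤ (m : ℝ) ^ c' * (((m : ℝ) ^ (1 - cd) + ((Q0 : ℝ) + (m : ℝ) ^ c' *
          ((K3 ^ 2 + 1) * (m : ℝ) ^ (1 / 2 : ℝ)))) / m) := by
        gcongr
    _ = (m : ℝ) ^ (-(cd - c')) + (Q0 : ℝ) * (m : ℝ) ^ (-(1 - c')) +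
      (K3 ^ 2 + 1) * (m : ℝ) ^ (-(1 / 2 - 2 * c')) := by
        have e1 : (m : ℝ) ^ (-(cd - c')) = (m : ℝ) ^ c' * (m : ℝ) ^ (1 - cd) / m := by
          rw [← Real.rpow_add hm0, eq_div_iff hm0.ne']
          nth_rewrite 2 [← Real.rpow_one (m : ℝ)]
          rw [← Real.rpow_add hm0]
          congr 1
          ring
        have e2 : (m : ℝ) ^ (-(1 - c')) = (m : ℝ) ^ c' / m := by
          rw [eq_div_iff hm0.ne']
          nth_rewrite 2 [← Real.rpow_one (m : ℝ)]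
          rw [← Real.rpow_add hm0]
          congr 1
          ring
        have e3 : (m : ℝ) ^ (-(1 / 2 - 2 * c')) = (m : ℝ) ^ c' * (m : ℝ) ^ c' *
            (m : ℝ) ^ (1 / 2 : ℝ) / m := by
          rw [← Real.rpow_add hm0, ← Real.rpow_add hm0, eq_div_iff hm0.ne']
          nth_rewrite 2 [← Real.rpow_one (m : ℝ)]
          rw [← Real.rpow_add hm0]
          congr 1
          ring
        rw [e1, e2, e3]
        ring
    _ ≤ ε1 := hm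

/-- Powers of a number smaller than `1`. -/
theorem asy_pow {A1 ρ κ C ε1 : ℝ} (hρ0 : 0 < ρ) (hρ1 : ρ < 1) (hA1 : 0 < A1)
    (hlt : κ + A1 * Real.log ρ < 0) (hε : 0 < ε1) :
    ∀ᶠ m : ℕ in atTop, C * (m : ℝ) ^ κ * ρ ^ (Rm A1 m) ≤ ε1 := by
  have h1 : Tendsto (fun m : ℕ => |C| * (m : ℝ) ^ (-(-(κ + A1 * Real.log ρ)))) atTop
      (𝓝 (|C| * 0)) := (tendsto_nat_rpow_neg (by linarith)).const_mul _
  rw [mul_zero] at h1
  filter_upwards [h1.eventually (ge_mem_nhds hε), eventually_ge_atTop 1] with m hm hm1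
  have hm0 : (0 : ℝ) < m := by exact_mod_cast hm1
  have hpow : ρ ^ (Rm A1 m) ≤ (m : ℝ) ^ (A1 * Real.log ρ) := by
    have h2 : A1 * Real.log m ≤ (Rm A1 m : ℝ) := by
      unfold Rm
      push_cast
      have := Nat.le_ceil (A1 * Real.log m)
      linarith
    calc ρ ^ (Rm A1 m) = ρ ^ ((Rm A1 m : ℕ) : ℝ) := (Real.rpow_natCast _ _).symm
      _ ≤ ρ ^ (A1 * Real.log m) :=
          Real.rpow_le_rpow_of_exponent_ge hρ0 hρ1.le h2
      _ = (m : ℝ) ^ (A1 * Real.log ρ) := by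
          rw [Real.rpow_def_of_pos hρ0, Real.rpow_def_of_pos hm0]
          congr 1
          ring
  have hmk : 0 ≤ (m : ℝ) ^ κ := Real.rpow_nonneg hm0.le _
  calc C * (m : ℝ) ^ κ * ρ ^ (Rm A1 m) ≤ |C| * (m : ℝ) ^ κ * ρ ^ (Rm A1 m) := by
        gcongr
        exact le_abs_self C
    _ ≤ |C| * (m : ℝ) ^ κ * (m : ℝ) ^ (A1 * Real.log ρ) := by gcongr
    _ = |C| * (m : ℝ) ^ (-(-(κ + A1 * Real.log ρ))) := by
        rw [mul_assoc, ← Real.rpow_add hm0, neg_neg]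
    _ ≤ ε1 := hm

end Pool.Agent.H949.CX
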