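import Pool.Agent.H949.CX.DegOK

/-!
# Good degrees imply the conditions for the exploration

Paper proof of `expl_conds`. Let `m = Fintype.card H`, `N = Fintype.card V`. `deg vert v` is the
number of `h` with `vert h = v`; `dom l`, `fr l h = (dom l)ᶜ.erase h` are in `CM/Match.lean`. Note
`∑ y : H, f (vert y) = ∑ v, deg vert v • f v` (`Finset.sum_fiberwise'`), every `deg vert (vert y) ≥ 1`.
(1) Markov: `#{y | G < deg (vert y)} * G ≤ ∑_y deg * (deg > G)`; more precisely for `G ≥ 1`: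
`G ^ η * ∑_{y : G < deg} deg ≤ ∑_y deg ^ (1 + η) ≤ K1 m`, hence
`#{y | G < deg} ≤ ∑_{y : G < deg} deg ≤ K1 G ^ (-η) m`.
(2) `∑_y (deg - 1) ≤ #{deg ≤ 2} + G1 * #{3 ≤ deg ≤ G1} + ∑_{G1 < deg} deg
 ≤ m + G1 * #{3 ≤ deg ≤ G1} + K1 G1 ^ (-η) m`, and `∑_y (deg - 1) ≥ ν m - m ^ (1 - cd)`. Choose `G1 ≥ 1`
with `K1 G1 ^ (-η) ≤ (ν - 1) / 4`; for large `m` also `m ^ (-cd) ≤ (ν - 1) / 4`; so
`#{3 ≤ deg ≤ G1} ≥ m (ν - 1) / (2 G1)`. Put `ρ = min 1 ((ν - 1) / (4 G1))`.
(3) Given `e`, choose `G ≥ G1` with `K1 G ^ (-η) ≤ e / 4` and `C0 / G ≤ e`. Given `Q`, for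
`m ≥ m0` we have `|fr l h| ≥ m - Q - 1 ≥ m / 2`, `Q ≤ e m / 4`, `2 Q + 1 ≤ m (ν - 1) / (4 G1)`.
The bad `y` are at most `∑_{v ∈ W} deg + #{G < deg} ≤ Q + e m / 4 ≤ e m / 2 ≤ e |fr|`.
The good `y` are at least `#{3 ≤ deg ≤ G1} - #(dom l) - 1 - ∑_{v ∈ W} deg ≥ ρ m ≥ ρ |fr|`.
(4) `G * #{v | G < deg v} ≤ ∑_v deg v = m ≤ C0 N`.
-/

set_option linter.unusedSectionVars false
set_option linter.unusedSimpArgs false
set_option linter.unusedVariables false

open MeasureTheory Finset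
open scoped ENNReal

namespace Pool.Agent.H949.CX

open Pool.Agent.H949.CM

variable {V H : Type} [Fintype V] [DecidableEq V] [Fintype H] [DecidableEq H]


/-- the number of half-edges at the vertices of a set -/
theorem card_vert_mem (vert : H → V) (W : Finset V) :
    (univ.filter (fun y : H => vert y ∈ W)).card = ∑ v ∈ W, deg vert v := by
  rw [Finset.card_eq_sum_card_fiberwise (f := vert) (t := W)
    (fun y hy => by simpa using hy)]
  refine Finset.sum_congr rfl fun v hv => ?_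
  unfold deg
  congr 1
  ext y
  simp only [mem_filter, mem_univ, true_and]
  constructor
  · exact fun h => h.2
  · exact fun h => ⟨h ▸ hv, h⟩

theorem deg_pos (vert : H → V) (y : H) : 1 ≤ deg vert (vert y) := by
  unfold deg
  exact Finset.card_pos.2 ⟨y, by simp⟩

theorem sum_deg (vert : H → V) : ∑ v, deg vert v = Fintype.card H := by
  rw [← card_vert_mem vert univ]
  simp

/-- half-edges at vertices of large degree -/
theorem tail {ν K1 η cd c0 C0 : ℝ} (hη : 0 < η) {vert : H → V} (h : DegOK vert ν K1 η cd c0 C0)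
    {G : ℕ} (hG : 1 ≤ G) :
    ∑ y ∈ univ.filter (fun y : H => G < deg vert (vert y)), ((deg vert (vert y) : ℕ) : ℝ) ≤
      K1 * (G : ℝ) ^ (-η) * (Fintype.card H : ℝ) := by
  have hG0 : (0 : ℝ) < G := by exact_mod_cast hG
  have h1 : ∀ y ∈ univ.filter (fun y : H => G < deg vert (vert y)),
      ((deg vert (vert y) : ℕ) : ℝ) ≤ (G : ℝ) ^ (-η) * ((deg vert (vert y) : ℕ) : ℝ) ^ (1 + η) := by
    intro y hy
    rw [mem_filter] at hy
    have hD : (G : ℝ) ≤ ((deg vert (vert y) : ℕ) : ℝ) := by exact_mod_cast hy.2.le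
    have hD0 : (0 : ℝ) < ((deg vert (vert y) : ℕ) : ℝ) := hG0.trans_le hD
    rw [Real.rpow_add hD0, Real.rpow_one, Real.rpow_neg hG0.le]
    have h2 : (G : ℝ) ^ η ≤ ((deg vert (vert y) : ℕ) : ℝ) ^ η :=
      Real.rpow_le_rpow hG0.le hD hη.le
    have h3 : 0 < (G : ℝ) ^ η := Real.rpow_pos_of_pos hG0 _
    rw [inv_mul_eq_div, le_div_iff₀ h3]
    exact mul_le_mul_of_nonneg_left h2 hD0.le
  refine (Finset.sum_le_sum h1).trans ?_
  rw [← Finset.mul_sum]
  have h4 : ∑ y ∈ univ.filter (fun y : H => G < deg vert (vert y)),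
      ((deg vert (vert y) : ℕ) : ℝ) ^ (1 + η) ≤ K1 * (Fintype.card H : ℝ) :=
    (Finset.sum_le_sum_of_subset_of_nonneg (filter_subset _ _)
      (fun y _ _ => by positivity)).trans h.mom
  have h5 : 0 ≤ (G : ℝ) ^ (-η) := by positivity
  calc _ ≤ (G : ℝ) ^ (-η) * (K1 * (Fintype.card H : ℝ)) := mul_le_mul_of_nonneg_left h4 h5
    _ = _ := by ring

theorem exG (K1 : ℝ) {η x : ℝ} (hη : 0 < η) (hx : 0 < x) :
    ∃ G0 : ℕ, ∀ G : ℕ, G0 ≤ G → K1 * (G : ℝ) ^ (-η) ≤ x := by
  have h1 : Filter.Tendsto (fun G : ℕ => K1 * (G : ℝ) ^ (-η)) Filter.atTop (nhds (K1 * 0)) :=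
    ((tendsto_rpow_neg_atTop hη).comp tendsto_natCast_atTop_atTop).const_mul K1
  rw [mul_zero] at h1
  have h2 := h1.eventually (ge_mem_nhds hx)
  obtain ⟨G0, hG0⟩ := Filter.eventually_atTop.1 h2
  exact ⟨G0, hG0⟩

/-- there are many half-edges at vertices of degrees in `[3, G1]` -/
theorem many {ν K1 η cd c0 C0 : ℝ} (hη : 0 < η) {vert : H → V} (h : DegOK vert ν K1 η cd c0 C0)
    {G1 : ℕ} (hG : 1 ≤ G1) (h1 : K1 * (G1 : ℝ) ^ (-η) ≤ (ν - 1) / 4)
    (h2 : (Fintype.card H : ℝ) ^ (1 - cd) ≤ (ν - 1) / 4 * (Fintype.card H : ℝ)) :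
    (ν - 1) / 2 * (Fintype.card H : ℝ) ≤ G1 *
      ((univ.filter (fun y : H => 3 ≤ deg vert (vert y) ∧ deg vert (vert y) ≤ G1)).card : ℝ) := by
  have h3 := h.lo
  have h4 := tail hη h hG
  have h5 : ∑ y : H, ((deg vert (vert y) - 1 : ℕ) : ℝ) ≤ ∑ y : H, ((1 : ℝ) +
      (if 3 ≤ deg vert (vert y) ∧ deg vert (vert y) ≤ G1 then (G1 : ℝ) else 0) +
      (if G1 < deg vert (vert y) then ((deg vert (vert y) : ℕ) : ℝ) else 0)) := by
    refine Finset.sum_le_sum fun y _ => ?_
    have hD := deg_pos vert y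
    rw [Nat.cast_sub hD, Nat.cast_one]
    by_cases hb : G1 < deg vert (vert y)
    · rw [if_pos hb]
      have : (0 : ℝ) ≤ if 3 ≤ deg vert (vert y) ∧ deg vert (vert y) ≤ G1 then (G1 : ℝ) else 0 := by
        split_ifs <;> positivity
      linarith
    · rw [if_neg hb]
      push Not at hb
      by_cases h3' : 3 ≤ deg vert (vert y)
      · rw [if_pos ⟨h3', hb⟩]
        have : ((deg vert (vert y) : ℕ) : ℝ) ≤ G1 := by exact_mod_cast hb
        linarith
      · rw [if_neg fun h => h3' h.1]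
        push Not at h3'
        have : ((deg vert (vert y) : ℕ) : ℝ) ≤ 2 := by exact_mod_cast Nat.lt_succ_iff.1 h3'
        linarith
  rw [Finset.sum_add_distrib, Finset.sum_add_distrib, ← Finset.sum_filter, ← Finset.sum_filter,
    Finset.sum_const, Finset.sum_const, nsmul_eq_mul, nsmul_eq_mul, mul_one, card_univ] at h5
  have h6 : K1 * (G1 : ℝ) ^ (-η) * (Fintype.card H : ℝ) ≤ (ν - 1) / 4 * (Fintype.card H : ℝ) :=
    mul_le_mul_of_nonneg_right h1 (Nat.cast_nonneg _)
  linarith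

theorem expl_conds {ν K1 η cd c0 C0 : ℝ} (hν : 1 < ν) (hη : 0 < η) (hK1 : 0 ≤ K1)
    (hcd : 0 < cd) :
    ∃ ρ : ℝ, 0 < ρ ∧ ρ ≤ 1 ∧ ∀ e : ℝ, 0 < e → ∃ G : ℕ, 1 ≤ G ∧ ∀ Q : ℕ, ∃ m0 : ℕ,
      ∀ (V H : Type) [Fintype V] [DecidableEq V] [Fintype H] [DecidableEq H] (vert : H → V),
        m0 ≤ Fintype.card H → DegOK vert ν K1 η cd c0 C0 →
        ((univ.filter (fun v => G < deg vert v)).card : ℝ) ≤ e * (Fintype.card V : ℝ) ∧
        ∀ (l : List (H × H)) (h : H) (W : Finset V), (dom l).card ≤ Q →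
          ∑ v ∈ W, deg vert v * deg vert v ≤ Q →
          (ρ * ((fr l h).card : ℝ) ≤ (((fr l h).filter (fun y =>
            vert y ∉ W ∧ deg vert (vert y) ≤ G ∧ 3 ≤ deg vert (vert y))).card : ℝ)) ∧
          ((((fr l h).filter (fun y =>
            ¬ (vert y ∉ W ∧ deg vert (vert y) ≤ G))).card : ℝ) ≤ e * ((fr l h).card : ℝ)) := by
  obtain ⟨G0, hG0⟩ := exG K1 hη (show 0 < (ν - 1) / 4 by linarith)
  obtain ⟨G1, hG1⟩ : ∃ G1 : ℕ, G1 = max G0 1 := ⟨_, rfl⟩
  have hG1a : 1 ≤ G1 := hG1 ▸ le_max_right _ _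
  have hG1b : K1 * (G1 : ℝ) ^ (-η) ≤ (ν - 1) / 4 := hG0 G1 (hG1 ▸ le_max_left _ _)
  have hG1c : (0 : ℝ) < G1 := by exact_mod_cast hG1a
  obtain ⟨ρ, hρ⟩ : ∃ ρ : ℝ, ρ = (ν - 1) / (4 * G1) := ⟨_, rfl⟩
  have hρ0 : 0 < ρ := by
    rw [hρ]
    have : 0 < ν - 1 := by linarith
    positivity
  obtain ⟨M1, hM1⟩ := exG 1 hcd (show 0 < (ν - 1) / 4 by linarith)
  refine ⟨min 1 ρ, lt_min one_pos hρ0, min_le_left _ _, ?_⟩
  intro e he
  obtain ⟨G2, hG2⟩ := exG K1 hη (show 0 < e / 4 by linarith)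
  obtain ⟨G3, hG3⟩ := exists_nat_ge (C0 / e)
  obtain ⟨G, hG⟩ : ∃ G : ℕ, G = max G1 (max G2 G3) := ⟨_, rfl⟩
  have hGa : G1 ≤ G := hG ▸ le_max_left _ _
  have hGb : G2 ≤ G := hG ▸ (le_max_left _ _).trans (le_max_right _ _)
  have hGc : G3 ≤ G := hG ▸ (le_max_right _ _).trans (le_max_right _ _)
  have hG1' : 1 ≤ G := hG1a.trans hGa
  refine ⟨G, hG1', ?_⟩
  intro Q
  obtain ⟨m1, hm1⟩ := exists_nat_ge ((2 * (Q : ℝ) + 1) / ρ)
  obtain ⟨m2, hm2⟩ := exists_nat_ge (4 * (Q : ℝ) / e)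
  refine ⟨max (max m1 m2) (max (max M1 1) (2 * Q + 2)), ?_⟩
  intro V H _ _ _ _ vert hm hdeg
  obtain ⟨m, hmm⟩ : ∃ m : ℕ, m = Fintype.card H := ⟨_, rfl⟩
  rw [← hmm] at hm
  simp only [max_le_iff] at hm
  obtain ⟨⟨hma, hmb⟩, ⟨hmc, hmd⟩, hme⟩ := hm
  have hm0 : (0 : ℝ) < m := by exact_mod_cast hmd
  have hmA : 2 * (Q : ℝ) + 1 ≤ ρ * m := by
    rw [div_le_iff₀ hρ0] at hm1
    have : (m1 : ℝ) ≤ m := by exact_mod_cast hma
    nlinarith
  have hmB : 4 * (Q : ℝ) ≤ e * m := by
    rw [div_le_iff₀ he] at hm2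
    have : (m2 : ℝ) ≤ m := by exact_mod_cast hmb
    nlinarith
  have hmE : 2 * (Q : ℝ) + 2 ≤ m := by exact_mod_cast hme
  have hpow : (m : ℝ) ^ (1 - cd) ≤ (ν - 1) / 4 * (m : ℝ) := by
    have h1 := hM1 m hmc
    rw [one_mul] at h1
    rw [sub_eq_add_neg, Real.rpow_add hm0, Real.rpow_one]
    nlinarith
  have hmany := many hη hdeg hG1a hG1b (by rw [← hmm]; exact hpow)
  rw [← hmm] at hmany
  have htail := tail hη hdeg hG1'
  rw [← hmm] at htail
  -- few half-edges at vertices of degree more than `G`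
  have hbig : ((univ.filter (fun y : H => G < deg vert (vert y))).card : ℝ) ≤ e / 4 * m := by
    have h1 : ((univ.filter (fun y : H => G < deg vert (vert y))).card : ℝ) ≤
        ∑ y ∈ univ.filter (fun y : H => G < deg vert (vert y)), ((deg vert (vert y) : ℕ) : ℝ) := by
      rw [Finset.card_eq_sum_ones, Nat.cast_sum]
      exact Finset.sum_le_sum fun y _ => by exact_mod_cast deg_pos vert y
    refine h1.trans (htail.trans ?_)
    exact mul_le_mul_of_nonneg_right (hG2 G hGb) hm0.le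
  constructor
  · -- few vertices of large degree
    have h1 : G * (univ.filter (fun v => G < deg vert v)).card ≤ m := by
      rw [hmm, ← sum_deg vert, mul_comm, ← smul_eq_mul, ← Finset.sum_const]
      refine (Finset.sum_le_sum fun v hv => ?_).trans
        (Finset.sum_le_sum_of_subset (filter_subset _ _))
      rw [mem_filter] at hv
      exact hv.2.le
    have h2 : (G : ℝ) * ((univ.filter (fun v => G < deg vert v)).card : ℝ) ≤ m := by
      exact_mod_cast h1
    have h3 := hdeg.CN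
    rw [← hmm] at h3
    have h4 : C0 ≤ e * G := by
      have h5 : (G3 : ℝ) ≤ G := by exact_mod_cast hGc
      rw [div_le_iff₀ he] at hG3
      nlinarith
    have hGr : (0 : ℝ) < G := by exact_mod_cast hG1'
    have h6 : C0 * (Fintype.card V : ℝ) ≤ e * G * (Fintype.card V : ℝ) :=
      mul_le_mul_of_nonneg_right h4 (Nat.cast_nonneg _)
    have h7 : (G : ℝ) * ((univ.filter (fun v => G < deg vert v)).card : ℝ) ≤
        G * (e * (Fintype.card V : ℝ)) := by
      linarith
    exact le_of_mul_le_mul_left h7 hGr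
  · intro l h W hl hW
    have hW1 : (univ.filter (fun y : H => vert y ∈ W)).card ≤ Q := by
      rw [card_vert_mem]
      refine (Finset.sum_le_sum fun v _ => ?_).trans hW
      exact Nat.le_mul_self _
    have hfr1 : (fr l h).card ≤ m := by
      rw [hmm]
      exact Finset.card_le_univ _
    have hfr2 : m ≤ (fr l h).card + Q + 1 := by
      have h1 : (univ : Finset H) ⊆ fr l h ∪ insert h (dom l) := by
        intro y _
        rw [mem_union, mem_fr, mem_insert]
        tauto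
      have h2 := Finset.card_le_card h1
      have h3 := Finset.card_union_le (fr l h) (insert h (dom l))
      have h4 := Finset.card_insert_le h (dom l)
      rw [card_univ, ← hmm] at h2
      omega
    have hfrR : (m : ℝ) ≤ 2 * ((fr l h).card : ℝ) := by
      have : (m : ℝ) ≤ ((fr l h).card : ℝ) + Q + 1 := by exact_mod_cast hfr2
      linarith
    have hfrR1 : ((fr l h).card : ℝ) ≤ m := by exact_mod_cast hfr1
    constructor
    · -- many good half-edges
      have h1 : univ.filter (fun y : H => 3 ≤ deg vert (vert y) ∧ deg vert (vert y) ≤ G1) ⊆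
          (fr l h).filter (fun y => vert y ∉ W ∧ deg vert (vert y) ≤ G ∧ 3 ≤ deg vert (vert y)) ∪
          (insert h (dom l) ∪ univ.filter (fun y : H => vert y ∈ W)) := by
        intro y hy
        rw [mem_filter] at hy
        rw [mem_union, mem_union, mem_filter, mem_fr, mem_insert, mem_filter]
        have h2 : deg vert (vert y) ≤ G := hy.2.2.trans hGa
        have h3 := hy.2.1
        have h4 : y ∈ (univ : Finset H) := mem_univ y
        tauto
      have h2 := Finset.card_le_card h1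
      have h3 := Finset.card_union_le ((fr l h).filter (fun y => vert y ∉ W ∧
        deg vert (vert y) ≤ G ∧ 3 ≤ deg vert (vert y)))
        (insert h (dom l) ∪ univ.filter (fun y : H => vert y ∈ W))
      have h4 := Finset.card_union_le (insert h (dom l)) (univ.filter (fun y : H => vert y ∈ W))
      have h5 := Finset.card_insert_le h (dom l)
      have h6 : (univ.filter (fun y : H => 3 ≤ deg vert (vert y) ∧
          deg vert (vert y) ≤ G1)).card ≤ ((fr l h).filter (fun y => vert y ∉ W ∧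
          deg vert (vert y) ≤ G ∧ 3 ≤ deg vert (vert y))).card + (2 * Q + 1) := by omega
      have h7 : ((univ.filter (fun y : H => 3 ≤ deg vert (vert y) ∧
          deg vert (vert y) ≤ G1)).card : ℝ) ≤ ((fr l h).filter (fun y => vert y ∉ W ∧
          deg vert (vert y) ≤ G ∧ 3 ≤ deg vert (vert y))).card + (2 * Q + 1) := by
        exact_mod_cast h6
      have h8 : 2 * ρ * m ≤ ((univ.filter (fun y : H => 3 ≤ deg vert (vert y) ∧
          deg vert (vert y) ≤ G1)).card : ℝ) := by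
        have h9 : 2 * ρ * m = (ν - 1) / 2 * m / G1 := by
          rw [hρ]
          field_simp
          ring
        rw [h9, div_le_iff₀ hG1c, mul_comm _ (G1 : ℝ)]
        exact hmany
      have h10 : min 1 ρ * ((fr l h).card : ℝ) ≤ ρ * m :=
        mul_le_mul (min_le_right _ _) hfrR1 (Nat.cast_nonneg _) hρ0.le
      linarith
    · -- few bad half-edges
      have h1 : (fr l h).filter (fun y => ¬ (vert y ∉ W ∧ deg vert (vert y) ≤ G)) ⊆
          univ.filter (fun y : H => vert y ∈ W) ∪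
          univ.filter (fun y : H => G < deg vert (vert y)) := by
        intro y hy
        rw [mem_filter] at hy
        rw [mem_union, mem_filter, mem_filter]
        have h2 := hy.2
        rw [not_and_or, not_not, not_le] at h2
        have h4 : y ∈ (univ : Finset H) := mem_univ y
        tauto
      have h2 := (Finset.card_le_card h1).trans (Finset.card_union_le _ _)
      have h3 : (((fr l h).filter (fun y => ¬ (vert y ∉ W ∧ deg vert (vert y) ≤ G))).card : ℝ) ≤
          (Q : ℝ) + (univ.filter (fun y : H => G < deg vert (vert y))).card := by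
        exact_mod_cast h2.trans (Nat.add_le_add_right hW1 _)
      have h4 : e * m ≤ e * (2 * ((fr l h).card : ℝ)) := mul_le_mul_of_nonneg_left hfrR he.le
      linarith

end Pool.Agent.H949.CX
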