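import Pool.Agent.H949.CX.Ren

/-!
# The expected number of hits
-/

set_option linter.unusedSectionVars false
set_option linter.unusedSimpArgs false
set_option linter.unusedVariables false

open MeasureTheory Finset Filter Topology
open scoped ENNReal

namespace Pool.Agent.H949.CX

open Pool.Agent.H949.CM

variable {V H : Type} [Fintype V] [DecidableEq V] [Fintype H] [DecidableEq H]
variable {κ : Measure (ℝ × ℝ)} [IsProbabilityMeasure κ]

theorem one_le_ex_neg {α u : ℝ} (h : 0 ≤ α * u) : 1 ≤ ex (-α) u := by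
  unfold ex
  rw [← ENNReal.ofReal_one]
  apply ENNReal.ofReal_le_ofReal
  rw [← Real.exp_zero]
  apply Real.exp_le_exp.2
  linarith

/-- No hit within a negative length. -/
theorem hn_neg {vert : H → V} {c : Bool} {z : V} (hpos : ∀ᵐ w ∂κ, 0 < pr c w) {r : ℕ}
    {l : List (H × H)} {τ : Wt H} {W : Finset V} {f : H} {u : ℝ} (hf : f ∉ dom l) (hu : u ≤ 0) :
    EE κ l τ (HN vert c z (r + 1) W f u) = 0 := by
  classical
  have hFm : ∀ σ, Measurable (HN vert c z (r + 1) W f u σ) := fun σ =>
    measurable_HN' (u := fun _ => u) measurable_const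
  rw [EE_reveal hFm hf]
  have h1 : ∀ y ∈ fr l f, ∫⁻ w, EE κ ((f, y) :: l) (Function.update τ s(f, y) w)
      (HN vert c z (r + 1) W f u) ∂κ = 0 := by
    intro y _
    have h2 : ∀ᵐ w ∂κ, EE κ ((f, y) :: l) (Function.update τ s(f, y) w)
      (HN vert c z (r + 1) W f u) = 0 := by
      filter_upwards [hpos] with w hw
      rw [← EE_zero (κ := κ) ((f, y) :: l) (Function.update τ s(f, y) w)]
      apply EE_congr
      intro σ hσ ω
      simp only [HN]
      have h3 : wt c σ (glue ((f, y) :: l) (Function.update τ s(f, y) w) ω) f = pr c w := by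
        unfold wt
        rw [(mem_Al_cons.1 hσ).1, glue_of_mem (by rw [Ed_cons]; exact mem_insert_self _ _),
          Function.update_self]
      rw [h3, if_neg (by linarith)]
    rw [lintegral_congr_ae h2, lintegral_zero]
  rw [Finset.sum_eq_zero h1]
  simp

theorem hit_bound {vert : H → V} {c : Bool} {α : ℝ} (hα0 : 0 ≤ α) {nu dd c1 : ℝ≥0∞} {B : ℕ}
    (hpos : ∀ᵐ w ∂κ, 0 < pr c w)
    (hc1 : ((Fintype.card H - B - 1 : ℕ) : ℝ≥0∞)⁻¹ ≤ c1) (c1t : c1 ≠ ⊤)
    (hS : c1 * ∑ y : H, ((deg vert (vert y) - 1 : ℕ) : ℝ≥0∞) ≤ nu * dd)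
    (dd1 : 1 ≤ dd) (ddt : dd ≠ ⊤) (hnt : nu ≠ ⊤)
    {F : ℝ → ℝ≥0∞} {FA : ℝ≥0∞} (hFm : Measurable F) (hFA : ∀ u, F u ≤ FA)
    (hF : ∀ u, 0 ≤ u → nu * ∫⁻ w, ex α (pr c w) * (if pr c w ≤ u then ex α (u - pr c w) +
        F (u - pr c w) else 0) ∂κ ≤ F u)
    {θ : ℝ} (hθ0 : 0 ≤ θ) {lf : ℝ≥0∞} (hlf : nu * dd * ∫⁻ w, ex θ (pr c w) ∂κ ≤ lf)
    {umax : ℝ} {R : ℕ} (hR : 1 ≤ R) (hddR : dd ^ R ≤ 2) (hleaf : lf ^ R * ex (-θ) umax ≤ c1)
    (z : V) (l : List (H × H)) (τ : Wt H) (W : Finset V) (f : H) (u : ℝ)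
    (hdW : ∀ g ∈ dom l, vert g ∈ W) (hfW : vert f ∈ W) (hf : f ∉ dom l) (hz : z ∈ W)
    (hz1 : 1 ≤ deg vert z) (hB : (dom l).card + 2 * R ≤ B) (hu : u ≤ umax) :
    EE κ l τ (HN vert c z R W f u) ≤
      ((2 * (1 + FA) + 1) * c1) * ((deg vert z : ℕ) : ℝ≥0∞) * ex (-α) u := by
  classical
  obtain ⟨R', rfl⟩ : ∃ R', R = R' + 1 := ⟨R - 1, by omega⟩
  by_cases hu0 : u ≤ 0
  · rw [hn_neg hpos hf hu0]
    exact bot_le
  push Not at hu0
  have hmex : Measurable (fun w => ex α (pr c w)) := (measurable_ex α).comp (measurable_pr c)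
  have hmth : Measurable (fun w => ex θ (pr c w)) := (measurable_ex θ).comp (measurable_pr c)
  set D : ℝ≥0∞ := ((deg vert z : ℕ) : ℝ≥0∞) with hD
  have hD1 : 1 ≤ D := by rw [hD]; exact_mod_cast hz1
  have hDt : D ≠ ⊤ := ENNReal.natCast_ne_top _
  set V' : ℝ → ℝ≥0∞ := fun u => 1 + ex (-α) u * F u with hV'
  have hV'm : Measurable V' := by
    rw [hV']
    exact measurable_const.add ((measurable_ex (-α)).mul hFm)
  have hV'ren : ∀ u, 0 ≤ u → 1 + nu * ∫⁻ w, (if pr c w ≤ u then V' (u - pr c w) else 0) ∂κ ≤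
      V' u := by
    intro u hu
    have h1 : ∀ w : ℝ × ℝ, (if pr c w ≤ u then V' (u - pr c w) else 0) =
        ex (-α) u * (ex α (pr c w) * (if pr c w ≤ u then ex α (u - pr c w) +
        F (u - pr c w) else 0)) := by
      intro w
      by_cases hw : pr c w ≤ u
      · simp only [if_pos hw]
        rw [hV']
        simp only
        have e1 : ex (-α) u * (ex α (pr c w) * ex α (u - pr c w)) = 1 := by
          rw [ex_mul', ← ENNReal.ofReal_one]
          unfold ex
          rw [← ENNReal.ofReal_mul (Real.exp_pos _).le, ← Real.exp_add]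
          congr 1
          rw [← Real.exp_zero]
          congr 1
          ring
        have e2 : ex (-α) u * ex α (pr c w) = ex (-α) (u - pr c w) := by
          rw [ex_mul']
          unfold ex
          congr 2
          ring
        calc 1 + ex (-α) (u - pr c w) * F (u - pr c w)
            = ex (-α) u * (ex α (pr c w) * ex α (u - pr c w)) +
                (ex (-α) u * ex α (pr c w)) * F (u - pr c w) := by rw [e1, e2]
          _ = _ := by ring
      · simp only [if_neg hw, mul_zero]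
    simp only [h1]
    rw [lintegral_const_mul' _ _ (ex_ne_top _ _)]
    calc 1 + nu * (ex (-α) u * ∫⁻ w, ex α (pr c w) * (if pr c w ≤ u then ex α (u - pr c w) +
        F (u - pr c w) else 0) ∂κ)
        = 1 + ex (-α) u * (nu * ∫⁻ w, ex α (pr c w) * (if pr c w ≤ u then ex α (u - pr c w) +
        F (u - pr c w) else 0) ∂κ) := by ring
      _ ≤ 1 + ex (-α) u * F u := by
          gcongr
          exact hF u hu
      _ = V' u := rfl
  have key := hn_upper (κ := κ) (vert := vert) (c := c) (z := z) hc1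
    (fun r u => D * c1 * dd ^ r * V' u + lf ^ r * ex (-θ) u) ?_ ?_ (R' + 1) l τ W f u hdW hfW hf
    hz hB hu0.le
  · refine le_trans key ?_
    have hex1 : 1 ≤ ex (-α) u := one_le_ex_neg (by positivity)
    have h2 : V' u ≤ (1 + FA) * ex (-α) u := by
      calc V' u ≤ ex (-α) u + ex (-α) u * FA := add_le_add hex1 (mul_le_mul' (le_refl _) (hFA u))
        _ = _ := by ring
    have h3 : lf ^ (R' + 1) * ex (-θ) u ≤ c1 := by
      refine le_trans (mul_le_mul' (le_refl _) ?_) hleaf
      apply ex_le_of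
      have := mul_le_mul_of_nonneg_left hu hθ0
      linarith
    calc D * c1 * dd ^ (R' + 1) * V' u + lf ^ (R' + 1) * ex (-θ) u
        ≤ D * c1 * 2 * ((1 + FA) * ex (-α) u) + c1 * (1 * 1) := by
          refine add_le_add (mul_le_mul' (mul_le_mul' (le_refl _) hddR) h2) ?_
          rw [mul_one, mul_one]; exact h3
      _ ≤ D * c1 * 2 * ((1 + FA) * ex (-α) u) + c1 * (D * ex (-α) u) :=
          add_le_add (le_refl _) (mul_le_mul' (le_refl _) (mul_le_mul' hD1 hex1))
      _ = _ := by ring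
  · intro u hu
    refine le_trans ?_ le_add_self
    rw [pow_zero, one_mul]
    exact one_le_ex_neg (by positivity)
  · intro r u hu
    set S : ℝ≥0∞ := ∑ y : H, ((deg vert (vert y) - 1 : ℕ) : ℝ≥0∞) with hSdef
    have hSt : S ≠ ⊤ := by
      rw [hSdef]
      exact (ENNReal.sum_lt_top.2 (fun _ _ => (ENNReal.natCast_ne_top _).lt_top)).ne
    have hif : ∀ (G : ℝ → ℝ≥0∞), Measurable G → Measurable (fun w : ℝ × ℝ =>
        if pr c w ≤ u then G (u - pr c w) else 0) := by
      intro G hG
      refine Measurable.ite (measurableSet_le (measurable_pr c) measurable_const) ?_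
        measurable_const
      exact hG.comp ((measurable_pr c).const_sub u)
    have hlfr : c1 * (S * lf ^ r) ≤ nu * dd * lf ^ r := by
      rw [← mul_assoc]; exact mul_le_mul' hS (le_refl _)
    -- pointwise bound of the integrand
    have hpt : ∀ w : ℝ × ℝ, c1 * (if pr c w ≤ u then D + S * (D * c1 * dd ^ r * V' (u - pr c w) +
        lf ^ r * ex (-θ) (u - pr c w)) else 0) ≤
        c1 * D + (D * c1 * (nu * dd ^ (r + 1))) * (if pr c w ≤ u then V' (u - pr c w) else 0) +
          (nu * dd * lf ^ r * ex (-θ) u) * ex θ (pr c w) := by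
      intro w
      by_cases hw : pr c w ≤ u
      · simp only [if_pos hw]
        have e2 : ex (-θ) (u - pr c w) = ex (-θ) u * ex θ (pr c w) := by
          rw [ex_mul']
          unfold ex
          congr 2
          ring
        calc c1 * (D + S * (D * c1 * dd ^ r * V' (u - pr c w) +
              lf ^ r * ex (-θ) (u - pr c w)))
            = c1 * D + (D * c1 * dd ^ r * V' (u - pr c w)) * (c1 * S) +
              (c1 * (S * lf ^ r)) * ex (-θ) (u - pr c w) := by ring
          _ ≤ c1 * D + (D * c1 * dd ^ r * V' (u - pr c w)) * (nu * dd) +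
              (nu * dd * lf ^ r) * ex (-θ) (u - pr c w) := by
              refine add_le_add (add_le_add (le_refl _) (mul_le_mul' (le_refl _) hS))
                (mul_le_mul' hlfr (le_refl _))
          _ = _ := by rw [e2]; ring
      · simp only [if_neg hw, mul_zero]
        exact bot_le
    have hA1 : Measurable (fun w : ℝ × ℝ => c1 * D + (D * c1 * (nu * dd ^ (r + 1))) *
        (if pr c w ≤ u then V' (u - pr c w) else 0)) :=
      measurable_const.add ((hif V' hV'm).const_mul _)
    calc c1 * ∫⁻ w, (if pr c w ≤ u then D + S * (D * c1 * dd ^ r * V' (u - pr c w) +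
        lf ^ r * ex (-θ) (u - pr c w)) else 0) ∂κ
        = ∫⁻ w, c1 * (if pr c w ≤ u then D + S * (D * c1 * dd ^ r * V' (u - pr c w) +
        lf ^ r * ex (-θ) (u - pr c w)) else 0) ∂κ := (lintegral_const_mul' _ _ c1t).symm
      _ ≤ ∫⁻ w, (c1 * D + (D * c1 * (nu * dd ^ (r + 1))) *
          (if pr c w ≤ u then V' (u - pr c w) else 0) +
          (nu * dd * lf ^ r * ex (-θ) u) * ex θ (pr c w)) ∂κ := lintegral_mono hpt
      _ = c1 * D + (D * c1 * (nu * dd ^ (r + 1))) *
          (∫⁻ w, (if pr c w ≤ u then V' (u - pr c w) else 0) ∂κ) +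
          (nu * dd * lf ^ r * ex (-θ) u) * ∫⁻ w, ex θ (pr c w) ∂κ := by
          rw [lintegral_add_left hA1, lintegral_add_left measurable_const, lintegral_const, measure_univ, mul_one,
            lintegral_const_mul _ (hif V' hV'm), lintegral_const_mul _ hmth]
      _ ≤ (D * c1 * dd ^ (r + 1)) * (1 + nu * ∫⁻ w, (if pr c w ≤ u then V' (u - pr c w)
            else 0) ∂κ) + lf ^ r * ex (-θ) u * (nu * dd * ∫⁻ w, ex θ (pr c w) ∂κ) := by
          apply add_le_add
          · calc c1 * D + (D * c1 * (nu * dd ^ (r + 1))) *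
                (∫⁻ w, (if pr c w ≤ u then V' (u - pr c w) else 0) ∂κ)
                = D * c1 * 1 + (D * c1 * dd ^ (r + 1)) * (nu *
                (∫⁻ w, (if pr c w ≤ u then V' (u - pr c w) else 0) ∂κ)) := by ring
              _ ≤ D * c1 * dd ^ (r + 1) + (D * c1 * dd ^ (r + 1)) * (nu *
                (∫⁻ w, (if pr c w ≤ u then V' (u - pr c w) else 0) ∂κ)) :=
                  add_le_add (mul_le_mul' (le_refl _) (one_le_pow₀ dd1)) (le_refl _)
              _ = _ := by ring
          · apply le_of_eq; ring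
      _ ≤ (D * c1 * dd ^ (r + 1)) * V' u + lf ^ r * ex (-θ) u * lf :=
          add_le_add (mul_le_mul' (le_refl _) (hV'ren u hu)) (mul_le_mul' (le_refl _) hlf)
      _ = D * c1 * dd ^ (r + 1) * V' u + lf ^ (r + 1) * ex (-θ) u := by ring

end Pool.Agent.H949.CX
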