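import Pool.Agent.H949.CX.Dist3
import Pool.Agent.H949.CX.HitB

/-!
# The second moment estimate
-/

set_option linter.unusedSectionVars false
set_option linter.unusedSimpArgs false
set_option linter.unusedVariables false

open MeasureTheory Finset Filter Topology
open scoped ENNReal

namespace Pool.Agent.H949.CX

open Pool.Agent.H949.CM

variable {V H : Type} [Fintype V] [DecidableEq V] [Fintype H] [DecidableEq H]

/-- All lengths are positive. -/
def Pos (ω : Wt H) : Prop := ∀ (c : Bool) (e : Sym2 H), 0 < pr c (ω e)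

theorem Pos.wt {ω : Wt H} (h : Pos ω) (c : Bool) (σ : Mt H) (g : H) : 0 < wt c σ ω g := h c _

theorem Pos.glue {l : List (H × H)} {τ ω : Wt H} (h : Pos τ) (h' : Pos ω) :
    Pos (glue l τ ω) := by
  intro c e
  by_cases he : e ∈ Ed l
  · rw [glue_of_mem he]; exact h c e
  · rw [glue_of_notMem he]; exact h' c e

theorem ae_pos {κ : Measure (ℝ × ℝ)} [IsProbabilityMeasure κ]
    (hpos : ∀ c, ∀ᵐ w ∂κ, 0 < pr c w) : ∀ᵐ ω ∂(lawW H κ), Pos ω := by
  have h1 : ∀ (c : Bool) (e : Sym2 H), ∀ᵐ ω ∂(lawW H κ), 0 < pr c (ω e) := by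
    intro c e
    have h2 : MeasurableSet {w : ℝ × ℝ | 0 < pr c w} :=
      measurableSet_lt measurable_const (measurable_pr c)
    exact (measurePreserving_eval (fun _ : Sym2 H => κ) e).quasiMeasurePreserving.ae (hpos c)
  have h3 : ∀ᵐ ω ∂(lawW H κ), ∀ (c : Bool) (e : Sym2 H), 0 < pr c (ω e) := by
    rw [ae_all_iff]
    intro c
    rw [ae_all_iff]
    intro e
    exact h1 c e
  exact h3

variable {κ : Measure (ℝ × ℝ)} [IsProbabilityMeasure κ]

theorem EE_mono_pos {l : List (H × H)} {τ : Wt H} (hpos : ∀ c, ∀ᵐ w ∂κ, 0 < pr c w)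
    (hτ : Pos τ) {F G : Mt H → Wt H → ℝ≥0∞}
    (h : ∀ σ ∈ Al l, ∀ ω, Pos ω → F σ ω ≤ G σ ω) : EE κ l τ F ≤ EE κ l τ G := by
  unfold EE
  gcongr ?_ / _
  apply Finset.sum_le_sum
  intro σ hσ
  apply lintegral_mono_ae
  filter_upwards [ae_pos (H := H) hpos] with ω hω
  exact h σ hσ _ (hτ.glue hω)

/-- The elementary inequality behind the second moment method. -/
theorem cheb_point {a x : ℝ≥0∞} (ha0 : a ≠ 0) (hat : a ≠ ⊤) [Decidable (x < a / 2)] :
    (if x < a / 2 then (1 : ℝ≥0∞) else 0) + 8 * (a⁻¹ * x) ≤ 4 + 4 * (a⁻¹ * a⁻¹ * x ^ 2) := by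
  by_cases hx : x = ⊤
  · subst hx
    have : (a⁻¹ * a⁻¹ * (⊤ : ℝ≥0∞) ^ 2) = ⊤ := by
      rw [ENNReal.top_pow two_ne_zero, ENNReal.mul_top]
      exact mul_ne_zero (ENNReal.inv_ne_zero.2 hat) (ENNReal.inv_ne_zero.2 hat)
    rw [this]
    simp
  · -- real numbers
    set y := a⁻¹ * x with hy
    have hyt : y ≠ ⊤ := ENNReal.mul_ne_top (ENNReal.inv_ne_top.2 ha0) hx
    have h1 : a⁻¹ * a⁻¹ * x ^ 2 = y ^ 2 := by rw [hy]; ring
    rw [h1]
    obtain ⟨z, hz⟩ : ∃ z : NNReal, (z : ℝ≥0∞) = y := ⟨y.toNNReal, ENNReal.coe_toNNReal hyt⟩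
    rw [← hz]
    have key : ∀ z : NNReal, (8 : NNReal) * z ≤ 4 + 4 * z ^ 2 := by
      intro z
      have : (8 : ℝ) * z ≤ 4 + 4 * (z : ℝ) ^ 2 := by nlinarith [sq_nonneg ((z : ℝ) - 1)]
      exact_mod_cast this
    by_cases hlt : x < a / 2
    · rw [if_pos hlt]
      have h2 : y ≤ 1 / 2 := by
        rw [hy]
        calc a⁻¹ * x ≤ a⁻¹ * (a / 2) := mul_le_mul' (le_refl _) hlt.le
          _ = (a⁻¹ * a) / 2 := by rw [mul_div_assoc]
          _ = 1 / 2 := by rw [ENNReal.inv_mul_cancel ha0 hat]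
      rw [← hz] at h2
      have h3 : (z : ℝ) ≤ 1 / 2 := by
        have h4 : (z : ℝ≥0∞) ≤ ((1 / 2 : NNReal) : ℝ≥0∞) := by
          rw [ENNReal.coe_div (by norm_num)]
          simpa using h2
        have h5 : z ≤ 1 / 2 := by exact_mod_cast h4
        have h6 : (z : ℝ) ≤ ((1 / 2 : NNReal) : ℝ) := by exact_mod_cast h5
        simpa using h6
      have h4 : (1 : ℝ) + 8 * z ≤ 4 + 4 * (z : ℝ) ^ 2 := by nlinarith [sq_nonneg ((z : ℝ) - 1)]
      have h5 : (1 : NNReal) + 8 * z ≤ 4 + 4 * z ^ 2 := by exact_mod_cast h4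
      exact_mod_cast h5
    · rw [if_neg hlt, zero_add]
      exact_mod_cast key z

/-- The second moment method. -/
theorem second_moment {l : List (H × H)} {τ : Wt H} (hl : (Al l).Nonempty)
    {X : Mt H → Wt H → ℝ≥0∞} (hXm : ∀ σ, Measurable (X σ)) {a β γ : ℝ≥0∞} (ha0 : a ≠ 0)
    (hat : a ≠ ⊤) (h1 : a ≤ EE κ l τ X + a * β)
    (h2 : EE κ l τ (fun σ ω => X σ ω ^ 2) ≤ a ^ 2 * (1 + γ)) :
    EE κ l τ (fun σ ω => open Classical in (if X σ ω < a / 2 then 1 else 0)) ≤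
      4 * γ + 8 * β := by
  classical
  have hia : a⁻¹ ≠ ⊤ := ENNReal.inv_ne_top.2 ha0
  have haa : a⁻¹ * a = 1 := ENNReal.inv_mul_cancel ha0 hat
  set P := EE κ l τ (fun σ ω => open Classical in (if X σ ω < a / 2 then (1 : ℝ≥0∞) else 0))
    with hP
  have h3 : P + 8 * (a⁻¹ * EE κ l τ X) ≤ 4 + 4 * (a⁻¹ * a⁻¹ *
      EE κ l τ (fun σ ω => X σ ω ^ 2)) := by
    have e1 : P + 8 * (a⁻¹ * EE κ l τ X) = EE κ l τ (fun σ ω =>
        (if X σ ω < a / 2 then (1 : ℝ≥0∞) else 0) + 8 * (a⁻¹ * X σ ω)) := by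
      rw [EE_add]
      · congr 1
        rw [EE_const_mul (by norm_num), EE_const_mul hia]
      · intro σ
        exact Measurable.ite (measurableSet_lt (hXm σ) measurable_const) measurable_const
          measurable_const
    have e2 : EE κ l τ (fun _ _ => (4 : ℝ≥0∞)) + 4 * (a⁻¹ * a⁻¹ *
        EE κ l τ (fun σ ω => X σ ω ^ 2)) = EE κ l τ (fun σ ω =>
        4 + 4 * (a⁻¹ * a⁻¹ * X σ ω ^ 2)) := by
      rw [EE_add (fun _ => measurable_const), EE_const_mul (by norm_num),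
        EE_const_mul (ENNReal.mul_ne_top hia hia)]
    rw [EE_const hl] at e2
    rw [e1, e2]
    exact EE_mono (fun σ hσ ω => cheb_point ha0 hat)
  have h4 : 1 ≤ a⁻¹ * EE κ l τ X + β := by
    calc (1 : ℝ≥0∞) = a⁻¹ * a := haa.symm
      _ ≤ a⁻¹ * (EE κ l τ X + a * β) := mul_le_mul' (le_refl _) h1
      _ = a⁻¹ * EE κ l τ X + (a⁻¹ * a) * β := by ring
      _ = a⁻¹ * EE κ l τ X + β := by rw [haa, one_mul]
  have h5 : a⁻¹ * a⁻¹ * EE κ l τ (fun σ ω => X σ ω ^ 2) ≤ 1 + γ := by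
    calc a⁻¹ * a⁻¹ * EE κ l τ (fun σ ω => X σ ω ^ 2) ≤ a⁻¹ * a⁻¹ * (a ^ 2 * (1 + γ)) :=
          mul_le_mul' (le_refl _) h2
      _ = (a⁻¹ * a) * (a⁻¹ * a) * (1 + γ) := by ring
      _ = 1 + γ := by rw [haa]; ring
  have h6 : 8 + P ≤ 8 + (4 * γ + 8 * β) := by
    calc 8 + P = P + 8 * 1 := by ring
      _ ≤ P + 8 * (a⁻¹ * EE κ l τ X + β) :=
          add_le_add (le_refl _) (mul_le_mul' (le_refl _) h4)
      _ = P + 8 * (a⁻¹ * EE κ l τ X) + 8 * β := by ring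
      _ ≤ 4 + 4 * (a⁻¹ * a⁻¹ * EE κ l τ (fun σ ω => X σ ω ^ 2)) + 8 * β :=
          add_le_add h3 (le_refl _)
      _ ≤ 4 + 4 * (1 + γ) + 8 * β := by
          refine add_le_add (add_le_add (le_refl _) (mul_le_mul' (le_refl _) h5)) (le_refl _)
      _ = 8 + (4 * γ + 8 * β) := by ring
  exact (ENNReal.add_le_add_iff_left (by norm_num)).1 h6

section

variable {vert : H → V} {c : Bool}
    {ok : V → ℝ → Prop} {α g0 T A0 S0 : ℝ} {nu dd c1 K3 CH q FA : ℝ≥0∞} {Fr : ℝ → ℝ≥0∞}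
    {B R : ℕ}

/-- The starting state. -/
theorem adm_start {U : Finset V} {l : List (H × H)} {τ : Wt H} (hdU : ∀ g ∈ dom l, vert g ∈ U) :
    Adm vert c U (dom l) l τ U [] 0 :=
  ⟨hdU, le_refl _, fun _ _ v hv => Or.inl hv, fun _ _ g hg => absurd hg List.not_mem_nil,
    fun g hg => absurd hg List.not_mem_nil, fun _ _ => rfl, fun f hf hf' => absurd hf hf'⟩

/-- The disturbed part. -/
theorem Env.dist_upper (E : Env κ vert c ok α g0 T A0 S0 nu dd c1 K3 CH q FA Fr B R)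
    (hqt : q ≠ ⊤) (hK3 : K3 ≠ ⊤) (hFAt : FA ≠ ⊤) {U : Finset V} {Rt Rr : Finset H}
    {l : List (H × H)} {τ : Wt H} (hdU : ∀ g ∈ dom l, vert g ∈ U)
    (hRt : ∀ f ∈ Rt, vert f ∈ U ∧ f ∉ dom l) (hRr : ∀ f ∈ Rr, vert f ∈ U ∧ f ∉ dom l)
    {e : H} (he : e ∈ Rt) (hB : (dom l).card + 8 * R ≤ B) :
    EE κ l τ (PS vert c ok T U (fun k zs σ ω => ww c α T A0 k zs σ ω *
      DD vert c U R Rt Rr S0 k zs σ ω) R e []) ≤
      dd ^ R * (nu⁻¹ * ((dd ^ (2 * R) * (K3 ^ 2 * CH * ex (-α) T) *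
        (FA + ex (α - g0) (-A0) + 1)) * q)) +
      dd ^ R * (nu⁻¹ * ((dd ^ R * (((Rt.card : ℕ) : ℝ≥0∞) * CH * K3 * ex (-α) 0 * ex (-α) T)) *
        (FA + ex (α - g0) (-A0)))) +
      dd ^ R * (nu⁻¹ * ((dd ^ R * (((Rr.card : ℕ) : ℝ≥0∞) * CH * K3 * ex (-α) S0 * ex (-α) T)) *
        (FA + ex (α - g0) (-A0)))) := by
  classical
  have hA : Adm vert c U (dom l) l τ U [] 0 := adm_start hdU
  set f1 : H → List H → Mt H → Wt H → ℝ≥0∞ := fun k zs σ ω => ww c α T A0 k zs σ ω *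
      SumPre (fun g ys => SumPre (fun g' ys' => D1 vert c U R k zs g ys g' ys' σ ω) (g :: ys))
        (k :: zs) with hf1
  set f2 : H → List H → Mt H → Wt H → ℝ≥0∞ := fun k zs σ ω => ww c α T A0 k zs σ ω *
      SumPre (fun g ys => D2 vert c c U R Rt 0 k zs g ys σ ω) (k :: zs) with hf2
  set f3 : H → List H → Mt H → Wt H → ℝ≥0∞ := fun k zs σ ω => ww c α T A0 k zs σ ω *
      SumPre (fun g ys => D2 vert c (!c) U R Rr S0 k zs g ys σ ω) (k :: zs) with hf3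
  have hm1 : ∀ k zs σ, Measurable (f1 k zs σ) := by
    intro k zs σ
    refine (measurable_ww c α T A0 k zs σ).mul (measurable_SumPre (F := fun g ys ω =>
      SumPre (fun g' ys' => D1 vert c U R k zs g ys g' ys' σ ω) (g :: ys)) ?_ (k :: zs))
    intro g ys
    exact measurable_SumPre (F := fun g' ys' ω => D1 vert c U R k zs g ys g' ys' σ ω)
      (fun g' ys' => measurable_D1 k zs g ys g' ys' σ) (g :: ys)
  have hm2 : ∀ k zs σ, Measurable (f2 k zs σ) := by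
    intro k zs σ
    exact (measurable_ww c α T A0 k zs σ).mul (measurable_SumPre (F := fun g ys ω =>
      D2 vert c c U R Rt 0 k zs g ys σ ω) (fun g ys => measurable_D2 k zs g ys σ) (k :: zs))
  have h0 : ∀ σ ω, PS vert c ok T U (fun k zs σ ω => ww c α T A0 k zs σ ω *
      DD vert c U R Rt Rr S0 k zs σ ω) R e [] σ ω =
      PS vert c ok T U f1 R e [] σ ω + PS vert c ok T U f2 R e [] σ ω +
        PS vert c ok T U f3 R e [] σ ω := by
    intro σ ω
    rw [← PS_add, ← PS_add]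
    congr 1
    funext k zs σ ω
    unfold DD
    rw [SumPre_add, SumPre_add]
    simp only [hf1, hf2, hf3]
    ring
  have h1 : EE κ l τ (PS vert c ok T U (fun k zs σ ω => ww c α T A0 k zs σ ω *
      DD vert c U R Rt Rr S0 k zs σ ω) R e []) =
      EE κ l τ (PS vert c ok T U f1 R e []) + EE κ l τ (PS vert c ok T U f2 R e []) +
        EE κ l τ (PS vert c ok T U f3 R e []) := by
    have hP1 : ∀ σ, Measurable (fun ω => PS vert c ok T U f1 R e [] σ ω) := fun σ =>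
      measurable_PS E.okm (fun k zs σ => hm1 k zs σ) σ R e []
    have hP12 : ∀ σ, Measurable (fun ω => PS vert c ok T U f1 R e [] σ ω +
        PS vert c ok T U f2 R e [] σ ω) := fun σ => (hP1 σ).add
      (measurable_PS E.okm (fun k zs σ => hm2 k zs σ) σ R e [])
    rw [← EE_add hP1, ← EE_add hP12]
    exact EE_congr (fun σ _ ω => h0 σ _)
  rw [h1]
  have heU := hRt e he
  refine add_le_add (add_le_add ?_ ?_) ?_
  · exact E.D1_upper hqt hK3 hFAt hdU hA heU.2 heU.1 hB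
  · exact E.D2_upper E.S00 hK3 (fun f hf => (hRt f hf).2) (fun f hf => (hRt f hf).1) hA heU.2
      heU.1 (by omega)
  · exact E.D2_upper (le_refl S0) hK3 (fun f hf => (hRr f hf).2) (fun f hf => (hRr f hf).1) hA
      heU.2 heU.1 (by omega)

/-- The weighted number of paths, minus a bound for the disturbed ones. -/
noncomputable def Xd (vert : H → V) (c : Bool) (ok : V → ℝ → Prop) (T : ℝ) (U : Finset V)
    (α A0 : ℝ) (Rt Rr : Finset H) (S0 : ℝ) (R : ℕ) (σ : Mt H) (ω : Wt H) : ℝ≥0∞ :=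
  (∑ e ∈ Rt, PS vert c ok T U (ww c α T A0) R e [] σ ω) -
    ∑ e ∈ Rt, PS vert c ok T U (fun k zs σ ω =>
      ww c α T A0 k zs σ ω * DD vert c U R Rt Rr S0 k zs σ ω) R e [] σ ω

theorem measurable_DD (vert : H → V) (c : Bool) (U : Finset V) (R : ℕ) (Rt Rr : Finset H)
    (S0 : ℝ) (k : H) (zs : List H) (σ : Mt H) : Measurable (DD vert c U R Rt Rr S0 k zs σ) := by
  refine measurable_SumPre (F := fun g ys ω =>
      SumPre (fun g' ys' => D1 vert c U R k zs g ys g' ys' σ ω) (g :: ys) +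
      D2 vert c c U R Rt 0 k zs g ys σ ω + D2 vert c (!c) U R Rr S0 k zs g ys σ ω) ?_ (k :: zs)
  intro g ys
  refine ((measurable_SumPre (F := fun g' ys' ω => D1 vert c U R k zs g ys g' ys' σ ω)
      (fun g' ys' => measurable_D1 k zs g ys g' ys' σ) (g :: ys)).add
      (measurable_D2 k zs g ys σ)).add (measurable_D2 k zs g ys σ)

theorem measurable_Xd {vert : H → V} {c : Bool} {ok : V → ℝ → Prop} {T : ℝ} {U : Finset V}
    {α A0 : ℝ} {Rt Rr : Finset H} {S0 : ℝ} {R : ℕ} (hok : ∀ v, MeasurableSet {s | ok v s})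
    (σ : Mt H) : Measurable (Xd vert c ok T U α A0 Rt Rr S0 R σ) := by
  have hwm : ∀ (h : H) (ys : List H) (σ : Mt H), Measurable (ww c α T A0 h ys σ) :=
    fun h ys σ => measurable_ww c α T A0 h ys σ
  exact (Finset.measurable_fun_sum _ (fun e _ => measurable_PS hok hwm σ R e [])).sub
    (Finset.measurable_fun_sum _ (fun e _ => measurable_PS hok
      (fun k zs σ => (hwm k zs σ).mul (measurable_DD vert c U R Rt Rr S0 k zs σ)) σ R e []))

theorem Xd_le {vert : H → V} {c : Bool} {ok : V → ℝ → Prop} {T : ℝ} {U : Finset V}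
    {α A0 : ℝ} {Rt Rr : Finset H} {S0 : ℝ} {R : ℕ} (σ : Mt H) (ω : Wt H) :
    Xd vert c ok T U α A0 Rt Rr S0 R σ ω ≤
      ∑ e ∈ Rt, PS vert c ok T U (Tu vert c T U α A0 Rt Rr S0 R) R e [] σ ω := by
  unfold Xd
  rw [tsub_le_iff_right]
  exact Y_le Rt

/-- The basic estimate: few undisturbed paths are unlikely. -/
theorem Env.core (E : Env κ vert c ok α g0 T A0 S0 nu dd c1 K3 CH q FA Fr B R)
    (hqt : q ≠ ⊤) (hK3 : K3 ≠ ⊤) (hFAt : FA ≠ ⊤) (hpos : ∀ c, ∀ᵐ w ∂κ, 0 < pr c w)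
    {U : Finset V} {Rt Rr : Finset H}
    {l : List (H × H)} {τ : Wt H} (hτ : Pos τ) (hl : (Al l).Nonempty)
    (hdU : ∀ g ∈ dom l, vert g ∈ U)
    (hRt : ∀ f ∈ Rt, vert f ∈ U ∧ f ∉ dom l) (hRr : ∀ f ∈ Rr, vert f ∈ U ∧ f ∉ dom l)
    (hRt0 : Rt.Nonempty) (hB : (dom l).card + 8 * R ≤ B) {LR βB γ γ1 : ℝ≥0∞}
    (hlow : ∀ e ∈ Rt, nu⁻¹ ≤ EE κ l τ (PS vert c ok T U (ww c α T A0) R e []) + nu⁻¹ * LR)
    (hdist : dd ^ R * (nu⁻¹ * ((dd ^ (2 * R) * (K3 ^ 2 * CH * ex (-α) T) *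
        (FA + ex (α - g0) (-A0) + 1)) * q)) +
      dd ^ R * (nu⁻¹ * ((dd ^ R * (((Rt.card : ℕ) : ℝ≥0∞) * CH * K3 * ex (-α) 0 * ex (-α) T)) *
        (FA + ex (α - g0) (-A0)))) +
      dd ^ R * (nu⁻¹ * ((dd ^ R * (((Rr.card : ℕ) : ℝ≥0∞) * CH * K3 * ex (-α) S0 * ex (-α) T)) *
        (FA + ex (α - g0) (-A0)))) ≤ nu⁻¹ * βB)
    (hγ1 : (dd ^ R) ^ 2 ≤ 1 + γ1)
    (hγ : γ1 + dd ^ R * nu * ((K3 * dd ^ (2 * R) * nu⁻¹ + 1) * q) *
      (((Rt.card : ℕ) : ℝ≥0∞))⁻¹ ≤ γ) :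
    EE κ l τ (fun σ ω => open Classical in
        (if Xd vert c ok T U α A0 Rt Rr S0 R σ ω < (((Rt.card : ℕ) : ℝ≥0∞) * nu⁻¹) / 2
          then 1 else 0)) ≤ 4 * γ + 8 * (LR + βB) := by
  classical
  set Kc : ℝ≥0∞ := ((Rt.card : ℕ) : ℝ≥0∞) with hKc
  have hKc0 : Kc ≠ 0 := by rw [hKc]; exact_mod_cast (Finset.card_pos.2 hRt0).ne'
  have hKct : Kc ≠ ⊤ := ENNReal.natCast_ne_top _
  set a : ℝ≥0∞ := Kc * nu⁻¹ with ha
  have ha0 : a ≠ 0 := mul_ne_zero hKc0 (ENNReal.inv_ne_zero.2 E.nut)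
  have hat : a ≠ ⊤ := ENNReal.mul_ne_top hKct (ENNReal.inv_ne_top.2 E.nu0)
  set Y : Mt H → Wt H → ℝ≥0∞ := fun σ ω => ∑ e ∈ Rt, PS vert c ok T U (ww c α T A0) R e [] σ ω
    with hY
  set Bf : Mt H → Wt H → ℝ≥0∞ := fun σ ω => ∑ e ∈ Rt, PS vert c ok T U (fun k zs σ ω =>
    ww c α T A0 k zs σ ω * DD vert c U R Rt Rr S0 k zs σ ω) R e [] σ ω with hBf
  have hwm : ∀ (h : H) (ys : List H) (σ : Mt H), Measurable (ww c α T A0 h ys σ) :=
    fun h ys σ => measurable_ww c α T A0 h ys σ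
  have hDDm : ∀ (k : H) (zs : List H) (σ : Mt H),
      Measurable (DD vert c U R Rt Rr S0 k zs σ) := by
    intro k zs σ
    refine measurable_SumPre (F := fun g ys ω =>
      SumPre (fun g' ys' => D1 vert c U R k zs g ys g' ys' σ ω) (g :: ys) +
      D2 vert c c U R Rt 0 k zs g ys σ ω + D2 vert c (!c) U R Rr S0 k zs g ys σ ω) ?_ (k :: zs)
    intro g ys
    refine ((measurable_SumPre (F := fun g' ys' ω => D1 vert c U R k zs g ys g' ys' σ ω)
      (fun g' ys' => measurable_D1 k zs g ys g' ys' σ) (g :: ys)).add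
      (measurable_D2 k zs g ys σ)).add (measurable_D2 k zs g ys σ)
  have hBem : ∀ e (σ : Mt H), Measurable (PS vert c ok T U (fun k zs σ ω =>
    ww c α T A0 k zs σ ω * DD vert c U R Rt Rr S0 k zs σ ω) R e [] σ) := fun e σ =>
      measurable_PS E.okm (fun k zs σ => (hwm k zs σ).mul (hDDm k zs σ)) σ R e []
  have hYm : ∀ σ, Measurable (Y σ) := fun σ =>
    Finset.measurable_fun_sum _ (fun e _ => measurable_PS E.okm hwm σ R e [])
  have hBm : ∀ σ, Measurable (Bf σ) := fun σ => Finset.measurable_fun_sum _ (fun e _ => hBem e σ)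
  set X : Mt H → Wt H → ℝ≥0∞ := fun σ ω => Y σ ω - Bf σ ω with hX
  have hXm : ∀ σ, Measurable (X σ) := fun σ => (hYm σ).sub (hBm σ)
  have hXle : ∀ σ ω, X σ ω ≤
      ∑ e ∈ Rt, PS vert c ok T U (Tu vert c T U α A0 Rt Rr S0 R) R e [] σ ω := by
    intro σ ω
    rw [hX]
    simp only
    rw [tsub_le_iff_right]
    exact Y_le Rt
  show EE κ l τ (fun σ ω => open Classical in
        (if X σ ω < a / 2 then 1 else 0)) ≤ 4 * γ + 8 * (LR + βB)
  have hnn := E.nn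
  -- first moment
  have hEY : a ≤ EE κ l τ Y + a * LR := by
    rw [hY, EE_sum _ (fun e _ σ => measurable_PS E.okm hwm σ R e [])]
    calc a = ∑ e ∈ Rt, nu⁻¹ := by rw [sum_const, nsmul_eq_mul]
      _ ≤ ∑ e ∈ Rt, (EE κ l τ (PS vert c ok T U (ww c α T A0) R e []) + nu⁻¹ * LR) :=
          Finset.sum_le_sum hlow
      _ = _ := by
          rw [Finset.sum_add_distrib, sum_const, nsmul_eq_mul, ha]
          ring
  have hEB : EE κ l τ Bf ≤ a * βB := by
    rw [hBf, EE_sum _ (fun e _ σ => hBem e σ)]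
    calc ∑ e ∈ Rt, EE κ l τ (PS vert c ok T U (fun k zs σ ω =>
            ww c α T A0 k zs σ ω * DD vert c U R Rt Rr S0 k zs σ ω) R e [])
        ≤ ∑ e ∈ Rt, nu⁻¹ * βB := by
          apply Finset.sum_le_sum
          intro e he
          exact le_trans (E.dist_upper hqt hK3 hFAt hdU hRt hRr he hB) hdist
      _ = a * βB := by rw [sum_const, nsmul_eq_mul, ha]; ring
  have hEX : a ≤ EE κ l τ X + a * (LR + βB) := by
    have h1 : EE κ l τ Y ≤ EE κ l τ X + EE κ l τ Bf := by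
      rw [← EE_add hXm]
      exact EE_mono (fun σ _ ω => le_tsub_add)
    calc a ≤ EE κ l τ Y + a * LR := hEY
      _ ≤ (EE κ l τ X + EE κ l τ Bf) + a * LR := add_le_add h1 (le_refl _)
      _ ≤ (EE κ l τ X + a * βB) + a * LR :=
          add_le_add (add_le_add (le_refl _) hEB) (le_refl _)
      _ = _ := by ring
  -- second moment
  have hPCm : ∀ e (σ : Mt H), Measurable (PS vert c ok T U (PC vert c ok T U α A0 R) R e [] σ) := by
    intro e σ
    refine measurable_PS E.okm ?_ σ R e []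
    intro k zs σ
    unfold PC
    refine ((hwm k zs σ).pow_const 2).add ?_
    refine Measurable.ite (measurableSet_le (measurable_tm c σ _) measurable_const) ?_
      measurable_const
    refine Finset.measurable_fun_sum _ (fun g _ => Finset.measurable_fun_sum _ (fun g' _ => ?_))
    exact measurable_PS E.okm (fun k zs σ => (hwm k zs σ).mul
      (measurable_PS E.okm hwm σ R g' _)) σ R g _
  have hJNm : ∀ e e' (σ : Mt H), Measurable (JN vert c ok T U α A0 R e [] e' σ) := by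
    intro e e' σ
    exact measurable_PS E.okm (fun k zs σ => (hwm k zs σ).mul
      (measurable_PS E.okm hwm σ R e' _)) σ R e _
  have hEX2 : EE κ l τ (fun σ ω => X σ ω ^ 2) ≤ a ^ 2 * (1 + γ) := by
    have h1 : EE κ l τ (fun σ ω => X σ ω ^ 2) ≤ EE κ l τ (fun σ ω =>
        ∑ e ∈ Rt, PS vert c ok T U (PC vert c ok T U α A0 R) R e [] σ ω +
        ∑ e ∈ Rt, ∑ e' ∈ Rt.erase e, JN vert c ok T U α A0 R e [] e' σ ω) := by
      apply EE_mono_pos hpos hτ
      intro σ _ ω hω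
      refine le_trans (pow_le_pow_left' (hXle σ ω) 2) ?_
      exact total_sq_le (fun g => (hω.wt c σ g).le) (fun f hf => (hRt f hf).1)
    refine le_trans h1 ?_
    rw [EE_add (fun σ => Finset.measurable_fun_sum _ (fun e _ => hPCm e σ)),
      EE_sum _ (fun e _ σ => hPCm e σ), EE_sum _ (fun e _ σ =>
        Finset.measurable_fun_sum _ (fun e' _ => hJNm e e' σ))]
    have hA : Adm vert c U (dom l) l τ U [] 0 := adm_start hdU
    have h2 : ∑ e ∈ Rt, EE κ l τ (PS vert c ok T U (PC vert c ok T U α A0 R) R e []) ≤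
        Kc * (dd ^ R * (nu⁻¹ * ((K3 * dd ^ (2 * R) * nu⁻¹ + 1) * q))) := by
      calc _ ≤ ∑ e ∈ Rt, dd ^ R * (nu⁻¹ * ((K3 * dd ^ (2 * R) * nu⁻¹ + 1) * q)) := by
            apply Finset.sum_le_sum
            intro e he
            exact E.PC_upper hqt hK3 hA (hRt e he).2 (hRt e he).1 (by omega)
        _ = _ := by rw [sum_const, nsmul_eq_mul]
    have h3 : ∑ e ∈ Rt, EE κ l τ (fun σ ω => ∑ e' ∈ Rt.erase e,
        JN vert c ok T U α A0 R e [] e' σ ω) ≤ a ^ 2 * (dd ^ R) ^ 2 := by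
      calc _ ≤ ∑ e ∈ Rt, Kc * (dd ^ R * (ex α 0 * nu⁻¹)) ^ 2 := by
            apply Finset.sum_le_sum
            intro e he
            rw [EE_sum _ (fun e' _ σ => hJNm e e' σ)]
            calc _ ≤ ∑ e' ∈ Rt.erase e, (dd ^ R * (ex α 0 * nu⁻¹)) ^ 2 := by
                  apply Finset.sum_le_sum
                  intro e' he'
                  have he'2 := Finset.mem_of_mem_erase he'
                  exact E.JN_upper hA (hRt e he).2 (hRt e he).1 (hRt e' he'2).2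
                    (hRt e' he'2).1 (Finset.ne_of_mem_erase he').symm (by omega) E.T0
              _ ≤ Kc * (dd ^ R * (ex α 0 * nu⁻¹)) ^ 2 := by
                  rw [sum_const, nsmul_eq_mul]
                  refine mul_le_mul' ?_ (le_refl _)
                  rw [hKc]
                  exact_mod_cast card_le_card (erase_subset _ _)
        _ = _ := by
            rw [sum_const, nsmul_eq_mul, ex_zero, ha]
            ring
    calc _ ≤ Kc * (dd ^ R * (nu⁻¹ * ((K3 * dd ^ (2 * R) * nu⁻¹ + 1) * q))) +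
          a ^ 2 * (dd ^ R) ^ 2 := add_le_add h2 h3
      _ ≤ a ^ 2 * (dd ^ R * nu * ((K3 * dd ^ (2 * R) * nu⁻¹ + 1) * q) * Kc⁻¹) +
          a ^ 2 * (1 + γ1) := by
          refine add_le_add ?_ (mul_le_mul' (le_refl _) hγ1)
          apply le_of_eq
          have h4 : Kc * Kc⁻¹ = 1 := ENNReal.mul_inv_cancel hKc0 hKct
          calc Kc * (dd ^ R * (nu⁻¹ * ((K3 * dd ^ (2 * R) * nu⁻¹ + 1) * q)))
              = (Kc * Kc⁻¹) * (nu * nu⁻¹) *
                  (Kc * (dd ^ R * (nu⁻¹ * ((K3 * dd ^ (2 * R) * nu⁻¹ + 1) * q)))) := by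
                rw [h4, hnn, one_mul, one_mul]
            _ = _ := by rw [ha]; ring
      _ = a ^ 2 * (1 + (γ1 + dd ^ R * nu * ((K3 * dd ^ (2 * R) * nu⁻¹ + 1) * q) * Kc⁻¹)) := by
          ring
      _ ≤ a ^ 2 * (1 + γ) := by gcongr
  exact second_moment hl hXm ha0 hat hEX hEX2

end

end Pool.Agent.H949.CX
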