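import Pool.Agent.H949.CX.Cut
import Pool.Agent.H949.CX.Asy

/-!
# The constants
-/

set_option linter.unusedSectionVars false
set_option linter.unusedSimpArgs false
set_option linter.unusedVariables false

open MeasureTheory Finset Filter Topology
open scoped ENNReal

namespace Pool.Agent.H949.CX

open Pool.Agent.H949.CM

/-- The constants that do not depend on the graph. -/
structure Cst (κ : Measure (ℝ × ℝ)) (c : Bool) (α ν K1 η ε1 : ℝ) (F1 F2 : ℝ → ℝ≥0∞)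
    (FA1 FA2 q q1 : ℝ≥0∞) (Fh : Bool → ℝ → ℝ≥0∞) (FAh : ℝ≥0∞) (θ' : Bool → ℝ)
    (ρ' A0 K3 A1 : ℝ) : Prop where
  hpos : ∀ c, ∀ᵐ w ∂κ, 0 < pr c w
  hα0 : 0 < α
  hν1 : 1 < ν
  hη0 : 0 < η
  hK1 : 0 ≤ K1
  hε1 : 0 < ε1
  hε11 : ε1 ≤ 1
  hα : ∀ c, ∫⁻ w, ex α (pr c w) ∂κ = (ENNReal.ofReal ν)⁻¹
  F1m : Measurable F1
  F1A : ∀ u, F1 u ≤ FA1
  F1r : ∀ u, 0 ≤ u → ENNReal.ofReal ν * ∫⁻ w, ex α (pr c w) * (if pr c w ≤ u then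
    ex (α / 2 * η) (u - pr c w) + F1 (u - pr c w) else 0) ∂κ ≤ F1 u
  F2m : Measurable F2
  F2A : ∀ u, F2 u ≤ FA2
  FA2t : FA2 ≠ ⊤
  F2r : ∀ u, 0 ≤ u → ENNReal.ofReal ν * ∫⁻ w, ex α (pr c w) * (if pr c w ≤ u then
    ex (α / 2) (u - pr c w) + F2 (u - pr c w) else 0) ∂κ ≤ F2 u
  Fhm : ∀ c', Measurable (Fh c')
  FhA : ∀ c' u, Fh c' u ≤ FAh
  FAht : FAh ≠ ⊤
  Fhr : ∀ c' u, 0 ≤ u → ENNReal.ofReal ν * ∫⁻ w, ex α (pr c' w) * (if pr c' w ≤ u then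
    ex α (u - pr c' w) + Fh c' (u - pr c' w) else 0) ∂κ ≤ Fh c' u
  qt : q ≠ ⊤
  hq : ENNReal.ofReal ν * (∫⁻ w, ex α (pr c w) * ex (α / 2) (pr c w) ∂κ) * (1 + q) ≤ q
  q1t : q1 ≠ ⊤
  hq1 : ENNReal.ofReal ν * (∫⁻ w, ex α (pr c w) * ex (α / 2 * η) (pr c w) ∂κ) * (1 + q1) ≤ q1
  hθ0 : ∀ c', 0 ≤ θ' c'
  hθ : ∀ c', ENNReal.ofReal ν * ∫⁻ w, ex (θ' c') (pr c' w) ∂κ ≤ 1 / 4
  hρ0 : 0 < ρ'
  hρ1 : ρ' < 1
  hρ : ENNReal.ofReal ν * (∫⁻ w, ex α (pr c w) * ex 1 (pr c w) ∂κ) ≤ ENNReal.ofReal ρ'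
  A00 : 0 ≤ A0
  K30 : 1 ≤ K3
  A10 : 0 < A1
  A1ρ : 1 / α + A1 * Real.log ρ' < 0
  A1θ : ∀ c', (θ' c' / α + 1) + A1 * Real.log (1 / 2) < 0
  hA0 : ENNReal.ofReal ν * ex (α / 2) A0 * (1 + FA2) ≤ ENNReal.ofReal ε1
  hK3 : ENNReal.ofReal (K1 * K3 ^ (-η)) * (q1 + FA1 + ex (α / 2 * η) (-A0)) ≤
    ENNReal.ofReal ε1

theorem exists_small {C ε : ℝ≥0∞} (hC : C ≠ ⊤) (hε : 0 < ε) :
    ∃ δ : ℝ, 0 < δ ∧ δ ≤ 1 ∧ C * ENNReal.ofReal δ ≤ ε := by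
  rcases eq_or_ne ε ⊤ with h | h
  · exact ⟨1, one_pos, le_refl _, by rw [h]; exact le_top⟩
  · have h1 : 0 < (ε / (C + 1)).toReal := by
      apply ENNReal.toReal_pos
      · exact (ENNReal.div_pos hε.ne' (ENNReal.add_ne_top.2 ⟨hC, ENNReal.one_ne_top⟩)).ne'
      · exact ENNReal.div_ne_top h (by simp)
    refine ⟨min 1 (ε / (C + 1)).toReal, lt_min one_pos h1, min_le_left _ _, ?_⟩
    calc C * ENNReal.ofReal (min 1 (ε / (C + 1)).toReal)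
        ≤ C * ENNReal.ofReal (ε / (C + 1)).toReal := by
          gcongr
          exact min_le_right _ _
      _ = C * (ε / (C + 1)) := by
          rw [ENNReal.ofReal_toReal]
          exact ENNReal.div_ne_top h (by simp)
      _ ≤ (C + 1) * (ε / (C + 1)) := by gcongr; exact le_self_add
      _ = ε := ENNReal.mul_div_cancel (by simp) (ENNReal.add_ne_top.2 ⟨hC, ENNReal.one_ne_top⟩)

theorem exists_cst {κ : Measure (ℝ × ℝ)} [IsProbabilityMeasure κ] (c : Bool)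
    {α ν K1 η ε1 : ℝ} (hpos : ∀ c, ∀ᵐ w ∂κ, 0 < pr c w) (hα0 : 0 < α) (hν1 : 1 < ν)
    (hη0 : 0 < η) (hK1 : 0 ≤ K1) (hε1 : 0 < ε1) (hε11 : ε1 ≤ 1)
    (hα : ∀ c, ∫⁻ w, ex α (pr c w) ∂κ = (ENNReal.ofReal ν)⁻¹) :
    ∃ (F1 F2 : ℝ → ℝ≥0∞) (FA1 FA2 q q1 : ℝ≥0∞) (Fh : Bool → ℝ → ℝ≥0∞) (FAh : ℝ≥0∞)
      (θ' : Bool → ℝ) (ρ' A0 K3 A1 : ℝ),
      Cst κ c α ν K1 η ε1 F1 F2 FA1 FA2 q q1 Fh FAh θ' ρ' A0 K3 A1 := by
  set nu := ENNReal.ofReal ν with hnu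
  have hn0 : nu ≠ 0 := by rw [hnu]; simp; linarith
  have hnt : nu ≠ ⊤ := ENNReal.ofReal_ne_top
  obtain ⟨F1, FA1, FA1t, F1m, F1A, F1r⟩ := exists_ren (hα c) hn0 hnt (hpos c)
    (show 0 < α / 2 * η by positivity)
  obtain ⟨F2, FA2, FA2t, F2m, F2A, F2r⟩ := exists_ren (hα c) hn0 hnt (hpos c)
    (show 0 < α / 2 by positivity)
  have hex := fun c' => exists_ren (hα c') hn0 hnt (hpos c') hα0
  choose Fh FAh' FAht' Fhm FhA' Fhr using hex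
  obtain ⟨q, qt, hq⟩ := exists_q (hα c) hn0 hnt (hpos c) (show 0 < α / 2 by positivity)
  obtain ⟨q1, q1t, hq1⟩ := exists_q (hα c) hn0 hnt (hpos c) (show 0 < α / 2 * η by positivity)
  have hth := fun c' => exists_theta1 (κ := κ) (c := c') hnt (hpos c')
    (ε := 1 / 4) (by norm_num)
  choose θ' hθ0 hθ using hth
  have hρlt := rho_lt_one (hα c) hn0 hnt (hpos c) (show (0 : ℝ) < 1 by norm_num)
  obtain ⟨ρ', hρ0, hρ1, hρ⟩ : ∃ ρ' : ℝ, 0 < ρ' ∧ ρ' < 1 ∧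
      nu * (∫⁻ w, ex α (pr c w) * ex 1 (pr c w) ∂κ) ≤ ENNReal.ofReal ρ' := by
    set x := nu * (∫⁻ w, ex α (pr c w) * ex 1 (pr c w) ∂κ) with hx
    have hxt : x ≠ ⊤ := ne_top_of_lt hρlt
    have h1 : x.toReal < 1 := by
      have := (ENNReal.toReal_lt_toReal hxt ENNReal.one_ne_top).2 hρlt
      simpa using this
    refine ⟨max (1 / 2) x.toReal, by positivity, max_lt (by norm_num) h1, ?_⟩
    rw [ENNReal.le_ofReal_iff_toReal_le hxt (by positivity)]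
    exact le_max_right _ _
  -- `A0`
  have hε1' : 0 < ENNReal.ofReal ε1 := by simpa using hε1
  obtain ⟨δ0, hδ0, hδ01, hδ0'⟩ := exists_small
    (C := nu * (1 + FA2)) (ENNReal.mul_ne_top hnt (ENNReal.add_ne_top.2
      ⟨ENNReal.one_ne_top, FA2t⟩)) hε1'
  set A0 : ℝ := -(2 * Real.log δ0 / α) with hA0def
  have hlog : Real.log δ0 ≤ 0 := Real.log_nonpos hδ0.le hδ01
  have hA00 : 0 ≤ A0 := by
    rw [hA0def]
    have : 2 * Real.log δ0 / α ≤ 0 := div_nonpos_of_nonpos_of_nonneg (by linarith) hα0.le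
    linarith
  have hexA0 : ex (α / 2) A0 = ENNReal.ofReal δ0 := by
    unfold ex
    congr 1
    have : -(α / 2 * A0) = Real.log δ0 := by
      rw [hA0def]; field_simp
    rw [this, Real.exp_log hδ0]
  -- `K3`
  obtain ⟨δ3, hδ3, hδ31, hδ3'⟩ := exists_small
    (C := q1 + FA1 + ex (α / 2 * η) (-A0)) (ENNReal.add_ne_top.2
      ⟨ENNReal.add_ne_top.2 ⟨q1t, FA1t⟩, ex_ne_top _ _⟩) hε1'
  set K3 : ℝ := max 1 ((K1 + 1) / δ3) ^ (1 / η) with hK3def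
  have hbase : 1 ≤ max 1 ((K1 + 1) / δ3) := le_max_left _ _
  have hK31 : 1 ≤ K3 := Real.one_le_rpow hbase (by positivity)
  have hK3' : K1 * K3 ^ (-η) ≤ δ3 := by
    have h1 : K3 ^ (-η) = (max 1 ((K1 + 1) / δ3))⁻¹ := by
      rw [hK3def, ← Real.rpow_mul (by positivity)]
      have : 1 / η * -η = -1 := by field_simp
      rw [this, Real.rpow_neg_one]
    rw [h1, ← div_eq_mul_inv, div_le_iff₀ (by positivity)]
    have h2 : (K1 + 1) / δ3 ≤ max 1 ((K1 + 1) / δ3) := le_max_right _ _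
    calc K1 ≤ K1 + 1 := by linarith
      _ = δ3 * ((K1 + 1) / δ3) := by field_simp
      _ ≤ _ := by gcongr
  -- `A1`
  obtain ⟨A1, hA1, hA1ρ, hA1θ⟩ : ∃ A1 : ℝ, 0 < A1 ∧ 1 / α + A1 * Real.log ρ' < 0 ∧
      ∀ c', (θ' c' / α + 1) + A1 * Real.log (1 / 2) < 0 := by
    have hl1 : Real.log ρ' < 0 := Real.log_neg hρ0 hρ1
    have hl2 : Real.log (1 / 2 : ℝ) < 0 := Real.log_neg (by norm_num) (by norm_num)
    have hev : ∀ (x y : ℝ), y < 0 → ∀ᶠ A1 : ℝ in atTop, x + A1 * y < 0 := by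
      intro x y hy
      filter_upwards [eventually_gt_atTop (x / -y)] with A1 h
      rw [div_lt_iff₀ (by linarith)] at h
      linarith
    have h := (eventually_gt_atTop (0 : ℝ)).and ((hev (1 / α) _ hl1).and
      ((hev (θ' true / α + 1) _ hl2).and (hev (θ' false / α + 1) _ hl2)))
    obtain ⟨A1, h1, h2, h3, h4⟩ := h.exists
    refine ⟨A1, h1, h2, fun c' => ?_⟩
    cases c'
    · exact h4
    · exact h3
  refine ⟨F1, F2, FA1, FA2, q, q1, Fh, FAh' true + FAh' false, θ', ρ', A0, K3, A1, ?_⟩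
  exact {
    hpos := hpos
    hα0 := hα0
    hν1 := hν1
    hη0 := hη0
    hK1 := hK1
    hε1 := hε1
    hε11 := hε11
    hα := hα
    F1m := F1m
    F1A := F1A
    F1r := F1r
    F2m := F2m
    F2A := F2A
    FA2t := FA2t
    F2r := F2r
    Fhm := Fhm
    FhA := fun c' u => by
      cases c'
      · exact le_trans (FhA' false u) le_add_self
      · exact le_trans (FhA' true u) le_self_add
    FAht := ENNReal.add_ne_top.2 ⟨FAht' true, FAht' false⟩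
    Fhr := Fhr
    qt := qt
    hq := hq
    q1t := q1t
    hq1 := hq1
    hθ0 := hθ0
    hθ := hθ
    hρ0 := hρ0
    hρ1 := hρ1
    hρ := hρ
    A00 := hA00
    K30 := hK31
    A10 := hA1
    A1ρ := hA1ρ
    A1θ := hA1θ
    hA0 := by
      rw [hexA0]
      calc nu * ENNReal.ofReal δ0 * (1 + FA2) = nu * (1 + FA2) * ENNReal.ofReal δ0 := by ring
        _ ≤ _ := hδ0'
    hK3 := by
      calc ENNReal.ofReal (K1 * K3 ^ (-η)) * (q1 + FA1 + ex (α / 2 * η) (-A0))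
          ≤ ENNReal.ofReal δ3 * (q1 + FA1 + ex (α / 2 * η) (-A0)) := by
            gcongr
        _ = (q1 + FA1 + ex (α / 2 * η) (-A0)) * ENNReal.ofReal δ3 := by ring
        _ ≤ _ := hδ3' }

/-- The conditions on the number `m` of half-edges. -/
structure Big (α cd ε1 : ℝ) (FAh : ℝ≥0∞) (θ' : Bool → ℝ) (ρ' A0 K3 A1 : ℝ) (Q0 : ℕ)
    (S0 ε2 : ℝ) (m : ℕ) : Prop where
  m1 : 1 ≤ m
  mε : 1 ≤ (m : ℝ) * ε2
  dd : ((1 + (m : ℝ) ^ (-(cd / 2))) ^ (Rm A1 m)) ^ 2 ≤ 1 + ε1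
  half : ((Q0 + 8 * Rm A1 m + 1 : ℕ) : ℝ) ≤ m / 2
  ratio : (1 + (m : ℝ) ^ (-cd)) * (m / (m - (Q0 + 8 * Rm A1 m + 1 : ℕ))) ≤
        1 + (m : ℝ) ^ (-(cd / 2))
  loss : (Rm A1 m : ℝ) * (((m : ℝ) ^ (1 - cd) +
      (Q0 + Rm A1 m * ⌈K3 ^ 2 * ((m : ℝ) * ε2) ^ (1 / 2 : ℝ)⌉₊ : ℕ)) / m) ≤ ε1
  pow1 : 1 * (m : ℝ) ^ (1 / α) * ρ' ^ (Rm A1 m) ≤ ε1
  pow2 : ∀ c', Real.exp (θ' c' * (A0 + S0)) * (m : ℝ) ^ (θ' c' / α + 1) * (1 / 2) ^ (Rm A1 m) ≤ 1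
  e1 : (Q0 : ℝ≥0∞) * Q0 * ((2 * (1 + FAh) + 1) * ex (-α) S0) * ENNReal.ofReal (2 / m) ≤
    ENNReal.ofReal ε1

theorem eventually_big {κ : Measure (ℝ × ℝ)} {c : Bool} {α ν K1 η ε1 : ℝ}
    {F1 F2 : ℝ → ℝ≥0∞} {FA1 FA2 q q1 : ℝ≥0∞} {Fh : Bool → ℝ → ℝ≥0∞} {FAh : ℝ≥0∞}
    {θ' : Bool → ℝ} {ρ' A0 K3 A1 : ℝ}
    (C : Cst κ c α ν K1 η ε1 F1 F2 FA1 FA2 q q1 Fh FAh θ' ρ' A0 K3 A1) {cd : ℝ} (hcd : 0 < cd)
    (hcd1 : cd ≤ 1 / 2) (Q0 : ℕ) (S0 : ℝ) {ε2 : ℝ} (hε2 : 0 < ε2) (hε21 : ε2 ≤ 1) :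
    ∀ᶠ m : ℕ in atTop, Big α cd ε1 FAh θ' ρ' A0 K3 A1 Q0 S0 ε2 m := by
  have h1 : ∀ᶠ m : ℕ in atTop, 1 ≤ (m : ℝ) * ε2 := by
    have := tendsto_natCast_atTop_atTop (R := ℝ)
    filter_upwards [this.eventually (eventually_ge_atTop (1 / ε2))] with m hm
    rw [div_le_iff₀ hε2] at hm
    exact hm
  have h2 : ∀ᶠ m : ℕ in atTop, (Q0 : ℝ≥0∞) * Q0 * ((2 * (1 + FAh) + 1) * ex (-α) S0) *
      ENNReal.ofReal (2 / m) ≤ ENNReal.ofReal ε1 := by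
    obtain ⟨δ, hδ, _, hδ'⟩ := exists_small
      (C := (Q0 : ℝ≥0∞) * Q0 * ((2 * (1 + FAh) + 1) * ex (-α) S0)) (ε := ENNReal.ofReal ε1)
      (ENNReal.mul_ne_top (ENNReal.mul_ne_top (ENNReal.natCast_ne_top _)
        (ENNReal.natCast_ne_top _)) (ENNReal.mul_ne_top (ENNReal.add_ne_top.2
        ⟨ENNReal.mul_ne_top (by norm_num) (ENNReal.add_ne_top.2 ⟨ENNReal.one_ne_top, C.FAht⟩),
          ENNReal.one_ne_top⟩) (ex_ne_top _ _))) (by simpa using C.hε1)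
    filter_upwards [(tendsto_natCast_atTop_atTop (R := ℝ)).eventually
      (eventually_ge_atTop (2 / δ)), eventually_ge_atTop 1] with m hm hm1
    have hm0 : (0 : ℝ) < m := by exact_mod_cast hm1
    refine le_trans ?_ hδ'
    gcongr
    rw [div_le_iff₀ hm0]
    rw [div_le_iff₀ hδ] at hm
    linarith
  filter_upwards [eventually_ge_atTop 1, h1, asy_dd A1 hcd C.hε1, asy_ratio A1 Q0 hcd hcd1,
    asy_loss A1 K3 Q0 hcd C.hε1 hε2 hε21,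
    asy_pow (C := 1) (κ := 1 / α) C.hρ0 C.hρ1 C.A10 C.A1ρ C.hε1,
    asy_pow (C := Real.exp (θ' true * (A0 + S0))) (κ := θ' true / α + 1)
      (ρ := 1 / 2) (by norm_num) (by norm_num) C.A10 (C.A1θ true) one_pos,
    asy_pow (C := Real.exp (θ' false * (A0 + S0))) (κ := θ' false / α + 1)
      (ρ := 1 / 2) (by norm_num) (by norm_num) C.A10 (C.A1θ false) one_pos, h2]
    with m a1 a2 a3 a4 a5 a6 a7 a8 a9
  exact ⟨a1, a2, a3, a4.1, a4.2, a5, a6, fun c' => by cases c'; exacts [a8, a7], a9⟩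

end Pool.Agent.H949.CX
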