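import Pool.Agent.H949.CM.Model

/-!
# Good degree sequences
-/

set_option linter.unusedSectionVars false
set_option linter.unusedSimpArgs false
set_option linter.unusedVariables false

open MeasureTheory Finset
open scoped ENNReal

namespace Pool.Agent.H949.CX

open Pool.Agent.H949.CM

variable {V H : Type} [Fintype V] [DecidableEq V] [Fintype H] [DecidableEq H]

/-- Good degrees: the size-biased mean of `degree - 1` is close to `ν`, the size-biased moment of
order `1 + η` is bounded, and the number of half-edges is comparable to the number of vertices. -/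
structure DegOK (vert : H → V) (ν K1 η cd c0 C0 : ℝ) : Prop where
  up : ∑ y : H, ((deg vert (vert y) - 1 : ℕ) : ℝ) ≤
    ν * (Fintype.card H : ℝ) + (Fintype.card H : ℝ) ^ (1 - cd)
  lo : ν * (Fintype.card H : ℝ) - (Fintype.card H : ℝ) ^ (1 - cd) ≤
    ∑ y : H, ((deg vert (vert y) - 1 : ℕ) : ℝ)
  mom : ∑ y : H, ((deg vert (vert y) : ℕ) : ℝ) ^ (1 + η) ≤ K1 * (Fintype.card H : ℝ)
  cN : c0 * (Fintype.card V : ℝ) ≤ (Fintype.card H : ℝ)
  CN : (Fintype.card H : ℝ) ≤ C0 * (Fintype.card V : ℝ)

end Pool.Agent.H949.CX
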