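import Pool.Agent.H949.CX.Loss
import Pool.Agent.H949.CX.DegOK

/-!
# The degree cutoff
-/

set_option linter.unusedSectionVars false
set_option linter.unusedSimpArgs false
set_option linter.unusedVariables false

open MeasureTheory Finset Filter Topology
open scoped ENNReal

namespace Pool.Agent.H949.CX

open Pool.Agent.H949.CM

variable {V H : Type} [Fintype V] [DecidableEq V] [Fintype H] [DecidableEq H]

/-- The degree cutoff along a path. -/
def okf (vert : H → V) (K3 g0 T : ℝ) (v : V) (s : ℝ) : Prop :=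
  0 ≤ s ∧ ((deg vert v : ℕ) : ℝ) ≤ K3 * Real.exp (g0 * s) ∧
    ((deg vert v : ℕ) : ℝ) ≤ K3 * Real.exp (g0 * (T - s))

theorem okf_meas (vert : H → V) (K3 g0 T : ℝ) (v : V) :
    MeasurableSet {s | okf vert K3 g0 T v s} := by
  have h1 : MeasurableSet {s : ℝ | 0 ≤ s} := measurableSet_Ici
  have h2 : MeasurableSet {s : ℝ | ((deg vert v : ℕ) : ℝ) ≤ K3 * Real.exp (g0 * s)} :=
    measurableSet_le measurable_const (by fun_prop)
  have h3 : MeasurableSet {s : ℝ | ((deg vert v : ℕ) : ℝ) ≤ K3 * Real.exp (g0 * (T - s))} :=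
    measurableSet_le measurable_const (by fun_prop)
  exact h1.inter (h2.inter h3)

theorem sum_vert {M : Type*} [AddCommMonoid M] (vert : H → V) (f : V → M) :
    ∑ y : H, f (vert y) = ∑ v : V, deg vert v • f v := by
  rw [← Finset.sum_fiberwise' univ vert f]
  apply Finset.sum_congr rfl
  intro v _
  rw [Finset.sum_const]
  rfl

theorem sum_W (vert : H → V) (W : Finset V) :
    ∑ y : H, (if vert y ∈ W then deg vert (vert y) else 0) = Qd vert W := by
  rw [sum_vert vert (fun v => if v ∈ W then deg vert v else 0)]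
  unfold Qd
  simp only [smul_eq_mul, mul_ite, mul_zero]
  rw [← Finset.sum_filter]
  apply Finset.sum_congr _ (fun _ _ => rfl)
  ext v
  simp

/-- A half-edge belongs to a vertex of positive degree. -/
theorem deg_vert_pos (vert : H → V) (y : H) : 1 ≤ deg vert (vert y) := by
  unfold deg
  exact Finset.card_pos.2 ⟨y, by simp⟩

theorem rpow_bound {d K3 x η : ℝ} (hd : 1 ≤ d) (hη : 0 ≤ η) (hK3 : 0 < K3)
    (h : K3 * Real.exp x < d) : d ≤ d ^ (1 + η) * K3 ^ (-η) * Real.exp (-(η * x)) := by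
  have hd0 : 0 < d := by linarith
  have hp : 0 < K3 * Real.exp x := by positivity
  have h1 : (K3 * Real.exp x) ^ η ≤ d ^ η := Real.rpow_le_rpow hp.le h.le hη
  have h2 : (K3 * Real.exp x) ^ η = K3 ^ η * Real.exp (η * x) := by
    rw [Real.mul_rpow hK3.le (Real.exp_pos _).le, ← Real.exp_mul]
    congr 2
    ring
  rw [h2] at h1
  have h3 : K3 ^ η * K3 ^ (-η) = 1 := by rw [← Real.rpow_add hK3]; simp
  have h4 : Real.exp (η * x) * Real.exp (-(η * x)) = 1 := by rw [← Real.exp_add]; simp
  have h5 : 1 ≤ d ^ η * (K3 ^ (-η) * Real.exp (-(η * x))) := by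
    calc (1 : ℝ) = (K3 ^ η * Real.exp (η * x)) * (K3 ^ (-η) * Real.exp (-(η * x))) := by
          calc (1 : ℝ) = (K3 ^ η * K3 ^ (-η)) * (Real.exp (η * x) * Real.exp (-(η * x))) := by
                rw [h3, h4, one_mul]
            _ = _ := by ring
      _ ≤ _ := by
          apply mul_le_mul_of_nonneg_right h1
          positivity
  have h6 : d ^ (1 + η) = d * d ^ η := by
    rw [Real.rpow_add hd0, Real.rpow_one]
  rw [h6]
  calc d = d * 1 := (mul_one d).symm
    _ ≤ d * (d ^ η * (K3 ^ (-η) * Real.exp (-(η * x)))) := by gcongr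
    _ = _ := by ring

open Classical in
/-- The half-edges lost by the cutoff. -/
theorem cut_sum {vert : H → V} {K1 η K3 g0 T s : ℝ} (hη : 0 ≤ η) (hK3 : 0 < K3) (hs : 0 ≤ s)
    (hmom : ∑ y : H, ((deg vert (vert y) : ℕ) : ℝ) ^ (1 + η) ≤ K1 * (Fintype.card H : ℝ))
    (W : Finset V) (φ : H → ℝ) (hφ0 : ∀ y, 0 ≤ φ y)
    (hφ : ∀ y, φ y ≤ ((deg vert (vert y) : ℕ) : ℝ)) :
    ∑ y : H, φ y ≤ ∑ y ∈ univ.filter (fun y : H => vert y ∉ W ∧ okf vert K3 g0 T (vert y) s), φ y +
      (Qd vert W : ℝ) + K1 * (Fintype.card H : ℝ) * K3 ^ (-η) *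
        (Real.exp (-(g0 * η * s)) + Real.exp (-(g0 * η * (T - s)))) := by
  set E := Real.exp (-(g0 * η * s)) + Real.exp (-(g0 * η * (T - s))) with hE
  have hE0 : 0 ≤ E := by rw [hE]; positivity
  have hK0 : 0 ≤ K3 ^ (-η) := by positivity
  have h1 : ∀ y : H, φ y ≤ (if vert y ∉ W ∧ okf vert K3 g0 T (vert y) s then φ y else 0) +
      ((if vert y ∈ W then deg vert (vert y) else 0 : ℕ) : ℝ) +
      ((deg vert (vert y) : ℕ) : ℝ) ^ (1 + η) * (K3 ^ (-η) * E) := by
    intro y
    have hd1 : (1 : ℝ) ≤ ((deg vert (vert y) : ℕ) : ℝ) := by exact_mod_cast deg_vert_pos vert y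
    have hlast : 0 ≤ ((deg vert (vert y) : ℕ) : ℝ) ^ (1 + η) * (K3 ^ (-η) * E) := by positivity
    by_cases hW : vert y ∈ W
    · rw [if_pos hW, if_neg (fun h => h.1 hW)]
      have := hφ y
      linarith
    · by_cases hok : okf vert K3 g0 T (vert y) s
      · rw [if_pos ⟨hW, hok⟩, if_neg hW]
        push_cast
        linarith
      · rw [if_neg (fun h => hok h.2), if_neg hW]
        push_cast
        have h2 : ((deg vert (vert y) : ℕ) : ℝ) ≤
            ((deg vert (vert y) : ℕ) : ℝ) ^ (1 + η) * (K3 ^ (-η) * E) := by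
          have hp : 0 ≤ ((deg vert (vert y) : ℕ) : ℝ) ^ (1 + η) * K3 ^ (-η) := by positivity
          unfold okf at hok
          by_cases h3 : ((deg vert (vert y) : ℕ) : ℝ) ≤ K3 * Real.exp (g0 * s)
          · have h4 : K3 * Real.exp (g0 * (T - s)) < ((deg vert (vert y) : ℕ) : ℝ) := by
              by_contra hc
              exact hok ⟨hs, h3, not_lt.1 hc⟩
            have h5 := rpow_bound hd1 hη hK3 h4
            have h6 : Real.exp (-(η * (g0 * (T - s)))) ≤ E := by
              rw [hE]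
              have h7 : -(η * (g0 * (T - s))) = -(g0 * η * (T - s)) := by ring
              rw [h7]
              have := Real.exp_pos (-(g0 * η * s))
              linarith
            calc _ ≤ _ := h5
              _ ≤ ((deg vert (vert y) : ℕ) : ℝ) ^ (1 + η) * K3 ^ (-η) * E :=
                  mul_le_mul_of_nonneg_left h6 hp
              _ = _ := by ring
          · have h5 := rpow_bound hd1 hη hK3 (not_le.1 h3)
            have h6 : Real.exp (-(η * (g0 * s))) ≤ E := by
              rw [hE]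
              have h7 : -(η * (g0 * s)) = -(g0 * η * s) := by ring
              rw [h7]
              have := Real.exp_pos (-(g0 * η * (T - s)))
              linarith
            calc _ ≤ _ := h5
              _ ≤ ((deg vert (vert y) : ℕ) : ℝ) ^ (1 + η) * K3 ^ (-η) * E :=
                  mul_le_mul_of_nonneg_left h6 hp
              _ = _ := by ring
        have := hφ y
        linarith
  calc ∑ y : H, φ y ≤ ∑ y : H, ((if vert y ∉ W ∧ okf vert K3 g0 T (vert y) s then φ y else 0) +
      ((if vert y ∈ W then deg vert (vert y) else 0 : ℕ) : ℝ) +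
      ((deg vert (vert y) : ℕ) : ℝ) ^ (1 + η) * (K3 ^ (-η) * E)) := Finset.sum_le_sum (fun y _ => h1 y)
    _ = ∑ y ∈ univ.filter (fun y : H => vert y ∉ W ∧ okf vert K3 g0 T (vert y) s), φ y +
        (Qd vert W : ℝ) + (∑ y : H, ((deg vert (vert y) : ℕ) : ℝ) ^ (1 + η)) * (K3 ^ (-η) * E) := by
        rw [Finset.sum_add_distrib, Finset.sum_add_distrib, ← Finset.sum_filter, ← Finset.sum_mul,
          ← sum_W]
        push_cast
        rfl
    _ ≤ _ := by
        have h2 := mul_le_mul_of_nonneg_right hmom (show 0 ≤ K3 ^ (-η) * E by positivity)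
        have h3 : K1 * (Fintype.card H : ℝ) * (K3 ^ (-η) * E) =
          K1 * (Fintype.card H : ℝ) * K3 ^ (-η) * E := by ring
        linarith

theorem okf_sq {vert : H → V} {K3 g0 T s : ℝ} {v : V} (h : okf vert K3 g0 T v s) :
    ((deg vert v : ℕ) : ℝ) * ((deg vert v : ℕ) : ℝ) ≤ K3 ^ 2 * Real.exp (g0 * T) := by
  obtain ⟨_, h1, h2⟩ := h
  have h0 : (0 : ℝ) ≤ ((deg vert v : ℕ) : ℝ) := Nat.cast_nonneg _
  calc ((deg vert v : ℕ) : ℝ) * ((deg vert v : ℕ) : ℝ)
      ≤ (K3 * Real.exp (g0 * s)) * (K3 * Real.exp (g0 * (T - s))) :=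
        mul_le_mul h1 h2 h0 (le_trans h0 h1)
    _ = K3 ^ 2 * (Real.exp (g0 * s) * Real.exp (g0 * (T - s))) := by ring
    _ = K3 ^ 2 * Real.exp (g0 * T) := by
        rw [← Real.exp_add]
        congr 2
        ring

end Pool.Agent.H949.CX
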