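import Pool.Agent.H949.CX.DegOK
import Pool.Agent.H949.CM.Deg

/-!
# I.i.d. degrees with a moment of order `2 + η` are good with high probability

Paper proof. Write `N = n + 1`, `m1 = E[D] > 0`, `m2 = E[D (D - 1)]`, `ν = m2 / m1`. Let
`p = 1 + η / 2 ∈ (1, 3/2]`, `X = D ^ 2` (so `E[X ^ p] = E[D ^ (2 + η)] < ∞`), `c' = η / 8`, so
`2 c' < p - 1`.
(1) `P(∃ v, X_v > N) ≤ N ^ (1 - p) E[X ^ p] → 0` (Markov for `X ^ p`, union bound).
(2) For `f ∈ {D, D (D - 1)}`, both `≤ X` (for naturals): truncate, `f_v 1[X_v ≤ N]`; variance of the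
sum `≤ N E[X ^ 2 1[X ≤ N]] ≤ N * N ^ (2 - p) E[X ^ p]`, so by Chebyshev the truncated sum deviates
from its mean by more than `N ^ (1 - c') / 2` with probability
`≤ 4 E[X ^ p] N ^ (3 - p - 2 + 2 c') = C N ^ (1 - p + 2 c') → 0`; the bias is
`N E[f 1[X > N]] ≤ N ^ (2 - p) E[X ^ p] ≤ N ^ (1 - c') / 2` for large `N`. On the complement of (1)
the truncated sums are the sums. [Chebyshev: `ProbabilityTheory.meas_ge_le_variance_div_sq`,
`IndepFun.variance_sum`/`iIndepFun`, or by hand.]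
(3) `∑ d_v ^ (2 + η) ≤ K N` with probability `≥ 1 - ε / 4` by Markov, `K = 4 E[D ^ (2 + η)] / ε`.
(4) On these events: `m := ∑ fixParity d` satisfies `|m - N m1| ≤ N ^ (1 - c') + 1`, hence
`m1 / 2 * N ≤ m ≤ 2 m1 * N` for large `N` (`c0 = m1 / 2`, `C0 = 2 * m1`); the sum of
`fixParity d v * (fixParity d v - 1)` differs from `∑ d v (d v - 1)` by at most `2 * d_last ≤ 2 N^(1/2)`;
so `|∑_y (deg (vert y) - 1) - ν m| ≤ (1 + ν) (N ^ (1 - c') + 1) + 2 N ^ (1 / 2) ≤ m ^ (1 - cd)` with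
`cd = c' / 2` for large `N`. The size-biased moment of `fixParity d` is
`∑_v (fixParity d v) ^ (2 + η) ≤ ∑_v (d v + 1) ^ (2 + η) ≤ 2 ^ (2 + η) (∑_v d_v ^ (2 + η) + N)`, a
multiple of `m`.
-/

set_option linter.unusedSectionVars false
set_option linter.unusedSimpArgs false
set_option linter.unusedVariables false

open MeasureTheory Finset Filter Topology
open scoped ENNReal

namespace Pool.Agent.H949.CX

open Pool.Agent.H949.CM

variable {V H : Type} [Fintype V] [DecidableEq V] [Fintype H] [DecidableEq H]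

namespace D2

open ProbabilityTheory in
theorem cheb (μD : Measure ℕ) [IsProbabilityMeasure μD] (g : ℕ → ℝ) (N : ℕ) (B V t : ℝ)
    (hB : ∀ k, |g k| ≤ B) (hV : ∫ k, g k ^ 2 ∂μD ≤ V) (ht : 0 < t) :
    (Measure.pi fun _ : Fin N => μD) {d | t ≤ |∑ v, g (d v) - N * ∫ k, g k ∂μD|} ≤
      ENNReal.ofReal (N * V / t ^ 2) := by
  have hm : MemLp g 2 μD := MemLp.of_bound (measurable_of_countable _).aestronglyMeasurable B
    (Eventually.of_forall fun k => by rw [Real.norm_eq_abs]; exact hB k)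
  have hmv : ∀ v : Fin N, MemLp (fun d : Fin N → ℕ => g (d v)) 2 (Measure.pi fun _ : Fin N => μD) :=
    fun v => hm.comp_measurePreserving (measurePreserving_eval (fun _ : Fin N => μD) v)
  have hX : MemLp (∑ v : Fin N, fun d : Fin N → ℕ => g (d v)) 2
      (Measure.pi fun _ : Fin N => μD) := memLp_finsetSum' _ fun v _ => hmv v
  have hvar := variance_sum_pi (μ := fun _ : Fin N => μD) (X := fun _ => g) (fun _ => hm)
  have hvg : variance g μD ≤ V :=
    (variance_le_expectation_sq hm.aestronglyMeasurable).trans hV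
  have hmean : ∫ d, (∑ v : Fin N, fun d : Fin N → ℕ => g (d v)) d
      ∂(Measure.pi fun _ : Fin N => μD) = N * ∫ k, g k ∂μD := by
    have h1 : ∀ v : Fin N, ∫ d, g (d v) ∂(Measure.pi fun _ : Fin N => μD) = ∫ k, g k ∂μD := by
      intro v
      have h2 := (measurePreserving_eval (fun _ : Fin N => μD) v).map_eq
      conv_rhs => rw [← h2]
      rw [integral_map (measurable_pi_apply v).aemeasurable
        (measurable_of_countable _).aestronglyMeasurable]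
    simp only [Finset.sum_apply]
    rw [integral_finsetSum _ fun v _ => (hmv v).integrable (by norm_num)]
    simp_rw [h1]
    simp
  have h := meas_ge_le_variance_div_sq hX ht
  rw [hmean, hvar] at h
  simp only [Finset.sum_apply, sum_const, card_univ, Fintype.card_fin, nsmul_eq_mul] at h
  refine h.trans (ENNReal.ofReal_le_ofReal ?_)
  gcongr

theorem int_s (μD : Measure ℕ) [IsProbabilityMeasure μD] {s : ℝ}
    (hmom : ∫⁻ k, ENNReal.ofReal ((k : ℝ) ^ s) ∂μD < ⊤) :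
    Integrable (fun k : ℕ => (k : ℝ) ^ s) μD :=
  ⟨(measurable_of_countable _).aestronglyMeasurable, by
    rw [hasFiniteIntegral_iff_ofReal (Eventually.of_forall fun k => by positivity)]
    exact hmom⟩

theorem mom_nonneg (μD : Measure ℕ) {s : ℝ} : 0 ≤ ∫ k, (k : ℝ) ^ s ∂μD :=
  integral_nonneg fun k => by positivity

/-- large values are rare -/
theorem P1 (μD : Measure ℕ) [IsProbabilityMeasure μD] {s p : ℝ} (hs : s = 2 * p) (hp : 0 < p)
    (hmom : ∫⁻ k, ENNReal.ofReal ((k : ℝ) ^ s) ∂μD < ⊤) (N : ℕ) (hN : 0 < N) :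
    (Measure.pi fun _ : Fin N => μD) {d | ∃ v, (N : ℝ) < (d v : ℝ) ^ 2} ≤
      ENNReal.ofReal ((∫ k, (k : ℝ) ^ s ∂μD) * (N : ℝ) ^ (1 - p)) := by
  have hN' : (0 : ℝ) < N := by exact_mod_cast hN
  have hi := int_s μD hmom
  have h1 : μD {k | (N : ℝ) < (k : ℝ) ^ 2} ≤
      ENNReal.ofReal ((∫ k, (k : ℝ) ^ s ∂μD) * (N : ℝ) ^ (-p)) := by
    rw [← ofReal_measureReal]
    refine ENNReal.ofReal_le_ofReal ?_
    have e1 : μD.real {k | (N : ℝ) < (k : ℝ) ^ 2} =
        ∫ k, Set.indicator {k : ℕ | (N : ℝ) < (k : ℝ) ^ 2} (fun _ => (1 : ℝ)) k ∂μD := by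
      rw [integral_indicator_const _ MeasurableSet.of_discrete]
      simp
    rw [e1, mul_comm, ← integral_const_mul]
    refine integral_mono ((integrable_const (1 : ℝ)).indicator MeasurableSet.of_discrete)
      (hi.const_mul _) fun k => ?_
    simp only
    by_cases hk : (N : ℝ) < (k : ℝ) ^ 2
    · rw [Set.indicator_of_mem (show k ∈ {k : ℕ | (N : ℝ) < (k : ℝ) ^ 2} from hk)]
      have h2 : (N : ℝ) ^ p ≤ (k : ℝ) ^ s := by
        rw [hs, Real.rpow_mul (by positivity)]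
        have h3 : ((k : ℝ) ^ (2 : ℝ)) = (k : ℝ) ^ 2 := by norm_cast
        rw [h3]
        exact Real.rpow_le_rpow hN'.le hk.le hp.le
      rw [Real.rpow_neg hN'.le, inv_mul_eq_div, le_div_iff₀ (by positivity), one_mul]
      exact h2
    · rw [Set.indicator_of_notMem (show k ∉ {k : ℕ | (N : ℝ) < (k : ℝ) ^ 2} from hk)]
      positivity
  have h2 : {d : Fin N → ℕ | ∃ v, (N : ℝ) < (d v : ℝ) ^ 2} =
      ⋃ v ∈ (univ : Finset (Fin N)), (fun d : Fin N → ℕ => d v) ⁻¹' {k | (N : ℝ) < (k : ℝ) ^ 2} := by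
    ext d
    simp
  rw [h2]
  refine (measure_biUnion_finset_le _ _).trans ?_
  have h3 : ∀ v : Fin N, (Measure.pi fun _ : Fin N => μD)
      ((fun d : Fin N → ℕ => d v) ⁻¹' {k | (N : ℝ) < (k : ℝ) ^ 2}) =
      μD {k | (N : ℝ) < (k : ℝ) ^ 2} := fun v =>
    (measurePreserving_eval (fun _ : Fin N => μD) v).measure_preimage
      MeasurableSet.of_discrete.nullMeasurableSet
  simp_rw [h3]
  rw [sum_const, card_univ, Fintype.card_fin, nsmul_eq_mul]
  refine (mul_le_mul_right h1 _).trans (le_of_eq ?_)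
  rw [← ENNReal.ofReal_natCast, ← ENNReal.ofReal_mul hN'.le]
  congr 1
  have e : (N : ℝ) ^ (1 - p) = N * (N : ℝ) ^ (-p) := by
    rw [sub_eq_add_neg, Real.rpow_add hN', Real.rpow_one]
  rw [e]
  ring

/-- deviations of the sum -/
theorem P2 (μD : Measure ℕ) [IsProbabilityMeasure μD] {s p c : ℝ} (hs : s = 2 * p) (hp : 1 < p)
    (hp2 : p ≤ 2) (hmom : ∫⁻ k, ENNReal.ofReal ((k : ℝ) ^ s) ∂μD < ⊤) (f : ℕ → ℝ)
    (hf : ∀ k, |f k| ≤ (k : ℝ) ^ 2) (N : ℕ) (hN : 0 < N)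
    (hbig : (∫ k, (k : ℝ) ^ s ∂μD) * (N : ℝ) ^ (2 - p) ≤ (N : ℝ) ^ (1 - c) / 2) :
    (Measure.pi fun _ : Fin N => μD)
        {d | (N : ℝ) ^ (1 - c) < |∑ v, f (d v) - N * ∫ k, f k ∂μD|} ≤
      ENNReal.ofReal ((∫ k, (k : ℝ) ^ s ∂μD) * (N : ℝ) ^ (1 - p)) +
        ENNReal.ofReal (4 * (∫ k, (k : ℝ) ^ s ∂μD) * (N : ℝ) ^ (1 - p + 2 * c)) := by
  have hN' : (0 : ℝ) < N := by exact_mod_cast hN
  have hN1 : (1 : ℝ) ≤ N := by exact_mod_cast hN
  have hi := int_s μD hmom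
  obtain ⟨M, hM⟩ : ∃ M, M = ∫ k, (k : ℝ) ^ s ∂μD := ⟨_, rfl⟩
  have hM0 : 0 ≤ M := hM ▸ mom_nonneg μD
  obtain ⟨A, hA⟩ : ∃ A : Set ℕ, A = {k : ℕ | (k : ℝ) ^ 2 ≤ N} := ⟨_, rfl⟩
  obtain ⟨g, hg⟩ : ∃ g : ℕ → ℝ, g = Set.indicator A f := ⟨_, rfl⟩
  have hg1 : ∀ k ∈ A, g k = f k := fun k hk => by rw [hg, Set.indicator_of_mem hk]
  have hg2 : ∀ k, k ∉ A → g k = 0 := fun k hk => by rw [hg, Set.indicator_of_notMem hk]
  have hks : ∀ k : ℕ, (k : ℝ) ^ s = ((k : ℝ) ^ 2) ^ p := by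
    intro k
    rw [hs, Real.rpow_mul (by positivity)]
    congr 1
    norm_cast
  have hB : ∀ k, |g k| ≤ N := by
    intro k
    by_cases hk : k ∈ A
    · rw [hg1 k hk]
      refine (hf k).trans ?_
      rw [hA] at hk
      exact hk
    · rw [hg2 k hk, abs_zero]
      exact hN'.le
  have hV : ∫ k, g k ^ 2 ∂μD ≤ (N : ℝ) ^ (2 - p) * M := by
    rw [hM, ← integral_const_mul]
    have hgi : Integrable (fun k => g k ^ 2) μD := by
      refine Integrable.of_bound (measurable_of_countable _).aestronglyMeasurable ((N : ℝ) ^ 2)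
        (Eventually.of_forall fun k => ?_)
      rw [norm_pow, Real.norm_eq_abs]
      exact pow_le_pow_left₀ (abs_nonneg _) (hB k) 2
    refine integral_mono hgi (hi.const_mul _) fun k => ?_
    simp only
    by_cases hk : k ∈ A
    · rw [hg1 k hk, hks, ← sq_abs]
      have hk' : (k : ℝ) ^ 2 ≤ N := by rw [hA] at hk; exact hk
      rcases Nat.eq_zero_or_pos k with h0 | h0
      · have : |f k| = 0 := by
          refine le_antisymm ?_ (abs_nonneg _)
          have := hf k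
          rw [h0] at this ⊢
          simpa using this
        rw [this]
        have h5 : (0 : ℝ) ≤ (N : ℝ) ^ (2 - p) * ((k : ℝ) ^ 2) ^ p := by positivity
        simpa using h5
      · have hx : (0 : ℝ) < (k : ℝ) ^ 2 := by positivity
        calc |f k| ^ 2 ≤ ((k : ℝ) ^ 2) ^ 2 := pow_le_pow_left₀ (abs_nonneg _) (hf k) 2
          _ = ((k : ℝ) ^ 2) ^ (2 - p) * ((k : ℝ) ^ 2) ^ p := by
            rw [← Real.rpow_add hx]
            norm_num
          _ ≤ (N : ℝ) ^ (2 - p) * ((k : ℝ) ^ 2) ^ p := by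
            refine mul_le_mul_of_nonneg_right ?_ (by positivity)
            exact Real.rpow_le_rpow hx.le hk' (by linarith)
    · rw [hg2 k hk]
      have : (0 : ℝ) ≤ (N : ℝ) ^ (2 - p) * (k : ℝ) ^ s := by positivity
      simpa using this
  -- the bias
  have hfi : Integrable f μD := by
    refine Integrable.mono' ((integrable_const (1 : ℝ)).add hi)
      (measurable_of_countable _).aestronglyMeasurable (Eventually.of_forall fun k => ?_)
    simp only [Pi.add_apply]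
    rw [Real.norm_eq_abs]
    refine (hf k).trans ?_
    rcases Nat.eq_zero_or_pos k with h0 | h0
    · rw [h0]
      have : (0 : ℝ) ≤ ((0 : ℕ) : ℝ) ^ s := by positivity
      simp only [Nat.cast_zero] at this ⊢
      nlinarith
    · have h1 : (1 : ℝ) ≤ (k : ℝ) ^ 2 := by
        have : (1 : ℝ) ≤ k := by exact_mod_cast h0
        nlinarith
      have h2 : ((k : ℝ) ^ 2) ≤ ((k : ℝ) ^ 2) ^ p := by
        conv_lhs => rw [← Real.rpow_one ((k : ℝ) ^ 2)]
        exact Real.rpow_le_rpow_of_exponent_le h1 hp.le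
      rw [hks]
      linarith
  have hgi : Integrable g μD := by
    rw [hg]
    exact hfi.indicator MeasurableSet.of_discrete
  have hbias : |∫ k, g k ∂μD - ∫ k, f k ∂μD| ≤ (N : ℝ) ^ (1 - p) * M := by
    rw [← integral_sub hgi hfi, hM, ← integral_const_mul]
    refine (abs_integral_le_integral_abs).trans ?_
    refine integral_mono (hgi.sub hfi).abs (hi.const_mul _) fun k => ?_
    simp only
    by_cases hk : k ∈ A
    · rw [hg1 k hk, sub_self, abs_zero]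
      positivity
    · rw [hg2 k hk, zero_sub, abs_neg]
      have hk' : (N : ℝ) < (k : ℝ) ^ 2 := by rw [hA] at hk; exact not_le.1 hk
      have hx : (0 : ℝ) < (k : ℝ) ^ 2 := hN'.trans hk'
      calc |f k| ≤ (k : ℝ) ^ 2 := hf k
        _ = ((k : ℝ) ^ 2) ^ (1 - p) * ((k : ℝ) ^ 2) ^ p := by
          rw [← Real.rpow_add hx]
          norm_num
        _ ≤ (N : ℝ) ^ (1 - p) * (k : ℝ) ^ s := by
          rw [hks]
          refine mul_le_mul_of_nonneg_right ?_ (by positivity)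
          exact Real.rpow_le_rpow_of_nonpos hN' hk'.le (by linarith)
  have hNb : N * |∫ k, g k ∂μD - ∫ k, f k ∂μD| ≤ (N : ℝ) ^ (1 - c) / 2 := by
    refine le_trans ?_ hbig
    rw [← hM]
    calc (N : ℝ) * |∫ k, g k ∂μD - ∫ k, f k ∂μD| ≤ N * ((N : ℝ) ^ (1 - p) * M) :=
          mul_le_mul_of_nonneg_left hbias hN'.le
      _ = M * (N : ℝ) ^ (2 - p) := by
          have : (N : ℝ) ^ (2 - p) = N * (N : ℝ) ^ (1 - p) := by
            have h6 : (2 - p) = 1 + (1 - p) := by ring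
            rw [h6, Real.rpow_add hN', Real.rpow_one]
          rw [this]
          ring
  -- inclusion
  have hsub : {d : Fin N → ℕ | (N : ℝ) ^ (1 - c) < |∑ v, f (d v) - N * ∫ k, f k ∂μD|} ⊆
      {d | ∃ v, (N : ℝ) < (d v : ℝ) ^ 2} ∪
        {d | (N : ℝ) ^ (1 - c) / 2 ≤ |∑ v, g (d v) - N * ∫ k, g k ∂μD|} := by
    intro d hd
    by_cases h : ∃ v, (N : ℝ) < (d v : ℝ) ^ 2
    · exact Or.inl h
    · right
      push Not at h
      have h1 : ∀ v, g (d v) = f (d v) := fun v => hg1 _ (by rw [hA]; exact h v)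
      simp only [Set.mem_ofPred_eq] at hd ⊢
      simp_rw [h1]
      have h2 : |(∑ v, f (d v) - N * ∫ k, g k ∂μD) - (∑ v, f (d v) - N * ∫ k, f k ∂μD)| =
          N * |∫ k, g k ∂μD - ∫ k, f k ∂μD| := by
        have h4 : (∑ v, f (d v) - N * ∫ k, g k ∂μD) - (∑ v, f (d v) - N * ∫ k, f k ∂μD) =
            -(N * (∫ k, g k ∂μD - ∫ k, f k ∂μD)) := by ring
        rw [h4, abs_neg, abs_mul, abs_of_pos hN']
      have h3 := abs_sub_abs_le_abs_sub (∑ v, f (d v) - N * ∫ k, f k ∂μD)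
        (∑ v, f (d v) - N * ∫ k, g k ∂μD)
      rw [abs_sub_comm (∑ v, f (d v) - N * ∫ k, f k ∂μD), h2] at h3
      linarith
  refine (measure_mono hsub).trans ((measure_union_le _ _).trans (add_le_add ?_ ?_))
  · exact P1 μD hs (by linarith) hmom N hN
  · have ht : (0 : ℝ) < (N : ℝ) ^ (1 - c) / 2 := by positivity
    refine (cheb μD g N N ((N : ℝ) ^ (2 - p) * M) _ hB hV ht).trans
      (ENNReal.ofReal_le_ofReal (le_of_eq ?_))
    rw [← hM]
    have e1 : ((N : ℝ) ^ (1 - c)) ^ 2 = (N : ℝ) ^ (2 - 2 * c) := by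
      rw [← Real.rpow_natCast, ← Real.rpow_mul hN'.le]
      congr 1
      push_cast
      ring
    rw [div_pow, e1]
    have e2 : (N : ℝ) ^ (1 - p + 2 * c) * (N : ℝ) ^ (2 - 2 * c) = N * (N : ℝ) ^ (2 - p) := by
      have h6 : (N : ℝ) * (N : ℝ) ^ (2 - p) = (N : ℝ) ^ (1 + (2 - p)) := by
        rw [Real.rpow_add hN', Real.rpow_one]
      rw [← Real.rpow_add hN', h6]
      congr 1
      ring
    have h3 : (0 : ℝ) < (N : ℝ) ^ (2 - 2 * c) := by positivity
    rw [div_eq_iff (by positivity)]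
    calc (N : ℝ) * ((N : ℝ) ^ (2 - p) * M) = M * (N * (N : ℝ) ^ (2 - p)) := by ring
      _ = M * ((N : ℝ) ^ (1 - p + 2 * c) * (N : ℝ) ^ (2 - 2 * c)) := by rw [e2]
      _ = _ := by ring

/-- Markov -/
theorem P3 (μD : Measure ℕ) [IsProbabilityMeasure μD] {s : ℝ}
    (hmom : ∫⁻ k, ENNReal.ofReal ((k : ℝ) ^ s) ∂μD < ⊤) (K : ℝ) (hK : 0 < K) (N : ℕ) (hN : 0 < N) :
    (Measure.pi fun _ : Fin N => μD) {d | K * N < ∑ v, (d v : ℝ) ^ s} ≤
      ENNReal.ofReal ((∫ k, (k : ℝ) ^ s ∂μD) / K) := by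
  have hN' : (0 : ℝ) < N := by exact_mod_cast hN
  have hi := int_s μD hmom
  have h1 := Pool.Agent.H949.CM.markov_sum μD N (fun k => ENNReal.ofReal ((k : ℝ) ^ s))
    (ENNReal.ofReal (K * N)) (by simpa using mul_pos hK hN') ENNReal.ofReal_ne_top
  refine (measure_mono fun d hd => ?_).trans (h1.trans ?_)
  · simp only [Set.mem_ofPred_eq] at hd ⊢
    rw [← ENNReal.ofReal_sum_of_nonneg fun v _ => by positivity]
    exact ENNReal.ofReal_le_ofReal hd.le
  · rw [← ofReal_integral_eq_lintegral_ofReal hi (Eventually.of_forall fun k => by positivity),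
      ← ENNReal.ofReal_natCast, ← ENNReal.ofReal_mul hN'.le,
      ← ENNReal.ofReal_div_of_pos (mul_pos hK hN')]
    refine ENNReal.ofReal_le_ofReal (le_of_eq ?_)
    field_simp

end D2

namespace D2

theorem sum_half {n : ℕ} (e : Fin (n + 1) → ℕ) (F : ℕ → ℝ) :
    ∑ y : HalfEdge e, F (deg (vtx (d := e)) (vtx y)) = ∑ v, (e v : ℝ) * F (e v) := by
  simp_rw [deg_vtx]
  rw [Fintype.sum_sigma]
  refine Finset.sum_congr rfl fun v _ => ?_
  simp [vtx]

theorem sum_fix {n : ℕ} (d : Fin (n + 1) → ℕ) (F : ℕ → ℝ) :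
    ∑ v, F (fixParity d v) = ∑ v, F (d v) ∨
    ∑ v, F (fixParity d v) = ∑ v, F (d v) + (F (d (Fin.last n) + 1) - F (d (Fin.last n))) := by
  unfold fixParity
  split_ifs with h
  · exact Or.inl rfl
  · right
    rw [← sub_eq_iff_eq_add', ← Finset.sum_sub_distrib]
    rw [Finset.sum_eq_single (Fin.last n)]
    · simp
    · intro b _ hb
      rw [Function.update_of_ne hb, sub_self]
    · intro h'
      exact absurd (mem_univ _) h'

theorem det {n : ℕ} (d : Fin (n + 1) → ℕ) {η m1 m2 ν K c cd N : ℝ} (hN : N = ((n + 1 : ℕ) : ℝ))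
    (hη : 0 < η) (hη1 : η ≤ 1) (hm1 : 0 < m1) (hν : ν * m1 = m2) (hν0 : 0 ≤ ν) (hcd : cd ≤ 1)
    (hK : 0 ≤ K) (ha : ∀ v, (d v : ℝ) ^ 2 ≤ N)
    (hb : |∑ v, (d v : ℝ) - N * m1| ≤ N ^ (1 - c))
    (hc : |∑ v, (d v : ℝ) * ((d v : ℝ) - 1) - N * m2| ≤ N ^ (1 - c))
    (hd : ∑ v, (d v : ℝ) ^ (2 + η) ≤ K * N)
    (he1 : N ^ (1 - c) + 1 ≤ m1 / 2 * N)
    (he2 : (1 + ν) * (N ^ (1 - c) + 1) + 2 * N ^ (1 / 2 : ℝ) ≤ (m1 / 2 * N) ^ (1 - cd)) :
    DegOK (vtx (d := fixParity d)) ν (2 ^ (2 + η) * (K + 1) / (m1 / 2)) η cd (m1 / 2) (2 * m1) := by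
  have hN0 : 0 < N := by rw [hN]; positivity
  obtain ⟨e, he⟩ : ∃ e, e = fixParity d := ⟨_, rfl⟩
  rw [← he]
  obtain ⟨m, hm⟩ : ∃ m : ℝ, m = (Fintype.card (HalfEdge e) : ℝ) := ⟨_, rfl⟩
  have hm' : m = ∑ v, (e v : ℝ) := by
    rw [hm, card_halfEdge]
    push_cast
    rfl
  -- the number of half-edges
  have f1 : |m - N * m1| ≤ N ^ (1 - c) + 1 := by
    rw [abs_le] at hb ⊢
    rcases sum_fix d (fun k => (k : ℝ)) with h | h
    · simp only [← he] at h
      rw [hm', h]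
      constructor <;> linarith [hb.1, hb.2]
    · simp only [← he] at h
      rw [hm', h]
      push_cast
      constructor <;> linarith [hb.1, hb.2]
  have hml : m1 / 2 * N ≤ m := by
    have := (abs_le.1 f1).1
    nlinarith
  have hmu : m ≤ 2 * m1 * N := by
    have := (abs_le.1 f1).2
    nlinarith
  -- the second factorial moment
  have hl : (d (Fin.last n) : ℝ) ≤ N ^ (1 / 2 : ℝ) := by
    rw [← Real.sqrt_eq_rpow]
    exact Real.le_sqrt_of_sq_le (ha _)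
  have f2 : |∑ v, (e v : ℝ) * ((e v : ℝ) - 1) - N * m2| ≤ N ^ (1 - c) + 2 * N ^ (1 / 2 : ℝ) := by
    have hs : 0 ≤ N ^ (1 / 2 : ℝ) := by positivity
    have hl0 : 0 ≤ (d (Fin.last n) : ℝ) := by positivity
    rw [abs_le] at hc ⊢
    rcases sum_fix d (fun k => (k : ℝ) * ((k : ℝ) - 1)) with h | h
    · simp only [← he] at h
      rw [h]
      constructor <;> linarith [hc.1, hc.2]
    · simp only [← he] at h
      rw [h]
      push_cast
      constructor
      · nlinarith [hc.1, hc.2]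
      · nlinarith [hc.1, hc.2]
  have hS : ∑ y : HalfEdge e, ((deg (vtx (d := e)) (vtx y) - 1 : ℕ) : ℝ) =
      ∑ v, (e v : ℝ) * ((e v : ℝ) - 1) := by
    have := sum_half e (fun k => ((k - 1 : ℕ) : ℝ))
    rw [this]
    refine Finset.sum_congr rfl fun v _ => ?_
    rcases Nat.eq_zero_or_pos (e v) with h | h
    · simp [h]
    · congr 1
      push_cast [Nat.cast_sub h]
      ring
  have hpow : (m1 / 2 * N) ^ (1 - cd) ≤ m ^ (1 - cd) :=
    Real.rpow_le_rpow (by positivity) hml (by linarith)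
  have f3 : |∑ v, (e v : ℝ) * ((e v : ℝ) - 1) - ν * m| ≤ m ^ (1 - cd) := by
    have g1 : |N * m2 - ν * m| ≤ ν * (N ^ (1 - c) + 1) := by
      have : N * m2 - ν * m = ν * (-(m - N * m1)) := by rw [← hν]; ring
      rw [this, abs_mul, abs_neg, abs_of_nonneg hν0]
      exact mul_le_mul_of_nonneg_left f1 hν0
    have g2 : ∑ v, (e v : ℝ) * ((e v : ℝ) - 1) - ν * m =
        (∑ v, (e v : ℝ) * ((e v : ℝ) - 1) - N * m2) + (N * m2 - ν * m) := by ring
    rw [g2]
    refine (abs_add_le _ _).trans ?_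
    nlinarith
  have f4 := abs_le.1 f3
  refine ⟨?_, ?_, ?_, ?_, ?_⟩
  · rw [hS, ← hm]
    linarith [f4.2]
  · rw [hS, ← hm]
    linarith [f4.1]
  · have := sum_half e (fun k => (k : ℝ) ^ (1 + η))
    rw [this, ← hm]
    have h1 : ∀ v, (e v : ℝ) * (e v : ℝ) ^ (1 + η) ≤ 2 ^ (2 + η) * ((d v : ℝ) ^ (2 + η) + 1) := by
      intro v
      have h2 : (e v : ℝ) * (e v : ℝ) ^ (1 + η) = (e v : ℝ) ^ (2 + η) := by
        have : (2 + η) = 1 + (1 + η) := by ring
        rw [this]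
        exact (Real.rpow_one_add' (by positivity) (by linarith)).symm
      rw [h2]
      have h3 : (e v : ℝ) ≤ (d v : ℝ) + 1 := by
        rw [he]
        exact_mod_cast fixParity_le d v
      have h4 : (e v : ℝ) ≤ 2 * max (d v : ℝ) 1 := by
        have := le_max_left (d v : ℝ) 1
        have := le_max_right (d v : ℝ) 1
        linarith
      have h5 : (e v : ℝ) ^ (2 + η) ≤ (2 * max (d v : ℝ) 1) ^ (2 + η) :=
        Real.rpow_le_rpow (by positivity) h4 (by linarith)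
      rw [Real.mul_rpow (by norm_num) (by positivity)] at h5
      refine h5.trans (mul_le_mul_of_nonneg_left ?_ (by positivity))
      rcases le_total (d v : ℝ) 1 with h6 | h6
      · rw [max_eq_right h6, Real.one_rpow]
        have : (0 : ℝ) ≤ (d v : ℝ) ^ (2 + η) := by positivity
        linarith
      · rw [max_eq_left h6]
        linarith
    refine (Finset.sum_le_sum fun v _ => h1 v).trans ?_
    rw [← Finset.mul_sum, Finset.sum_add_distrib]
    have h7 : ∑ _v : Fin (n + 1), (1 : ℝ) = N := by simp [hN]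
    rw [h7]
    calc (2 : ℝ) ^ (2 + η) * (∑ v, (d v : ℝ) ^ (2 + η) + N) ≤ 2 ^ (2 + η) * (K * N + N) := by
          gcongr
      _ = 2 ^ (2 + η) * (K + 1) / (m1 / 2) * (m1 / 2 * N) := by field_simp
      _ ≤ _ := mul_le_mul_of_nonneg_left hml (by positivity)
  · rw [← hm, Fintype.card_fin, ← hN]
    exact hml
  · rw [← hm, Fintype.card_fin, ← hN]
    exact hmu

end D2

namespace D2

theorem ev_rpow (a b C : ℝ) (h : a < b) :
    ∀ᶠ n : ℕ in atTop, C * ((n + 1 : ℕ) : ℝ) ^ a ≤ ((n + 1 : ℕ) : ℝ) ^ b := by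
  have h1 : Tendsto (fun n : ℕ => ((n + 1 : ℕ) : ℝ) ^ (b - a)) atTop atTop :=
    (tendsto_rpow_atTop (by linarith)).comp
      (tendsto_natCast_atTop_atTop.comp (tendsto_add_atTop_nat 1))
  filter_upwards [h1.eventually_ge_atTop C] with n hn
  have hN : (0 : ℝ) < ((n + 1 : ℕ) : ℝ) := by positivity
  have h2 : ((n + 1 : ℕ) : ℝ) ^ b = ((n + 1 : ℕ) : ℝ) ^ (b - a) * ((n + 1 : ℕ) : ℝ) ^ a := by
    rw [← Real.rpow_add hN]
    congr 1
    ring
  rw [h2]
  exact mul_le_mul_of_nonneg_right hn (by positivity)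

theorem ev_le (a C δ : ℝ) (h : a < 0) (hδ : 0 < δ) :
    ∀ᶠ n : ℕ in atTop, C * ((n + 1 : ℕ) : ℝ) ^ a ≤ δ := by
  filter_upwards [ev_rpow a 0 (C / δ) h] with n hn
  rw [Real.rpow_zero, div_mul_eq_mul_div, div_le_one hδ] at hn
  exact hn

end D2

theorem degOK_whp (μD : Measure ℕ) [IsProbabilityMeasure μD] {η : ℝ} (hη0 : 0 < η) (hη1 : η ≤ 1)
    (hmom : ∫⁻ k, ENNReal.ofReal ((k : ℝ) ^ (2 + η)) ∂μD < ⊤)
    (hD0 : 0 < ∫ k, (k : ℝ) ∂μD) {ν : ℝ}
    (hν : ν = (∫ k, (k : ℝ) * ((k : ℝ) - 1) ∂μD) / ∫ k, (k : ℝ) ∂μD) :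
    ∃ cd c0 C0 : ℝ, 0 < cd ∧ cd ≤ 1 / 2 ∧ 0 < c0 ∧ 0 < C0 ∧ ∀ ε : ℝ, 0 < ε → ∃ K1 : ℝ,
      ∀ᶠ n : ℕ in atTop, (Measure.pi fun _ : Fin (n + 1) => μD)
        {d | ¬ DegOK (vtx (d := fixParity d)) ν K1 η cd c0 C0} ≤ ENNReal.ofReal ε := by
  obtain ⟨m1, hm1⟩ : ∃ m1, m1 = ∫ k, (k : ℝ) ∂μD := ⟨_, rfl⟩
  obtain ⟨m2, hm2⟩ : ∃ m2, m2 = ∫ k, (k : ℝ) * ((k : ℝ) - 1) ∂μD := ⟨_, rfl⟩
  rw [← hm1] at hD0 hν
  rw [← hm2] at hν
  have hm20 : 0 ≤ m2 := by
    rw [hm2]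
    refine integral_nonneg fun k => ?_
    rcases Nat.eq_zero_or_pos k with h | h
    · simp [h]
    · have : (1 : ℝ) ≤ k := by exact_mod_cast h
      exact mul_nonneg (by positivity) (by linarith)
  have hν0 : 0 ≤ ν := by rw [hν]; positivity
  have hνm : ν * m1 = m2 := by rw [hν]; field_simp
  refine ⟨η / 16, m1 / 2, 2 * m1, by positivity, by linarith, by positivity, by positivity,
    fun ε hε => ?_⟩
  obtain ⟨M, hM⟩ : ∃ M, M = ∫ k, (k : ℝ) ^ (2 + η) ∂μD := ⟨_, rfl⟩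
  have hM0 : 0 ≤ M := hM ▸ D2.mom_nonneg μD
  obtain ⟨K, hK⟩ : ∃ K, K = 4 * (M + 1) / ε := ⟨_, rfl⟩
  have hK0 : 0 < K := by rw [hK]; positivity
  have hMK : M / K ≤ ε / 4 := by
    rw [div_le_iff₀ hK0, hK]
    have : ε / 4 * (4 * (M + 1) / ε) = M + 1 := by field_simp
    rw [this]
    linarith
  refine ⟨2 ^ (2 + η) * (K + 1) / (m1 / 2), ?_⟩
  have hA : 0 < (m1 / 2) ^ (1 - η / 16) := by positivity
  filter_upwards [D2.ev_le (1 - (1 + η / 2)) M (ε / 8) (by linarith) (by positivity),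
    D2.ev_le (1 - (1 + η / 2) + 2 * (η / 8)) (4 * M) (ε / 8) (by linarith) (by positivity),
    D2.ev_rpow (2 - (1 + η / 2)) (1 - η / 8) (2 * M) (by linarith),
    D2.ev_rpow (1 - η / 8) 1 (4 / m1) (by linarith),
    D2.ev_rpow (1 - η / 8) (1 - η / 16) ((2 * (1 + ν) + 2) / (m1 / 2) ^ (1 - η / 16))
      (by linarith)] with n h1 h2 h3 h4 h5
  obtain ⟨N, hN⟩ : ∃ N : ℝ, N = ((n + 1 : ℕ) : ℝ) := ⟨_, rfl⟩
  have hN1 : 1 ≤ N := by rw [hN]; exact_mod_cast Nat.le_add_left 1 n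
  have hN0 : 0 < N := by linarith
  have hs : (2 + η) = 2 * (1 + η / 2) := by ring
  have hbig : (∫ k, (k : ℝ) ^ (2 + η) ∂μD) * ((n + 1 : ℕ) : ℝ) ^ (2 - (1 + η / 2)) ≤
      ((n + 1 : ℕ) : ℝ) ^ (1 - η / 8) / 2 := by
    rw [← hM]
    linarith
  have q0 := D2.P1 μD hs (by linarith) hmom (n + 1) (Nat.succ_pos n)
  have q1 := D2.P2 μD hs (by linarith) (by linarith) hmom (fun k => (k : ℝ)) (fun k => by
    rw [abs_of_nonneg (by positivity)]
    rcases Nat.eq_zero_or_pos k with h | h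
    · simp [h]
    · have : (1 : ℝ) ≤ k := by exact_mod_cast h
      nlinarith) (n + 1) (Nat.succ_pos n) hbig
  have q2 := D2.P2 μD hs (by linarith) (by linarith) hmom (fun k => (k : ℝ) * ((k : ℝ) - 1))
    (fun k => by
      rcases Nat.eq_zero_or_pos k with h | h
      · simp [h]
      · have : (1 : ℝ) ≤ k := by exact_mod_cast h
        rw [abs_of_nonneg (mul_nonneg (by positivity) (by linarith))]
        nlinarith) (n + 1) (Nat.succ_pos n) hbig
  have q3 := D2.P3 μD hmom K hK0 (n + 1) (Nat.succ_pos n)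
  rw [← hM] at q0 q1 q2 q3
  rw [← hm1] at q1
  rw [← hm2] at q2
  have r0 := q0.trans (ENNReal.ofReal_le_ofReal (h1.trans (by linarith : ε / 8 ≤ ε / 4)))
  have r1 := q1.trans (add_le_add (ENNReal.ofReal_le_ofReal h1) (ENNReal.ofReal_le_ofReal h2))
  have r2 := q2.trans (add_le_add (ENNReal.ofReal_le_ofReal h1) (ENNReal.ofReal_le_ofReal h2))
  have r3 := q3.trans (ENNReal.ofReal_le_ofReal hMK)
  rw [← ENNReal.ofReal_add (by positivity) (by positivity)] at r1 r2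
  have hle : (1 : ℝ) ≤ N ^ (1 - η / 8) := Real.one_le_rpow hN1 (by linarith)
  have he1 : N ^ (1 - η / 8) + 1 ≤ m1 / 2 * N := by
    rw [← hN, Real.rpow_one, div_mul_eq_mul_div, div_le_iff₀ hD0] at h4
    nlinarith
  have he2 : (1 + ν) * (N ^ (1 - η / 8) + 1) + 2 * N ^ (1 / 2 : ℝ) ≤
      (m1 / 2 * N) ^ (1 - η / 16) := by
    rw [← hN, div_mul_eq_mul_div, div_le_iff₀ hA] at h5
    rw [Real.mul_rpow (by positivity) hN0.le, mul_comm ((m1 / 2) ^ (1 - η / 16))]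
    refine le_trans ?_ h5
    have g1 : N ^ (1 / 2 : ℝ) ≤ N ^ (1 - η / 8) :=
      Real.rpow_le_rpow_of_exponent_le hN1 (by linarith)
    nlinarith
  -- the inclusion
  have hsub : {d : Fin (n + 1) → ℕ | ¬ DegOK (vtx (d := fixParity d)) ν
      (2 ^ (2 + η) * (K + 1) / (m1 / 2)) η (η / 16) (m1 / 2) (2 * m1)} ⊆
      ({d | ∃ v, ((n + 1 : ℕ) : ℝ) < (d v : ℝ) ^ 2} ∪
        {d | K * ((n + 1 : ℕ) : ℝ) < ∑ v, (d v : ℝ) ^ (2 + η)}) ∪
      ({d | ((n + 1 : ℕ) : ℝ) ^ (1 - η / 8) < |∑ v, (d v : ℝ) - ((n + 1 : ℕ) : ℝ) * m1|} ∪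
        {d | ((n + 1 : ℕ) : ℝ) ^ (1 - η / 8) <
          |∑ v, (d v : ℝ) * ((d v : ℝ) - 1) - ((n + 1 : ℕ) : ℝ) * m2|}) := by
    intro d hd
    by_contra hcon
    simp only [Set.mem_union, Set.mem_ofPred_eq, not_or, not_lt, not_exists] at hcon
    obtain ⟨⟨g1, g2⟩, g3, g4⟩ := hcon
    refine hd (D2.det d hN hη0 hη1 hD0 hνm hν0 (by linarith) hK0.le ?_ ?_ ?_ ?_ he1 he2)
    · rw [hN]; exact g1
    · rw [hN]; exact g3
    · rw [hN]; exact g4
    · rw [hN]; exact g2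
  refine (measure_mono hsub).trans ((measure_union_le _ _).trans ?_)
  refine (add_le_add (measure_union_le _ _) (measure_union_le _ _)).trans ?_
  refine (add_le_add (add_le_add r0 r3) (add_le_add r1 r2)).trans (le_of_eq ?_)
  rw [← ENNReal.ofReal_add (by positivity) (by positivity),
    ← ENNReal.ofReal_add (by positivity) (by positivity),
    ← ENNReal.ofReal_add (by positivity) (by positivity)]
  congr 1
  ring

end Pool.Agent.H949.CX
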