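import Pool.Agent.H949.CX.Tiltd

/-!
# First moments of pairs of paths and of hits
-/

set_option linter.unusedSectionVars false
set_option linter.unusedSimpArgs false
set_option linter.unusedVariables false

open MeasureTheory Finset
open scoped ENNReal

namespace Pool.Agent.H949.CX

open Pool.Agent.H949.CM

variable {V H : Type} [Fintype V] [DecidableEq V] [Fintype H] [DecidableEq H]

theorem Adm.W_eq {vert : H → V} {c : Bool} {U : Finset V} {D0 : Finset H} {l : List (H × H)}
    {τ : Wt H} {W : Finset V} {xs : List H} {s : ℝ} (hA : Adm vert c U D0 l τ W xs s) {σ : Mt H}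
    (hσ : σ ∈ Al l) : U ∪ Va vert σ xs = W := by
  ext v
  rw [mem_union]
  constructor
  · rintro (h | h)
    · exact hA.sub h
    · obtain ⟨g, hg, rfl⟩ := mem_Va.1 h
      exact hA.fwd σ hσ g hg
  · intro h
    rcases hA.back σ hσ v h with h1 | ⟨g, hg, h1⟩
    · exact Or.inl h1
    · exact Or.inr (mem_Va.2 ⟨g, hg, h1⟩)

theorem ex_zero (α : ℝ) : ex α 0 = 1 := by
  unfold ex; simp

theorem ex_mul (α β s : ℝ) : ex α s * ex β s = ex (α + β) s := by
  unfold ex
  rw [← ENNReal.ofReal_mul (Real.exp_pos _).le, ← Real.exp_add]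
  congr 2
  ring

theorem ex_mono_left {α β s : ℝ} (h : β * s ≤ α * s) : ex α s ≤ ex β s := by
  unfold ex
  apply ENNReal.ofReal_le_ofReal
  apply Real.exp_le_exp.2
  linarith

/-- General comparison of products of exponentials. -/
theorem ex_le_of {α s β t : ℝ} (h : β * t ≤ α * s) : ex α s ≤ ex β t := by
  unfold ex
  apply ENNReal.ofReal_le_ofReal
  apply Real.exp_le_exp.2
  linarith

theorem ex_mul' (α s β t : ℝ) : ex α s * ex β t = ENNReal.ofReal (Real.exp (-(α * s + β * t))) := by
  unfold ex
  rw [← ENNReal.ofReal_mul (Real.exp_pos _).le, ← Real.exp_add]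
  congr 2
  ring

section

variable {κ : Measure (ℝ × ℝ)} [IsProbabilityMeasure κ] {vert : H → V} {c : Bool}
    {ok : V → ℝ → Prop} {α g0 T A0 S0 : ℝ} {nu dd c1 K3 CH q FA : ℝ≥0∞} {Fr : ℝ → ℝ≥0∞}
    {B R : ℕ}

/-- Value of the weight of a revealed path. -/
theorem ww_val {l : List (H × H)} {τ : Wt H} {W U : Finset V} {D0 : Finset H} {k : H}
    {zs : List H} {s : ℝ} (hA : Adm vert c U D0 l τ W (k :: zs) s) {σ : Mt H} (hσ : σ ∈ Al l)
    (ω : Wt H) : ww c α T A0 k zs σ (glue l τ ω) =
      if s ≤ T then 0 else if s ≤ T + A0 then ex α s else 0 := by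
  unfold ww
  rw [tm_glue hσ hA.rv, hA.time σ hσ]
  by_cases h2 : s ≤ T
  · rw [if_neg (fun hc => absurd hc.1 (not_lt.2 h2)), if_pos h2]
  · by_cases h3 : s ≤ T + A0
    · rw [if_pos ⟨not_le.1 h2, h3⟩, if_neg h2, if_pos h3]
    · rw [if_neg (fun hc => h3 hc.2), if_neg h2, if_neg h3]

/-- The second path of a pair. -/
theorem Adm.second {U : Finset V} {D0 : Finset H} {l l' : List (H × H)} {τ τ' : Wt H}
    {W W' : Finset V} {xs : List H} {s s' : ℝ} {k : H} {zs : List H}
    (hA : Adm vert c U D0 l τ W xs s) (hA' : Adm vert c U D0 l' τ' W' (k :: zs) s')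
    (hS : Sb l τ l' τ') (hx : xs <:+ (k :: zs)) : Adm vert c W' (dom l') l' τ' W' xs s := by
  refine ⟨hA'.dW, le_refl _, fun _ _ v hv => Or.inl hv, fun σ hσ g hg =>
    hA'.fwd σ hσ g (hx.subset hg), fun g hg => hA'.rv g (hx.subset hg), ?_,
    fun f hf hf' => absurd hf hf'⟩
  intro σ hσ
  rw [hS.tm hσ hA.rv]
  exact hA.time σ (hS.mem hσ)

theorem Env.JN_upper (E : Env κ vert c ok α g0 T A0 S0 nu dd c1 K3 CH q FA Fr B R)
    {U : Finset V} {D0 : Finset H} {l : List (H × H)} {τ : Wt H} {W : Finset V}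
    {xs : List H} {s : ℝ} {h h' : H} (hA : Adm vert c U D0 l τ W xs s) (hh : h ∉ dom l)
    (hhW : vert h ∈ W) (hh' : h' ∉ dom l) (hhW' : vert h' ∈ W) (hne : h ≠ h')
    (hB : (dom l).card + 4 * R ≤ B) (hs : s ≤ T) :
    EE κ l τ (JN vert c ok T U α A0 R h xs h') ≤ (dd ^ R * (ex α s * nu⁻¹)) ^ 2 := by
  classical
  set C := dd ^ R * (ex α s * nu⁻¹) with hC
  have h1 := E.tilt (U := U) (D0 := D0) (empty_subset U) {h'} l τ xs
    (Θ := fun k zs σ ω => ww c α T A0 k zs σ ω *
      PS vert c ok T (U ∪ Va vert σ (k :: zs)) (ww c α T A0) R h' xs σ ω)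
    (fun k zs σ => (measurable_ww c α T A0 k zs σ).mul (measurable_PS E.okm
      (fun h ys σ => measurable_ww c α T A0 h ys σ) σ R h' xs))
    (fun _ => 0) (fun _ => C) (fun _ => C) (fun s _ => E.sh_const C s) (B1 := B - 2 * R)
    (by omega) ?_ R l τ W xs s h hA
    ⟨Sb.refl l τ, List.suffix_refl _, fun _ _ _ _ => notMem_empty _, fun f hf => by
      rw [mem_singleton] at hf; subst hf; exact ⟨hh', hhW'⟩⟩
    (by rw [mem_singleton]; exact hne) hh hhW (by omega) hs
  · calc EE κ l τ (JN vert c ok T U α A0 R h xs h') ≤ dd ^ R * (ex α s * nu⁻¹ * C) := h1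
      _ = C ^ 2 := by rw [hC]; ring
  · intro l' τ' W' xs' s' k y hA' hC' _ _ hcard _
    have hAs := hA.second hA' hC'.sb (by
      rcases List.suffix_cons_iff.1 hC'.suf with h2 | h2
      · rw [← h2]
      · exact hC'.suf)
    have hres := hC'.res h' (mem_singleton_self h')
    refine le_trans (EE_mono (G := fun σ ω => (if s' ≤ T then 0 else if s' ≤ T + A0 then
      ex α s' else 0) * PS vert c ok T W' (ww c α T A0) R h' xs σ ω) ?_) ?_
    · intro σ hσ ω
      rw [ww_val hA' hσ ω, hA'.W_eq hσ]
    · have hct : (if s' ≤ T then 0 else if s' ≤ T + A0 then ex α s' else 0 : ℝ≥0∞) ≠ ⊤ := by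
        split_ifs
        · exact ENNReal.zero_ne_top
        · exact ex_ne_top _ _
        · exact ENNReal.zero_ne_top
      rw [EE_const_mul hct]
      have h3 : EE κ l' τ' (PS vert c ok T W' (ww c α T A0) R h' xs) ≤ C :=
        E.ww_upper hAs hres.1 hres.2 (by omega) hs
      split_ifs
      · rw [zero_mul]; exact bot_le
      · gcongr
      · rw [zero_mul]

/-- The geometric potential. -/
theorem Env.sh_geo (E : Env κ vert c ok α g0 T A0 S0 nu dd c1 K3 CH q FA Fr B R) {C : ℝ≥0∞}
    (hC : C ≠ ⊤) (hqt : q ≠ ⊤) (s : ℝ) : nu * ∫⁻ w, ex α (pr c w) * (if s + pr c w ≤ T then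
      C * ex (α - g0) (s + pr c w) + C * q * ex (α - g0) (s + pr c w)
      else if s + pr c w ≤ T + A0 then C * ex (α - g0) (s + pr c w) else 0) ∂κ ≤
        C * q * ex (α - g0) s := by
  calc nu * ∫⁻ w, ex α (pr c w) * (if s + pr c w ≤ T then
      C * ex (α - g0) (s + pr c w) + C * q * ex (α - g0) (s + pr c w)
      else if s + pr c w ≤ T + A0 then C * ex (α - g0) (s + pr c w) else 0) ∂κ
      ≤ nu * ∫⁻ w, (C * (1 + q) * ex (α - g0) s) *
          (ex α (pr c w) * ex (α - g0) (pr c w)) ∂κ := by
        refine mul_le_mul' (le_refl _) (lintegral_mono (fun w => ?_))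
        have h1 : C * ex (α - g0) (s + pr c w) + C * q * ex (α - g0) (s + pr c w) =
            C * (1 + q) * ex (α - g0) s * ex (α - g0) (pr c w) := by
          rw [ex_add]; ring
        have h2 : (if s + pr c w ≤ T then
            C * ex (α - g0) (s + pr c w) + C * q * ex (α - g0) (s + pr c w)
            else if s + pr c w ≤ T + A0 then C * ex (α - g0) (s + pr c w) else 0) ≤
            C * (1 + q) * ex (α - g0) s * ex (α - g0) (pr c w) := by
          split_ifs
          · rw [h1]
          · rw [← h1]; exact le_self_add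
          · exact bot_le
        calc _ ≤ ex α (pr c w) *
            (C * (1 + q) * ex (α - g0) s * ex (α - g0) (pr c w)) :=
              mul_le_mul' (le_refl _) h2
          _ = _ := by ring
    _ = C * ex (α - g0) s * (nu * (∫⁻ w, ex α (pr c w) * ex (α - g0) (pr c w) ∂κ) *
          (1 + q)) := by
        rw [lintegral_const_mul']
        · ring
        · exact ENNReal.mul_ne_top (ENNReal.mul_ne_top hC (by simp [hqt])) (ex_ne_top _ _)
    _ ≤ C * ex (α - g0) s * q := by gcongr; exact E.hq
    _ = C * q * ex (α - g0) s := by ring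

/-- The sum over the branchings of pairs of paths. -/
theorem Env.PC_upper (E : Env κ vert c ok α g0 T A0 S0 nu dd c1 K3 CH q FA Fr B R)
    (hqt : q ≠ ⊤) (hK3 : K3 ≠ ⊤) {U : Finset V} {D0 : Finset H} {l : List (H × H)} {τ : Wt H}
    {W : Finset V} {e : H} (hA : Adm vert c U D0 l τ W [] 0) (hh : e ∉ dom l)
    (hhW : vert e ∈ W) (hB : (dom l).card + 6 * R ≤ B) :
    EE κ l τ (PS vert c ok T U (PC vert c ok T U α A0 R) R e []) ≤
      dd ^ R * (nu⁻¹ * ((K3 * dd ^ (2 * R) * nu⁻¹ + 1) * q)) := by
  classical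
  set C := K3 * dd ^ (2 * R) * nu⁻¹ + 1 with hC
  have hCt : C ≠ ⊤ := by
    rw [hC]
    apply ENNReal.add_ne_top.2
    refine ⟨ENNReal.mul_ne_top (ENNReal.mul_ne_top hK3 (ENNReal.pow_ne_top E.ddt))
      (ENNReal.inv_ne_top.2 E.nu0), ENNReal.one_ne_top⟩
  have hJNm : ∀ (g : H) (zs : List H) (g' : H) (σ : Mt H),
      Measurable (JN vert c ok T U α A0 R g zs g' σ) := by
    intro g zs g' σ
    exact measurable_PS E.okm (fun k zs σ => (measurable_ww c α T A0 k zs σ).mul
      (measurable_PS E.okm (fun h ys σ => measurable_ww c α T A0 h ys σ) σ R g' _)) σ R g zs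
  have h1 := E.tilt (U := U) (D0 := D0) (empty_subset U) ∅ l τ []
    (Θ := PC vert c ok T U α A0 R) ?_ (fun s => C * ex (α - g0) s) (fun s => C * ex (α - g0) s)
    (fun s => C * q * ex (α - g0) s) (fun s _ => E.sh_geo hCt hqt s) (B1 := B - 4 * R)
    (by omega) ?_ R l τ W [] 0 e hA
    ⟨Sb.refl l τ, List.suffix_refl _, fun _ _ _ hg => absurd hg List.not_mem_nil, fun f hf =>
      absurd hf (notMem_empty f)⟩ (notMem_empty e) hh hhW (by omega) E.T0
  · rw [ex_zero, ex_zero, one_mul, mul_one] at h1
    exact h1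
  · intro k zs σ
    unfold PC
    refine ((measurable_ww c α T A0 k zs σ).pow_const 2).add ?_
    refine Measurable.ite (measurableSet_le (measurable_tm c σ _) measurable_const) ?_
      measurable_const
    exact Finset.measurable_fun_sum _ (fun g _ => Finset.measurable_fun_sum _ (fun g' _ =>
      hJNm _ _ _ _))
  · intro l' τ' W' xs' s' k y hA' hC' hky hnx hcard hok
    have hyW' : vert y ∈ W' := by
      apply hA'.dW
      exact mem_dom.2 ⟨(k, y), hky, Or.inr rfl⟩
    by_cases h2 : s' ≤ T
    · rw [if_pos h2]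
      refine le_trans (EE_mono (G := fun σ ω => ∑ g ∈ nxt vert y, ∑ g' ∈ (nxt vert y).erase g,
        JN vert c ok T U α A0 R g (k :: xs') g' σ ω) ?_) ?_
      · intro σ hσ ω
        have h3 : σ k = y := mem_Al.1 hσ _ hky
        unfold PC
        rw [ww_val hA' hσ ω, if_pos h2, h3, tm_glue hσ hA'.rv, hA'.time σ hσ, if_pos h2]
        simp
      · rw [EE_sum _ (fun g _ σ => Finset.measurable_fun_sum _ (fun g' _ => hJNm _ _ _ _))]
        calc ∑ g ∈ nxt vert y, EE κ l' τ' (fun σ ω => ∑ g' ∈ (nxt vert y).erase g,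
              JN vert c ok T U α A0 R g (k :: xs') g' σ ω)
            ≤ ∑ g ∈ nxt vert y, ((deg vert (vert y) : ℕ) : ℝ≥0∞) *
                (dd ^ R * (ex α s' * nu⁻¹)) ^ 2 := by
              apply Finset.sum_le_sum
              intro g hg
              rw [EE_sum _ (fun g' _ σ => hJNm _ _ _ _)]
              calc ∑ g' ∈ (nxt vert y).erase g, EE κ l' τ'
                    (JN vert c ok T U α A0 R g (k :: xs') g')
                  ≤ ∑ g' ∈ (nxt vert y).erase g, (dd ^ R * (ex α s' * nu⁻¹)) ^ 2 := by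
                    apply Finset.sum_le_sum
                    intro g' hg'
                    have hg'2 := Finset.mem_of_mem_erase hg'
                    refine E.JN_upper hA' (hnx g hg) ?_ (hnx g' hg'2) ?_
                      (Finset.ne_of_mem_erase hg').symm (by omega) h2
                    · rw [(mem_nxt.1 hg).1]; exact hyW'
                    · rw [(mem_nxt.1 hg'2).1]; exact hyW'
                _ ≤ ((deg vert (vert y) : ℕ) : ℝ≥0∞) * (dd ^ R * (ex α s' * nu⁻¹)) ^ 2 := by
                    rw [sum_const, nsmul_eq_mul]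
                    gcongr
                    rw [card_erase_of_mem hg, card_nxt]
                    omega
          _ = ((deg vert (vert y) - 1 : ℕ) : ℝ≥0∞) * (ex α s' * nu⁻¹ *
                (((deg vert (vert y) : ℕ) : ℝ≥0∞) * ex α s' * (dd ^ (2 * R) * nu⁻¹))) := by
              rw [sum_const, nsmul_eq_mul, card_nxt]
              rw [show 2 * R = R + R by ring, pow_add]
              ring
          _ ≤ ((deg vert (vert y) - 1 : ℕ) : ℝ≥0∞) * (ex α s' * nu⁻¹ *
                (C * ex (α - g0) s')) := by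
              refine mul_le_mul' (le_refl _) (mul_le_mul' (le_refl _) ?_)
              calc ((deg vert (vert y) : ℕ) : ℝ≥0∞) * ex α s' * (dd ^ (2 * R) * nu⁻¹)
                  ≤ (K3 * ex (-g0) s') * ex α s' * (dd ^ (2 * R) * nu⁻¹) := by
                    gcongr; exact E.ok1 _ _ hok
                _ = K3 * dd ^ (2 * R) * nu⁻¹ * (ex (-g0) s' * ex α s') := by ring
                _ = K3 * dd ^ (2 * R) * nu⁻¹ * ex (α - g0) s' := by
                    rw [ex_mul]; congr 2; ring
                _ ≤ C * ex (α - g0) s' := by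
                    gcongr
                    rw [hC]; exact le_self_add
    · rw [if_neg h2]
      have hs'0 := E.ok0 _ _ hok
      refine le_trans (EE_mono (G := fun _ _ => if s' ≤ T + A0 then ex α s' ^ 2 else 0) ?_) ?_
      · intro σ hσ ω
        unfold PC
        rw [ww_val hA' hσ ω, if_neg h2, tm_glue hσ hA'.rv, hA'.time σ hσ, if_neg h2, add_zero]
        split_ifs
        · exact le_refl _
        · simp
      · refine le_trans (EE_const_le _ _ _) ?_
        split_ifs
        · rw [sq]
          refine mul_le_mul' (le_refl _) ?_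
          calc ex α s' ≤ ex (α - g0) s' := by
                apply ex_mono_left
                have := E.g00
                nlinarith
            _ = 1 * ex (α - g0) s' := (one_mul _).symm
            _ ≤ C * ex (α - g0) s' := by
                gcongr
                rw [hC]; exact le_add_self
        · exact le_refl _

end

end Pool.Agent.H949.CX
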