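import Pool.Agent.H949.CX.Dist

/-!
# First moment of the hits from outside
-/

set_option linter.unusedSectionVars false
set_option linter.unusedSimpArgs false
set_option linter.unusedVariables false

open MeasureTheory Finset
open scoped ENNReal

namespace Pool.Agent.H949.CX

open Pool.Agent.H949.CM

variable {V H : Type} [Fintype V] [DecidableEq V] [Fintype H] [DecidableEq H]

theorem SumPre_mul (a : ℝ≥0∞) (f : H → List H → ℝ≥0∞) (γ : List H) :
    a * SumPre f γ = SumPre (fun g ys => a * f g ys) γ := by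
  induction γ with
  | nil => simp [SumPre]
  | cons g ys ih => simp only [SumPre]; rw [mul_add, ih]

theorem SumPre_add (f f' : H → List H → ℝ≥0∞) (γ : List H) :
    SumPre (fun g ys => f g ys + f' g ys) γ = SumPre f γ + SumPre f' γ := by
  induction γ with
  | nil => simp [SumPre]
  | cons g ys ih => simp only [SumPre]; rw [ih]; ring

theorem PS_SumPre {vert : H → V} {c : Bool} {ok : V → ℝ → Prop} {T : ℝ} {U : Finset V}
    (F : H → List H → H → List H → Mt H → Wt H → ℝ≥0∞) (σ : Mt H) (ω : Wt H) (r : ℕ) (h : H)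
    (xs : List H) (L : List H) :
    PS vert c ok T U (fun k zs σ ω => SumPre (fun g ys => F k zs g ys σ ω) L) r h xs σ ω =
      SumPre (fun g ys => PS vert c ok T U (fun k zs σ ω => F k zs g ys σ ω) r h xs σ ω) L := by
  induction L with
  | nil => simp only [SumPre]; exact PS_zero σ ω r h xs
  | cons g ys ih =>
    simp only [SumPre]
    rw [← ih, ← PS_add]

/-- Resummation for full paths. -/
theorem PS_resum0 {vert : H → V} {c : Bool} {ok : V → ℝ → Prop} {T : ℝ} {U : Finset V}
    (f : H → List H → H → List H → Mt H → Wt H → ℝ≥0∞) (σ : Mt H) (ω : Wt H) (R : ℕ) (h : H) :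
      PS vert c ok T U (fun k zs σ ω => SumPre (fun g ys => f k zs g ys σ ω) (k :: zs)) R h []
        σ ω ≤
      PS vert c ok T U (fun g ys σ ω => f g ys g ys σ ω +
        open Classical in (if tm c σ ω (g :: ys) ≤ T then
          ∑ g' ∈ nxt vert (σ g), PS vert c ok T U (fun k zs σ ω => f k zs g ys σ ω) R g' (g :: ys)
            σ ω else 0)) R h [] σ ω := by
  refine le_trans (PS_resum f σ ω R R (le_refl _) h []) ?_
  have h1 : PS vert c ok T U (fun k zs σ ω => SumPre (fun g ys => f k zs g ys σ ω) []) R h []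
      σ ω = 0 := by
    simp only [SumPre]
    exact PS_zero σ ω R h []
  rw [h1, add_zero]

theorem one_le_deg (vert : H → V) (y : H) : 1 ≤ deg vert (vert y) := by
  unfold deg
  exact Finset.card_pos.2 ⟨y, by simp⟩

theorem measurable_D2 {vert : H → V} {c c' : Bool} {U : Finset V} {R : ℕ} {Rq : Finset H}
    {S' : ℝ} (k : H) (zs : List H) (g : H) (ys : List H) (σ : Mt H) :
    Measurable (D2 vert c c' U R Rq S' k zs g ys σ) := by
  unfold D2
  exact Finset.measurable_fun_sum _ (fun f _ => measurable_HN' ((measurable_tm c σ _).add_const _))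

theorem measurable_D1 {vert : H → V} {c : Bool} {U : Finset V} {R : ℕ}
    (k : H) (zs : List H) (g : H) (ys : List H) (g' : H) (ys' : List H) (σ : Mt H) :
    Measurable (D1 vert c U R k zs g ys g' ys' σ) := by
  unfold D1
  exact Finset.measurable_fun_sum _ (fun f _ =>
    measurable_HN' ((measurable_tm c σ _).sub (measurable_tm c σ _)))

theorem measurable_SumPre {F : H → List H → Wt H → ℝ≥0∞} (h : ∀ g ys, Measurable (F g ys))
    (L : List H) : Measurable (fun ω => SumPre (fun g ys => F g ys ω) L) := by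
  induction L with
  | nil => simp only [SumPre]; exact measurable_const
  | cons g ys ih => simp only [SumPre]; exact (h g ys).add ih

section

variable {κ : Measure (ℝ × ℝ)} [IsProbabilityMeasure κ] {vert : H → V} {c : Bool}
    {ok : V → ℝ → Prop} {α g0 T A0 S0 : ℝ} {nu dd c1 K3 CH q FA : ℝ≥0∞} {Fr : ℝ → ℝ≥0∞}
    {B R : ℕ}

theorem ex_id (α g0 T s : ℝ) : ex (-g0) (T - s) * ex (-α) s = ex (-α) T * ex (α - g0) (T - s) := by
  rw [ex_mul', ex_mul']
  congr 2
  ring

/-- The renewal potential. -/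
theorem Env.sh_ren (E : Env κ vert c ok α g0 T A0 S0 nu dd c1 K3 CH q FA Fr B R) (C : ℝ≥0∞)
    (hC : C ≠ ⊤) (M0 : ℝ≥0∞) (hM0 : M0 ≠ ⊤) (s : ℝ) (hs : s ≤ T) :
    nu * ∫⁻ w, ex α (pr c w) * (if s + pr c w ≤ T then
      C * ex (α - g0) (T - (s + pr c w)) + C * (Fr (s + pr c w) + M0)
      else if s + pr c w ≤ T + A0 then C * M0 else 0) ∂κ ≤ C * (Fr s + M0) := by
  classical
  have hm : Measurable (fun w => ex α (pr c w)) := (measurable_ex α).comp (measurable_pr c)
  have hm2 : Measurable (fun w : ℝ × ℝ => if s + pr c w ≤ T then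
      ex (α - g0) (T - (s + pr c w)) + Fr (s + pr c w) else 0) := by
    have h1 : Measurable (fun w : ℝ × ℝ => s + pr c w) := (measurable_pr c).const_add s
    refine Measurable.ite (measurableSet_le h1 measurable_const) ?_ measurable_const
    exact ((measurable_ex _).comp (h1.const_sub T)).add (E.Frm.comp h1)
  have hm3 : Measurable (fun w : ℝ × ℝ => C * (ex α (pr c w) * (if s + pr c w ≤ T then
      ex (α - g0) (T - (s + pr c w)) + Fr (s + pr c w) else 0))) := (hm.mul hm2).const_mul C
  calc nu * ∫⁻ w, ex α (pr c w) * (if s + pr c w ≤ T then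
      C * ex (α - g0) (T - (s + pr c w)) + C * (Fr (s + pr c w) + M0)
      else if s + pr c w ≤ T + A0 then C * M0 else 0) ∂κ
      ≤ nu * ∫⁻ w, (C * (ex α (pr c w) * (if s + pr c w ≤ T then
          ex (α - g0) (T - (s + pr c w)) + Fr (s + pr c w) else 0)) +
          C * M0 * ex α (pr c w)) ∂κ := by
        refine mul_le_mul' (le_refl _) (lintegral_mono (fun w => ?_))
        by_cases h1 : s + pr c w ≤ T
        · simp only [if_pos h1]
          apply le_of_eq
          ring
        · simp only [if_neg h1]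
          by_cases h2 : s + pr c w ≤ T + A0
          · simp only [if_pos h2]
            apply le_of_eq
            ring
          · simp only [if_neg h2]
            simp
    _ = C * (nu * ∫⁻ w, ex α (pr c w) * (if s + pr c w ≤ T then
          ex (α - g0) (T - (s + pr c w)) + Fr (s + pr c w) else 0) ∂κ) +
          C * M0 * (nu * nu⁻¹) := by
        rw [lintegral_add_left hm3, lintegral_const_mul' _ _ hC,
          lintegral_const_mul' _ _ (ENNReal.mul_ne_top hC hM0), E.hα]
        ring
    _ ≤ C * Fr s + C * M0 * 1 := by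
        rw [E.nn]
        gcongr
        exact E.hF s hs
    _ = C * (Fr s + M0) := by ring

/-- The expected number of hits of a revealed path. -/
theorem Env.d2_bd (E : Env κ vert c ok α g0 T A0 S0 nu dd c1 K3 CH q FA Fr B R) {c' : Bool}
    {Rq : Finset H} {S' : ℝ} (hS' : S' ≤ S0) {U : Finset V} {D0 : Finset H}
    (hD0 : ∀ f ∈ Rq, f ∉ D0) (hRU : ∀ f ∈ Rq, vert f ∈ U) {l : List (H × H)} {τ : Wt H}
    {W : Finset V} {k : H} {zs : List H} {s : ℝ} (hA : Adm vert c U D0 l τ W (k :: zs) s)
    {g y : H} {ys : List H} {t : ℝ} (hgy : (g, y) ∈ l) (hsub : (g :: ys) <:+ (k :: zs))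
    (ht : ∀ σ ∈ Al l, tm c σ τ (g :: ys) = t) (hcard : (dom l).card + 2 * R ≤ B)
    (htT : t ≤ T + A0) :
    EE κ l τ (fun σ ω => ww c α T A0 k zs σ ω * D2 vert c c' U R Rq S' k zs g ys σ ω) ≤
      if s ≤ T then 0 else if s ≤ T + A0 then ex α s * (((Rq.card : ℕ) : ℝ≥0∞) *
        (CH * ((deg vert (vert y) : ℕ) : ℝ≥0∞) * ex (-α) (t + S'))) else 0 := by
  classical
  have hyW : vert y ∈ W := hA.dW _ (mem_dom.2 ⟨(g, y), hgy, Or.inr rfl⟩)
  set wc : ℝ≥0∞ := if s ≤ T then 0 else if s ≤ T + A0 then ex α s else 0 with hwc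
  have hwct : wc ≠ ⊤ := by
    rw [hwc]
    split_ifs
    · exact ENNReal.zero_ne_top
    · exact ex_ne_top _ _
    · exact ENNReal.zero_ne_top
  refine le_trans (EE_mono (G := fun σ ω => wc * ∑ f ∈ Rq.filter (fun f => f ∉ dom l),
    HN vert c' (vert y) R W f (t + S') σ ω) ?_) ?_
  · intro σ hσ ω
    rw [ww_val hA hσ ω]
    refine mul_le_mul' (le_refl _) ?_
    unfold D2
    have h1 : σ g = y := mem_Al.1 hσ _ hgy
    rw [hA.W_eq hσ, h1, tm_glue hσ (fun k hk => hA.rv k (hsub.subset hk)), ht σ hσ]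
    apply Finset.sum_le_sum_of_subset
    intro f hf
    rw [mem_FE] at hf
    rw [mem_filter]
    refine ⟨hf.1, fun hd => ?_⟩
    rcases hA.fresh f hd (hD0 f hf.1) σ hσ with h2 | h2
    · exact hf.2.1 h2
    · exact hf.2.2 h2
  · rw [EE_const_mul hwct, EE_sum _ (fun f _ σ => measurable_HN' measurable_const)]
    have h2 : ∑ f ∈ Rq.filter (fun f => f ∉ dom l), EE κ l τ
        (HN vert c' (vert y) R W f (t + S')) ≤ ((Rq.card : ℕ) : ℝ≥0∞) *
          (CH * ((deg vert (vert y) : ℕ) : ℝ≥0∞) * ex (-α) (t + S')) := by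
      calc ∑ f ∈ Rq.filter (fun f => f ∉ dom l), EE κ l τ
            (HN vert c' (vert y) R W f (t + S'))
          ≤ ∑ f ∈ Rq.filter (fun f => f ∉ dom l),
              (CH * ((deg vert (vert y) : ℕ) : ℝ≥0∞) * ex (-α) (t + S')) := by
            apply Finset.sum_le_sum
            intro f hf
            rw [mem_filter] at hf
            exact E.hit c' (vert y) l τ W f (t + S') hA.dW (hA.sub (hRU f hf.1)) hf.2 hyW
              (one_le_deg vert y) hcard (by linarith)
        _ ≤ _ := by
            rw [sum_const, nsmul_eq_mul]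
            gcongr
            exact filter_subset _ _
    calc wc * _ ≤ wc * (((Rq.card : ℕ) : ℝ≥0∞) *
          (CH * ((deg vert (vert y) : ℕ) : ℝ≥0∞) * ex (-α) (t + S'))) :=
          mul_le_mul' (le_refl _) h2
      _ ≤ _ := by
          rw [hwc]
          split_ifs
          · rw [zero_mul]
          · exact le_refl _
          · rw [zero_mul]

/-- The expected number of hits from outside. -/
theorem Env.D2_upper (E : Env κ vert c ok α g0 T A0 S0 nu dd c1 K3 CH q FA Fr B R) {c' : Bool}
    {Rq : Finset H} {S' : ℝ} (hS' : S' ≤ S0) (hK3 : K3 ≠ ⊤) {U : Finset V} {D0 : Finset H}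
    (hD0 : ∀ f ∈ Rq, f ∉ D0) (hRU : ∀ f ∈ Rq, vert f ∈ U) {l : List (H × H)} {τ : Wt H}
    {W : Finset V} {e : H} (hA : Adm vert c U D0 l τ W [] 0) (hh : e ∉ dom l)
    (hhW : vert e ∈ W) (hB : (dom l).card + 6 * R ≤ B) :
    EE κ l τ (PS vert c ok T U (fun k zs σ ω => ww c α T A0 k zs σ ω *
      SumPre (fun g ys => D2 vert c c' U R Rq S' k zs g ys σ ω) (k :: zs)) R e []) ≤
      dd ^ R * (nu⁻¹ * ((dd ^ R * (((Rq.card : ℕ) : ℝ≥0∞) * CH * K3 * ex (-α) S' * ex (-α) T)) *
        (FA + ex (α - g0) (-A0)))) := by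
  classical
  set f : H → List H → H → List H → Mt H → Wt H → ℝ≥0∞ := fun k zs g ys σ ω =>
    ww c α T A0 k zs σ ω * D2 vert c c' U R Rq S' k zs g ys σ ω with hf
  have hfm : ∀ k zs g ys σ, Measurable (f k zs g ys σ) := fun k zs g ys σ =>
    (measurable_ww c α T A0 k zs σ).mul (measurable_D2 k zs g ys σ)
  set EC : ℝ≥0∞ := dd ^ R * (((Rq.card : ℕ) : ℝ≥0∞) * CH * K3 * ex (-α) S' * ex (-α) T) with hEC
  set M0 : ℝ≥0∞ := ex (α - g0) (-A0) with hM0
  have hECt : EC ≠ ⊤ := by
    rw [hEC]
    refine ENNReal.mul_ne_top (ENNReal.pow_ne_top E.ddt) (ENNReal.mul_ne_top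
      (ENNReal.mul_ne_top (ENNReal.mul_ne_top (ENNReal.mul_ne_top (ENNReal.natCast_ne_top _)
        E.CHt) hK3) (ex_ne_top _ _)) (ex_ne_top _ _))
  set Θ : H → List H → Mt H → Wt H → ℝ≥0∞ := fun g ys σ ω => f g ys g ys σ ω +
        (if tm c σ ω (g :: ys) ≤ T then
          ∑ g' ∈ nxt vert (σ g), PS vert c ok T U (fun k zs σ ω => f k zs g ys σ ω) R g' (g :: ys)
            σ ω else 0) with hΘ
  have hPm : ∀ g ys g' (σ : Mt H), Measurable
      (PS vert c ok T U (fun k zs σ ω => f k zs g ys σ ω) R g' (g :: ys) σ) := fun g ys g' σ =>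
    measurable_PS E.okm (fun k zs σ => hfm k zs g ys σ) σ R g' (g :: ys)
  have hΘm : ∀ g ys σ, Measurable (Θ g ys σ) := by
    intro g ys σ
    refine (hfm g ys g ys σ).add ?_
    refine Measurable.ite (measurableSet_le (measurable_tm c σ _) measurable_const) ?_
      measurable_const
    exact Finset.measurable_fun_sum _ (fun g' _ => hPm g ys g' σ)
  have h0 : EE κ l τ (PS vert c ok T U (fun k zs σ ω => ww c α T A0 k zs σ ω *
      SumPre (fun g ys => D2 vert c c' U R Rq S' k zs g ys σ ω) (k :: zs)) R e []) ≤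
      EE κ l τ (PS vert c ok T U Θ R e []) := by
    apply EE_mono
    intro σ hσ ω
    have h1 : (fun k zs σ ω => ww c α T A0 k zs σ ω *
      SumPre (fun g ys => D2 vert c c' U R Rq S' k zs g ys σ ω) (k :: zs)) =
      (fun (k : H) (zs : List H) (σ : Mt H) (ω : Wt H) =>
        SumPre (fun g ys => f k zs g ys σ ω) (k :: zs)) := by
      funext k zs σ ω
      rw [SumPre_mul]
    rw [h1]
    exact PS_resum0 f σ _ R e
  refine le_trans h0 ?_
  have h1 := E.tilt (U := U) (D0 := D0) (empty_subset U) ∅ l τ []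
    hΘm (fun s => EC * ex (α - g0) (T - s)) (fun s => EC * M0)
    (fun s => EC * (Fr s + M0)) (fun s hs => E.sh_ren EC hECt M0 (ex_ne_top _ _) s hs)
    (B1 := B - 4 * R) (by omega) ?_ R l τ W [] 0 e hA
    ⟨Sb.refl l τ, List.suffix_refl _, fun _ _ _ hg => absurd hg List.not_mem_nil, fun f hf =>
      absurd hf (notMem_empty f)⟩ (notMem_empty e) hh hhW (by omega) E.T0
  · rw [ex_zero, one_mul] at h1
    refine le_trans h1 ?_
    gcongr
    exact E.hFA 0 E.T0
  · intro l' τ' W' xs' s' g y hA' hC' hky hnx hcard hok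
    have hyW' : vert y ∈ W' := hA'.dW _ (mem_dom.2 ⟨(g, y), hky, Or.inr rfl⟩)
    set HB : ℝ≥0∞ := ((Rq.card : ℕ) : ℝ≥0∞) *
        (CH * ((deg vert (vert y) : ℕ) : ℝ≥0∞) * ex (-α) (s' + S')) with hHB
    rw [EE_add (fun σ => hfm g xs' g xs' σ)]
    -- bound for the constant of the hits
    have hHBle : HB ≤ ((Rq.card : ℕ) : ℝ≥0∞) * CH * K3 * ex (-α) S' * ex (-α) T *
        ex (α - g0) (T - s') := by
      calc HB ≤ ((Rq.card : ℕ) : ℝ≥0∞) * (CH * (K3 * ex (-g0) (T - s')) *
            ex (-α) (s' + S')) := by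
            rw [hHB]
            exact mul_le_mul' (le_refl _) (mul_le_mul' (mul_le_mul' (le_refl _)
              (E.ok2 _ _ hok)) (le_refl _))
        _ = ((Rq.card : ℕ) : ℝ≥0∞) * CH * K3 * ex (-α) S' *
            (ex (-g0) (T - s') * ex (-α) s') := by
            rw [ex_add]; ring
        _ = _ := by rw [ex_id]; ring
    by_cases h2 : s' ≤ T
    · rw [if_pos h2]
      have e1 : EE κ l' τ' (f g xs' g xs') ≤ 0 := by
        have := E.d2_bd (c' := c') (Rq := Rq) hS' hD0 hRU hA' (ys := xs') (t := s') hky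
          (List.suffix_refl _) (fun σ hσ => hA'.time σ hσ) (by omega) (by linarith [E.A00])
        rw [if_pos h2] at this
        exact this
      have e2 : EE κ l' τ' (fun σ ω => if tm c σ ω (g :: xs') ≤ T then
          ∑ g' ∈ nxt vert (σ g), PS vert c ok T U (fun k zs σ ω => f k zs g xs' σ ω) R g'
            (g :: xs') σ ω else 0) ≤
          ((deg vert (vert y) - 1 : ℕ) : ℝ≥0∞) * (dd ^ R * (ex α s' * nu⁻¹ * HB)) := by
        refine le_trans (EE_mono (G := fun σ ω => ∑ g' ∈ nxt vert y,
          PS vert c ok T U (fun k zs σ ω => f k zs g xs' σ ω) R g' (g :: xs') σ ω) ?_) ?_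
        · intro σ hσ ω
          have h3 : σ g = y := mem_Al.1 hσ _ hky
          rw [h3]
          split_ifs
          · exact le_refl _
          · exact bot_le
        · rw [EE_sum _ (fun g' _ σ => hPm g xs' g' σ)]
          rw [← card_nxt, ← nsmul_eq_mul, ← Finset.sum_const]
          apply Finset.sum_le_sum
          intro g' hg'
          refine E.tilt (U := U) (D0 := D0) (empty_subset U) ∅ l' τ' (g :: xs')
            (fun k zs σ => hfm k zs g xs' σ) (fun _ => 0) (fun _ => HB) (fun _ => HB)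
            (fun s _ => E.sh_const HB s) (B1 := B - 2 * R) (by omega) ?_ R l' τ' W' (g :: xs')
            s' g' hA' ⟨Sb.refl l' τ', List.suffix_refl _, fun _ _ _ _ => notMem_empty _,
              fun f hf => absurd hf (notMem_empty f)⟩ (notMem_empty g') (hnx g' hg') ?_
            (by omega) h2
          · intro l'' τ'' W'' xs'' s'' k y'' hA'' hC'' _ _ hcard'' _
            have hsub : (g :: xs') <:+ (k :: xs'') := hC''.suf
            have := E.d2_bd (c' := c') (Rq := Rq) hS' hD0 hRU hA'' (ys := xs') (t := s')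
              (hC''.sb.1.subset hky) hsub
              (fun σ hσ => by
                rw [hC''.sb.tm hσ hA'.rv]
                exact hA'.time σ (hC''.sb.mem hσ)) (by omega) (by linarith [E.A00])
            refine le_trans this ?_
            by_cases h5 : s'' ≤ T
            · rw [if_pos h5, if_pos h5]; exact bot_le
            · rw [if_neg h5, if_neg h5]
          · rw [(mem_nxt.1 hg').1]; exact hyW'
      calc EE κ l' τ' (f g xs' g xs') + _
          ≤ 0 + ((deg vert (vert y) - 1 : ℕ) : ℝ≥0∞) * (dd ^ R * (ex α s' * nu⁻¹ * HB)) :=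
            add_le_add e1 e2
        _ = ((deg vert (vert y) - 1 : ℕ) : ℝ≥0∞) * (ex α s' * nu⁻¹ * (dd ^ R * HB)) := by ring
        _ ≤ ((deg vert (vert y) - 1 : ℕ) : ℝ≥0∞) * (ex α s' * nu⁻¹ *
              (EC * ex (α - g0) (T - s'))) := by
            refine mul_le_mul' (le_refl _) (mul_le_mul' (le_refl _) ?_)
            rw [hEC, mul_assoc]
            exact mul_le_mul' (le_refl _) hHBle
    · rw [if_neg h2]
      have e2 : EE κ l' τ' (fun σ ω => if tm c σ ω (g :: xs') ≤ T then
          ∑ g' ∈ nxt vert (σ g), PS vert c ok T U (fun k zs σ ω => f k zs g xs' σ ω) R g'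
            (g :: xs') σ ω else 0) ≤ 0 := by
        refine le_trans (EE_mono (G := fun _ _ => 0) ?_) (EE_zero l' τ').le
        intro σ hσ ω
        rw [tm_glue hσ hA'.rv, hA'.time σ hσ, if_neg h2]
      by_cases h3 : s' ≤ T + A0
      · rw [if_pos h3]
        have e1 : EE κ l' τ' (f g xs' g xs') ≤ ex α s' * HB := by
          have := E.d2_bd (c' := c') (Rq := Rq) hS' hD0 hRU hA' (ys := xs') (t := s') hky
            (List.suffix_refl _) (fun σ hσ => hA'.time σ hσ) (by omega) h3
          rw [if_neg h2, if_pos h3] at this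
          exact this
        refine le_trans (add_le_add e1 e2) ?_
        rw [add_zero]
        refine mul_le_mul' (le_refl _) ?_
        refine le_trans hHBle ?_
        rw [hEC, hM0]
        calc ((Rq.card : ℕ) : ℝ≥0∞) * CH * K3 * ex (-α) S' * ex (-α) T * ex (α - g0) (T - s')
            ≤ ((Rq.card : ℕ) : ℝ≥0∞) * CH * K3 * ex (-α) S' * ex (-α) T *
                ex (α - g0) (-A0) := by
              refine mul_le_mul' (le_refl _) (ex_le_ex (by linarith [E.gα]) (by linarith))
          _ = 1 * (((Rq.card : ℕ) : ℝ≥0∞) * CH * K3 * ex (-α) S' * ex (-α) T) *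
                ex (α - g0) (-A0) := by rw [one_mul]
          _ ≤ _ := mul_le_mul' (mul_le_mul' (one_le_pow₀ E.dd1) (le_refl _)) (le_refl _)
      · rw [if_neg h3]
        have e1 : EE κ l' τ' (f g xs' g xs') ≤ 0 := by
          refine le_trans (EE_mono (G := fun _ _ => 0) ?_) (EE_zero l' τ').le
          intro σ hσ ω
          show ww c α T A0 g xs' σ _ * _ ≤ 0
          rw [ww_val hA' hσ ω, if_neg h2, if_neg h3, zero_mul]
        calc _ ≤ (0 : ℝ≥0∞) + 0 := add_le_add e1 e2
          _ = 0 := by rw [add_zero]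

end

end Pool.Agent.H949.CX
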