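import Pool.Agent.H949.CX.Dist2

/-!
# First moment of the hits from the path itself
-/

set_option linter.unusedSectionVars false
set_option linter.unusedSimpArgs false
set_option linter.unusedVariables false

open MeasureTheory Finset
open scoped ENNReal

namespace Pool.Agent.H949.CX

open Pool.Agent.H949.CM

variable {V H : Type} [Fintype V] [DecidableEq V] [Fintype H] [DecidableEq H]

section

variable {κ : Measure (ℝ × ℝ)} [IsProbabilityMeasure κ] {vert : H → V} {c : Bool}
    {ok : V → ℝ → Prop} {α g0 T A0 S0 : ℝ} {nu dd c1 K3 CH q FA : ℝ≥0∞} {Fr : ℝ → ℝ≥0∞}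
    {B R : ℕ}

/-- The expected number of hits from a vertex of a revealed path. -/
theorem Env.d1_bd (E : Env κ vert c ok α g0 T A0 S0 nu dd c1 K3 CH q FA Fr B R)
    {U : Finset V} {D0 : Finset H} (hD0 : ∀ f ∈ D0, vert f ∈ U) {l : List (H × H)} {τ : Wt H}
    {W : Finset V} {k : H} {zs : List H} {s : ℝ} (hA : Adm vert c U D0 l τ W (k :: zs) s)
    {g y : H} {ys : List H} {t : ℝ} (hgy : (g, y) ∈ l) (hsub : (g :: ys) <:+ (k :: zs))
    (ht : ∀ σ ∈ Al l, tm c σ τ (g :: ys) = t)
    {g' y' : H} {ys' : List H} {t' : ℝ} (hgy' : (g', y') ∈ l) (hsub' : (g' :: ys') <:+ (k :: zs))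
    (ht' : ∀ σ ∈ Al l, tm c σ τ (g' :: ys') = t') (hy'U : vert y' ∉ U)
    (hcard : (dom l).card + 2 * R ≤ B) (htT : t ≤ T + A0) (ht'0 : 0 ≤ t') :
    EE κ l τ (fun σ ω => ww c α T A0 k zs σ ω * D1 vert c U R k zs g ys g' ys' σ ω) ≤
      if s ≤ T then 0 else if s ≤ T + A0 then ex α s * (((deg vert (vert y') : ℕ) : ℝ≥0∞) *
        (CH * ((deg vert (vert y) : ℕ) : ℝ≥0∞) * ex (-α) (t - t'))) else 0 := by
  classical
  have hyW : vert y ∈ W := hA.dW _ (mem_dom.2 ⟨(g, y), hgy, Or.inr rfl⟩)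
  have hyW' : vert y' ∈ W := hA.dW _ (mem_dom.2 ⟨(g', y'), hgy', Or.inr rfl⟩)
  set wc : ℝ≥0∞ := if s ≤ T then 0 else if s ≤ T + A0 then ex α s else 0 with hwc
  have hwct : wc ≠ ⊤ := by
    rw [hwc]
    split_ifs
    · exact ENNReal.zero_ne_top
    · exact ex_ne_top _ _
    · exact ENNReal.zero_ne_top
  refine le_trans (EE_mono (G := fun σ ω => wc * ∑ f ∈ (nxt vert y').filter (fun f => f ∉ dom l),
    HN vert c (vert y) R W f (t - t') σ ω) ?_) ?_
  · intro σ hσ ω
    rw [ww_val hA hσ ω]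
    refine mul_le_mul' (le_refl _) ?_
    unfold D1
    have h1 : σ g = y := mem_Al.1 hσ _ hgy
    have h1' : σ g' = y' := mem_Al.1 hσ _ hgy'
    rw [hA.W_eq hσ, h1, h1', tm_glue hσ (fun k hk => hA.rv k (hsub.subset hk)), ht σ hσ,
      tm_glue hσ (fun k hk => hA.rv k (hsub'.subset hk)), ht' σ hσ]
    apply Finset.sum_le_sum_of_subset
    intro f hf
    rw [mem_FE] at hf
    rw [mem_filter]
    refine ⟨hf.1, fun hd => ?_⟩
    have hfD : f ∉ D0 := by
      intro hc
      have h3 := hD0 f hc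
      rw [(mem_nxt.1 hf.1).1] at h3
      exact hy'U h3
    rcases hA.fresh f hd hfD σ hσ with h2 | h2
    · exact hf.2.1 h2
    · exact hf.2.2 h2
  · rw [EE_const_mul hwct, EE_sum _ (fun f _ σ => measurable_HN' measurable_const)]
    have h2 : ∑ f ∈ (nxt vert y').filter (fun f => f ∉ dom l), EE κ l τ
        (HN vert c (vert y) R W f (t - t')) ≤ ((deg vert (vert y') : ℕ) : ℝ≥0∞) *
          (CH * ((deg vert (vert y) : ℕ) : ℝ≥0∞) * ex (-α) (t - t')) := by
      calc ∑ f ∈ (nxt vert y').filter (fun f => f ∉ dom l), EE κ l τ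
            (HN vert c (vert y) R W f (t - t'))
          ≤ ∑ f ∈ (nxt vert y').filter (fun f => f ∉ dom l),
              (CH * ((deg vert (vert y) : ℕ) : ℝ≥0∞) * ex (-α) (t - t')) := by
            apply Finset.sum_le_sum
            intro f hf
            rw [mem_filter] at hf
            refine E.hit c (vert y) l τ W f (t - t') hA.dW ?_ hf.2 hyW
              (one_le_deg vert y) hcard (by linarith [E.S00])
            rw [(mem_nxt.1 hf.1).1]
            exact hyW'
        _ ≤ _ := by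
            rw [sum_const, nsmul_eq_mul]
            gcongr
            refine le_trans (card_le_card (filter_subset _ _)) ?_
            rw [card_nxt]
            omega
    calc wc * _ ≤ wc * (((deg vert (vert y') : ℕ) : ℝ≥0∞) *
          (CH * ((deg vert (vert y) : ℕ) : ℝ≥0∞) * ex (-α) (t - t'))) :=
          mul_le_mul' (le_refl _) h2
      _ ≤ _ := by
          rw [hwc]
          split_ifs
          · rw [zero_mul]
          · exact le_refl _
          · rw [zero_mul]

open Classical in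
/-- Hits from the end of `g' :: ys'` to the end of `g :: ys`, over all continuations. -/
noncomputable def Phi (vert : H → V) (c : Bool) (ok : V → ℝ → Prop) (T : ℝ) (U : Finset V)
    (α A0 : ℝ) (R : ℕ) (g : H) (ys : List H) (g' : H) (ys' : List H) (σ : Mt H) (ω : Wt H) :
    ℝ≥0∞ :=
  ww c α T A0 g ys σ ω * D1 vert c U R g ys g ys g' ys' σ ω +
    (if tm c σ ω (g :: ys) ≤ T then
      ∑ h ∈ nxt vert (σ g), PS vert c ok T U (fun k zs σ ω => ww c α T A0 k zs σ ω *
        D1 vert c U R k zs g ys g' ys' σ ω) R h (g :: ys) σ ω else 0)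

theorem measurable_Phi (E : Env κ vert c ok α g0 T A0 S0 nu dd c1 K3 CH q FA Fr B R)
    (U : Finset V) (g : H) (ys : List H) (g' : H) (ys' : List H) (σ : Mt H) :
    Measurable (Phi vert c ok T U α A0 R g ys g' ys' σ) := by
  classical
  unfold Phi
  refine ((measurable_ww c α T A0 g ys σ).mul (measurable_D1 g ys g ys g' ys' σ)).add ?_
  refine Measurable.ite (measurableSet_le (measurable_tm c σ _) measurable_const) ?_
    measurable_const
  exact Finset.measurable_fun_sum _ (fun h _ => measurable_PS E.okm (fun k zs σ =>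
    (measurable_ww c α T A0 k zs σ).mul (measurable_D1 k zs g ys g' ys' σ)) σ R h (g :: ys))

theorem Env.phi_bd (E : Env κ vert c ok α g0 T A0 S0 nu dd c1 K3 CH q FA Fr B R)
    {U : Finset V} {D0 : Finset H} (hD0 : ∀ f ∈ D0, vert f ∈ U) {l : List (H × H)} {τ : Wt H}
    {W : Finset V} {g y : H} {xs : List H} {s : ℝ} (hA : Adm vert c U D0 l τ W (g :: xs) s)
    (hgy : (g, y) ∈ l) (hnx : ∀ h ∈ nxt vert y, h ∉ dom l)
    {g' y' : H} {ys' : List H} {t' : ℝ} (hgy' : (g', y') ∈ l) (hsub' : (g' :: ys') <:+ (g :: xs))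
    (ht' : ∀ σ ∈ Al l, tm c σ τ (g' :: ys') = t') (hy'U : vert y' ∉ U)
    (hcard : (dom l).card + 4 * R ≤ B) (ht'0 : 0 ≤ t') :
    EE κ l τ (Phi vert c ok T U α A0 R g xs g' ys') ≤
      if s ≤ T then ((deg vert (vert y) - 1 : ℕ) : ℝ≥0∞) * (dd ^ R * (ex α s * nu⁻¹ *
        (((deg vert (vert y') : ℕ) : ℝ≥0∞) *
          (CH * ((deg vert (vert y) : ℕ) : ℝ≥0∞) * ex (-α) (s - t')))))
      else if s ≤ T + A0 then ex α s * (((deg vert (vert y') : ℕ) : ℝ≥0∞) *
        (CH * ((deg vert (vert y) : ℕ) : ℝ≥0∞) * ex (-α) (s - t'))) else 0 := by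
  classical
  have hyW : vert y ∈ W := hA.dW _ (mem_dom.2 ⟨(g, y), hgy, Or.inr rfl⟩)
  set HB : ℝ≥0∞ := ((deg vert (vert y') : ℕ) : ℝ≥0∞) *
          (CH * ((deg vert (vert y) : ℕ) : ℝ≥0∞) * ex (-α) (s - t')) with hHB
  have hfm : ∀ k zs (σ : Mt H), Measurable (fun ω => ww c α T A0 k zs σ ω *
      D1 vert c U R k zs g xs g' ys' σ ω) := fun k zs σ =>
    (measurable_ww c α T A0 k zs σ).mul (measurable_D1 k zs g xs g' ys' σ)
  have hPm : ∀ h (σ : Mt H), Measurable (PS vert c ok T U (fun k zs σ ω =>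
      ww c α T A0 k zs σ ω * D1 vert c U R k zs g xs g' ys' σ ω) R h (g :: xs) σ) :=
    fun h σ => measurable_PS E.okm (fun k zs σ => hfm k zs σ) σ R h (g :: xs)
  unfold Phi
  rw [EE_add (fun σ => hfm g xs σ)]
  by_cases h2 : s ≤ T
  · rw [if_pos h2]
    have e1 : EE κ l τ (fun σ ω => ww c α T A0 g xs σ ω *
        D1 vert c U R g xs g xs g' ys' σ ω) ≤ 0 := by
      have := E.d1_bd hD0 hA (ys := xs) (t := s) hgy (List.suffix_refl _)
        (fun σ hσ => hA.time σ hσ) hgy' hsub' ht' hy'U (by omega) (by linarith [E.A00]) ht'0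
      rw [if_pos h2] at this
      exact this
    have e2 : EE κ l τ (fun σ ω => if tm c σ ω (g :: xs) ≤ T then
          ∑ h ∈ nxt vert (σ g), PS vert c ok T U (fun k zs σ ω => ww c α T A0 k zs σ ω *
            D1 vert c U R k zs g xs g' ys' σ ω) R h (g :: xs) σ ω else 0) ≤
          ((deg vert (vert y) - 1 : ℕ) : ℝ≥0∞) * (dd ^ R * (ex α s * nu⁻¹ * HB)) := by
      refine le_trans (EE_mono (G := fun σ ω => ∑ h ∈ nxt vert y,
          PS vert c ok T U (fun k zs σ ω => ww c α T A0 k zs σ ω *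
            D1 vert c U R k zs g xs g' ys' σ ω) R h (g :: xs) σ ω) ?_) ?_
      · intro σ hσ ω
        have h3 : σ g = y := mem_Al.1 hσ _ hgy
        rw [h3]
        split_ifs
        · exact le_refl _
        · exact bot_le
      · rw [EE_sum _ (fun h _ σ => hPm h σ)]
        rw [← card_nxt, ← nsmul_eq_mul, ← Finset.sum_const]
        apply Finset.sum_le_sum
        intro h hh
        refine E.tilt (U := U) (D0 := D0) (empty_subset U) ∅ l τ (g :: xs)
            (fun k zs σ => hfm k zs σ) (fun _ => 0) (fun _ => HB) (fun _ => HB)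
            (fun s _ => E.sh_const HB s) (B1 := B - 2 * R) (by omega) ?_ R l τ W (g :: xs)
            s h hA ⟨Sb.refl l τ, List.suffix_refl _, fun _ _ _ _ => notMem_empty _,
              fun f hf => absurd hf (notMem_empty f)⟩ (notMem_empty h) (hnx h hh) ?_
            (by omega) h2
        · intro l'' τ'' W'' xs'' s'' k y'' hA'' hC'' _ _ hcard'' _
          have hsub : (g :: xs) <:+ (k :: xs'') := hC''.suf
          have := E.d1_bd hD0 hA'' (ys := xs) (t := s)
              (hC''.sb.1.subset hgy) hsub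
              (fun σ hσ => by
                rw [hC''.sb.tm hσ hA.rv]
                exact hA.time σ (hC''.sb.mem hσ))
              (hC''.sb.1.subset hgy') (hsub'.trans hsub)
              (fun σ hσ => by
                rw [hC''.sb.tm hσ (fun k hk => hA.rv k (hsub'.subset hk))]
                exact ht' σ (hC''.sb.mem hσ)) hy'U (by omega) (by linarith [E.A00]) ht'0
          refine le_trans this ?_
          by_cases h5 : s'' ≤ T
          · rw [if_pos h5, if_pos h5]; exact bot_le
          · rw [if_neg h5, if_neg h5]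
        · rw [(mem_nxt.1 hh).1]; exact hyW
    calc _ ≤ 0 + ((deg vert (vert y) - 1 : ℕ) : ℝ≥0∞) * (dd ^ R * (ex α s * nu⁻¹ * HB)) :=
          add_le_add e1 e2
      _ = _ := by rw [zero_add]
  · rw [if_neg h2]
    have e2 : EE κ l τ (fun σ ω => if tm c σ ω (g :: xs) ≤ T then
          ∑ h ∈ nxt vert (σ g), PS vert c ok T U (fun k zs σ ω => ww c α T A0 k zs σ ω *
            D1 vert c U R k zs g xs g' ys' σ ω) R h (g :: xs) σ ω else 0) ≤ 0 := by
      refine le_trans (EE_mono (G := fun _ _ => 0) ?_) (EE_zero l τ).le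
      intro σ hσ ω
      rw [tm_glue hσ hA.rv, hA.time σ hσ, if_neg h2]
    by_cases h3 : s ≤ T + A0
    · rw [if_pos h3]
      have e1 := E.d1_bd hD0 hA (ys := xs) (t := s) hgy (List.suffix_refl _)
        (fun σ hσ => hA.time σ hσ) hgy' hsub' ht' hy'U (by omega) h3 ht'0
      rw [if_neg h2, if_pos h3] at e1
      calc _ ≤ ex α s * HB + 0 := add_le_add e1 e2
        _ = _ := by rw [add_zero]
    · rw [if_neg h3]
      have e1 : EE κ l τ (fun σ ω => ww c α T A0 g xs σ ω *
          D1 vert c U R g xs g xs g' ys' σ ω) ≤ 0 := by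
        refine le_trans (EE_mono (G := fun _ _ => 0) ?_) (EE_zero l τ).le
        intro σ hσ ω
        rw [ww_val hA hσ ω, if_neg h2, if_neg h3, zero_mul]
      calc _ ≤ (0 : ℝ≥0∞) + 0 := add_le_add e1 e2
        _ = 0 := by rw [add_zero]

theorem Env.phi_sum (E : Env κ vert c ok α g0 T A0 S0 nu dd c1 K3 CH q FA Fr B R)
    (hK3 : K3 ≠ ⊤) {U : Finset V} {D0 : Finset H} (hD0 : ∀ f ∈ D0, vert f ∈ U)
    {l : List (H × H)} {τ : Wt H} {W : Finset V} {g' y' : H} {xs : List H} {s : ℝ}
    (hA : Adm vert c U D0 l τ W (g' :: xs) s)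
    (hgy' : (g', y') ∈ l) (hy'U : vert y' ∉ U) (hs0 : 0 ≤ s) (hs : s ≤ T)
    (hcard : (dom l).card + 6 * R ≤ B) {h : H} (hh : h ∉ dom l) (hhW : vert h ∈ W) :
    EE κ l τ (PS vert c ok T U (fun g ys σ ω => Phi vert c ok T U α A0 R g ys g' xs σ ω) R h
      (g' :: xs)) ≤ dd ^ R * (ex α s * nu⁻¹ * ((dd ^ R * (((deg vert (vert y') : ℕ) : ℝ≥0∞) *
        CH * K3 * ex α s * ex (-α) T)) * (FA + ex (α - g0) (-A0)))) := by
  classical
  set EC : ℝ≥0∞ := dd ^ R * (((deg vert (vert y') : ℕ) : ℝ≥0∞) * CH * K3 * ex α s *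
    ex (-α) T) with hEC
  set M0 : ℝ≥0∞ := ex (α - g0) (-A0) with hM0
  have hECt : EC ≠ ⊤ := by
    rw [hEC]
    refine ENNReal.mul_ne_top (ENNReal.pow_ne_top E.ddt) (ENNReal.mul_ne_top
      (ENNReal.mul_ne_top (ENNReal.mul_ne_top (ENNReal.mul_ne_top (ENNReal.natCast_ne_top _)
        E.CHt) hK3) (ex_ne_top _ _)) (ex_ne_top _ _))
  have h1 := E.tilt (U := U) (D0 := D0) (Finset.empty_subset U) ∅ l τ (g' :: xs)
    (Θ := fun g ys σ ω => Phi vert c ok T U α A0 R g ys g' xs σ ω)
    (fun g ys σ => measurable_Phi E U g ys g' xs σ)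
    (fun s => EC * ex (α - g0) (T - s)) (fun s => EC * M0)
    (fun s => EC * (Fr s + M0)) (fun s hs => E.sh_ren EC hECt M0 (ex_ne_top _ _) s hs)
    (B1 := B - 4 * R) (by omega) ?_ R l τ W (g' :: xs) s h hA
    ⟨Sb.refl l τ, List.suffix_refl _, fun _ _ _ _ => notMem_empty _, fun f hf =>
      absurd hf (notMem_empty f)⟩ (notMem_empty h) hh hhW (by omega) hs
  · refine le_trans h1 ?_
    gcongr
    exact E.hFA s hs
  · intro l' τ' W' xs' s' g y hA' hC' hky hnx hcard' hok
    have hsub : (g' :: xs) <:+ (g :: xs') := hC'.suf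
    have hb := E.phi_bd hD0 hA' hky hnx (hC'.sb.1.subset hgy') hsub
      (fun σ hσ => by
        rw [hC'.sb.tm hσ hA.rv]
        exact hA.time σ (hC'.sb.mem hσ)) hy'U (by omega) hs0
    refine le_trans hb ?_
    have hHBle : ((deg vert (vert y') : ℕ) : ℝ≥0∞) *
          (CH * ((deg vert (vert y) : ℕ) : ℝ≥0∞) * ex (-α) (s' - s)) ≤
        ((deg vert (vert y') : ℕ) : ℝ≥0∞) * CH * K3 * ex α s * ex (-α) T *
          ex (α - g0) (T - s') := by
      calc ((deg vert (vert y') : ℕ) : ℝ≥0∞) *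
          (CH * ((deg vert (vert y) : ℕ) : ℝ≥0∞) * ex (-α) (s' - s))
          ≤ ((deg vert (vert y') : ℕ) : ℝ≥0∞) *
          (CH * (K3 * ex (-g0) (T - s')) * ex (-α) (s' - s)) :=
            mul_le_mul' (le_refl _) (mul_le_mul' (mul_le_mul' (le_refl _)
              (E.ok2 _ _ hok)) (le_refl _))
        _ = ((deg vert (vert y') : ℕ) : ℝ≥0∞) * CH * K3 * ex α s *
            (ex (-g0) (T - s') * ex (-α) s') := by
            have h3 : ex (-α) (s' - s) = ex (-α) s' * ex α s := by
              rw [ex_mul']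
              unfold ex
              congr 2
              ring
            rw [h3]; ring
        _ = _ := by rw [ex_id]; ring
    by_cases h2 : s' ≤ T
    · rw [if_pos h2, if_pos h2]
      refine mul_le_mul' (le_refl _) ?_
      calc dd ^ R * (ex α s' * nu⁻¹ * (((deg vert (vert y') : ℕ) : ℝ≥0∞) *
          (CH * ((deg vert (vert y) : ℕ) : ℝ≥0∞) * ex (-α) (s' - s))))
          ≤ dd ^ R * (ex α s' * nu⁻¹ * (((deg vert (vert y') : ℕ) : ℝ≥0∞) * CH * K3 *
            ex α s * ex (-α) T * ex (α - g0) (T - s'))) :=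
            mul_le_mul' (le_refl _) (mul_le_mul' (le_refl _) hHBle)
        _ = _ := by rw [hEC]; ring
    · rw [if_neg h2, if_neg h2]
      by_cases h3 : s' ≤ T + A0
      · rw [if_pos h3, if_pos h3]
        refine mul_le_mul' (le_refl _) ?_
        refine le_trans hHBle ?_
        rw [hEC, hM0]
        calc ((deg vert (vert y') : ℕ) : ℝ≥0∞) * CH * K3 * ex α s * ex (-α) T *
              ex (α - g0) (T - s')
            ≤ ((deg vert (vert y') : ℕ) : ℝ≥0∞) * CH * K3 * ex α s * ex (-α) T *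
                ex (α - g0) (-A0) :=
              mul_le_mul' (le_refl _) (ex_le_ex (by linarith [E.gα]) (by linarith))
          _ = 1 * (((deg vert (vert y') : ℕ) : ℝ≥0∞) * CH * K3 * ex α s * ex (-α) T) *
                ex (α - g0) (-A0) := by rw [one_mul]
          _ ≤ _ := mul_le_mul' (mul_le_mul' (one_le_pow₀ E.dd1) (le_refl _)) (le_refl _)
      · rw [if_neg h3, if_neg h3]

/-- The expected number of hits from the path itself. -/
theorem Env.D1_upper (E : Env κ vert c ok α g0 T A0 S0 nu dd c1 K3 CH q FA Fr B R)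
    (hqt : q ≠ ⊤) (hK3 : K3 ≠ ⊤) (hFAt : FA ≠ ⊤) {U : Finset V} {D0 : Finset H}
    (hD0 : ∀ f ∈ D0, vert f ∈ U)
    {l : List (H × H)} {τ : Wt H}
    {W : Finset V} {e : H} (hA : Adm vert c U D0 l τ W [] 0) (hh : e ∉ dom l)
    (hhW : vert e ∈ W) (hB : (dom l).card + 8 * R ≤ B) :
    EE κ l τ (PS vert c ok T U (fun k zs σ ω => ww c α T A0 k zs σ ω *
      SumPre (fun g ys => SumPre (fun g' ys' => D1 vert c U R k zs g ys g' ys' σ ω) (g :: ys))
        (k :: zs)) R e []) ≤
      dd ^ R * (nu⁻¹ * ((dd ^ (2 * R) * (K3 ^ 2 * CH * ex (-α) T) *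
        (FA + ex (α - g0) (-A0) + 1)) * q)) := by
  classical
  set M0 : ℝ≥0∞ := ex (α - g0) (-A0) with hM0
  set C : ℝ≥0∞ := dd ^ (2 * R) * (K3 ^ 2 * CH * ex (-α) T) * (FA + M0 + 1) with hC
  have hCt : C ≠ ⊤ := by
    rw [hC]
    refine ENNReal.mul_ne_top (ENNReal.mul_ne_top (ENNReal.pow_ne_top E.ddt)
      (ENNReal.mul_ne_top (ENNReal.mul_ne_top (ENNReal.pow_ne_top hK3) E.CHt)
        (ex_ne_top _ _))) ?_
    apply ENNReal.add_ne_top.2
    refine ⟨ENNReal.add_ne_top.2 ⟨hFAt, ?_⟩, ENNReal.one_ne_top⟩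
    rw [hM0]; exact ex_ne_top _ _
  have hM1 : 1 ≤ M0 := by
    rw [hM0]
    unfold ex
    rw [← ENNReal.ofReal_one]
    apply ENNReal.ofReal_le_ofReal
    rw [← Real.exp_zero]
    apply Real.exp_le_exp.2
    have := E.gα
    have := E.A00
    nlinarith
  -- the two resummations
  set f1 : H → List H → H → List H → H → List H → Mt H → Wt H → ℝ≥0∞ :=
    fun k zs g ys g' ys' σ ω => ww c α T A0 k zs σ ω * D1 vert c U R k zs g ys g' ys' σ ω
    with hf1
  set Θb : H → List H → Mt H → Wt H → ℝ≥0∞ := fun g' ys' σ ω =>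
    Phi vert c ok T U α A0 R g' ys' g' ys' σ ω + (if tm c σ ω (g' :: ys') ≤ T then
      ∑ h ∈ nxt vert (σ g'), PS vert c ok T U (fun g ys σ ω =>
        Phi vert c ok T U α A0 R g ys g' ys' σ ω) R h (g' :: ys') σ ω else 0) with hΘb
  have h0 : EE κ l τ (PS vert c ok T U (fun k zs σ ω => ww c α T A0 k zs σ ω *
      SumPre (fun g ys => SumPre (fun g' ys' => D1 vert c U R k zs g ys g' ys' σ ω) (g :: ys))
        (k :: zs)) R e []) ≤ EE κ l τ (PS vert c ok T U Θb R e []) := by
    apply EE_mono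
    intro σ hσ ω0
    set ω := glue l τ ω0 with hω
    have h1 : (fun k zs σ ω => ww c α T A0 k zs σ ω *
      SumPre (fun g ys => SumPre (fun g' ys' => D1 vert c U R k zs g ys g' ys' σ ω) (g :: ys))
        (k :: zs)) =
      (fun (k : H) (zs : List H) (σ : Mt H) (ω : Wt H) =>
        SumPre (fun g ys => SumPre (fun g' ys' => f1 k zs g ys g' ys' σ ω) (g :: ys))
          (k :: zs)) := by
      funext k zs σ ω
      rw [SumPre_mul]
      congr 1
      funext g ys
      rw [SumPre_mul]
    rw [h1]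
    refine le_trans (PS_resum0 (fun k zs g ys σ ω =>
      SumPre (fun g' ys' => f1 k zs g ys g' ys' σ ω) (g :: ys)) σ ω R e) ?_
    refine le_trans ?_ (PS_resum0 (fun g ys g' ys' σ ω =>
      Phi vert c ok T U α A0 R g ys g' ys' σ ω) σ ω R e)
    apply PS_mono' (le_refl _)
    intro g ys
    -- the payoff is a sum of `Phi`
    have h2 : ∀ L : List H, SumPre (fun g' ys' => f1 g ys g ys g' ys' σ ω) L +
        (if tm c σ ω (g :: ys) ≤ T then ∑ h ∈ nxt vert (σ g),
          PS vert c ok T U (fun k zs σ ω => SumPre (fun g' ys' => f1 k zs g ys g' ys' σ ω) L)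
            R h (g :: ys) σ ω else 0) =
        SumPre (fun g' ys' => Phi vert c ok T U α A0 R g ys g' ys' σ ω) L := by
      intro L
      by_cases h3 : tm c σ ω (g :: ys) ≤ T
      · simp only [if_pos h3, PS_SumPre]
        induction L with
        | nil => simp [SumPre]
        | cons a L ih =>
          simp only [SumPre]
          rw [Finset.sum_add_distrib, ← ih]
          unfold Phi
          rw [if_pos h3]
          simp only [hf1]
          ring
      · simp only [if_neg h3, add_zero]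
        congr 1
        funext a b
        unfold Phi
        rw [if_neg h3, add_zero]
    exact (h2 (g :: ys)).le
  refine le_trans h0 ?_
  have hΘm : ∀ g ys σ, Measurable (Θb g ys σ) := by
    intro g ys σ
    refine (measurable_Phi E U g ys g ys σ).add ?_
    refine Measurable.ite (measurableSet_le (measurable_tm c σ _) measurable_const) ?_
      measurable_const
    exact Finset.measurable_fun_sum _ (fun g' _ => measurable_PS E.okm
      (fun k zs σ => measurable_Phi E U k zs g ys σ) σ R g' (g :: ys))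
  have h1 := E.tilt (U := U) (D0 := D0) (le_refl U) ∅ l τ []
    hΘm (fun s => C * ex (α - g0) s) (fun s => C * ex (α - g0) s)
    (fun s => C * q * ex (α - g0) s) (fun s _ => E.sh_geo hCt hqt s) (B1 := B - 6 * R)
    (by omega) ?_ R l τ W [] 0 e hA
    ⟨Sb.refl l τ, List.suffix_refl _, fun _ _ _ hg => absurd hg List.not_mem_nil, fun f hf =>
      absurd hf (notMem_empty f)⟩ (notMem_empty e) hh hhW (by omega) E.T0
  · rw [ex_zero, ex_zero, one_mul, mul_one] at h1
    exact h1
  · intro l' τ' W' xs' s' g y hA' hC' hky hnx hcard' hok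
    by_cases hAl : Al l' = ∅
    · have : EE κ l' τ' (Θb g xs') = 0 := by unfold EE; simp [hAl]
      rw [this]; exact bot_le
    obtain ⟨σ0, hσ0⟩ := Finset.nonempty_iff_ne_empty.2 hAl
    have hyW' : vert y ∈ W' := hA'.dW _ (mem_dom.2 ⟨(g, y), hky, Or.inr rfl⟩)
    have hyU : vert y ∉ U := by
      have h3 := hC'.out σ0 hσ0 g List.mem_cons_self
      rwa [mem_Al.1 hσ0 _ hky] at h3
    have hs'0 := E.ok0 _ _ hok
    have hph := E.phi_bd hD0 hA' hky hnx hky (List.suffix_refl _)
      (fun σ hσ => hA'.time σ hσ) hyU (by omega) hs'0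
    rw [sub_self, ex_zero, mul_one] at hph
    rw [EE_add (fun σ => measurable_Phi E U g xs' g xs' σ)]
    set D : ℝ≥0∞ := ((deg vert (vert y) : ℕ) : ℝ≥0∞) with hD
    have hDD : D * (CH * D) ≤ K3 ^ 2 * CH * ex (-g0) T := by
      calc D * (CH * D) ≤ (K3 * ex (-g0) s') * (CH * (K3 * ex (-g0) (T - s'))) :=
            mul_le_mul' (E.ok1 _ _ hok) (mul_le_mul' (le_refl _) (E.ok2 _ _ hok))
        _ = K3 ^ 2 * CH * (ex (-g0) s' * ex (-g0) (T - s')) := by ring
        _ = K3 ^ 2 * CH * ex (-g0) T := by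
            rw [← ex_add]; congr 2; ring
    by_cases h2 : s' ≤ T
    · rw [if_pos h2] at hph ⊢
      have hT' : ex (-g0) T ≤ ex (-α) T * ex (α - g0) s' := by
        rw [ex_mul']
        unfold ex
        apply ENNReal.ofReal_le_ofReal
        apply Real.exp_le_exp.2
        have := E.gα
        nlinarith
      have e2 : EE κ l' τ' (fun σ ω => if tm c σ ω (g :: xs') ≤ T then
          ∑ h ∈ nxt vert (σ g), PS vert c ok T U (fun g2 ys2 σ ω =>
            Phi vert c ok T U α A0 R g2 ys2 g xs' σ ω) R h (g :: xs') σ ω else 0) ≤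
          ((deg vert (vert y) - 1 : ℕ) : ℝ≥0∞) * (dd ^ R * (ex α s' * nu⁻¹ *
            ((dd ^ R * (D * CH * K3 * ex α s' * ex (-α) T)) * (FA + M0)))) := by
        refine le_trans (EE_mono (G := fun σ ω => ∑ h ∈ nxt vert y,
          PS vert c ok T U (fun g2 ys2 σ ω =>
            Phi vert c ok T U α A0 R g2 ys2 g xs' σ ω) R h (g :: xs') σ ω) ?_) ?_
        · intro σ hσ ω
          have h3 : σ g = y := mem_Al.1 hσ _ hky
          rw [h3]
          split_ifs
          · exact le_refl _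
          · exact bot_le
        · rw [EE_sum _ (fun h _ σ => measurable_PS E.okm
            (fun k zs σ => measurable_Phi E U k zs g xs' σ) σ R h (g :: xs'))]
          rw [← card_nxt, ← nsmul_eq_mul, ← Finset.sum_const]
          apply Finset.sum_le_sum
          intro h hh
          refine E.phi_sum hK3 hD0 hA' hky hyU hs'0 h2 (by omega) (hnx h hh) ?_
          rw [(mem_nxt.1 hh).1]; exact hyW'
      refine le_trans (add_le_add hph e2) ?_
      rw [← mul_add]
      refine mul_le_mul' (le_refl _) ?_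
      have hDex : D * ex α s' ≤ K3 * ex (α - g0) s' := by
        calc D * ex α s' ≤ K3 * ex (-g0) s' * ex α s' :=
              mul_le_mul' (E.ok1 _ _ hok) (le_refl _)
          _ = K3 * ex (α - g0) s' := by
              rw [mul_assoc, ex_mul]; congr 2; ring
      have hdR : dd ^ R ≤ dd ^ (2 * R) := pow_le_pow_right₀ E.dd1 (by omega)
      calc dd ^ R * (ex α s' * nu⁻¹ * (D * (CH * D))) + dd ^ R * (ex α s' * nu⁻¹ *
            ((dd ^ R * (D * CH * K3 * ex α s' * ex (-α) T)) * (FA + M0)))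
          = ex α s' * nu⁻¹ * (dd ^ R * (D * (CH * D)) +
            dd ^ (2 * R) * (CH * K3 * ex (-α) T) * (FA + M0) * (D * ex α s')) := by
            rw [show 2 * R = R + R by ring, pow_add]
            ring
        _ ≤ ex α s' * nu⁻¹ * (dd ^ (2 * R) * (K3 ^ 2 * CH * (ex (-α) T *
              ex (α - g0) s')) + dd ^ (2 * R) * (CH * K3 * ex (-α) T) * (FA + M0) *
                (K3 * ex (α - g0) s')) := by
            refine mul_le_mul' (le_refl _) (add_le_add (mul_le_mul' hdR
              (le_trans hDD (mul_le_mul' (le_refl _) hT'))) (mul_le_mul' (le_refl _) hDex))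
        _ = ex α s' * nu⁻¹ * (C * ex (α - g0) s') := by
            rw [hC]; ring
    · rw [if_neg h2] at hph ⊢
      have e2 : EE κ l' τ' (fun σ ω => if tm c σ ω (g :: xs') ≤ T then
          ∑ h ∈ nxt vert (σ g), PS vert c ok T U (fun g2 ys2 σ ω =>
            Phi vert c ok T U α A0 R g2 ys2 g xs' σ ω) R h (g :: xs') σ ω else 0) ≤ 0 := by
        refine le_trans (EE_mono (G := fun _ _ => 0) ?_) (EE_zero l' τ').le
        intro σ hσ ω
        rw [tm_glue hσ hA'.rv, hA'.time σ hσ, if_neg h2]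
      refine le_trans (add_le_add hph e2) ?_
      rw [add_zero]
      by_cases h3 : s' ≤ T + A0
      · rw [if_pos h3, if_pos h3]
        refine mul_le_mul' (le_refl _) (le_trans hDD ?_)
        have hT' : ex (-g0) T ≤ ex (-α) T * ex (α - g0) s' * M0 := by
          rw [hM0, ex_mul']
          unfold ex
          rw [← ENNReal.ofReal_mul (Real.exp_pos _).le, ← Real.exp_add]
          apply ENNReal.ofReal_le_ofReal
          apply Real.exp_le_exp.2
          have := E.gα
          nlinarith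
        calc K3 ^ 2 * CH * ex (-g0) T ≤ K3 ^ 2 * CH * (ex (-α) T * ex (α - g0) s' * M0) :=
              mul_le_mul' (le_refl _) hT'
          _ = 1 * (K3 ^ 2 * CH * ex (-α) T) * M0 * ex (α - g0) s' := by ring
          _ ≤ dd ^ (2 * R) * (K3 ^ 2 * CH * ex (-α) T) * (FA + M0 + 1) * ex (α - g0) s' := by
              refine mul_le_mul' (mul_le_mul' (mul_le_mul' (one_le_pow₀ E.dd1) (le_refl _))
                ?_) (le_refl _)
              calc M0 ≤ FA + M0 := le_add_self
                _ ≤ FA + M0 + 1 := le_self_add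
          _ = C * ex (α - g0) s' := by rw [hC]
      · rw [if_neg h3, if_neg h3]

end

end Pool.Agent.H949.CX
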