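import Pool.Agent.H949.CM.Match
import Pool.Agent.H949.CM.Far

/-!
# Exploration of the cluster of a vertex in a random matching of half-edges

`CM/Match.lean`: `Mt H` (matchings = fixed point free involutions),
`dom l`, `Al l` (matchings containing all pairs of `l`), `fr l h` (free half-edges `≠ h`),
`reveal_le` (the revealing rule with bounds), `mem_dom`, `dom_cons`, `mem_Al_cons`, `mem_fr`.
`CM/Far.lean`: `deg vert v` = number of `h` with `vert h = v`.

`XS vert l0 U0 s G j l C`: after `j` steps of the exploration of the cluster of `s`, which started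
when the pairs of `l0` were known (they lie in the forbidden set `U0`), the known pairs are `l` and
the explored vertices are `C`. `act vert l C`: the free half-edges at `C`.

Paper proof of `explore`. Put `L = 2 / ρ ≥ 2` and show, by induction on `M - j`, for every state
`XS ... j l C` with `j ≤ M` and `q := (act vert l C).card ≤ K + G`:
`∑ σ ∈ Al l, F σ ≤ |Al l| * (ε1 + e * (M - j) + (j + L ^ K - L ^ (min q K)) / M)`.
* `j = M`: the right side is `≥ |Al l|` since `(M + L ^ K - L ^ min) / M ≥ 1`, and `F ≤ 1`.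
* `K ≤ q`: `halive`. `q = 0`: `hdead`. (The remaining terms are `≥ 0`.)
* otherwise `0 < q < K`, `j < M`: choose `h ∈ act vert l C` and use `reveal_le` with
  `b y = 1` for bad `y` (`vert y ∈ U0`, or `vert y ∈ C`, or `G < deg`), and
  `b y = ε1 + e * (M - j - 1) + (j + 1 + L ^ K - (if 3 ≤ deg then L ^ (q + 1) else 0)) / M` for good
  `y`: then `XS ... (j + 1) ((h, y) :: l) (insert (vert y) C)` holds (`dep' (vert y) = dep (vert h) + 1`;
  use `j + 1` as bound), and `act` of the new state is `(act.erase h) ∪ {g ≠ y with vert g = vert y}`,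
  of size `q - 1 + (deg - 1)`, which is `≥ q + 1` if `deg ≥ 3` and `≤ K + G`. Sum over `y` with `hbad`
  and `hgood`, and use `ρ * L ^ (q + 1) = 2 * L ^ q ≥ L ^ q + 1`.
The start: `XS ... 0 l0 {s}` with `act` = the half-edges of `s`, at most `G` of them; the bound is
`≤ ε1 + e * M + L ^ K / M`.
(If `Al l` is empty everything is trivial: both sides are `0`. If `K = 0` the start is alive.)
-/

set_option linter.unusedSectionVars false
set_option linter.unusedSimpArgs false
set_option linter.unusedVariables false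

open Finset

namespace Pool.Agent.H949.CX

open Pool.Agent.H949.CM

variable {V H : Type} [Fintype V] [DecidableEq V] [Fintype H] [DecidableEq H]

/-- The free half-edges at `C`. -/
def act (vert : H → V) (l : List (H × H)) (C : Finset V) : Finset H :=
  univ.filter (fun f => vert f ∈ C ∧ f ∉ dom l)

/-- The state of the exploration of the cluster of `s` after at most `j` steps. -/
structure XS (vert : H → V) (l0 : List (H × H)) (U0 : Finset V) (s : V) (G j : ℕ)
    (l : List (H × H)) (C : Finset V) : Prop where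
  sC : s ∈ C
  disj : ∀ v ∈ C, v ∉ U0
  old : ∀ g ∈ dom l0, vert g ∈ U0
  ext : l0 <:+ l
  domC : ∀ g ∈ dom l, vert g ∈ C ∨ g ∈ dom l0
  same : ∀ p ∈ l, vert p.1 ∈ C ↔ vert p.2 ∈ C
  len : l.length ≤ l0.length + j
  cardC : C.card ≤ j + 1
  degC : ∀ v ∈ C, 1 ≤ deg vert v ∧ deg vert v ≤ G
  tree : ∃ dep : V → ℕ, (∀ v ∈ C, dep v ≤ j) ∧ ∀ v ∈ C, v ≠ s →
    ∃ p ∈ l, vert p.1 ∈ C ∧ vert p.2 = v ∧ dep (vert p.1) < dep v

/-- One step of the exploration. -/
theorem XS.step {vert : H → V} {l0 : List (H × H)} {U0 : Finset V} {s : V} {G j : ℕ}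
    {l : List (H × H)} {C : Finset V} (hX : XS vert l0 U0 s G j l C) {h y : H}
    (hC : vert h ∈ C) (hl : h ∉ dom l) (hyU : vert y ∉ U0) (hyC : vert y ∉ C)
    (hyG : deg vert (vert y) ≤ G) :
    XS vert l0 U0 s G (j + 1) ((h, y) :: l) (insert (vert y) C) := by
  have hnot : ∀ g ∈ dom l, vert g ≠ vert y := by
    intro g hg he
    rcases hX.domC g hg with h1 | h1
    · rw [he] at h1; exact hyC h1
    · have := hX.old g h1
      rw [he] at this; exact hyU this
  have hhy : vert h ≠ vert y := fun e => hyC (e ▸ hC)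
  refine ⟨?_, ?_, hX.old, ?_, ?_, ?_, ?_, ?_, ?_, ?_⟩
  · exact mem_insert_of_mem hX.sC
  · intro v hv
    rcases mem_insert.1 hv with rfl | hv
    · exact hyU
    · exact hX.disj v hv
  · exact hX.ext.trans (List.suffix_cons _ _)
  · intro g hg
    rw [dom_cons] at hg
    rcases mem_insert.1 hg with rfl | hg
    · left; exact mem_insert_of_mem hC
    rcases mem_insert.1 hg with rfl | hg
    · left; exact mem_insert_self _ _
    rcases hX.domC g hg with h1 | h1
    · left; exact mem_insert_of_mem h1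
    · right; exact h1
  · intro p hp
    rcases List.mem_cons.1 hp with rfl | hp
    · constructor
      · intro _; exact mem_insert_self _ _
      · intro _; exact mem_insert_of_mem hC
    · have h1 : vert p.1 ≠ vert y := hnot p.1 (mem_dom.2 ⟨p, hp, Or.inl rfl⟩)
      have h2 : vert p.2 ≠ vert y := hnot p.2 (mem_dom.2 ⟨p, hp, Or.inr rfl⟩)
      rw [mem_insert, mem_insert]
      constructor
      · rintro (h3 | h3)
        · exact absurd h3 h1
        · right; exact (hX.same p hp).1 h3
      · rintro (h3 | h3)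
        · exact absurd h3 h2
        · right; exact (hX.same p hp).2 h3
  · have := hX.len
    rw [List.length_cons]; omega
  · have := hX.cardC
    have h2 := card_insert_le (vert y) C
    omega
  · intro v hv
    rcases mem_insert.1 hv with rfl | hv
    · refine ⟨?_, hyG⟩
      unfold deg
      exact Finset.card_pos.2 ⟨y, by simp⟩
    · exact hX.degC v hv
  · obtain ⟨dep, hd1, hd2⟩ := hX.tree
    refine ⟨Function.update dep (vert y) (dep (vert h) + 1), ?_, ?_⟩
    · intro v hv
      by_cases hvy : v = vert y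
      · subst hvy
        rw [Function.update_self]
        have := hd1 _ hC
        omega
      · rw [Function.update_of_ne hvy]
        rcases mem_insert.1 hv with h1 | hv
        · exact absurd h1 hvy
        have := hd1 v hv
        omega
    · intro v hv hvs
      by_cases hvy : v = vert y
      · subst hvy
        refine ⟨(h, y), List.mem_cons_self, mem_insert_of_mem hC, rfl, ?_⟩
        rw [Function.update_self, Function.update_of_ne hhy]
        exact Nat.lt_succ_self _
      · rcases mem_insert.1 hv with h1 | hv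
        · exact absurd h1 hvy
        obtain ⟨p, hp, hp1, hp2, hp3⟩ := hd2 v hv hvs
        refine ⟨p, List.mem_cons_of_mem _ hp, mem_insert_of_mem hp1, hp2, ?_⟩
        rw [Function.update_of_ne hvy, Function.update_of_ne
          (hnot p.1 (mem_dom.2 ⟨p, hp, Or.inl rfl⟩))]
        exact hp3

/-- The free half-edges after one step. -/
theorem XS.act_step {vert : H → V} {l0 : List (H × H)} {U0 : Finset V} {s : V} {G j : ℕ}
    {l : List (H × H)} {C : Finset V} (hX : XS vert l0 U0 s G j l C) {h y : H}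
    (hC : vert h ∈ C) (hl : h ∉ dom l) (hyU : vert y ∉ U0) (hyC : vert y ∉ C) :
    (act vert ((h, y) :: l) (insert (vert y) C)).card + 2 =
      (act vert l C).card + deg vert (vert y) := by
  have hnot : ∀ g ∈ dom l, vert g ≠ vert y := by
    intro g hg he
    rcases hX.domC g hg with h1 | h1
    · rw [he] at h1; exact hyC h1
    · have := hX.old g h1
      rw [he] at this; exact hyU this
  have hhy : vert h ≠ vert y := fun e => hyC (e ▸ hC)
  have hEq : act vert ((h, y) :: l) (insert (vert y) C) =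
      ((act vert l C).erase h) ∪ ((univ.filter (fun g => vert g = vert y)).erase y) := by
    ext f
    simp only [act, mem_filter, mem_univ, true_and, mem_union, mem_erase, dom_cons, mem_insert,
      not_or]
    constructor
    · rintro ⟨h1 | h1, h2, h3, h4⟩
      · right; exact ⟨h3, h1⟩
      · left; exact ⟨h2, h1, h4⟩
    · rintro (⟨h1, h2, h3⟩ | ⟨h1, h2⟩)
      · exact ⟨Or.inr h2, h1, fun e => hyC (e ▸ h2), h3⟩
      · exact ⟨Or.inl h2, fun e => hhy (e ▸ h2), h1, fun e => hnot f e h2⟩
  have hdisj : Disjoint ((act vert l C).erase h)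
      ((univ.filter (fun g => vert g = vert y)).erase y) := by
    rw [Finset.disjoint_left]
    intro f hf hf2
    simp only [act, mem_filter, mem_univ, true_and, mem_erase] at hf hf2
    exact hyC (hf2.2 ▸ hf.2.1)
  rw [hEq, card_union_of_disjoint hdisj]
  have h1 : ((act vert l C).erase h).card + 1 = (act vert l C).card :=
    card_erase_add_one (by simp [act, hC, hl])
  have h2 : ((univ.filter (fun g => vert g = vert y)).erase y).card + 1 = deg vert (vert y) :=
    card_erase_add_one (by simp)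
  omega

theorem explore_aux {vert : H → V} {l0 : List (H × H)} {U0 : Finset V} {s : V} {G K M : ℕ}
    {ρ e ε1 : ℝ} (hρ : 0 < ρ) (hρ1 : ρ ≤ 1) (hM : 1 ≤ M) (he : 0 ≤ e) (hε1 : 0 ≤ ε1)
    (F : Mt H → ℝ) (hF1 : ∀ σ, F σ ≤ 1)
    (hgood : ∀ (j : ℕ) (l : List (H × H)) (C : Finset V), j < M → XS vert l0 U0 s G j l C →
      ∀ h, vert h ∈ C → h ∉ dom l → ρ * ((fr l h).card : ℝ) ≤ (((fr l h).filter (fun y =>
        vert y ∉ U0 ∧ vert y ∉ C ∧ deg vert (vert y) ≤ G ∧ 3 ≤ deg vert (vert y))).card : ℝ))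
    (hbad : ∀ (j : ℕ) (l : List (H × H)) (C : Finset V), j < M → XS vert l0 U0 s G j l C →
      ∀ h, vert h ∈ C → h ∉ dom l → (((fr l h).filter (fun y =>
        ¬ (vert y ∉ U0 ∧ vert y ∉ C ∧ deg vert (vert y) ≤ G))).card : ℝ) ≤
          e * ((fr l h).card : ℝ))
    (hdead : ∀ (j : ℕ) (l : List (H × H)) (C : Finset V), j ≤ M → XS vert l0 U0 s G j l C →
      act vert l C = ∅ → ∑ σ ∈ Al l, F σ ≤ ((Al l).card : ℝ) * ε1)
    (halive : ∀ (j : ℕ) (l : List (H × H)) (C : Finset V), j ≤ M → XS vert l0 U0 s G j l C →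
      K ≤ (act vert l C).card → (act vert l C).card ≤ K + G →
      ∑ σ ∈ Al l, F σ ≤ ((Al l).card : ℝ) * ε1) :
    ∀ (n j : ℕ), j + n = M → ∀ (l : List (H × H)) (C : Finset V), XS vert l0 U0 s G j l C →
      (act vert l C).card ≤ K + G →
      ∑ σ ∈ Al l, F σ ≤ ((Al l).card : ℝ) *
        (ε1 + e * n + (j + (2 / ρ) ^ K - (2 / ρ) ^ (min (act vert l C).card K)) / M) := by
  have hL2 : (2 : ℝ) ≤ 2 / ρ := by
    rw [le_div_iff₀ hρ]; nlinarith
  have hL1 : (1 : ℝ) ≤ 2 / ρ := by linarith
  have hL0 : (0 : ℝ) ≤ 2 / ρ := by linarith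
  have hMpos : (0 : ℝ) < M := by exact_mod_cast hM
  have hone : ∀ l : List (H × H), ∑ σ ∈ Al l, F σ ≤ ((Al l).card : ℝ) * 1 := by
    intro l
    calc ∑ σ ∈ Al l, F σ ≤ ∑ σ ∈ Al l, (1 : ℝ) := Finset.sum_le_sum (fun σ _ => hF1 σ)
      _ = ((Al l).card : ℝ) * 1 := by simp
  intro n
  induction n with
  | zero =>
    intro j hj l C hX hq
    have hjM : j = M := by omega
    subst hjM
    refine le_trans (hone l) ?_
    apply mul_le_mul_of_nonneg_left _ (Nat.cast_nonneg _)
    have h1 : (2 / ρ) ^ (min (act vert l C).card K) ≤ (2 / ρ) ^ K :=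
      pow_le_pow_right₀ hL1 (min_le_right _ _)
    have h2 : (1 : ℝ) ≤ ((j : ℝ) + (2 / ρ) ^ K - (2 / ρ) ^ (min (act vert l C).card K)) / j := by
      rw [le_div_iff₀ hMpos]; linarith
    have h3 : 0 ≤ e * ((0 : ℕ) : ℝ) := by simp
    linarith
  | succ n ih =>
    intro j hj l C hX hq
    have hjM : j < M := by omega
    have hpow : (2 / ρ) ^ (min (act vert l C).card K) ≤ (2 / ρ) ^ K :=
      pow_le_pow_right₀ hL1 (min_le_right _ _)
    have hterm : 0 ≤ ((j : ℝ) + (2 / ρ) ^ K - (2 / ρ) ^ (min (act vert l C).card K)) / M := by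
      apply div_nonneg _ hMpos.le
      have : (0 : ℝ) ≤ (j : ℝ) := Nat.cast_nonneg _
      linarith
    have hen : 0 ≤ e * ((n + 1 : ℕ) : ℝ) := mul_nonneg he (Nat.cast_nonneg _)
    by_cases hKq : K ≤ (act vert l C).card
    · refine le_trans (halive j l C hjM.le hX hKq hq) ?_
      apply mul_le_mul_of_nonneg_left _ (Nat.cast_nonneg _)
      linarith
    by_cases hq0 : act vert l C = ∅
    · refine le_trans (hdead j l C hjM.le hX hq0) ?_
      apply mul_le_mul_of_nonneg_left _ (Nat.cast_nonneg _)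
      linarith
    obtain ⟨h, hh⟩ := Finset.nonempty_iff_ne_empty.2 hq0
    have hhC : vert h ∈ C ∧ h ∉ dom l := by simpa [act] using hh
    obtain ⟨hC, hl⟩ := hhC
    set q := (act vert l C).card with hqdef
    have hqK : q < K := by omega
    set A : ℝ := ε1 + e * n + ((j : ℝ) + 1 + (2 / ρ) ^ K) / M with hA
    have hA0 : 0 ≤ A := by
      have h1 : 0 ≤ e * (n : ℝ) := mul_nonneg he (Nat.cast_nonneg _)
      have h2 : 0 ≤ ((j : ℝ) + 1 + (2 / ρ) ^ K) / M := by positivity
      linarith
    set b : H → ℝ := fun y => A +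
      (if ¬ (vert y ∉ U0 ∧ vert y ∉ C ∧ deg vert (vert y) ≤ G) then 1 else 0) -
      (if (vert y ∉ U0 ∧ vert y ∉ C ∧ deg vert (vert y) ≤ G ∧ 3 ≤ deg vert (vert y)) then
        (2 / ρ) ^ (q + 1) / M else 0) with hb
    have hrev := reveal_le hl (fun _ σ => F σ) b (by
      intro y hy
      rw [mem_fr] at hy
      by_cases hgd : (vert y ∉ U0 ∧ vert y ∉ C ∧ deg vert (vert y) ≤ G)
      · have hX' := hX.step hC hl hgd.1 hgd.2.1 hgd.2.2
        have hact := hX.act_step hC hl hgd.1 hgd.2.1
        have hdeg1 : 1 ≤ deg vert (vert y) := by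
          unfold deg
          exact Finset.card_pos.2 ⟨y, by simp⟩
        have hih := ih (j + 1) (by omega) ((h, y) :: l) (insert (vert y) C) hX' (by omega)
        refine le_trans hih ?_
        apply mul_le_mul_of_nonneg_left _ (Nat.cast_nonneg _)
        simp only [hb, hA, hgd, not_true_eq_false, if_false, add_zero, true_and, and_self, not_false_eq_true]
        by_cases h3 : 3 ≤ deg vert (vert y)
        · rw [if_pos h3]
          have hmin : q + 1 ≤ min (act vert ((h, y) :: l) (insert (vert y) C)).card K := by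
            apply le_min
            · omega
            · omega
          have hp := pow_le_pow_right₀ hL1 hmin
          have h5 : ((j : ℝ) + 1 + (2 / ρ) ^ K) / M - (2 / ρ) ^ (q + 1) / M =
              ((j : ℝ) + 1 + (2 / ρ) ^ K - (2 / ρ) ^ (q + 1)) / M := by ring
          have h6 : (((j + 1 : ℕ) : ℝ) + (2 / ρ) ^ K -
              (2 / ρ) ^ (min (act vert ((h, y) :: l) (insert (vert y) C)).card K)) / M ≤
              ((j : ℝ) + 1 + (2 / ρ) ^ K - (2 / ρ) ^ (q + 1)) / M := by
            apply div_le_div_of_nonneg_right _ hMpos.le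
            push_cast; linarith
          linarith
        · rw [if_neg h3]
          have hp : 0 ≤ (2 / ρ) ^ (min (act vert ((h, y) :: l) (insert (vert y) C)).card K) :=
            pow_nonneg hL0 _
          have h6 : (((j + 1 : ℕ) : ℝ) + (2 / ρ) ^ K -
              (2 / ρ) ^ (min (act vert ((h, y) :: l) (insert (vert y) C)).card K)) / M ≤
              ((j : ℝ) + 1 + (2 / ρ) ^ K) / M := by
            apply div_le_div_of_nonneg_right _ hMpos.le
            push_cast; linarith
          linarith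
      · refine le_trans (hone _) ?_
        apply mul_le_mul_of_nonneg_left _ (Nat.cast_nonneg _)
        have hng : ¬ (vert y ∉ U0 ∧ vert y ∉ C ∧ deg vert (vert y) ≤ G ∧
            3 ≤ deg vert (vert y)) := fun h' => hgd ⟨h'.1, h'.2.1, h'.2.2.1⟩
        simp only [hb]
        rw [if_pos hgd, if_neg hng]
        linarith)
    refine le_trans hrev ?_
    apply mul_le_mul_of_nonneg_left _ (Nat.cast_nonneg _)
    have hmin : min q K = q := min_eq_left hqK.le
    rw [hmin] at hterm ⊢
    rcases Finset.eq_empty_or_nonempty (fr l h) with h0 | h0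
    · rw [h0]
      simp only [Finset.sum_empty, Finset.card_empty, Nat.cast_zero, div_zero]
      linarith
    have hpos : (0 : ℝ) < (fr l h).card := by exact_mod_cast Finset.card_pos.2 h0
    rw [div_le_iff₀ hpos]
    have hsum : ∑ x ∈ fr l h, b x = ((fr l h).card : ℝ) * A +
        (((fr l h).filter (fun y =>
          ¬ (vert y ∉ U0 ∧ vert y ∉ C ∧ deg vert (vert y) ≤ G))).card : ℝ) -
        (((fr l h).filter (fun y =>
          vert y ∉ U0 ∧ vert y ∉ C ∧ deg vert (vert y) ≤ G ∧ 3 ≤ deg vert (vert y))).card : ℝ) *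
          ((2 / ρ) ^ (q + 1) / M) := by
      simp only [hb]
      rw [Finset.sum_sub_distrib, Finset.sum_add_distrib, Finset.sum_const, nsmul_eq_mul,
        ← Finset.sum_filter, ← Finset.sum_filter, Finset.sum_const, Finset.sum_const,
        nsmul_eq_mul, nsmul_eq_mul, mul_one]
    rw [hsum]
    have hg := hgood j l C hjM hX h hC hl
    have hbd := hbad j l C hjM hX h hC hl
    have hLq : (1 : ℝ) ≤ (2 / ρ) ^ q := one_le_pow₀ hL1
    have hLM : 0 ≤ (2 / ρ) ^ (q + 1) / M := by positivity
    have h7 := mul_le_mul_of_nonneg_right hg hLM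
    have h8 : ρ * ((fr l h).card : ℝ) * ((2 / ρ) ^ (q + 1) / M) =
        ((fr l h).card : ℝ) * (2 * (2 / ρ) ^ q / M) := by
      rw [pow_succ]; field_simp
    rw [h8] at h7
    have h9 : ((fr l h).card : ℝ) * (((j : ℝ) + 1 + (2 / ρ) ^ K) / M - 2 * (2 / ρ) ^ q / M) ≤
        ((fr l h).card : ℝ) * (((j : ℝ) + (2 / ρ) ^ K - (2 / ρ) ^ q) / M) := by
      apply mul_le_mul_of_nonneg_left _ hpos.le
      rw [← sub_div]
      apply div_le_div_of_nonneg_right _ hMpos.le
      linarith
    have h10 : (ε1 + e * ((n + 1 : ℕ) : ℝ) +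
        ((j : ℝ) + (2 / ρ) ^ K - (2 / ρ) ^ q) / M) * ((fr l h).card : ℝ) =
        ((fr l h).card : ℝ) * (ε1 + e * n) + e * ((fr l h).card : ℝ) +
        ((fr l h).card : ℝ) * (((j : ℝ) + (2 / ρ) ^ K - (2 / ρ) ^ q) / M) := by
      push_cast; ring
    rw [h10, hA]
    have h11 : ((fr l h).card : ℝ) * (ε1 + e * n + ((j : ℝ) + 1 + (2 / ρ) ^ K) / M) =
        ((fr l h).card : ℝ) * (ε1 + e * n) +
        ((fr l h).card : ℝ) * (((j : ℝ) + 1 + (2 / ρ) ^ K) / M) := by ring
    rw [h11]
    rw [mul_sub] at h9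
    linarith

theorem explore {vert : H → V} {l0 : List (H × H)} {U0 : Finset V} {s : V} {G K M : ℕ}
    {ρ e ε1 : ℝ} (hρ : 0 < ρ) (hρ1 : ρ ≤ 1) (hM : 1 ≤ M) (he : 0 ≤ e) (hε1 : 0 ≤ ε1)
    (F : Mt H → ℝ) (hF1 : ∀ σ, F σ ≤ 1)
    (hgood : ∀ (j : ℕ) (l : List (H × H)) (C : Finset V), j < M → XS vert l0 U0 s G j l C →
      ∀ h, vert h ∈ C → h ∉ dom l → ρ * ((fr l h).card : ℝ) ≤ (((fr l h).filter (fun y =>
        vert y ∉ U0 ∧ vert y ∉ C ∧ deg vert (vert y) ≤ G ∧ 3 ≤ deg vert (vert y))).card : ℝ))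
    (hbad : ∀ (j : ℕ) (l : List (H × H)) (C : Finset V), j < M → XS vert l0 U0 s G j l C →
      ∀ h, vert h ∈ C → h ∉ dom l → (((fr l h).filter (fun y =>
        ¬ (vert y ∉ U0 ∧ vert y ∉ C ∧ deg vert (vert y) ≤ G))).card : ℝ) ≤
          e * ((fr l h).card : ℝ))
    (hdead : ∀ (j : ℕ) (l : List (H × H)) (C : Finset V), j ≤ M → XS vert l0 U0 s G j l C →
      act vert l C = ∅ → ∑ σ ∈ Al l, F σ ≤ ((Al l).card : ℝ) * ε1)
    (halive : ∀ (j : ℕ) (l : List (H × H)) (C : Finset V), j ≤ M → XS vert l0 U0 s G j l C →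
      K ≤ (act vert l C).card → (act vert l C).card ≤ K + G →
      ∑ σ ∈ Al l, F σ ≤ ((Al l).card : ℝ) * ε1)
    (hs : s ∉ U0) (hs1 : 1 ≤ deg vert s) (hsG : deg vert s ≤ G)
    (hold : ∀ g ∈ dom l0, vert g ∈ U0) :
    ∑ σ ∈ Al l0, F σ ≤ ((Al l0).card : ℝ) * (ε1 + e * M + (2 / ρ) ^ K / M) := by
  have hL2 : (2 : ℝ) ≤ 2 / ρ := by
    rw [le_div_iff₀ hρ]; nlinarith
  have hMpos : (0 : ℝ) < M := by exact_mod_cast hM
  have hX0 : XS vert l0 U0 s G 0 l0 {s} := by
    refine ⟨mem_singleton_self _, ?_, hold, List.suffix_refl _, fun g hg => Or.inr hg, ?_, by simp,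
      by simp, ?_, ⟨fun _ => 0, ?_, ?_⟩⟩
    · intro v hv
      rw [mem_singleton.1 hv]; exact hs
    · intro p hp
      have h1 : vert p.1 ∈ U0 := hold p.1 (mem_dom.2 ⟨p, hp, Or.inl rfl⟩)
      have h2 : vert p.2 ∈ U0 := hold p.2 (mem_dom.2 ⟨p, hp, Or.inr rfl⟩)
      rw [mem_singleton, mem_singleton]
      constructor
      · intro h3; rw [h3] at h1; exact absurd h1 hs
      · intro h3; rw [h3] at h2; exact absurd h2 hs
    · intro v hv
      rw [mem_singleton.1 hv]; exact ⟨hs1, hsG⟩
    · intro v _; exact le_refl _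
    · intro v hv hvs
      exact absurd (mem_singleton.1 hv) hvs
  have hact : (act vert l0 {s}).card ≤ K + G := by
    have h1 : (act vert l0 {s}).card ≤ deg vert s := by
      unfold deg act
      apply Finset.card_le_card
      intro f hf
      simp only [mem_filter, mem_univ, true_and, mem_singleton] at hf ⊢
      exact hf.1
    omega
  refine le_trans (explore_aux hρ hρ1 hM he hε1 F hF1 hgood hbad hdead halive M 0 (by omega)
    l0 {s} hX0 hact) ?_
  apply mul_le_mul_of_nonneg_left _ (Nat.cast_nonneg _)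
  have h1 : (0 : ℝ) ≤ (2 / ρ) ^ (min (act vert l0 {s}).card K) := by positivity
  have h2 : (((0 : ℕ) : ℝ) + (2 / ρ) ^ K - (2 / ρ) ^ (min (act vert l0 {s}).card K)) / M ≤
      (2 / ρ) ^ K / M := by
    apply div_le_div_of_nonneg_right _ hMpos.le
    push_cast; linarith
  linarith

/-- If the exploration has died, the explored vertices contain everything that can be reached. -/
theorem XS.closed {vert : H → V} {l0 : List (H × H)} {U0 : Finset V} {s : V} {G j : ℕ}
    {l : List (H × H)} {C : Finset V} (hX : XS vert l0 U0 s G j l C) (h0 : act vert l C = ∅)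
    {σ : Mt H} (hσ : σ ∈ Al l) {v : V}
    (hv : Relation.ReflTransGen (fun x y => ∃ h, vert h = x ∧ vert (σ h) = y) s v) : v ∈ C := by
  induction hv with
  | refl => exact hX.sC
  | tail _ hstep ih =>
    obtain ⟨h, h1, h2⟩ := hstep
    have hd : h ∈ dom l := by
      by_contra hcon
      have : h ∈ act vert l C := by simp [act, h1, ih, hcon]
      rw [h0] at this
      exact absurd this (Finset.notMem_empty _)
    obtain ⟨p, hp, hp2⟩ := mem_dom.1 hd
    have h3 := mem_Al.1 hσ p hp
    rcases hp2 with rfl | rfl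
    · rw [h3] at h2
      rw [← h2]
      exact (hX.same p hp).1 (h1 ▸ ih)
    · have h4 : σ p.2 = p.1 := by rw [← h3, Mt.invol]
      rw [h4] at h2
      rw [← h2]
      exact (hX.same p hp).2 (h1 ▸ ih)

end Pool.Agent.H949.CX
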