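import Pool.Agent.H949.CX.Law

/-!
# Coexistence: the general theorem
-/

set_option linter.unusedSectionVars false
set_option linter.unusedSimpArgs false
set_option linter.unusedVariables false

open MeasureTheory Finset Filter Topology ProbabilityTheory
open scoped ENNReal

namespace Pool.Agent.H949.CX

open Pool.Agent.H949.CM

theorem DegOK.mono {V H : Type} [Fintype V] [DecidableEq V] [Fintype H] [DecidableEq H]
    {vert : H → V} {ν K1 K1' η cd c0 C0 : ℝ} (h : DegOK vert ν K1 η cd c0 C0) (hK : K1 ≤ K1') :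
    DegOK vert ν K1' η cd c0 C0 :=
  ⟨h.up, h.lo, le_trans h.mom (mul_le_mul_of_nonneg_right hK (Nat.cast_nonneg _)), h.cN, h.CN⟩

theorem meas_deg {n : ℕ} (s : Set (Fin (n + 1) → ℕ)) : MeasurableSet s :=
  (Set.to_countable s).measurableSet

section

variable {μD : Measure ℕ} [IsProbabilityMeasure μD] {κ : Measure (ℝ × ℝ)}
  [IsProbabilityMeasure κ] {η ν α : ℝ}

theorem even_card_fix {n : ℕ} (d : Fin (n + 1) → ℕ) :
    0 < Fintype.card (Mt (HalfEdge (fixParity d))) := by
  rw [Fintype.card_pos_iff]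
  apply nonempty_Mt
  rw [card_halfEdge]
  exact even_fixParity d

/-- **Coexistence**, general form. -/
theorem coex_general (hη0 : 0 < η) (hη1 : η ≤ 1)
    (hmom : ∫⁻ k, ENNReal.ofReal ((k : ℝ) ^ (2 + η)) ∂μD < ⊤)
    (hν : ν = (∫ k, (k : ℝ) * ((k : ℝ) - 1) ∂μD) / ∫ k, (k : ℝ) ∂μD) (hν1 : 1 < ν)
    (hα0 : 0 < α) (hpos : ∀ c, ∀ᵐ w ∂κ, 0 < pr c w)
    (hα : ∀ c, ∫⁻ w, ex α (pr c w) ∂κ = (ENNReal.ofReal ν)⁻¹) :
    ∀ ε : ℝ, 0 < ε → ∃ δ : ℝ, 0 < δ ∧ ∀ᶠ n : ℕ in atTop, 0 < PP μD κ n inGiant ∧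
      PP μD κ n (fun d => inGiant d ∩ noCoex δ d) ≤ ENNReal.ofReal ε * PP μD κ n inGiant := by
  classical
  intro ε hε
  have hD0 : 0 < ∫ k, (k : ℝ) ∂μD := by
    have h1 : 0 ≤ ∫ k, (k : ℝ) ∂μD := integral_nonneg (fun k => Nat.cast_nonneg k)
    rcases h1.lt_or_eq with h2 | h2
    · exact h2
    · rw [← h2, div_zero] at hν
      linarith
  obtain ⟨cd, c0, C0, hcd, hcd1, hc0, hC0, hwhp⟩ := degOK_whp μD hη0 hη1 hmom hD0 hν
  -- the lower bound
  obtain ⟨Ka, hKa⟩ := hwhp (1 / 2) (by norm_num)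
  obtain ⟨p0, hp0, ma, hma⟩ := graph_low (κ := κ) (K1 := max Ka 0) (c0 := c0) (C0 := C0) hpos hα0
    hν1 hη0 (le_max_right _ _) hcd hcd1 hc0 hC0 hα
  set p1 : ℝ := p0 / 2 with hp1
  have hp10 : 0 < p1 := by positivity
  have hNlarge : ∀ m0 : ℕ, ∀ᶠ n : ℕ in atTop, ∀ d : Fin (n + 1) → ℕ,
      c0 * (Fintype.card (Fin (n + 1)) : ℝ) ≤ (Fintype.card (HalfEdge (fixParity d)) : ℝ) →
        m0 ≤ Fintype.card (HalfEdge (fixParity d)) := by
    intro m0
    filter_upwards [(tendsto_natCast_atTop_atTop (R := ℝ)).eventually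
      (eventually_ge_atTop ((m0 : ℝ) / c0))] with n hn d hd
    rw [div_le_iff₀ hc0] at hn
    rw [Fintype.card_fin] at hd
    push_cast at hd
    have h1 : (m0 : ℝ) ≤ (Fintype.card (HalfEdge (fixParity d)) : ℝ) := by nlinarith
    exact_mod_cast h1
  have hlow : ∀ᶠ n : ℕ in atTop, ENNReal.ofReal p1 ≤ PP μD κ n inGiant := by
    filter_upwards [hKa, hNlarge ma, eventually_ge_atTop 1] with n h1 h2 hn
    set bad : Set (Fin (n + 1) → ℕ) :=
      {d | ¬ DegOK (vtx (d := fixParity d)) ν Ka η cd c0 C0} with hbad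
    have h3 : ∀ d ∈ badᶜ, ENNReal.ofReal p0 ≤ cmLaw2 κ (fixParity d) (inGiant (fixParity d)) := by
      intro d hd
      have hD : DegOK (vtx (d := fixParity d)) ν Ka η cd c0 C0 := by
        by_contra hc
        exact hd hc
      have h4 := hma (Fin (n + 1)) (HalfEdge (fixParity d)) vtx (h2 d hD.cN)
        (hD.mono (le_max_left _ _))
      have h5 := cmLaw2_ge hn κ (fixParity d) (even_card_fix d)
        (fun σ a b => InA vtx σ a b)
      refine le_trans (ENNReal.ofReal_le_ofReal ?_) h5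
      have hM : (0 : ℝ) < Fintype.card (Mt (HalfEdge (fixParity d))) := by
        exact_mod_cast even_card_fix d
      have hnr : (0 : ℝ) < n := by exact_mod_cast hn
      rw [le_div_iff₀ (by positivity)]
      refine le_trans ?_ h4
      rw [Fintype.card_fin]
      push_cast
      calc p0 * ((Fintype.card (Mt (HalfEdge (fixParity d))) : ℝ) * (((n : ℝ) + 1) * n))
          ≤ p0 * ((Fintype.card (Mt (HalfEdge (fixParity d))) : ℝ) *
            (((n : ℝ) + 1) * (n + 1))) := by
            gcongr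
            linarith
        _ = _ := by ring
    have h6 : 1 / 2 ≤ (Measure.pi fun _ : Fin (n + 1) => μD) badᶜ := by
      rw [prob_compl_eq_one_sub (meas_deg bad)]
      have h7 : (Measure.pi fun _ : Fin (n + 1) => μD) bad ≤ 1 / 2 := by
        refine le_trans h1 ?_
        rw [ENNReal.ofReal_div_of_pos (by norm_num)]
        simp
      calc (1 / 2 : ℝ≥0∞) = 1 - 1 / 2 := by
            rw [one_div, ENNReal.one_sub_inv_two]
        _ ≤ _ := tsub_le_tsub_left h7 1
    unfold PP
    calc ENNReal.ofReal p1 = ENNReal.ofReal p0 * (1 / 2) := by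
          rw [hp1, ENNReal.ofReal_div_of_pos (by norm_num), div_eq_mul_inv, one_div]
          simp
      _ ≤ ENNReal.ofReal p0 * (Measure.pi fun _ : Fin (n + 1) => μD) badᶜ := by gcongr
      _ = ∫⁻ d, badᶜ.indicator (fun _ => ENNReal.ofReal p0) d
            ∂(Measure.pi fun _ : Fin (n + 1) => μD) := by
          rw [lintegral_indicator_const (meas_deg _)]
      _ ≤ _ := by
          apply lintegral_mono
          intro d
          by_cases hd : d ∈ badᶜ
          · rw [Set.indicator_of_mem hd]; exact h3 d hd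
          · rw [Set.indicator_of_notMem hd]; exact bot_le
  -- the upper bound
  set ε' : ℝ := ε * p1 / 4 with hε'
  have hε'0 : 0 < ε' := by positivity
  obtain ⟨Kb, hKb⟩ := hwhp (ε * p1 / 2) (by positivity)
  obtain ⟨δ, hδ, mb, hmb⟩ := graph_est (κ := κ) (K1 := max Kb 0) (c0 := c0) (C0 := C0)
    (ε' := ε') hpos hα0 hν1 hη0 (le_max_right _ _) hcd hcd1 hC0 hε'0 hα
  refine ⟨δ * c0, by positivity, ?_⟩
  filter_upwards [hlow, hKb, hNlarge mb, eventually_ge_atTop 1] with n hlown h1 h2 hn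
  refine ⟨lt_of_lt_of_le (by simpa using hp10) hlown, ?_⟩
  set bad : Set (Fin (n + 1) → ℕ) :=
    {d | ¬ DegOK (vtx (d := fixParity d)) ν Kb η cd c0 C0} with hbad
  have h3 : ∀ d ∈ badᶜ, cmLaw2 κ (fixParity d) (inGiant (fixParity d) ∩
      noCoex (δ * c0) (fixParity d)) ≤ ENNReal.ofReal (ε * p1 / 2) := by
    intro d hd
    have hD : DegOK (vtx (d := fixParity d)) ν Kb η cd c0 C0 := by
      by_contra hc
      exact hd hc
    have h4 := hmb (Fin (n + 1)) (HalfEdge (fixParity d)) vtx (h2 d hD.cN)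
      (hD.mono (le_max_left _ _))
    have h5 := cmLaw2_le κ (fixParity d) (inGiant (fixParity d) ∩
      noCoex (δ * c0) (fixParity d))
    refine le_trans h5 (ENNReal.ofReal_le_ofReal ?_)
    have hM : (0 : ℝ) < Fintype.card (Mt (HalfEdge (fixParity d))) := by
      exact_mod_cast even_card_fix d
    have hnr : (1 : ℝ) ≤ n := by exact_mod_cast hn
    rw [div_le_iff₀ (by positivity)]
    have h6 : ∀ (σ : Mt (HalfEdge (fixParity d))) (a b : Fin (n + 1)),
        ((lawW (HalfEdge (fixParity d)) κ) {ω | (σ, ω, (a, b)) ∈ inGiant (fixParity d) ∩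
          noCoex (δ * c0) (fixParity d)}).toReal ≤
        fAB κ vtx (δ * (Fintype.card (HalfEdge (fixParity d)) : ℝ)) σ a b := by
      intro σ a b
      unfold fAB
      by_cases hA : InA vtx σ a b
      · rw [if_pos hA]
        apply ENNReal.toReal_mono (measure_ne_top _ _)
        apply measure_mono
        rintro ω ⟨_, t, col, hO, hb⟩
        refine ⟨t, col, hO, ?_⟩
        have h7 : δ * c0 * ((n : ℝ) + 1) ≤
            δ * (Fintype.card (HalfEdge (fixParity d)) : ℝ) := by
          have h8 := hD.cN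
          rw [Fintype.card_fin] at h8
          push_cast at h8
          calc δ * c0 * ((n : ℝ) + 1) = δ * (c0 * ((n : ℝ) + 1)) := by ring
            _ ≤ _ := by gcongr
        rcases hb with hb | hb
        · exact Or.inl (lt_of_lt_of_le hb h7)
        · exact Or.inr (lt_of_lt_of_le hb h7)
      · rw [if_neg hA]
        have h8 : {ω | (σ, ω, (a, b)) ∈ inGiant (fixParity d) ∩
          noCoex (δ * c0) (fixParity d)} = ∅ := by
          rw [Set.eq_empty_iff_forall_notMem]
          intro ω hω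
          exact hA hω.1
        rw [h8, measure_empty]
        simp
    refine le_trans (Finset.sum_le_sum (fun σ _ => Finset.sum_le_sum (fun a _ =>
      Finset.sum_le_sum (fun b _ => h6 σ a b)))) (le_trans h4 ?_)
    rw [Fintype.card_fin]
    push_cast
    rw [hε']
    have h9 : ((n : ℝ) + 1) ^ 2 ≤ 2 * (((n : ℝ) + 1) * n) := by nlinarith
    calc (Fintype.card (Mt (HalfEdge (fixParity d))) : ℝ) * ((n : ℝ) + 1) ^ 2 * (ε * p1 / 4)
        ≤ (Fintype.card (Mt (HalfEdge (fixParity d))) : ℝ) * (2 * (((n : ℝ) + 1) * n)) *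
          (ε * p1 / 4) := by gcongr
      _ = _ := by ring
  unfold PP
  calc ∫⁻ d, cmLaw2 κ (fixParity d) (inGiant (fixParity d) ∩ noCoex (δ * c0) (fixParity d))
        ∂(Measure.pi fun _ : Fin (n + 1) => μD)
      ≤ ∫⁻ d, (bad.indicator (fun _ => (1 : ℝ≥0∞)) d + ENNReal.ofReal (ε * p1 / 2))
        ∂(Measure.pi fun _ : Fin (n + 1) => μD) := by
        apply lintegral_mono
        intro d
        by_cases hd : d ∈ bad
        · show _ ≤ bad.indicator (fun _ => (1 : ℝ≥0∞)) d + _
          rw [Set.indicator_of_mem hd]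
          exact le_trans (cmLaw2_le_one κ _ _) le_self_add
        · exact le_trans (h3 d hd) le_add_self
    _ = (Measure.pi fun _ : Fin (n + 1) => μD) bad + ENNReal.ofReal (ε * p1 / 2) := by
        rw [lintegral_add_right _ measurable_const, lintegral_const, measure_univ, mul_one,
          lintegral_indicator_const (meas_deg _), one_mul]
    _ ≤ ENNReal.ofReal (ε * p1 / 2) + ENNReal.ofReal (ε * p1 / 2) :=
        add_le_add h1 (le_refl _)
    _ = ENNReal.ofReal ε * ENNReal.ofReal p1 := by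
        rw [← ENNReal.ofReal_add (by positivity) (by positivity), ← ENNReal.ofReal_mul hε.le]
        congr 1
        ring
    _ ≤ _ := mul_le_mul' (le_refl _) hlown

end

end Pool.Agent.H949.CX
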