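import Pool.Agent.H949.CM.Model

/-!
# Competition on the configuration model with two distinct uniform sources: definitions
-/

open MeasureTheory Finset ProbabilityTheory
open scoped ENNReal

namespace Pool.Agent.H949.CX

open Pool.Agent.H949.CM

/-- Two vertices are connected in the graph of the matching `σ`, whose edges join `vert h` and
`vert (σ h)`. -/
def Cn {V H : Type} (vert : H → V) (σ : Mt H) : V → V → Prop :=
  Relation.ReflTransGen (fun x y => ∃ h, vert h = x ∧ vert (σ h) = y)

open Classical in
/-- The number of vertices of the component of `v`. -/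
noncomputable def cc {V H : Type} [Fintype V] (vert : H → V) (σ : Mt H) (v : V) : ℕ :=
  (univ.filter (fun w => Cn vert σ v w)).card

/-- Both vertices lie in one and the same component, and no component is larger. -/
def InA {V H : Type} [Fintype V] (vert : H → V) (σ : Mt H) (a b : V) : Prop :=
  Cn vert σ a b ∧ ∀ v, cc vert σ v ≤ cc vert σ a

/-- The sample space for a given degree sequence `d`: the pairing of the half-edges, the pair
(red length, blue length) of every possible edge, and the pair (red source, blue source). -/
abbrev Conf {n : ℕ} (d : Fin (n + 1) → ℕ) : Type :=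
  Mt (HalfEdge d) × (Sym2 (HalfEdge d) → ℝ × ℝ) × (Fin (n + 1) × Fin (n + 1))

/-- The law for a given degree sequence `d`: the half-edges are paired by a uniform perfect
matching, the pairs (red length, blue length) of the edges are independent with law `κ`, and the
pair (red source, blue source) is uniform among the pairs of distinct vertices. -/
noncomputable def cmLaw2 {n : ℕ} (κ : Measure (ℝ × ℝ)) (d : Fin (n + 1) → ℕ) :
    Measure (Conf d) :=
  (uniformOn Set.univ).prod
    ((Measure.pi fun _ => κ).prod (uniformOn {p : Fin (n + 1) × Fin (n + 1) | p.1 ≠ p.2}))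

/-- Both sources lie in one and the same component of largest size. -/
def inGiant {n : ℕ} (d : Fin (n + 1) → ℕ) : Set (Conf d) :=
  {x | InA vtx x.1 x.2.2.1 x.2.2.2}

/-- Some outcome of the competition leaves one of the colours with fewer than `δ (n + 1)`
vertices. -/
def noCoex {n : ℕ} (δ : ℝ) (d : Fin (n + 1) → ℕ) : Set (Conf d) :=
  {x | ∃ (t : Fin (n + 1) → ℝ≥0∞) (col : Fin (n + 1) → Option Bool),
    IsOutcome vtx x.1 (len x.2.1) x.2.2.1 x.2.2.2 t col ∧
      (((univ.filter (fun v => col v = some true)).card : ℝ) < δ * (n + 1) ∨
        ((univ.filter (fun v => col v = some false)).card : ℝ) < δ * (n + 1))}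

/-- Every outcome of the competition has at least `δ (n + 1)` red vertices and at least
`δ (n + 1)` blue vertices. -/
def coex {n : ℕ} (δ : ℝ) (d : Fin (n + 1) → ℕ) : Set (Conf d) :=
  {x | ∀ (t : Fin (n + 1) → ℝ≥0∞) (col : Fin (n + 1) → Option Bool),
    IsOutcome vtx x.1 (len x.2.1) x.2.2.1 x.2.2.2 t col →
      δ * (n + 1) ≤ ((univ.filter (fun v => col v = some true)).card : ℝ) ∧
        δ * (n + 1) ≤ ((univ.filter (fun v => col v = some false)).card : ℝ)}

/-- The probability of the event `E` when the degrees are independent with law `μD` (and one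
half-edge is added to the last vertex if the sum is odd). -/
noncomputable def PP (μD : Measure ℕ) (κ : Measure (ℝ × ℝ)) (n : ℕ)
    (E : ∀ d : Fin (n + 1) → ℕ, Set (Conf d)) : ℝ≥0∞ :=
  ∫⁻ d, cmLaw2 κ (fixParity d) (E (fixParity d)) ∂(Measure.pi fun _ : Fin (n + 1) => μD)

end Pool.Agent.H949.CX
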