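import Pool.Agent.H949.CX.MainEst
import Pool.Agent.H949.CX.Expl
import Pool.Agent.H949.CX.Model2

/-!
# Averages over the matchings that contain the revealed edges
-/

set_option linter.unusedSectionVars false
set_option linter.unusedSimpArgs false
set_option linter.unusedVariables false

open MeasureTheory Finset Filter Topology
open scoped ENNReal

namespace Pool.Agent.H949.CX

open Pool.Agent.H949.CM

variable {V H : Type} [Fintype V] [DecidableEq V] [Fintype H] [DecidableEq H]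

section

variable {κ : Measure (ℝ × ℝ)} [IsProbabilityMeasure κ]

theorem mp_glue (l : List (H × H)) :
    MeasurePreserving (fun p : Wt H × Wt H => glue l p.1 p.2)
      ((lawW H κ).prod (lawW H κ)) (lawW H κ) := by
  refine ⟨measurable_glue₂ l, ?_⟩
  symm
  apply Measure.pi_eq
  intro s hs
  rw [Measure.map_apply (measurable_glue₂ l) (MeasurableSet.univ_pi hs)]
  have h1 : (fun p : Wt H × Wt H => glue l p.1 p.2) ⁻¹' (Set.univ.pi s) =
      (Set.univ.pi (fun e => if e ∈ Ed l then s e else Set.univ)) ×ˢ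
        (Set.univ.pi (fun e => if e ∈ Ed l then Set.univ else s e)) := by
    ext p
    simp only [Set.mem_preimage, Set.mem_pi, Set.mem_univ, true_implies, Set.mem_prod]
    constructor
    · intro h
      refine ⟨fun e => ?_, fun e => ?_⟩
      · by_cases he : e ∈ Ed l
        · have := h e
          rw [glue_of_mem he] at this
          rw [if_pos he]; exact this
        · rw [if_neg he]; exact Set.mem_univ _
      · by_cases he : e ∈ Ed l
        · rw [if_pos he]; exact Set.mem_univ _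
        · have := h e
          rw [glue_of_notMem he] at this
          rw [if_neg he]; exact this
    · rintro ⟨h1, h2⟩ e
      by_cases he : e ∈ Ed l
      · have := h1 e
        rw [if_pos he] at this
        rw [glue_of_mem he]; exact this
      · have := h2 e
        rw [if_neg he] at this
        rw [glue_of_notMem he]; exact this
  rw [h1, Measure.prod_prod, Measure.pi_pi, Measure.pi_pi, ← Finset.prod_mul_distrib]
  apply Finset.prod_congr rfl
  intro e _
  by_cases he : e ∈ Ed l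
  · simp [he]
  · simp [he]

/-- The average over the matchings that contain `l` is an average of `EE`. -/
theorem freeze {F : Mt H → Wt H → ℝ≥0∞} (hF : ∀ σ, Measurable (F σ)) (l : List (H × H)) :
    ∫⁻ τ, EE κ l τ F ∂(lawW H κ) =
      (∑ σ ∈ Al l, ∫⁻ ω, F σ ω ∂(lawW H κ)) / (Al l).card := by
  unfold EE
  simp only [div_eq_mul_inv]
  have hm : ∀ σ : Mt H, Measurable (fun p : Wt H × Wt H => F σ (glue l p.1 p.2)) :=
    fun σ => (hF σ).comp (measurable_glue₂ l)
  rcases Finset.eq_empty_or_nonempty (Al l) with h0 | h0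
  · simp [h0]
  rw [lintegral_mul_const' _ _ (ENNReal.inv_ne_top.2 (by
    exact_mod_cast (Finset.card_pos.2 h0).ne'))]
  congr 1
  rw [lintegral_finsetSum _ (fun σ _ => (hm σ).lintegral_prod_right')]
  apply Finset.sum_congr rfl
  intro σ _
  rw [← (mp_glue (κ := κ) l).lintegral_comp (hF σ), lintegral_prod _ (hm σ).aemeasurable]

theorem avg_le {F : Mt H → Wt H → ℝ≥0∞} (hF : ∀ σ, Measurable (F σ)) {l : List (H × H)}
    (hpos : ∀ c, ∀ᵐ w ∂κ, 0 < pr c w) {C : ℝ≥0∞} (h : ∀ τ, Pos τ → EE κ l τ F ≤ C) :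
    ∑ σ ∈ Al l, ∫⁻ ω, F σ ω ∂(lawW H κ) ≤ (Al l).card * C := by
  rcases Finset.eq_empty_or_nonempty (Al l) with h0 | h0
  · simp [h0]
  have hc0 : ((Al l).card : ℝ≥0∞) ≠ 0 := by exact_mod_cast (Finset.card_pos.2 h0).ne'
  have h1 := freeze (κ := κ) hF l
  have h2 : ∫⁻ τ, EE κ l τ F ∂(lawW H κ) ≤ C := by
    calc ∫⁻ τ, EE κ l τ F ∂(lawW H κ) ≤ ∫⁻ τ, C ∂(lawW H κ) := by
          apply lintegral_mono_ae
          filter_upwards [ae_pos (H := H) hpos] with τ hτ
          exact h τ hτ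
      _ = C := by rw [lintegral_const, measure_univ, mul_one]
  rw [h1, ENNReal.div_le_iff hc0 (ENNReal.natCast_ne_top _)] at h2
  rw [mul_comm]
  exact h2

theorem Cn.symm {vert : H → V} {σ : Mt H} {x y : V} (h : Cn vert σ x y) : Cn vert σ y x := by
  induction h with
  | refl => exact Relation.ReflTransGen.refl
  | tail h1 h2 ih =>
    obtain ⟨g, hg1, hg2⟩ := h2
    refine Relation.ReflTransGen.head ⟨σ g, hg2, ?_⟩ ih
    rw [Mt.invol]; exact hg1

theorem Cn.edge (vert : H → V) (σ : Mt H) (h : H) : Cn vert σ (vert h) (vert (σ h)) :=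
  Relation.ReflTransGen.single ⟨h, rfl, rfl⟩

/-- The one-sided structure of an explored cluster. -/
structure CS (vert : H → V) (l : List (H × H)) (K0 Q0 : ℕ) (Wm S0 : ℝ) (s : V)
    (C : Finset V) : Prop where
  sC : s ∈ C
  same : ∀ p ∈ l, vert p.1 ∈ C ↔ vert p.2 ∈ C
  deg1 : ∀ v ∈ C, 1 ≤ deg vert v
  Klo : K0 ≤ (act vert l C).card
  Khi : (act vert l C).card ≤ Q0
  tree : ∃ dep : V → ℕ, (∀ v ∈ C, (dep v : ℝ) * Wm ≤ S0) ∧ ∀ v ∈ C, v ≠ s →
    ∃ p ∈ l, vert p.1 ∈ C ∧ vert p.2 = v ∧ dep (vert p.1) < dep v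

theorem mem_act {vert : H → V} {l : List (H × H)} {C : Finset V} {f : H} :
    f ∈ act vert l C ↔ vert f ∈ C ∧ f ∉ dom l := by
  simp [act]

theorem one_colour {vert : H → V} {c : Bool} {ε δ : ℝ} {K0 Q0 : ℕ} {S0 Wm : ℝ}
    (hpos : ∀ c, ∀ᵐ w ∂κ, 0 < pr c w)
    (hME : MEst κ vert c ε δ K0 Q0 S0) (hWm : 0 ≤ Wm) (hS0 : 0 ≤ S0) {l : List (H × H)}
    {sc se : V} {Uc Ue : Finset V} (hc : CS vert l K0 Q0 Wm S0 sc Uc)
    (he : CS vert l K0 Q0 Wm S0 se Ue) (hdisj : ∀ v ∈ Uc, v ∉ Ue)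
    (hdom : ∀ g ∈ dom l, vert g ∈ Uc ∪ Ue) (hl : (Al l).Nonempty) (hdQ : (dom l).card ≤ Q0)
    (hQ : Qd vert (Uc ∪ Ue) ≤ Q0) :
    ∃ G : Mt H → Wt H → ℝ≥0∞, (∀ σ, Measurable (G σ)) ∧
      ∑ σ ∈ Al l, ∫⁻ ω, G σ ω ∂(lawW H κ) ≤ (Al l).card * ENNReal.ofReal ε ∧
      ∀ σ ∈ Al l, ∀ ω, Pos ω → G σ ω < 1 → (∀ p ∈ l, pr c (ω s(p.1, p.2)) ≤ Wm) →
        ∀ (a b : V) (t : V → ℝ≥0∞) (col : V → Option Bool), src a b c = sc →
          src a b (!c) = se → IsOutcome vert σ (len ω) a b t col →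
          δ * (Fintype.card H : ℝ) ≤ ((univ.filter (fun v => col v = some c)).card : ℝ) := by
  classical
  obtain ⟨G, ok, T, R, hGm, hGE, hG⟩ := hME l Uc Ue (act vert l Uc) (act vert l Ue) hdom hl
    (fun f hf => mem_act.1 hf) (fun f hf => mem_act.1 hf) hc.Klo hc.Khi he.Khi hdQ hQ hc.deg1
  refine ⟨G, hGm, avg_le hGm hpos hGE, ?_⟩
  intro σ hσ ω hω hG1 hWt a b t col hsc hse hO
  obtain ⟨h1, h2⟩ := hG σ ω hω hG1
  have hCl : Clus vert l Uc Ue := ⟨hdisj, hdom, fun σ' hσ' g hg hgU => by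
    obtain ⟨p, hp, h3⟩ := mem_dom.1 hg
    have h4 := mem_Al.1 hσ' p hp
    rcases h3 with rfl | rfl
    · rw [h4]; exact (he.same p hp).1 hgU
    · have h5 : σ' p.2 = p.1 := by rw [← h4, Mt.invol]
      rw [h5]; exact (he.same p hp).2 hgU⟩
  have hab : a ≠ b := by
    intro hab
    have h3 : sc = se := by
      rw [← hsc, ← hse]
      unfold src
      cases c <;> simp [hab]
    exact hdisj sc hc.sC (h3 ▸ he.sC)
  obtain ⟨dep, hdep1, hdep2⟩ := hc.tree
  have hend : ∀ z, IsEnd vert c ok T (Uc ∪ Ue) (act vert l Uc) (act vert l Ue) S0 R σ ω z →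
      col z = some c := by
    intro z hz
    refine end_colour (T := T) (R := R) (ok := ok) hCl hσ hab hO (fun c' g => hω.wt c' σ g)
      (by rw [hsc]; exact hc.sC)
      (by rw [hse]; exact he.sC) (fun f hf hfd => mem_act.2 ⟨hf, hfd⟩)
      (fun f hf => (mem_act.1 hf).1) dep Wm hWm ?_ hdep1 hS0 h1 hz
    intro v hv hvs
    rw [hsc] at hvs
    obtain ⟨p, hp, h3, h4, h5⟩ := hdep2 v hv hvs
    refine ⟨p.1, h3, ?_, h5, ?_⟩
    · rw [mem_Al.1 hσ p hp]; exact h4
    · unfold wt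
      rw [mem_Al.1 hσ p hp]
      exact hWt p hp
  have h3 : (univ.filter (fun z =>
      IsEnd vert c ok T (Uc ∪ Ue) (act vert l Uc) (act vert l Ue) S0 R σ ω z)).card ≤
      (univ.filter (fun v => col v = some c)).card := by
    apply card_le_card
    intro z hz
    rw [mem_filter] at hz ⊢
    exact ⟨hz.1, hend z hz.2⟩
  have h4 : ENNReal.ofReal (δ * (Fintype.card H : ℝ)) ≤
      (((univ.filter (fun v => col v = some c)).card : ℕ) : ℝ≥0∞) := by
    refine le_trans h2 ?_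
    exact_mod_cast h3
  rw [← ENNReal.ofReal_natCast] at h4
  exact (ENNReal.ofReal_le_ofReal_iff (Nat.cast_nonneg _)).1 h4

/-- Some outcome leaves one colour with fewer than `x` vertices. -/
def BadOut (vert : H → V) (x : ℝ) (a b : V) (σ : Mt H) (ω : Wt H) : Prop :=
  ∃ (t : V → ℝ≥0∞) (col : V → Option Bool), IsOutcome vert σ (len ω) a b t col ∧
    (((univ.filter (fun v => col v = some true)).card : ℝ) < x ∨
      ((univ.filter (fun v => col v = some false)).card : ℝ) < x)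

theorem meas_ge_one {F : Wt H → ℝ≥0∞} (hF : Measurable F) :
    (lawW H κ) {ω | 1 ≤ F ω} ≤ ∫⁻ ω, F ω ∂(lawW H κ) := by
  have := mul_meas_ge_le_lintegral (μ := lawW H κ) hF 1
  rwa [one_mul] at this

theorem edge_law (e : Sym2 H) {A : Set (ℝ × ℝ)} (hA : MeasurableSet A) :
    (lawW H κ) {ω | ω e ∈ A} = κ A :=
  (measurePreserving_eval (fun _ : Sym2 H => κ) e).measure_preimage hA.nullMeasurableSet

/-- The estimate for a state in which both clusters are alive. -/
theorem state_est {vert : H → V} {ε δ : ℝ} {K0 Q0 : ℕ} {S0 Wm : ℝ}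
    (hpos : ∀ c, ∀ᵐ w ∂κ, 0 < pr c w)
    (hME : ∀ c, MEst κ vert c ε δ K0 Q0 S0) (hWm : 0 ≤ Wm) (hS0 : 0 ≤ S0) {l : List (H × H)}
    {a b : V} {C1 C2 : Finset V} (h1 : CS vert l K0 Q0 Wm S0 a C1)
    (h2 : CS vert l K0 Q0 Wm S0 b C2) (hdisj : ∀ v ∈ C1, v ∉ C2)
    (hdom : ∀ g ∈ dom l, vert g ∈ C1 ∪ C2) (hdQ : (dom l).card ≤ Q0)
    (hQ : Qd vert (C1 ∪ C2) ≤ Q0) {ε3 : ℝ≥0∞} (hκ : κ {w | ∃ c, Wm < pr c w} ≤ ε3) :
    ∑ σ ∈ Al l, (lawW H κ) {ω | BadOut vert (δ * (Fintype.card H : ℝ)) a b σ ω} ≤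
      (Al l).card * (2 * ENNReal.ofReal ε + l.length * ε3) := by
  classical
  rcases Finset.eq_empty_or_nonempty (Al l) with h0 | hl
  · simp [h0]
  obtain ⟨G1, hG1m, hG1E, hG1⟩ := one_colour hpos (hME true) hWm hS0 h1 h2 hdisj hdom hl hdQ hQ
  obtain ⟨G2, hG2m, hG2E, hG2⟩ := one_colour hpos (hME false) hWm hS0 h2 h1
    (fun v hv hv' => hdisj v hv' hv) (fun g hg => by rw [union_comm]; exact hdom g hg) hl hdQ
    (by rw [union_comm]; exact hQ)
  have hsub : ∀ σ ∈ Al l, (lawW H κ) {ω | BadOut vert (δ * (Fintype.card H : ℝ)) a b σ ω} ≤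
      ∫⁻ ω, G1 σ ω ∂(lawW H κ) + ∫⁻ ω, G2 σ ω ∂(lawW H κ) + l.length * ε3 := by
    intro σ hσ
    have hA : MeasurableSet {w : ℝ × ℝ | ∃ c, Wm < pr c w} := by
      have : {w : ℝ × ℝ | ∃ c, Wm < pr c w} = ⋃ c, {w | Wm < pr c w} := by
        ext w; simp
      rw [this]
      exact MeasurableSet.iUnion (fun c => measurableSet_lt measurable_const (measurable_pr c))
    have hincl : {ω | BadOut vert (δ * (Fintype.card H : ℝ)) a b σ ω} ⊆
        ({ω | ¬ Pos ω} ∪ {ω | 1 ≤ G1 σ ω}) ∪ ({ω | 1 ≤ G2 σ ω} ∪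
          ⋃ p ∈ l.toFinset, {ω : Wt H | ω s(p.1, p.2) ∈ {w | ∃ c, Wm < pr c w}}) := by
      intro ω hω
      by_contra hc
      simp only [Set.mem_union, not_or] at hc
      obtain ⟨⟨c1, c2⟩, c3, c4⟩ := hc
      have d1 : Pos ω := by
        by_contra h; exact c1 h
      have d2 : G1 σ ω < 1 := by
        by_contra h; exact c2 (not_lt.1 h)
      have d3 : G2 σ ω < 1 := by
        by_contra h; exact c3 (not_lt.1 h)
      have d4 : ∀ c, ∀ p ∈ l, pr c (ω s(p.1, p.2)) ≤ Wm := by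
        intro c p hp
        by_contra h
        apply c4
        rw [Set.mem_iUnion₂]
        exact ⟨p, List.mem_toFinset.2 hp, c, not_le.1 h⟩
      obtain ⟨t, col, hO, hbad⟩ := hω
      rcases hbad with hb | hb
      · have := hG1 σ hσ ω d1 d2 (d4 true) a b t col rfl rfl hO
        linarith
      · have := hG2 σ hσ ω d1 d3 (d4 false) a b t col rfl rfl hO
        linarith
    have hpos0 : (lawW H κ) {ω | ¬ Pos ω} = 0 := by
      have := ae_pos (H := H) hpos
      rwa [ae_iff] at this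
    calc _ ≤ _ := measure_mono hincl
      _ ≤ ((lawW H κ) {ω | ¬ Pos ω} + (lawW H κ) {ω | 1 ≤ G1 σ ω}) +
          ((lawW H κ) {ω | 1 ≤ G2 σ ω} + (lawW H κ) (⋃ p ∈ l.toFinset,
            {ω : Wt H | ω s(p.1, p.2) ∈ {w | ∃ c, Wm < pr c w}})) :=
          le_trans (measure_union_le _ _) (add_le_add (measure_union_le _ _)
            (measure_union_le _ _))
      _ ≤ (0 + ∫⁻ ω, G1 σ ω ∂(lawW H κ)) + (∫⁻ ω, G2 σ ω ∂(lawW H κ) + l.length * ε3) := by
          refine add_le_add (add_le_add hpos0.le (meas_ge_one (hG1m σ)))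
            (add_le_add (meas_ge_one (hG2m σ)) ?_)
          refine le_trans (measure_biUnion_finset_le _ _) ?_
          calc ∑ p ∈ l.toFinset, (lawW H κ)
                {ω : Wt H | ω s(p.1, p.2) ∈ {w | ∃ c, Wm < pr c w}}
              ≤ ∑ p ∈ l.toFinset, ε3 := by
                apply Finset.sum_le_sum
                intro p _
                rw [edge_law s(p.1, p.2) hA]
                exact hκ
            _ = (l.toFinset.card : ℝ≥0∞) * ε3 := by rw [sum_const, nsmul_eq_mul]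
            _ ≤ _ := by
                gcongr
                exact_mod_cast List.toFinset_card_le l
      _ = _ := by ring
  calc ∑ σ ∈ Al l, (lawW H κ) {ω | BadOut vert (δ * (Fintype.card H : ℝ)) a b σ ω}
      ≤ ∑ σ ∈ Al l, (∫⁻ ω, G1 σ ω ∂(lawW H κ) + ∫⁻ ω, G2 σ ω ∂(lawW H κ) + l.length * ε3) :=
        Finset.sum_le_sum hsub
    _ = ∑ σ ∈ Al l, ∫⁻ ω, G1 σ ω ∂(lawW H κ) + ∑ σ ∈ Al l, ∫⁻ ω, G2 σ ω ∂(lawW H κ) +
        (Al l).card * (l.length * ε3) := by
        rw [Finset.sum_add_distrib, Finset.sum_add_distrib, sum_const, nsmul_eq_mul]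
    _ ≤ (Al l).card * ENNReal.ofReal ε + (Al l).card * ENNReal.ofReal ε +
        (Al l).card * (l.length * ε3) := add_le_add (add_le_add hG1E hG2E) (le_refl _)
    _ = _ := by ring

end

end Pool.Agent.H949.CX
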