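import Pool.Agent.H949.CX.Freeze

/-!
# Large components
-/

set_option linter.unusedSectionVars false
set_option linter.unusedSimpArgs false
set_option linter.unusedVariables false

open MeasureTheory Finset Filter Topology
open scoped ENNReal

namespace Pool.Agent.H949.CX

open Pool.Agent.H949.CM

variable {V H : Type} [Fintype V] [DecidableEq V] [Fintype H] [DecidableEq H]

theorem VP.conn {vert : H → V} {σ : Mt H} {U : Finset V} {e : H} :
    ∀ (ys : List H) (g : H), VP vert σ U e (g :: ys) → Cn vert σ (vert e) (vert (σ g)) := by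
  intro ys
  induction ys with
  | nil =>
    intro g h
    rw [h.1]
    exact Cn.edge vert σ e
  | cons g' ys ih =>
    intro g h
    have h1 := h.1
    rw [mem_nxt] at h1
    have h2 := ih g' h.2.2.2
    rw [← h1.1] at h2
    exact h2.trans (Cn.edge vert σ g)

theorem IsEnd.conn {vert : H → V} {c : Bool} {ok : V → ℝ → Prop} {T : ℝ} {U : Finset V}
    {Rt Rr : Finset H} {S0 : ℝ} {R : ℕ} {σ : Mt H} {ω : Wt H} {z : V}
    (h : IsEnd vert c ok T U Rt Rr S0 R σ ω z) : ∃ e ∈ Rt, Cn vert σ (vert e) z := by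
  obtain ⟨e, he, k, zs, hE, hD, hk⟩ := h
  have hvp := Ext.vp R (Or.inl ⟨rfl, rfl⟩ : VX vert σ U e e []) hE
  refine ⟨e, he, ?_⟩
  rw [← hk]
  exact VP.conn zs k hvp

variable {κ : Measure (ℝ × ℝ)} [IsProbabilityMeasure κ]

open Classical in
/-- Whatever is revealed in a bounded region, there is a component of linear size. -/
theorem giant {vert : H → V} {ε δ : ℝ} {K0 Q0 : ℕ} (hpos : ∀ c, ∀ᵐ w ∂κ, 0 < pr c w)
    (hε : 0 ≤ ε) (hME : MEst κ vert true ε δ K0 Q0 0) {l : List (H × H)} {Rt : Finset H}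
    (hRt : ∀ f ∈ Rt, f ∉ dom l) (hK0 : 1 ≤ K0) (hK : K0 ≤ Rt.card) (hKQ : Rt.card ≤ Q0)
    (hdQ : (dom l).card ≤ Q0)
    (hQ : Qd vert ((dom l).image vert ∪ Rt.image vert) ≤ Q0) :
    ∑ σ ∈ Al l, (if ∀ v, (cc vert σ v : ℝ) * Rt.card < δ * (Fintype.card H : ℝ) then
      (1 : ℝ) else 0) ≤ (Al l).card * ε := by
  rcases Finset.eq_empty_or_nonempty (Al l) with h0 | hl
  · simp [h0]
  set U := (dom l).image vert ∪ Rt.image vert with hU
  obtain ⟨G, ok, T, R, hGm, hGE, hG⟩ := hME l U ∅ Rt ∅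
    (fun g hg => mem_union_left _ (mem_union_left _ (mem_image_of_mem _ hg))) hl
    (fun f hf => ⟨mem_union_right _ (mem_image_of_mem _ hf), hRt f hf⟩)
    (fun f hf => absurd hf (notMem_empty f)) hK hKQ (by simp) hdQ
    (by rw [union_empty]; exact hQ)
    (fun z hz => by
      rw [hU, mem_union] at hz
      rcases hz with hz | hz
      · obtain ⟨g, _, rfl⟩ := mem_image.1 hz
        exact deg_vert_pos vert g
      · obtain ⟨g, _, rfl⟩ := mem_image.1 hz
        exact deg_vert_pos vert g)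
  have havg := avg_le (κ := κ) hGm hpos hGE
  have hpt : ∀ σ : Mt H, (∀ v, (cc vert σ v : ℝ) * Rt.card < δ * (Fintype.card H : ℝ)) →
      ∀ ω, Pos ω → 1 ≤ G σ ω := by
    intro σ hσ ω hω
    by_contra hc
    obtain ⟨_, h2⟩ := hG σ ω hω (not_le.1 hc)
    have h3 : (univ.filter (fun z => IsEnd vert true ok T (U ∪ ∅) Rt ∅ 0 R σ ω z)).card ≤
        ∑ e ∈ Rt, cc vert σ (vert e) := by
      refine le_trans (card_le_card (t := Rt.biUnion (fun e => univ.filter
        (fun w => Cn vert σ (vert e) w))) ?_) card_biUnion_le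
      intro z hz
      obtain ⟨e, he, hez⟩ := (mem_filter.1 hz).2.conn
      rw [mem_biUnion]
      exact ⟨e, he, mem_filter.2 ⟨mem_univ _, hez⟩⟩
    have h4 : δ * (Fintype.card H : ℝ) ≤ ∑ e ∈ Rt, (cc vert σ (vert e) : ℝ) := by
      have h5 : ENNReal.ofReal (δ * (Fintype.card H : ℝ)) ≤
          ((∑ e ∈ Rt, cc vert σ (vert e) : ℕ) : ℝ≥0∞) := le_trans h2 (by exact_mod_cast h3)
      rw [← ENNReal.ofReal_natCast] at h5
      have h6 := (ENNReal.ofReal_le_ofReal_iff (Nat.cast_nonneg _)).1 h5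
      push_cast at h6
      exact h6
    have hRne : Rt.Nonempty := by rw [← Finset.card_pos]; omega
    have h5 : ∑ e ∈ Rt, (cc vert σ (vert e) : ℝ) * Rt.card <
        ∑ e ∈ Rt, δ * (Fintype.card H : ℝ) := Finset.sum_lt_sum_of_nonempty hRne (fun e _ => hσ _)
    rw [← Finset.sum_mul, sum_const, nsmul_eq_mul] at h5
    have h6 : (0 : ℝ) < Rt.card := by exact_mod_cast Finset.card_pos.2 hRne
    nlinarith
  have hsum : ∑ σ ∈ Al l, (if ∀ v, (cc vert σ v : ℝ) * Rt.card < δ * (Fintype.card H : ℝ) then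
      (1 : ℝ≥0∞) else 0) ≤ (Al l).card * ENNReal.ofReal ε := by
    refine le_trans (Finset.sum_le_sum ?_) havg
    intro σ _
    split_ifs with h
    · have h1 : ∫⁻ ω, (1 : ℝ≥0∞) ∂(lawW H κ) ≤ ∫⁻ ω, G σ ω ∂(lawW H κ) := by
        apply lintegral_mono_ae
        filter_upwards [ae_pos (H := H) hpos] with ω hω
        exact hpt σ h ω hω
      rwa [lintegral_one, measure_univ] at h1
    · exact bot_le
  have h1 : ENNReal.ofReal (∑ σ ∈ Al l,
      (if ∀ v, (cc vert σ v : ℝ) * Rt.card < δ * (Fintype.card H : ℝ) then (1 : ℝ) else 0)) ≤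
      ENNReal.ofReal ((Al l).card * ε) := by
    rw [ENNReal.ofReal_sum_of_nonneg (fun _ _ => by split_ifs <;> norm_num),
      ENNReal.ofReal_mul (Nat.cast_nonneg _), ENNReal.ofReal_natCast]
    refine le_trans (le_of_eq ?_) hsum
    apply Finset.sum_congr rfl
    intro σ _
    split_ifs <;> simp
  exact (ENNReal.ofReal_le_ofReal_iff (by positivity)).1 h1

end Pool.Agent.H949.CX
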