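import Pool.Agent.H949.CX.Giant

/-!
# Large components, with the constants chosen
-/

set_option linter.unusedSectionVars false
set_option linter.unusedSimpArgs false
set_option linter.unusedVariables false

open MeasureTheory Finset Filter Topology
open scoped ENNReal

namespace Pool.Agent.H949.CX

open Pool.Agent.H949.CM

variable {V H : Type} [Fintype V] [DecidableEq V] [Fintype H] [DecidableEq H]

/-- The conditions for the exploration. -/
def EC (vert : H → V) (ρ e : ℝ) (G Q : ℕ) : Prop :=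
  ((univ.filter (fun v => G < deg vert v)).card : ℝ) ≤ e * (Fintype.card V : ℝ) ∧
  ∀ (l : List (H × H)) (h : H) (W : Finset V), (dom l).card ≤ Q →
    ∑ v ∈ W, deg vert v * deg vert v ≤ Q →
    (ρ * ((fr l h).card : ℝ) ≤ (((fr l h).filter (fun y =>
      vert y ∉ W ∧ deg vert (vert y) ≤ G ∧ 3 ≤ deg vert (vert y))).card : ℝ)) ∧
    ((((fr l h).filter (fun y =>
      ¬ (vert y ∉ W ∧ deg vert (vert y) ≤ G))).card : ℝ) ≤ e * ((fr l h).card : ℝ))

theorem Qd_union_le (vert : H → V) (A B : Finset V) :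
    Qd vert (A ∪ B) ≤ Qd vert A + Qd vert B := by
  unfold Qd
  calc ∑ v ∈ A ∪ B, deg vert v * deg vert v
      ≤ ∑ v ∈ A ∪ B, deg vert v * deg vert v + ∑ v ∈ A ∩ B, deg vert v * deg vert v :=
        Nat.le_add_right _ _
    _ = _ := Finset.sum_union_inter

theorem Qd_mono (vert : H → V) {A B : Finset V} (h : A ⊆ B) : Qd vert A ≤ Qd vert B :=
  Finset.sum_le_sum_of_subset h

theorem Qd_le_card (vert : H → V) {A : Finset V} {G : ℕ} (h : ∀ v ∈ A, deg vert v ≤ G) :
    Qd vert A ≤ A.card * (G * G) := by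
  unfold Qd
  calc ∑ v ∈ A, deg vert v * deg vert v ≤ ∑ v ∈ A, G * G :=
        Finset.sum_le_sum (fun v hv => Nat.mul_le_mul (h v hv) (h v hv))
    _ = _ := by rw [sum_const, smul_eq_mul]

theorem card_fr_ge (l : List (H × H)) (h : H) :
    Fintype.card H ≤ (fr l h).card + (dom l).card + 1 := by
  unfold fr
  have h1 := Finset.pred_card_le_card_erase (s := (dom l)ᶜ) (a := h)
  have h2 := card_compl_add_card (dom l)
  omega

variable {κ : Measure (ℝ × ℝ)} [IsProbabilityMeasure κ]

open Classical in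
theorem giant_small {vert : H → V} {ε δ ρ e : ℝ} {K0 Q0 Q G : ℕ}
    (hpos : ∀ c, ∀ᵐ w ∂κ, 0 < pr c w)
    (hε : 0 ≤ ε) (hME : MEst κ vert true ε δ K0 Q0 0) (hEC : EC vert ρ e G Q) (he : e ≤ 1 / 2)
    (hK0 : 1 ≤ K0) (hm : Q + 1 + 2 * K0 ≤ Fintype.card H) (hQ0 : Q + K0 * (G * G) ≤ Q0)
    (hKQ : K0 ≤ Q0) {l : List (H × H)} {W : Finset V} (hd : (dom l).card ≤ Q)
    (hW : ∀ g ∈ dom l, vert g ∈ W) (hQW : Qd vert W ≤ Q) :
    ∑ σ ∈ Al l, (if ∀ v, (cc vert σ v : ℝ) * K0 < δ * (Fintype.card H : ℝ) then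
      (1 : ℝ) else 0) ≤ (Al l).card * ε := by
  have hne : Nonempty H := Fintype.card_pos_iff.1 (by omega)
  obtain ⟨h⟩ := hne
  obtain ⟨_, h1⟩ := hEC.2 l h ∅ hd (by simp)
  set av := (fr l h).filter (fun y => deg vert (vert y) ≤ G) with hav
  have h2 : av.card + ((fr l h).filter (fun y =>
      ¬ (vert y ∉ (∅ : Finset V) ∧ deg vert (vert y) ≤ G))).card = (fr l h).card := by
    rw [hav, ← Finset.card_filter_add_card_filter_not (s := fr l h)
      (p := fun y => deg vert (vert y) ≤ G)]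
    congr 2
    apply Finset.filter_congr
    intro y _
    simp
  have h3 := card_fr_ge l h
  have h4 : K0 ≤ av.card := by
    have h5 : ((av.card : ℕ) : ℝ) + ((((fr l h).filter (fun y =>
      ¬ (vert y ∉ (∅ : Finset V) ∧ deg vert (vert y) ≤ G))).card : ℕ) : ℝ) =
        ((fr l h).card : ℝ) := by exact_mod_cast h2
    have h6 : e * ((fr l h).card : ℝ) ≤ 1 / 2 * ((fr l h).card : ℝ) :=
      mul_le_mul_of_nonneg_right he (Nat.cast_nonneg _)
    have h7 : (2 : ℝ) * K0 ≤ ((fr l h).card : ℝ) := by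
      have : 2 * K0 ≤ (fr l h).card := by omega
      exact_mod_cast this
    have h8 : (K0 : ℝ) ≤ ((av.card : ℕ) : ℝ) := by linarith
    exact_mod_cast h8
  obtain ⟨Rt, hRs, hRc⟩ := Finset.exists_subset_card_eq h4
  have hRfr : ∀ f ∈ Rt, f ∉ dom l ∧ deg vert (vert f) ≤ G := by
    intro f hf
    have h5 := hRs hf
    rw [hav, mem_filter, mem_fr] at h5
    exact ⟨h5.1.2, h5.2⟩
  have hres := giant hpos hε hME (l := l) (Rt := Rt) (fun f hf => (hRfr f hf).1) hK0
    (by rw [hRc]) (by rw [hRc]; exact hKQ) (by omega) (by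
      refine le_trans (Qd_union_le vert _ _) ?_
      have h5 : Qd vert ((dom l).image vert) ≤ Q := by
        refine le_trans (Qd_mono vert ?_) hQW
        intro v hv
        obtain ⟨g, hg, rfl⟩ := mem_image.1 hv
        exact hW g hg
      have h6 : Qd vert (Rt.image vert) ≤ K0 * (G * G) := by
        refine le_trans (Qd_le_card vert (G := G) ?_) ?_
        · intro v hv
          obtain ⟨g, hg, rfl⟩ := mem_image.1 hv
          exact (hRfr g hg).2
        · have h7 : (Rt.image vert).card ≤ K0 := by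
            rw [← hRc]; exact card_image_le
          exact Nat.mul_le_mul_right _ h7
      omega)
  rw [hRc] at hres
  exact hres

end Pool.Agent.H949.CX
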