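import Pool.Agent.H949.CX.Giant2
import Pool.Agent.H949.CX.Conds

/-!
# The estimate for one graph
-/

set_option linter.unusedSectionVars false
set_option linter.unusedSimpArgs false
set_option linter.unusedVariables false

open MeasureTheory Finset Filter Topology
open scoped ENNReal

namespace Pool.Agent.H949.CX

open Pool.Agent.H949.CM

variable {V H : Type} [Fintype V] [DecidableEq V] [Fintype H] [DecidableEq H]

open Classical in
/-- The probability of the bad event, on the event `InA`. -/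
noncomputable def fAB (κ : Measure (ℝ × ℝ)) (vert : H → V) (x : ℝ) (σ : Mt H) (a b : V) : ℝ :=
  if InA vert σ a b then ((lawW H κ) {ω | BadOut vert x a b σ ω}).toReal else 0

theorem cc_congr {vert : H → V} {σ : Mt H} {a b : V} (h : Cn vert σ a b) :
    cc vert σ a = cc vert σ b := by
  classical
  unfold cc
  congr 1
  ext w
  rw [mem_filter, mem_filter]
  exact ⟨fun hw => ⟨hw.1, h.symm.trans hw.2⟩, fun hw => ⟨hw.1, h.trans hw.2⟩⟩

theorem cc_le_of_sub {vert : H → V} {σ : Mt H} {a : V} {C : Finset V}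
    (h : ∀ v, Cn vert σ a v → v ∈ C) : cc vert σ a ≤ C.card := by
  classical
  unfold cc
  apply card_le_card
  intro w hw
  exact h w (mem_filter.1 hw).2

theorem card_dom_le : ∀ l : List (H × H), (dom l).card ≤ 2 * l.length := by
  intro l
  induction l with
  | nil => simp
  | cons p l ih =>
    obtain ⟨x, y⟩ := p
    have := card_dom_cons_le x y l
    rw [List.length_cons]
    omega

section

variable {κ : Measure (ℝ × ℝ)} [IsProbabilityMeasure κ] {vert : H → V}

theorem fAB_nonneg (x : ℝ) (σ : Mt H) (a b : V) : 0 ≤ fAB κ vert x σ a b := by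
  unfold fAB
  split_ifs
  · exact ENNReal.toReal_nonneg
  · exact le_refl _

theorem fAB_le_one (x : ℝ) (σ : Mt H) (a b : V) : fAB κ vert x σ a b ≤ 1 := by
  unfold fAB
  split_ifs
  · have h1 : (lawW H κ) {ω | BadOut vert x a b σ ω} ≤ 1 := prob_le_one
    have h2 := ENNReal.toReal_mono ENNReal.one_ne_top h1
    simpa using h2
  · norm_num

theorem fAB_le_bad (x : ℝ) (σ : Mt H) (a b : V) :
    fAB κ vert x σ a b ≤ ((lawW H κ) {ω | BadOut vert x a b σ ω}).toReal := by
  unfold fAB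
  split_ifs
  · exact le_refl _
  · exact ENNReal.toReal_nonneg

/-- A vertex without half-edges is isolated. -/
theorem cn_deg_zero {σ : Mt H} {a b : V} (h : Cn vert σ a b) (hb : deg vert b = 0) : a = b := by
  rcases Relation.ReflTransGen.cases_tail h with h1 | ⟨c, _, g, _, hg⟩
  · exact h1.symm
  · exfalso
    have := deg_vert_pos vert (σ g)
    rw [hg] at this
    omega

theorem fAB_zero_right {x : ℝ} {σ : Mt H} {a b : V} (hab : a ≠ b) (hb : deg vert b = 0) :
    fAB κ vert x σ a b = 0 := by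
  unfold fAB
  rw [if_neg]
  intro h
  exact hab (cn_deg_zero h.1 hb)

theorem fAB_zero_left {x : ℝ} {σ : Mt H} {a b : V} (hab : a ≠ b) (ha : deg vert a = 0) :
    fAB κ vert x σ a b = 0 := by
  unfold fAB
  rw [if_neg]
  intro h
  exact hab (cn_deg_zero h.1.symm ha).symm

open Classical in
/-- If one source lies in a small component, then all components are small on `InA`. -/
theorem fAB_le_small {x δ0 : ℝ} {σ : Mt H} {a b : V} {K0 M : ℕ}
    (hm : ((M : ℝ) + 1) * K0 < δ0 * (Fintype.card H : ℝ))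
    (h : cc vert σ a ≤ M + 1 ∨ cc vert σ b ≤ M + 1) :
    fAB κ vert x σ a b ≤
      if ∀ v, (cc vert σ v : ℝ) * K0 < δ0 * (Fintype.card H : ℝ) then (1 : ℝ) else 0 := by
  by_cases hA : InA vert σ a b
  · have h1 : cc vert σ a ≤ M + 1 := by
      rcases h with h | h
      · exact h
      · rw [cc_congr hA.1]; exact h
    rw [if_pos]
    · exact fAB_le_one x σ a b
    · intro v
      have h2 : cc vert σ v ≤ M + 1 := le_trans (hA.2 v) h1
      have h3 : (cc vert σ v : ℝ) ≤ (M : ℝ) + 1 := by exact_mod_cast h2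
      calc (cc vert σ v : ℝ) * K0 ≤ ((M : ℝ) + 1) * K0 := by gcongr
        _ < _ := hm
  · have h1 : fAB κ vert x σ a b = 0 := by
      unfold fAB
      rw [if_neg hA]
    rw [h1]
    split_ifs <;> norm_num

/-- The cluster that was explored last. -/
theorem XS.cs {l0 : List (H × H)} {U0 : Finset V} {s : V} {G j : ℕ} {l : List (H × H)}
    {C : Finset V} (hX : XS vert l0 U0 s G j l C) {M K0 Q0 : ℕ} {Wm : ℝ} (hWm : 0 ≤ Wm)
    (hj : j ≤ M) (hK : K0 ≤ (act vert l C).card) (hQ : (act vert l C).card ≤ Q0) :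
    CS vert l K0 Q0 Wm (M * Wm) s C := by
  obtain ⟨dep, hd1, hd2⟩ := hX.tree
  refine ⟨hX.sC, hX.same, fun v hv => (hX.degC v hv).1, hK, hQ, dep, ?_, hd2⟩
  intro v hv
  have : dep v ≤ M := le_trans (hd1 v hv) hj
  gcongr

/-- The cluster that was explored first, after the second exploration. -/
theorem XS.cs_old {a b : V} {G j1 j2 : ℕ} {l1 l : List (H × H)} {C1 C2 : Finset V}
    (hX : XS vert [] ∅ a G j1 l1 C1) (hY : XS vert l1 C1 b G j2 l C2) {M K0 Q0 : ℕ} {Wm : ℝ}
    (hWm : 0 ≤ Wm) (hj : j1 ≤ M) (hK : K0 ≤ (act vert l1 C1).card)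
    (hQ : (act vert l1 C1).card ≤ Q0) :
    CS vert l K0 Q0 Wm (M * Wm) a C1 ∧ ∀ g ∈ dom l, vert g ∈ C1 ∪ C2 := by
  have hcov : ∀ g ∈ dom l, vert g ∈ C2 ∨ vert g ∈ C1 := by
    intro g hg
    rcases hY.domC g hg with h | h
    · exact Or.inl h
    · exact Or.inr (hY.old g h)
  have hact : act vert l C1 = act vert l1 C1 := by
    ext f
    rw [mem_act, mem_act]
    constructor
    · rintro ⟨h1, h2⟩
      refine ⟨h1, fun h3 => h2 ?_⟩
      obtain ⟨p, hp, h4⟩ := mem_dom.1 h3
      exact mem_dom.2 ⟨p, hY.ext.subset hp, h4⟩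
    · rintro ⟨h1, h2⟩
      refine ⟨h1, fun h3 => ?_⟩
      rcases hY.domC f h3 with h | h
      · exact hY.disj _ h h1
      · exact h2 h
  obtain ⟨dep, hd1, hd2⟩ := hX.tree
  refine ⟨⟨hX.sC, ?_, fun v hv => (hX.degC v hv).1, by rw [hact]; exact hK,
    by rw [hact]; exact hQ, dep, ?_, ?_⟩, fun g hg => by
      rw [mem_union]; exact (hcov g hg).symm⟩
  · intro p hp
    have h1 := hcov p.1 (mem_dom.2 ⟨p, hp, Or.inl rfl⟩)
    have h2 := hcov p.2 (mem_dom.2 ⟨p, hp, Or.inr rfl⟩)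
    have h3 := hY.same p hp
    have h4 := hY.disj (vert p.1)
    have h5 := hY.disj (vert p.2)
    tauto
  · intro v hv
    have : dep v ≤ M := le_trans (hd1 v hv) hj
    gcongr
  · intro v hv hva
    obtain ⟨p, hp, h1, h2, h3⟩ := hd2 v hv hva
    exact ⟨p, hY.ext.subset hp, h1, h2, h3⟩

/-- The constants and assumptions for one graph. -/
structure GP (κ : Measure (ℝ × ℝ)) (vert : H → V) (ε δ δ0 ρ e Wm : ℝ) (ε3 : ℝ)
    (K0 M G Q0 Qg : ℕ) : Prop where
  hpos : ∀ c, ∀ᵐ w ∂κ, 0 < pr c w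
  hε : 0 ≤ ε
  hε3 : 0 ≤ ε3
  hρ : 0 < ρ
  hρ1 : ρ ≤ 1
  he : 0 ≤ e
  he1 : e ≤ 1 / 2
  hWm : 0 ≤ Wm
  hM : 1 ≤ M
  hK0 : 1 ≤ K0
  hME : ∀ c, MEst κ vert c ε δ K0 Q0 (M * Wm)
  hMEg : MEst κ vert true ε δ0 K0 Qg 0
  hEC : EC vert ρ e G (4 * M + (2 * M + 2) * (G * G))
  hκ : κ {w | ∃ c, Wm < pr c w} ≤ ENNReal.ofReal ε3
  hQ0 : 4 * M + (2 * M + 2) * (G * G) + K0 + G ≤ Q0
  hQg : 4 * M + (2 * M + 2) * (G * G) + K0 * (G * G) + K0 ≤ Qg
  hm1 : 4 * M + (2 * M + 2) * (G * G) + 1 + 2 * K0 ≤ Fintype.card H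
  hm2 : ((M : ℝ) + 1) * K0 < δ0 * (Fintype.card H : ℝ)

variable {ε δ δ0 ρ e Wm ε3 : ℝ} {K0 M G Q0 Qg : ℕ}

/-- The second exploration. -/
theorem GP.expl_b (P : GP κ vert ε δ δ0 ρ e Wm ε3 K0 M G Q0 Qg) {a b : V} {j1 : ℕ}
    {l1 : List (H × H)} {C1 : Finset V} (hX : XS vert [] ∅ a G j1 l1 C1) (hj : j1 ≤ M)
    (hK : K0 ≤ (act vert l1 C1).card) (hK' : (act vert l1 C1).card ≤ K0 + G) (hb : b ∉ C1)
    (hb1 : 1 ≤ deg vert b) (hbG : deg vert b ≤ G) :
    ∑ σ ∈ Al l1, fAB κ vert (δ * (Fintype.card H : ℝ)) σ a b ≤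
      ((Al l1).card : ℝ) * ((2 * ε + 2 * M * ε3) + e * M + (2 / ρ) ^ K0 / M) := by
  classical
  have hl1 : l1.length ≤ M := by
    have := hX.len
    simp only [List.length_nil, zero_add] at this
    omega
  have hC1 : C1.card ≤ M + 1 := by have := hX.cardC; omega
  have hold : ∀ g ∈ dom l1, vert g ∈ C1 := by
    intro g hg
    rcases hX.domC g hg with h | h
    · exact h
    · rw [dom_nil] at h
      exact absurd h (notMem_empty g)
  have hfacts : ∀ (j : ℕ) (l : List (H × H)) (C : Finset V), j ≤ M →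
      XS vert l1 C1 b G j l C → l.length ≤ 2 * M ∧ (dom l).card ≤ 4 * M ∧
        Qd vert (C1 ∪ C) ≤ (2 * M + 2) * (G * G) := by
    intro j l C hjM hY
    have h1 : l.length ≤ 2 * M := by have := hY.len; omega
    refine ⟨h1, by have := card_dom_le l; omega, ?_⟩
    refine le_trans (Qd_union_le vert _ _) ?_
    have h2 := Qd_le_card vert (A := C1) (G := G) (fun v hv => (hX.degC v hv).2)
    have h3 := Qd_le_card vert (A := C) (G := G) (fun v hv => (hY.degC v hv).2)
    have h4 := hY.cardC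
    have h5 : C1.card * (G * G) ≤ (M + 1) * (G * G) := Nat.mul_le_mul_right _ hC1
    have h6 : C.card * (G * G) ≤ (M + 1) * (G * G) := Nat.mul_le_mul_right _ (by omega)
    have h7 : (2 * M + 2) * (G * G) = (M + 1) * (G * G) + (M + 1) * (G * G) := by ring
    omega
  have hε4 : 0 ≤ 2 * ε + 2 * M * ε3 := by
    have := P.hε
    have := P.hε3
    positivity
  apply explore P.hρ P.hρ1 P.hM P.he hε4 (fun σ => fAB κ vert (δ * (Fintype.card H : ℝ)) σ a b)
    (fun σ => fAB_le_one _ σ a b) ?_ ?_ ?_ ?_ hb hb1 hbG hold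
  · intro j l C hjM hY h hhC hhd
    obtain ⟨_, h2, h3⟩ := hfacts j l C (by omega) hY
    obtain ⟨h4, _⟩ := P.hEC.2 l h (C1 ∪ C) (by omega) (by
      have : ∑ v ∈ C1 ∪ C, deg vert v * deg vert v = Qd vert (C1 ∪ C) := rfl
      rw [this]; omega)
    refine le_trans h4 ?_
    have : ((fr l h).filter (fun y => vert y ∉ C1 ∪ C ∧ deg vert (vert y) ≤ G ∧
        3 ≤ deg vert (vert y))) ⊆ ((fr l h).filter (fun y => vert y ∉ C1 ∧ vert y ∉ C ∧
          deg vert (vert y) ≤ G ∧ 3 ≤ deg vert (vert y))) := by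
      intro y hy
      rw [mem_filter] at hy ⊢
      obtain ⟨h5, h6, h7, h8⟩ := hy
      rw [mem_union, not_or] at h6
      exact ⟨h5, h6.1, h6.2, h7, h8⟩
    exact_mod_cast card_le_card this
  · intro j l C hjM hY h hhC hhd
    obtain ⟨_, h2, h3⟩ := hfacts j l C (by omega) hY
    obtain ⟨_, h4⟩ := P.hEC.2 l h (C1 ∪ C) (by omega) (by
      have : ∑ v ∈ C1 ∪ C, deg vert v * deg vert v = Qd vert (C1 ∪ C) := rfl
      rw [this]; omega)
    refine le_trans ?_ h4
    have : ((fr l h).filter (fun y => ¬ (vert y ∉ C1 ∧ vert y ∉ C ∧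
        deg vert (vert y) ≤ G))) ⊆ ((fr l h).filter (fun y => ¬ (vert y ∉ C1 ∪ C ∧
          deg vert (vert y) ≤ G))) := by
      intro y hy
      rw [mem_filter] at hy ⊢
      refine ⟨hy.1, fun h5 => hy.2 ?_⟩
      rw [mem_union, not_or] at h5
      exact ⟨h5.1.1, h5.1.2, h5.2⟩
    exact_mod_cast card_le_card this
  · -- dead
    intro j l C hjM hY h0
    obtain ⟨_, h2, h3⟩ := hfacts j l C hjM hY
    have hg := giant_small P.hpos P.hε P.hMEg P.hEC P.he1 P.hK0 P.hm1
      (by have := P.hQg; omega) (by have := P.hQg; omega) (l := l) (W := C1 ∪ C) (by omega)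
      (by
        intro g hg
        rcases hY.domC g hg with h | h
        · exact mem_union_right _ h
        · exact mem_union_left _ (hold g h)) (by omega)
    calc ∑ σ ∈ Al l, fAB κ vert (δ * (Fintype.card H : ℝ)) σ a b
        ≤ ∑ σ ∈ Al l, (if ∀ v, (cc vert σ v : ℝ) * K0 < δ0 * (Fintype.card H : ℝ) then
            (1 : ℝ) else 0) := by
          apply Finset.sum_le_sum
          intro σ hσ
          apply fAB_le_small P.hm2
          right
          have h4 := cc_le_of_sub (fun v hv => hY.closed h0 hσ hv)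
          have h5 := hY.cardC
          omega
      _ ≤ (Al l).card * ε := hg
      _ ≤ _ := by
          have h4 := P.hε
          have h5 := P.hε3
          have h6 : ε ≤ 2 * ε + 2 * M * ε3 := by
            have : 0 ≤ 2 * (M : ℝ) * ε3 := by positivity
            linarith
          gcongr
  · -- alive
    intro j l C hjM hY hKC hKC'
    obtain ⟨h1, h2, h3⟩ := hfacts j l C hjM hY
    have hQ0 := P.hQ0
    obtain ⟨hcs1, hcov⟩ := hX.cs_old hY (K0 := K0) (Q0 := Q0) P.hWm hj hK (by omega)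
    have hcs2 := hY.cs (K0 := K0) (Q0 := Q0) (M := M) P.hWm hjM hKC (by omega)
    have hst := state_est P.hpos P.hME P.hWm (mul_nonneg (Nat.cast_nonneg M) P.hWm) hcs1 hcs2
      (fun v hv hv' => hY.disj v hv' hv) hcov (by omega) (by omega) P.hκ
    have h4 : ENNReal.ofReal (∑ σ ∈ Al l,
        ((lawW H κ) {ω | BadOut vert (δ * (Fintype.card H : ℝ)) a b σ ω}).toReal) ≤
        ENNReal.ofReal (((Al l).card : ℝ) * (2 * ε + l.length * ε3)) := by
      rw [ENNReal.ofReal_sum_of_nonneg (fun _ _ => ENNReal.toReal_nonneg),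
        ENNReal.ofReal_mul (Nat.cast_nonneg _), ENNReal.ofReal_natCast,
        ENNReal.ofReal_add (by have := P.hε; positivity) (by have := P.hε3; positivity),
        ENNReal.ofReal_mul (by norm_num), ENNReal.ofReal_mul (Nat.cast_nonneg _),
        ENNReal.ofReal_natCast, ENNReal.ofReal_ofNat]
      refine le_trans (le_of_eq ?_) hst
      apply Finset.sum_congr rfl
      intro σ _
      rw [ENNReal.ofReal_toReal (measure_ne_top _ _)]
    have h5 := (ENNReal.ofReal_le_ofReal_iff (by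
      have := P.hε
      have := P.hε3
      positivity)).1 h4
    calc ∑ σ ∈ Al l, fAB κ vert (δ * (Fintype.card H : ℝ)) σ a b
        ≤ ∑ σ ∈ Al l, ((lawW H κ)
            {ω | BadOut vert (δ * (Fintype.card H : ℝ)) a b σ ω}).toReal :=
          Finset.sum_le_sum (fun σ _ => fAB_le_bad _ σ a b)
      _ ≤ _ := h5
      _ ≤ _ := by
          have h6 := P.hε3
          have h7 : (l.length : ℝ) ≤ 2 * M := by exact_mod_cast h1
          gcongr

end

end Pool.Agent.H949.CX
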