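import Pool.Agent.H949.CX.Graph

/-!
# The estimate for one graph: both explorations
-/

set_option linter.unusedSectionVars false
set_option linter.unusedSimpArgs false
set_option linter.unusedVariables false

open MeasureTheory Finset Filter Topology
open scoped ENNReal

namespace Pool.Agent.H949.CX

open Pool.Agent.H949.CM

variable {V H : Type} [Fintype V] [DecidableEq V] [Fintype H] [DecidableEq H]

section

variable {κ : Measure (ℝ × ℝ)} [IsProbabilityMeasure κ] {vert : H → V}
variable {ε δ δ0 ρ e Wm ε3 : ℝ} {K0 M G Q0 Qg : ℕ}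

/-- The bound for the second exploration. -/
noncomputable def be (ε ε3 e ρ : ℝ) (K0 M : ℕ) : ℝ :=
  (2 * ε + 2 * M * ε3) + e * M + (2 / ρ) ^ K0 / M

/-- The bound for the average over the second source. -/
noncomputable def be' (ε ε3 e ρ : ℝ) (K0 M N : ℕ) : ℝ := (M + 1) / N + e + be ε ε3 e ρ K0 M

theorem GP.be_nonneg (P : GP κ vert ε δ δ0 ρ e Wm ε3 K0 M G Q0 Qg) : ε ≤ be ε ε3 e ρ K0 M ∧
    0 ≤ be ε ε3 e ρ K0 M := by
  have h1 := P.hε
  have h2 := P.hε3
  have h3 := P.he
  have h4 := P.hρ
  have h5 : 0 ≤ 2 * (M : ℝ) * ε3 := by positivity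
  have h6 : 0 ≤ e * (M : ℝ) := by positivity
  have h7 : 0 ≤ (2 / ρ) ^ K0 / (M : ℝ) := by positivity
  unfold be
  constructor <;> linarith

/-- The first exploration. -/
theorem GP.expl_a (P : GP κ vert ε δ δ0 ρ e Wm ε3 K0 M G Q0 Qg) {a : V}
    (ha1 : 1 ≤ deg vert a) (haG : deg vert a ≤ G) :
    ∑ σ : Mt H, (∑ b ∈ univ.erase a, fAB κ vert (δ * (Fintype.card H : ℝ)) σ a b) /
      (Fintype.card V : ℝ) ≤ (Fintype.card (Mt H) : ℝ) *
        (be' ε ε3 e ρ K0 M (Fintype.card V) + e * M + (2 / ρ) ^ K0 / M) := by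
  classical
  have hN : (0 : ℝ) < (Fintype.card V : ℝ) := by
    exact_mod_cast Fintype.card_pos_iff.2 ⟨a⟩
  have hb0 := P.be_nonneg
  have he := P.he
  have hb'0 : 0 ≤ be' ε ε3 e ρ K0 M (Fintype.card V) := by
    unfold be'
    have : (0 : ℝ) ≤ ((M : ℝ) + 1) / (Fintype.card V : ℝ) := by positivity
    linarith [hb0.2]
  have hbb' : ε ≤ be' ε ε3 e ρ K0 M (Fintype.card V) := by
    unfold be'
    have : (0 : ℝ) ≤ ((M : ℝ) + 1) / (Fintype.card V : ℝ) := by positivity
    linarith [hb0.1]
  set x : ℝ := δ * (Fintype.card H : ℝ) with hx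
  have hF1 : ∀ σ : Mt H, (∑ b ∈ univ.erase a, fAB κ vert x σ a b) / (Fintype.card V : ℝ) ≤ 1 := by
    intro σ
    rw [div_le_one hN]
    calc ∑ b ∈ univ.erase a, fAB κ vert x σ a b ≤ ∑ b ∈ univ.erase a, (1 : ℝ) :=
          Finset.sum_le_sum (fun b _ => fAB_le_one x σ a b)
      _ = ((univ.erase a).card : ℝ) := by simp
      _ ≤ (Fintype.card V : ℝ) := by
          exact_mod_cast card_le_card (erase_subset a univ)
  have hfacts : ∀ (j : ℕ) (l : List (H × H)) (C : Finset V), j ≤ M →
      XS vert [] ∅ a G j l C → (dom l).card ≤ 4 * M ∧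
        Qd vert C ≤ (2 * M + 2) * (G * G) ∧ C.card ≤ M + 1 := by
    intro j l C hjM hY
    have h1 : l.length ≤ M := by
      have := hY.len
      simp only [List.length_nil, zero_add] at this
      omega
    have h4 := hY.cardC
    refine ⟨by have := card_dom_le l; omega, ?_, by omega⟩
    have h3 := Qd_le_card vert (A := C) (G := G) (fun v hv => (hY.degC v hv).2)
    refine le_trans h3 (Nat.mul_le_mul_right _ (by omega))
  have key := explore (vert := vert) (l0 := []) (U0 := ∅) (s := a) (G := G) (K := K0) (M := M)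
    P.hρ P.hρ1 P.hM P.he hb'0
    (fun σ => (∑ b ∈ univ.erase a, fAB κ vert x σ a b) / (Fintype.card V : ℝ)) hF1
    ?_ ?_ ?_ ?_ (notMem_empty a) ha1 haG (by simp)
  · rw [Al_nil] at key
    rw [card_univ] at key
    exact key
  · intro j l C hjM hY h hhC hhd
    obtain ⟨h2, h3, _⟩ := hfacts j l C (by omega) hY
    obtain ⟨h4, _⟩ := P.hEC.2 l h C (by omega) (by
      have : ∑ v ∈ C, deg vert v * deg vert v = Qd vert C := rfl
      rw [this]; omega)
    refine le_trans h4 ?_
    have : ((fr l h).filter (fun y => vert y ∉ C ∧ deg vert (vert y) ≤ G ∧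
        3 ≤ deg vert (vert y))) ⊆ ((fr l h).filter (fun y => vert y ∉ (∅ : Finset V) ∧
          vert y ∉ C ∧ deg vert (vert y) ≤ G ∧ 3 ≤ deg vert (vert y))) := by
      intro y hy
      rw [mem_filter] at hy ⊢
      exact ⟨hy.1, notMem_empty _, hy.2⟩
    exact_mod_cast card_le_card this
  · intro j l C hjM hY h hhC hhd
    obtain ⟨h2, h3, _⟩ := hfacts j l C (by omega) hY
    obtain ⟨_, h4⟩ := P.hEC.2 l h C (by omega) (by
      have : ∑ v ∈ C, deg vert v * deg vert v = Qd vert C := rfl
      rw [this]; omega)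
    refine le_trans ?_ h4
    have : ((fr l h).filter (fun y => ¬ (vert y ∉ (∅ : Finset V) ∧ vert y ∉ C ∧
        deg vert (vert y) ≤ G))) ⊆ ((fr l h).filter (fun y => ¬ (vert y ∉ C ∧
          deg vert (vert y) ≤ G))) := by
      intro y hy
      rw [mem_filter] at hy ⊢
      exact ⟨hy.1, fun h5 => hy.2 ⟨notMem_empty _, h5⟩⟩
    exact_mod_cast card_le_card this
  · -- dead
    intro j l C hjM hY h0
    obtain ⟨h2, h3, h3'⟩ := hfacts j l C hjM hY
    have hg := giant_small P.hpos P.hε P.hMEg P.hEC P.he1 P.hK0 P.hm1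
      (by have := P.hQg; omega) (by have := P.hQg; omega) (l := l) (W := C) (by omega)
      (by
        intro g hg
        rcases hY.domC g hg with h | h
        · exact h
        · rw [dom_nil] at h; exact absurd h (notMem_empty g)) (by omega)
    calc ∑ σ ∈ Al l, (∑ b ∈ univ.erase a, fAB κ vert x σ a b) / (Fintype.card V : ℝ)
        ≤ ∑ σ ∈ Al l, (if ∀ v, (cc vert σ v : ℝ) * K0 < δ0 * (Fintype.card H : ℝ) then
            (1 : ℝ) else 0) := by
          apply Finset.sum_le_sum
          intro σ hσ
          have h4 := cc_le_of_sub (fun v hv => hY.closed h0 hσ hv)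
          rw [div_le_iff₀ hN]
          set I : ℝ := (if ∀ v, (cc vert σ v : ℝ) * K0 < δ0 * (Fintype.card H : ℝ) then
            (1 : ℝ) else 0) with hI
          have hI0 : 0 ≤ I := by rw [hI]; split_ifs <;> norm_num
          calc ∑ b ∈ univ.erase a, fAB κ vert x σ a b ≤ ∑ b ∈ univ.erase a, I := by
                apply Finset.sum_le_sum
                intro b _
                exact fAB_le_small P.hm2 (Or.inl (by omega))
            _ = ((univ.erase a).card : ℝ) * I := by rw [sum_const, nsmul_eq_mul]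
            _ ≤ (Fintype.card V : ℝ) * I := by
                apply mul_le_mul_of_nonneg_right _ hI0
                exact_mod_cast card_le_card (erase_subset a univ)
            _ = I * (Fintype.card V : ℝ) := mul_comm _ _
      _ ≤ (Al l).card * ε := hg
      _ ≤ _ := by gcongr
  · -- alive
    intro j l C hjM hY hKC hKC'
    obtain ⟨h2, h3, h3'⟩ := hfacts j l C hjM hY
    set β := be ε ε3 e ρ K0 M with hβ
    have hone : ∀ b ∈ univ.erase a, ∑ σ ∈ Al l, fAB κ vert x σ a b ≤
        ((Al l).card : ℝ) * ((if b ∈ C then (1 : ℝ) else 0) +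
          (if G < deg vert b then (1 : ℝ) else 0) + β) := by
      intro b hb
      have hab : a ≠ b := (Finset.ne_of_mem_erase hb).symm
      have htriv : ∑ σ ∈ Al l, fAB κ vert x σ a b ≤ ((Al l).card : ℝ) * 1 := by
        calc ∑ σ ∈ Al l, fAB κ vert x σ a b ≤ ∑ σ ∈ Al l, (1 : ℝ) :=
              Finset.sum_le_sum (fun σ _ => fAB_le_one x σ a b)
          _ = _ := by rw [sum_const, nsmul_eq_mul]
      by_cases hbC : b ∈ C
      · rw [if_pos hbC]
        refine le_trans htriv ?_
        have : (0 : ℝ) ≤ (if G < deg vert b then (1 : ℝ) else 0) := by split_ifs <;> norm_num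
        gcongr
        linarith [hb0.2]
      · rw [if_neg hbC]
        by_cases hbG : G < deg vert b
        · rw [if_pos hbG]
          refine le_trans htriv ?_
          gcongr
          linarith [hb0.2]
        · rw [if_neg hbG]
          by_cases hb1 : deg vert b = 0
          · rw [Finset.sum_eq_zero (fun σ _ => fAB_zero_right hab hb1)]
            have := hb0.2
            positivity
          · have := P.expl_b hY hjM hKC hKC' hbC (by omega) (not_lt.1 hbG)
            rw [← hx] at this
            refine le_trans this ?_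
            rw [hβ]
            unfold be
            simp
    calc ∑ σ ∈ Al l, (∑ b ∈ univ.erase a, fAB κ vert x σ a b) / (Fintype.card V : ℝ)
        = (∑ b ∈ univ.erase a, ∑ σ ∈ Al l, fAB κ vert x σ a b) / (Fintype.card V : ℝ) := by
          rw [← Finset.sum_div, Finset.sum_comm]
      _ ≤ (∑ b ∈ univ.erase a, ((Al l).card : ℝ) * ((if b ∈ C then (1 : ℝ) else 0) +
          (if G < deg vert b then (1 : ℝ) else 0) + β)) / (Fintype.card V : ℝ) := by
          gcongr with b hb
          exact hone b hb
      _ ≤ (∑ b : V, ((Al l).card : ℝ) * ((if b ∈ C then (1 : ℝ) else 0) +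
          (if G < deg vert b then (1 : ℝ) else 0) + β)) / (Fintype.card V : ℝ) := by
          gcongr ?_ / _
          apply Finset.sum_le_sum_of_subset_of_nonneg (erase_subset a univ)
          intro b _ _
          have h4 : (0 : ℝ) ≤ (if G < deg vert b then (1 : ℝ) else 0) := by
            split_ifs <;> norm_num
          have h5 : (0 : ℝ) ≤ (if b ∈ C then (1 : ℝ) else 0) := by split_ifs <;> norm_num
          have := hb0.2
          positivity
      _ = ((Al l).card : ℝ) * (((C.card : ℝ) +
          ((univ.filter (fun b => G < deg vert b)).card : ℝ) + (Fintype.card V : ℝ) * β) /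
            (Fintype.card V : ℝ)) := by
          rw [← Finset.mul_sum, Finset.sum_add_distrib, Finset.sum_add_distrib, sum_const,
            nsmul_eq_mul, card_univ, ← Finset.sum_filter, ← Finset.sum_filter,
            Finset.sum_const, Finset.sum_const, nsmul_eq_mul, nsmul_eq_mul, mul_one, mul_one,
            mul_div_assoc]
          congr 5
          congr 1
          ext v
          simp
      _ ≤ ((Al l).card : ℝ) * ((((M : ℝ) + 1) + e * (Fintype.card V : ℝ) +
          (Fintype.card V : ℝ) * β) / (Fintype.card V : ℝ)) := by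
          have h4 : (C.card : ℝ) ≤ (M : ℝ) + 1 := by exact_mod_cast h3'
          have h5 := P.hEC.1
          gcongr
      _ = ((Al l).card : ℝ) * be' ε ε3 e ρ K0 M (Fintype.card V) := by
          unfold be'
          rw [← hβ]
          congr 1
          field_simp

/-- The estimate for one graph. -/
theorem GP.total (P : GP κ vert ε δ δ0 ρ e Wm ε3 K0 M G Q0 Qg) :
    ∑ σ : Mt H, ∑ a : V, ∑ b ∈ univ.erase a, fAB κ vert (δ * (Fintype.card H : ℝ)) σ a b ≤
      (Fintype.card (Mt H) : ℝ) * (Fintype.card V : ℝ) ^ 2 *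
        (e + (be' ε ε3 e ρ K0 M (Fintype.card V) + e * M + (2 / ρ) ^ K0 / M)) := by
  classical
  rcases isEmpty_or_nonempty V with hV | hV
  · simp
  have hN : (0 : ℝ) < (Fintype.card V : ℝ) := by
    exact_mod_cast Fintype.card_pos_iff.2 hV
  have hb0 := P.be_nonneg
  have he := P.he
  have hρ := P.hρ
  set x : ℝ := δ * (Fintype.card H : ℝ) with hx
  set β2 : ℝ := be' ε ε3 e ρ K0 M (Fintype.card V) + e * M + (2 / ρ) ^ K0 / M with hβ2
  have hβ20 : 0 ≤ β2 := by
    rw [hβ2]
    unfold be'
    have h1 : (0 : ℝ) ≤ ((M : ℝ) + 1) / (Fintype.card V : ℝ) := by positivity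
    have h2 : (0 : ℝ) ≤ e * M := by positivity
    have h3 : (0 : ℝ) ≤ (2 / ρ) ^ K0 / M := by positivity
    linarith [hb0.2]
  have hone : ∀ a : V, ∑ σ : Mt H, ∑ b ∈ univ.erase a, fAB κ vert x σ a b ≤
      (Fintype.card (Mt H) : ℝ) * (Fintype.card V : ℝ) *
        ((if G < deg vert a then (1 : ℝ) else 0) + β2) := by
    intro a
    by_cases haG : G < deg vert a
    · rw [if_pos haG]
      calc ∑ σ : Mt H, ∑ b ∈ univ.erase a, fAB κ vert x σ a b
          ≤ ∑ σ : Mt H, ∑ b ∈ univ.erase a, (1 : ℝ) :=
            Finset.sum_le_sum (fun σ _ => Finset.sum_le_sum (fun b _ => fAB_le_one x σ a b))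
        _ = (Fintype.card (Mt H) : ℝ) * ((univ.erase a).card : ℝ) := by
            rw [sum_const, sum_const, nsmul_eq_mul, nsmul_eq_mul, mul_one, card_univ]
        _ ≤ (Fintype.card (Mt H) : ℝ) * (Fintype.card V : ℝ) := by
            gcongr
            exact_mod_cast card_le_card (erase_subset a univ)
        _ ≤ _ := by
            have h1 : (Fintype.card (Mt H) : ℝ) * (Fintype.card V : ℝ) * 1 ≤
              (Fintype.card (Mt H) : ℝ) * (Fintype.card V : ℝ) * (1 + β2) := by
              gcongr
              linarith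
            linarith
    · rw [if_neg haG]
      by_cases ha1 : deg vert a = 0
      · rw [Finset.sum_eq_zero]
        · positivity
        · intro σ _
          exact Finset.sum_eq_zero (fun b hb =>
            fAB_zero_left (Finset.ne_of_mem_erase hb).symm ha1)
      · have h1 := P.expl_a (by omega : 1 ≤ deg vert a) (not_lt.1 haG)
        rw [← hx, ← hβ2, ← Finset.sum_div, div_le_iff₀ hN] at h1
        calc _ ≤ _ := h1
          _ = _ := by ring
  calc ∑ σ : Mt H, ∑ a : V, ∑ b ∈ univ.erase a, fAB κ vert x σ a b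
      = ∑ a : V, ∑ σ : Mt H, ∑ b ∈ univ.erase a, fAB κ vert x σ a b := Finset.sum_comm
    _ ≤ ∑ a : V, (Fintype.card (Mt H) : ℝ) * (Fintype.card V : ℝ) *
        ((if G < deg vert a then (1 : ℝ) else 0) + β2) :=
        Finset.sum_le_sum (fun a _ => hone a)
    _ = (Fintype.card (Mt H) : ℝ) * (Fintype.card V : ℝ) *
        (((univ.filter (fun b => G < deg vert b)).card : ℝ) + (Fintype.card V : ℝ) * β2) := by
        rw [← Finset.mul_sum, Finset.sum_add_distrib, ← Finset.sum_filter, Finset.sum_const,
          Finset.sum_const, nsmul_eq_mul, nsmul_eq_mul, mul_one, card_univ]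
    _ ≤ (Fintype.card (Mt H) : ℝ) * (Fintype.card V : ℝ) *
        (e * (Fintype.card V : ℝ) + (Fintype.card V : ℝ) * β2) := by
        have := P.hEC.1
        gcongr
    _ = _ := by ring

end

end Pool.Agent.H949.CX
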