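import Pool.Agent.H949.CX.Graph2

/-!
# The estimates for one graph, with the constants chosen
-/

set_option linter.unusedSectionVars false
set_option linter.unusedSimpArgs false
set_option linter.unusedVariables false

open MeasureTheory Finset Filter Topology
open scoped ENNReal

namespace Pool.Agent.H949.CX

open Pool.Agent.H949.CM

theorem exists_tail {κ : Measure (ℝ × ℝ)} [IsProbabilityMeasure κ] {ε3 : ℝ} (hε3 : 0 < ε3) :
    ∃ Wm : ℝ, 0 ≤ Wm ∧ κ {w | ∃ c, Wm < pr c w} ≤ ENNReal.ofReal ε3 := by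
  have hA : ∀ n : ℕ, MeasurableSet {w : ℝ × ℝ | ∃ c, (n : ℝ) < pr c w} := by
    intro n
    have : {w : ℝ × ℝ | ∃ c, (n : ℝ) < pr c w} = ⋃ c, {w | (n : ℝ) < pr c w} := by
      ext w; simp
    rw [this]
    exact MeasurableSet.iUnion (fun c => measurableSet_lt measurable_const (measurable_pr c))
  have h1 : Tendsto (fun n : ℕ => κ {w : ℝ × ℝ | ∃ c, (n : ℝ) < pr c w}) atTop
      (𝓝 (κ (⋂ n : ℕ, {w : ℝ × ℝ | ∃ c, (n : ℝ) < pr c w}))) := by
    apply tendsto_measure_iInter_atTop (fun n => (hA n).nullMeasurableSet)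
    · intro a b hab w hw
      obtain ⟨c, hc⟩ := hw
      have : (a : ℝ) ≤ b := by exact_mod_cast hab
      exact ⟨c, lt_of_le_of_lt this hc⟩
    · exact ⟨0, measure_ne_top _ _⟩
  have h2 : (⋂ n : ℕ, {w : ℝ × ℝ | ∃ c, (n : ℝ) < pr c w}) = ∅ := by
    rw [Set.eq_empty_iff_forall_notMem]
    intro w hw
    rw [Set.mem_iInter] at hw
    obtain ⟨n, hn⟩ := exists_nat_gt (max (pr true w) (pr false w))
    obtain ⟨c, hc⟩ := hw n
    have h3 : pr c w ≤ max (pr true w) (pr false w) := by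
      cases c
      · exact le_max_right _ _
      · exact le_max_left _ _
    linarith
  rw [h2, measure_empty] at h1
  have h3 : (0 : ℝ≥0∞) < ENNReal.ofReal ε3 := by simpa using hε3
  obtain ⟨n, hn⟩ := (h1.eventually (ge_mem_nhds h3)).exists
  exact ⟨n, Nat.cast_nonneg n, hn⟩

theorem graph_est {κ : Measure (ℝ × ℝ)} [IsProbabilityMeasure κ]
    {α ν K1 η cd c0 C0 ε' : ℝ} (hpos : ∀ c, ∀ᵐ w ∂κ, 0 < pr c w) (hα0 : 0 < α) (hν1 : 1 < ν)
    (hη0 : 0 < η) (hK1 : 0 ≤ K1) (hcd : 0 < cd) (hcd1 : cd ≤ 1 / 2) (hC0 : 0 < C0)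
    (hε' : 0 < ε') (hα : ∀ c, ∫⁻ w, ex α (pr c w) ∂κ = (ENNReal.ofReal ν)⁻¹) :
    ∃ δ : ℝ, 0 < δ ∧ ∃ m0 : ℕ,
      ∀ (V H : Type) [Fintype V] [DecidableEq V] [Fintype H] [DecidableEq H] (vert : H → V),
        m0 ≤ Fintype.card H → DegOK vert ν K1 η cd c0 C0 →
        ∑ σ : Mt H, ∑ a : V, ∑ b ∈ univ.erase a,
          fAB κ vert (δ * (Fintype.card H : ℝ)) σ a b ≤
          (Fintype.card (Mt H) : ℝ) * (Fintype.card V : ℝ) ^ 2 * ε' := by
  set ε : ℝ := ε' / 12 with hε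
  have hε0 : 0 < ε := by positivity
  obtain ⟨K0, hK0, hmain⟩ := main_est (κ := κ) (c0 := c0) (C0 := C0) (ε := ε) hpos hα0 hν1 hη0
    hK1 hcd hcd1 hε0 hα
  obtain ⟨ρ, hρ0, hρ1, hconds⟩ := expl_conds (c0 := c0) (C0 := C0) hν1 hη0 hK1 hcd
  set Lk : ℝ := (2 / ρ) ^ K0 with hLk
  have hLk0 : 0 < Lk := by positivity
  set M : ℕ := ⌈12 * Lk / ε'⌉₊ + 1 with hM
  have hM1 : 1 ≤ M := by omega
  have hMr : (0 : ℝ) < M := by exact_mod_cast hM1
  have hMb : Lk / M ≤ ε' / 12 := by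
    have h1 : 12 * Lk / ε' ≤ (M : ℝ) := by
      rw [hM]
      push_cast
      have := Nat.le_ceil (12 * Lk / ε')
      linarith
    rw [div_le_iff₀ hε'] at h1
    rw [div_le_iff₀ hMr]
    linarith
  set e : ℝ := min (1 / 2) (ε' / (12 * (M + 1))) with he
  have he0 : 0 < e := lt_min (by norm_num) (by positivity)
  have he1 : e ≤ 1 / 2 := min_le_left _ _
  have he2 : e * (M + 1) ≤ ε' / 12 := by
    have h1 : e ≤ ε' / (12 * (M + 1)) := min_le_right _ _
    calc e * (M + 1) ≤ ε' / (12 * (M + 1)) * (M + 1) := by gcongr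
      _ = ε' / 12 := by field_simp
  obtain ⟨G, hG1, hcondG⟩ := hconds e he0
  set ε3 : ℝ := ε' / (12 * M) with hε3
  have hε30 : 0 < ε3 := by positivity
  obtain ⟨Wm, hWm, hκW⟩ := exists_tail (κ := κ) hε30
  set Q : ℕ := 4 * M + (2 * M + 2) * (G * G) with hQ
  set Q0 : ℕ := Q + K0 + G with hQ0
  set Qg : ℕ := Q + K0 * (G * G) + K0 with hQg
  obtain ⟨δ, hδ, m1, hm1⟩ := hmain Q0 (M * Wm) (by positivity)
  obtain ⟨δ0, hδ0, m2, hm2⟩ := hmain Qg 0 (le_refl _)
  obtain ⟨m3, hm3⟩ := hcondG Q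
  refine ⟨δ, hδ, max (max m1 m2) (max m3 (Q + 1 + 2 * K0 + ⌈((M : ℝ) + 1) * K0 / δ0⌉₊ + 1 +
    ⌈6 * ((M : ℝ) + 1) * C0 / ε'⌉₊)), ?_⟩
  intro V H _ _ _ _ vert hm hD
  have hmm1 : m1 ≤ Fintype.card H := le_trans (le_trans (le_max_left _ _) (le_max_left _ _)) hm
  have hmm2 : m2 ≤ Fintype.card H := le_trans (le_trans (le_max_right _ _) (le_max_left _ _)) hm
  have hmm3 : m3 ≤ Fintype.card H := le_trans (le_trans (le_max_left _ _) (le_max_right _ _)) hm
  have hmm4 := le_trans (le_trans (le_max_right _ _) (le_max_right _ _)) hm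
  have hm1' := hm1 V H vert hmm1 hD
  have hm2' := hm2 V H vert hmm2 hD
  obtain ⟨hec1, hec2⟩ := hm3 V H vert hmm3 hD
  have hP : GP κ vert ε δ δ0 ρ e Wm ε3 K0 M G Q0 Qg :=
    { hpos := hpos
      hε := hε0.le
      hε3 := hε30.le
      hρ := hρ0
      hρ1 := hρ1
      he := he0.le
      he1 := he1
      hWm := hWm
      hM := hM1
      hK0 := hK0
      hME := hm1'
      hMEg := hm2' true
      hEC := ⟨hec1, hec2⟩
      hκ := hκW
      hQ0 := by rw [hQ0, hQ]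
      hQg := by rw [hQg, hQ]
      hm1 := by omega
      hm2 := by
        have h1 : ((M : ℝ) + 1) * K0 / δ0 < (Fintype.card H : ℝ) := by
          have h2 := Nat.le_ceil (((M : ℝ) + 1) * K0 / δ0)
          have h3 : (⌈((M : ℝ) + 1) * K0 / δ0⌉₊ : ℝ) + 1 ≤ (Fintype.card H : ℝ) := by
            have : ⌈((M : ℝ) + 1) * K0 / δ0⌉₊ + 1 ≤ Fintype.card H := by omega
            exact_mod_cast this
          linarith
        rw [div_lt_iff₀ hδ0] at h1
        linarith }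
  have htot := hP.total
  refine le_trans htot ?_
  have hN : ((M : ℝ) + 1) / (Fintype.card V : ℝ) ≤ ε' / 6 := by
    have h1 : 6 * ((M : ℝ) + 1) * C0 / ε' ≤ (Fintype.card H : ℝ) := by
      have h2 := Nat.le_ceil (6 * ((M : ℝ) + 1) * C0 / ε')
      have h3 : (⌈6 * ((M : ℝ) + 1) * C0 / ε'⌉₊ : ℝ) ≤ (Fintype.card H : ℝ) := by
        have : ⌈6 * ((M : ℝ) + 1) * C0 / ε'⌉₊ ≤ Fintype.card H := by omega
        exact_mod_cast this
      linarith
    have h2 := hD.CN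
    have h3 : 6 * ((M : ℝ) + 1) * C0 / ε' ≤ C0 * (Fintype.card V : ℝ) := le_trans h1 h2
    have hVpos : (0 : ℝ) < (Fintype.card V : ℝ) := by
      have h4 : 0 < 6 * ((M : ℝ) + 1) * C0 / ε' := by positivity
      by_contra hc
      have h5 : C0 * (Fintype.card V : ℝ) ≤ 0 :=
        mul_nonpos_of_nonneg_of_nonpos hC0.le (not_lt.1 hc)
      linarith
    rw [div_le_iff₀ hε'] at h3
    rw [div_le_iff₀ hVpos]
    have h4 : C0 * (6 * ((M : ℝ) + 1)) ≤ C0 * ((Fintype.card V : ℝ) * ε') := by linarith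
    have h5 := le_of_mul_le_mul_left h4 hC0
    linarith
  have hfin : e + (be' ε ε3 e ρ K0 M (Fintype.card V) + e * M + (2 / ρ) ^ K0 / M) ≤ ε' := by
    unfold be' be
    rw [← hLk]
    have h1 : 2 * (M : ℝ) * ε3 = ε' / 6 := by rw [hε3]; field_simp; norm_num
    have h2 : 2 * ε = ε' / 6 := by rw [hε]; ring
    rw [h1, h2]
    have h3 : e * (M + 1) = e * M + e := by ring
    linarith
  gcongr

open Classical in
/-- Pairs of vertices in a common component of largest size have positive probability. -/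
theorem graph_low {κ : Measure (ℝ × ℝ)} [IsProbabilityMeasure κ]
    {α ν K1 η cd c0 C0 : ℝ} (hpos : ∀ c, ∀ᵐ w ∂κ, 0 < pr c w) (hα0 : 0 < α) (hν1 : 1 < ν)
    (hη0 : 0 < η) (hK1 : 0 ≤ K1) (hcd : 0 < cd) (hcd1 : cd ≤ 1 / 2) (hc0 : 0 < c0)
    (hC0 : 0 < C0) (hα : ∀ c, ∫⁻ w, ex α (pr c w) ∂κ = (ENNReal.ofReal ν)⁻¹) :
    ∃ p0 : ℝ, 0 < p0 ∧ ∃ m0 : ℕ,
      ∀ (V H : Type) [Fintype V] [DecidableEq V] [Fintype H] [DecidableEq H] (vert : H → V),
        m0 ≤ Fintype.card H → DegOK vert ν K1 η cd c0 C0 →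
        (Fintype.card (Mt H) : ℝ) * (Fintype.card V : ℝ) ^ 2 * p0 ≤
        ∑ σ : Mt H, ∑ a : V, ∑ b ∈ univ.erase a, (if InA vert σ a b then (1 : ℝ) else 0) := by
  obtain ⟨K0, hK0, hmain⟩ := main_est (κ := κ) (c0 := c0) (C0 := C0) (ε := 1 / 2) hpos hα0 hν1
    hη0 hK1 hcd hcd1 (by norm_num) hα
  obtain ⟨ρ, hρ0, hρ1, hconds⟩ := expl_conds (c0 := c0) (C0 := C0) hν1 hη0 hK1 hcd
  obtain ⟨G, hG1, hcondG⟩ := hconds (1 / 2) (by norm_num)
  set Qg : ℕ := K0 * (G * G) + K0 with hQg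
  obtain ⟨δ0, hδ0, m2, hm2⟩ := hmain Qg 0 (le_refl _)
  obtain ⟨m3, hm3⟩ := hcondG 0
  have hK0r : (0 : ℝ) < K0 := by exact_mod_cast hK0
  refine ⟨(δ0 * c0 / K0) ^ 2 / 4, by positivity,
    max (max m2 m3) (1 + 2 * K0 + ⌈2 * K0 / δ0⌉₊), ?_⟩
  intro V H _ _ _ _ vert hm hD
  have hmm2 : m2 ≤ Fintype.card H := le_trans (le_trans (le_max_left _ _) (le_max_left _ _)) hm
  have hmm3 : m3 ≤ Fintype.card H := le_trans (le_trans (le_max_right _ _) (le_max_left _ _)) hm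
  have hmm4 := le_trans (le_max_right _ _) hm
  obtain ⟨hec1, hec2⟩ := hm3 V H vert hmm3 hD
  have hg := giant_small (κ := κ) (vert := vert) (ε := 1 / 2) (δ := δ0) (ρ := ρ) (e := 1 / 2)
    (K0 := K0) (Q0 := Qg) (Q := 0) (G := G) hpos (by norm_num) (hm2 V H vert hmm2 hD true)
    ⟨hec1, hec2⟩ (le_refl _) hK0 (by omega) (by omega) (by omega) (l := []) (W := ∅) (by simp)
    (by simp) (by simp [Qd])
  rw [Al_nil, card_univ] at hg
  have hmr : 2 * (K0 : ℝ) ≤ δ0 * (Fintype.card H : ℝ) := by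
    have h1 := Nat.le_ceil (2 * (K0 : ℝ) / δ0)
    have h2 : (⌈2 * (K0 : ℝ) / δ0⌉₊ : ℝ) ≤ (Fintype.card H : ℝ) := by
      have : ⌈2 * (K0 : ℝ) / δ0⌉₊ ≤ Fintype.card H := by omega
      exact_mod_cast this
    have h3 : 2 * (K0 : ℝ) / δ0 ≤ (Fintype.card H : ℝ) := le_trans h1 h2
    rw [div_le_iff₀ hδ0] at h3
    linarith
  set N : ℝ := (Fintype.card V : ℝ) with hNdef
  have hN0 : 0 ≤ N := Nat.cast_nonneg _
  -- one matching
  have hone : ∀ σ : Mt H, N ^ 2 * ((δ0 * c0 / K0) ^ 2 / 2) *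
      (1 - (if ∀ v, (cc vert σ v : ℝ) * K0 < δ0 * (Fintype.card H : ℝ) then (1 : ℝ) else 0)) ≤
      ∑ a : V, ∑ b ∈ univ.erase a, (if InA vert σ a b then (1 : ℝ) else 0) := by
    intro σ
    have hnn : 0 ≤ ∑ a : V, ∑ b ∈ univ.erase a, (if InA vert σ a b then (1 : ℝ) else 0) :=
      Finset.sum_nonneg (fun a _ => Finset.sum_nonneg (fun b _ => by split_ifs <;> norm_num))
    by_cases hs : ∀ v, (cc vert σ v : ℝ) * K0 < δ0 * (Fintype.card H : ℝ)
    · rw [if_pos hs, sub_self, mul_zero]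
      exact hnn
    · rw [if_neg hs, sub_zero, mul_one]
      push Not at hs
      obtain ⟨v0, hv0⟩ := hs
      obtain ⟨a0, _, ha0⟩ := Finset.exists_max_image (univ : Finset V) (fun v => cc vert σ v)
        ⟨v0, mem_univ v0⟩
      set S : Finset V := univ.filter (fun w => Cn vert σ a0 w) with hS
      have hScard : S.card = cc vert σ a0 := rfl
      have hS1 : δ0 * (Fintype.card H : ℝ) ≤ (S.card : ℝ) * K0 := by
        rw [hScard]
        refine le_trans hv0 ?_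
        have : (cc vert σ v0 : ℝ) ≤ cc vert σ a0 := by exact_mod_cast ha0 v0 (mem_univ _)
        gcongr
      have hS2 : (2 : ℝ) ≤ S.card := by
        have h1 : 2 * (K0 : ℝ) ≤ (S.card : ℝ) * K0 := le_trans hmr hS1
        exact le_of_mul_le_mul_right h1 hK0r
      have hS3 : δ0 * c0 / K0 * N ≤ S.card := by
        rw [div_mul_eq_mul_div, div_le_iff₀ hK0r]
        have h1 := hD.cN
        rw [← hNdef] at h1
        calc δ0 * c0 * N = δ0 * (c0 * N) := by ring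
          _ ≤ δ0 * (Fintype.card H : ℝ) := by gcongr
          _ ≤ _ := hS1
      have hA : ∀ a ∈ S, ∀ b ∈ S, InA vert σ a b := by
        intro a ha b hb
        have h1 := (mem_filter.1 ha).2
        have h2 := (mem_filter.1 hb).2
        refine ⟨h1.symm.trans h2, fun v => ?_⟩
        rw [← cc_congr h1]
        exact ha0 v (mem_univ _)
      calc N ^ 2 * ((δ0 * c0 / K0) ^ 2 / 2) = (δ0 * c0 / K0 * N) ^ 2 / 2 := by ring
        _ ≤ (S.card : ℝ) ^ 2 / 2 := by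
            have h1 : 0 ≤ δ0 * c0 / K0 * N := by positivity
            gcongr
        _ ≤ (S.card : ℝ) * (S.card - 1) := by nlinarith
        _ = ∑ a ∈ S, ∑ b ∈ S.erase a, (1 : ℝ) := by
            have h1 : ∀ a ∈ S, ∑ b ∈ S.erase a, (1 : ℝ) = (S.card : ℝ) - 1 := by
              intro a ha
              rw [sum_const, nsmul_eq_mul, mul_one, card_erase_of_mem ha, Nat.cast_sub
                (Finset.card_pos.2 ⟨a, ha⟩)]
              simp
            rw [Finset.sum_congr rfl h1, sum_const, nsmul_eq_mul]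
        _ = ∑ a ∈ S, ∑ b ∈ S.erase a, (if InA vert σ a b then (1 : ℝ) else 0) := by
            apply Finset.sum_congr rfl
            intro a ha
            apply Finset.sum_congr rfl
            intro b hb
            rw [if_pos (hA a ha b (Finset.mem_of_mem_erase hb))]
        _ ≤ ∑ a ∈ S, ∑ b ∈ univ.erase a, (if InA vert σ a b then (1 : ℝ) else 0) := by
            apply Finset.sum_le_sum
            intro a _
            apply Finset.sum_le_sum_of_subset_of_nonneg (erase_subset_erase a (subset_univ S))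
            intro b _ _
            split_ifs <;> norm_num
        _ ≤ _ := by
            apply Finset.sum_le_sum_of_subset_of_nonneg (subset_univ S)
            intro a _ _
            exact Finset.sum_nonneg (fun b _ => by split_ifs <;> norm_num)
  calc (Fintype.card (Mt H) : ℝ) * N ^ 2 * ((δ0 * c0 / K0) ^ 2 / 4)
      = N ^ 2 * ((δ0 * c0 / K0) ^ 2 / 2) * ((Fintype.card (Mt H) : ℝ) -
          (Fintype.card (Mt H) : ℝ) * (1 / 2)) := by ring
    _ ≤ N ^ 2 * ((δ0 * c0 / K0) ^ 2 / 2) * ((Fintype.card (Mt H) : ℝ) -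
          ∑ σ : Mt H, (if ∀ v, (cc vert σ v : ℝ) * K0 < δ0 * (Fintype.card H : ℝ) then
            (1 : ℝ) else 0)) := by
        gcongr
    _ = ∑ σ : Mt H, N ^ 2 * ((δ0 * c0 / K0) ^ 2 / 2) *
      (1 - (if ∀ v, (cc vert σ v : ℝ) * K0 < δ0 * (Fintype.card H : ℝ) then (1 : ℝ) else 0)) := by
        rw [← Finset.mul_sum, Finset.sum_sub_distrib, sum_const, nsmul_eq_mul, card_univ, mul_one]
    _ ≤ _ := Finset.sum_le_sum (fun σ _ => hone σ)

end Pool.Agent.H949.CX
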