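import Pool.Agent.H949.CX.PSL

/-!
# Counting the paths from a half-edge to a vertex
-/

set_option linter.unusedSectionVars false
set_option linter.unusedSimpArgs false
set_option linter.unusedVariables false

open MeasureTheory Finset
open scoped ENNReal

namespace Pool.Agent.H949.CX

open Pool.Agent.H949.CM

variable {V H : Type} [Fintype V] [DecidableEq V] [Fintype H] [DecidableEq H]

open Classical in
/-- The number of paths that leave by `f`, reach `z` within length `u`, and whose inner vertices
avoid `U`; after `r` steps a path is counted in any case. -/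
noncomputable def HN (vert : H → V) (c : Bool) (z : V) :
    ℕ → Finset V → H → ℝ → Mt H → Wt H → ℝ≥0∞
  | 0, _, _, _, _, _ => 1
  | (r + 1), U, f, u, σ, ω => if wt c σ ω f ≤ u then (if vert (σ f) = z then 1 else
      if vert (σ f) ∉ U then
        ∑ g ∈ nxt vert (σ f), HN vert c z r (insert (vert (σ f)) U) g (u - wt c σ ω f) σ ω
      else 0) else 0

theorem measurable_HN (vert : H → V) (c : Bool) (z : V) (σ : Mt H) :
    ∀ (r : ℕ) (U : Finset V) (f : H),
      Measurable (fun p : ℝ × Wt H => HN vert c z r U f p.1 σ p.2) := by
  classical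
  intro r
  induction r with
  | zero => intro U f; simp only [HN]; exact measurable_const
  | succ r ih =>
    intro U f
    simp only [HN]
    have hw : Measurable (fun p : ℝ × Wt H => wt c σ p.2 f) :=
      (measurable_wt c σ f).comp measurable_snd
    refine Measurable.ite (measurableSet_le hw measurable_fst) ?_ measurable_const
    by_cases h1 : vert (σ f) = z
    · simp only [if_pos h1]; exact measurable_const
    · simp only [if_neg h1]
      by_cases h2 : vert (σ f) ∉ U
      · simp only [if_pos h2]
        refine Finset.measurable_fun_sum _ (fun g _ => ?_)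
        exact (ih (insert (vert (σ f)) U) g).comp
          ((measurable_fst.sub hw).prodMk measurable_snd)
      · simp only [if_neg h2]; exact measurable_const

theorem measurable_HN' {vert : H → V} {c : Bool} {z : V} {σ : Mt H} {r : ℕ} {U : Finset V}
    {f : H} {u : Wt H → ℝ} (hu : Measurable u) :
    Measurable (fun ω => HN vert c z r U f (u ω) σ ω) :=
  (measurable_HN vert c z σ r U f).comp (hu.prodMk measurable_id)

theorem HN_zo (vert : H → V) (c : Bool) (z : V) (σ : Mt H) (ω : Wt H) :
    ∀ (r : ℕ) (U : Finset V) (f : H) (u : ℝ),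
      HN vert c z r U f u σ ω = 0 ∨ 1 ≤ HN vert c z r U f u σ ω := by
  classical
  intro r
  induction r with
  | zero => intro U f u; right; simp [HN]
  | succ r ih =>
    intro U f u
    simp only [HN]
    by_cases h0 : wt c σ ω f ≤ u
    · by_cases h1 : vert (σ f) = z
      · right; simp [h0, h1]
      · by_cases h2 : vert (σ f) ∉ U
        · rw [if_pos h0, if_neg h1, if_pos h2]
          by_cases h3 : ∀ g ∈ nxt vert (σ f),
              HN vert c z r (insert (vert (σ f)) U) g (u - wt c σ ω f) σ ω = 0
          · left; exact Finset.sum_eq_zero h3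
          · right
            push Not at h3
            obtain ⟨g, hg, hg'⟩ := h3
            refine le_trans ((ih _ g _).resolve_left hg') ?_
            exact Finset.single_le_sum
              (f := fun g => HN vert c z r (insert (vert (σ f)) U) g (u - wt c σ ω f) σ ω)
              (fun _ _ => bot_le) hg
        · left; rw [if_pos h0, if_neg h1, if_neg h2]
    · left; rw [if_neg h0]

variable {κ : Measure (ℝ × ℝ)} [IsProbabilityMeasure κ]

open Classical in
/-- First moment upper bound for the number of hits. -/
theorem hn_upper {vert : H → V} {c : Bool} {z : V} {B : ℕ} {c1 : ℝ≥0∞}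
    (hc1 : ((Fintype.card H - B - 1 : ℕ) : ℝ≥0∞)⁻¹ ≤ c1) (G : ℕ → ℝ → ℝ≥0∞)
    (hG0 : ∀ u, 0 ≤ u → 1 ≤ G 0 u)
    (hG : ∀ (r : ℕ) (u : ℝ), 0 ≤ u → c1 * ∫⁻ w, (if pr c w ≤ u then ((deg vert z : ℕ) : ℝ≥0∞) +
      (∑ y : H, ((deg vert (vert y) - 1 : ℕ) : ℝ≥0∞)) * G r (u - pr c w) else 0) ∂κ ≤
        G (r + 1) u) :
    ∀ (r : ℕ) (l : List (H × H)) (τ : Wt H) (W : Finset V) (f : H) (u : ℝ),
      (∀ g ∈ dom l, vert g ∈ W) → vert f ∈ W → f ∉ dom l → z ∈ W → (dom l).card + 2 * r ≤ B →
      0 ≤ u → EE κ l τ (HN vert c z r W f u) ≤ G r u := by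
  intro r
  induction r with
  | zero =>
    intro l τ W f u _ _ _ _ _ hu
    refine le_trans ?_ (hG0 u hu)
    exact EE_const_le l τ 1
  | succ r ih =>
    intro l τ W f u hdW hfW hf hzW hB hu
    have hFm : ∀ σ, Measurable (HN vert c z (r + 1) W f u σ) := fun σ =>
      measurable_HN' (u := fun _ => u) measurable_const
    rw [EE_reveal hFm hf]
    have step1 : ∀ y ∈ fr l f, ∀ w : ℝ × ℝ,
        EE κ ((f, y) :: l) (Function.update τ s(f, y) w) (HN vert c z (r + 1) W f u) ≤
        (if pr c w ≤ u then (if vert y = z then 1 else
          ((deg vert (vert y) - 1 : ℕ) : ℝ≥0∞) * G r (u - pr c w)) else 0) := by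
      intro y hy w
      set l' := (f, y) :: l with hl'
      set τ' := Function.update τ s(f, y) w with hτ'
      have hwt : ∀ σ ∈ Al l', ∀ ω, wt c σ (glue l' τ' ω) f = pr c w := by
        intro σ hσ ω
        obtain ⟨h1, h2⟩ := mem_Al_cons.1 hσ
        unfold wt
        rw [h1, glue_of_mem (by rw [Ed_cons]; exact mem_insert_self _ _), hτ',
          Function.update_self]
      by_cases h0 : pr c w ≤ u
      · rw [if_pos h0]
        by_cases h1 : vert y = z
        · rw [if_pos h1]
          refine le_trans (EE_mono (G := fun _ _ => 1) ?_) (EE_const_le l' τ' 1)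
          intro σ hσ ω
          simp only [HN]
          rw [hwt σ hσ ω, (mem_Al_cons.1 hσ).1, if_pos h0, if_pos h1]
        · rw [if_neg h1]
          by_cases h2 : vert y ∈ W
          · refine le_trans (EE_mono (G := fun _ _ => 0) ?_) (by rw [EE_zero]; exact bot_le)
            intro σ hσ ω
            simp only [HN]
            rw [hwt σ hσ ω, (mem_Al_cons.1 hσ).1, if_pos h0, if_neg h1,
              if_neg (not_not.2 h2)]
          · have hdl' : (dom l').card ≤ (dom l).card + 2 := card_dom_cons_le f y l
            refine le_trans (EE_mono (G := fun σ ω => ∑ g ∈ nxt vert y,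
              HN vert c z r (insert (vert y) W) g (u - pr c w) σ ω) ?_) ?_
            · intro σ hσ ω
              simp only [HN]
              rw [hwt σ hσ ω, (mem_Al_cons.1 hσ).1, if_pos h0, if_neg h1, if_pos h2]
            · rw [EE_sum _ (fun g _ σ =>
                measurable_HN' (u := fun _ => u - pr c w) measurable_const)]
              calc ∑ g ∈ nxt vert y, EE κ l' τ' (HN vert c z r (insert (vert y) W) g
                    (u - pr c w))
                  ≤ ∑ g ∈ nxt vert y, G r (u - pr c w) := by
                    apply Finset.sum_le_sum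
                    intro g hg
                    apply ih l' τ' (insert (vert y) W) g (u - pr c w)
                    · intro k hk
                      rw [hl', dom_cons, mem_insert, mem_insert] at hk
                      rcases hk with rfl | rfl | hk
                      · exact mem_insert_of_mem hfW
                      · exact mem_insert_self _ _
                      · exact mem_insert_of_mem (hdW k hk)
                    · rw [(mem_nxt.1 hg).1]; exact mem_insert_self _ _
                    · exact fresh_nxt hdW hfW h2 hg
                    · exact mem_insert_of_mem hzW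
                    · omega
                    · linarith
                _ = ((deg vert (vert y) - 1 : ℕ) : ℝ≥0∞) * G r (u - pr c w) := by
                    rw [sum_const, nsmul_eq_mul, card_nxt]
      · rw [if_neg h0]
        refine le_trans (EE_mono (G := fun _ _ => 0) ?_) (by rw [EE_zero])
        intro σ hσ ω
        simp only [HN]
        rw [hwt σ hσ ω, if_neg h0]
    rw [div_eq_mul_inv, mul_comm]
    calc (((fr l f).card : ℕ) : ℝ≥0∞)⁻¹ * ∑ y ∈ fr l f, ∫⁻ w,
          EE κ ((f, y) :: l) (Function.update τ s(f, y) w) (HN vert c z (r + 1) W f u) ∂κ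
        ≤ c1 * ∫⁻ w, ∑ y ∈ fr l f, EE κ ((f, y) :: l) (Function.update τ s(f, y) w)
            (HN vert c z (r + 1) W f u) ∂κ := by
          rw [lintegral_finsetSum _ (fun y _ => measurable_EE_update hFm s(f, y))]
          gcongr
          exact inv_fr_le hc1 hf (by omega)
      _ ≤ c1 * ∫⁻ w, (if pr c w ≤ u then ((deg vert z : ℕ) : ℝ≥0∞) +
            (∑ y : H, ((deg vert (vert y) - 1 : ℕ) : ℝ≥0∞)) * G r (u - pr c w) else 0) ∂κ := by
          gcongr with w
          refine le_trans (Finset.sum_le_sum (fun y hy => step1 y hy w)) ?_
          by_cases h0 : pr c w ≤ u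
          · simp only [if_pos h0]
            calc ∑ y ∈ fr l f, (if vert y = z then (1 : ℝ≥0∞) else
                  ((deg vert (vert y) - 1 : ℕ) : ℝ≥0∞) * G r (u - pr c w))
                ≤ ∑ y ∈ fr l f, ((if vert y = z then (1 : ℝ≥0∞) else 0) +
                  ((deg vert (vert y) - 1 : ℕ) : ℝ≥0∞) * G r (u - pr c w)) := by
                  apply Finset.sum_le_sum
                  intro y _
                  by_cases h1 : vert y = z
                  · rw [if_pos h1, if_pos h1]; exact le_self_add
                  · rw [if_neg h1, if_neg h1]; exact le_add_self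
              _ ≤ ∑ y : H, ((if vert y = z then (1 : ℝ≥0∞) else 0) +
                  ((deg vert (vert y) - 1 : ℕ) : ℝ≥0∞) * G r (u - pr c w)) :=
                  Finset.sum_le_sum_of_subset (subset_univ _)
              _ = _ := by
                  rw [Finset.sum_add_distrib, ← Finset.sum_mul]
                  congr 1
                  rw [Finset.sum_ite, sum_const, sum_const_zero, add_zero, nsmul_eq_mul, mul_one]
                  rfl
          · simp only [if_neg h0]
            simp
      _ ≤ G (r + 1) u := hG r u hu

/-- Prepending a step to a hit. -/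
theorem HN_prepend {vert : H → V} {c : Bool} {z : V} {σ : Mt H} {ω : Wt H} {A : Finset V}
    {g h : H} {u ρ : ℝ} (h1 : vert (σ g) ≠ z) (h2 : vert (σ g) ∉ A) (h3 : h ∈ nxt vert (σ g))
    (hρ : 0 ≤ ρ) (hu : wt c σ ω g + ρ ≤ u)
    (hK : ∀ (r : ℕ) (u : ℝ), ρ ≤ u → HN vert c z r (insert (vert (σ g)) A) h u σ ω ≠ 0)
    (r : ℕ) : HN vert c z r A g u σ ω ≠ 0 := by
  classical
  cases r with
  | zero => simp [HN]
  | succ r =>
    simp only [HN]
    rw [if_pos (by linarith), if_neg h1, if_pos h2]
    intro h0
    rw [Finset.sum_eq_zero_iff] at h0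
    exact hK r (u - wt c σ ω g) (by linarith) (h0 h h3)

theorem HN_base {vert : H → V} {c : Bool} {z : V} {σ : Mt H} {ω : Wt H} {A : Finset V}
    {g : H} {u : ℝ} (h1 : vert (σ g) = z) (hu : wt c σ ω g ≤ u) (r : ℕ) :
    HN vert c z r A g u σ ω ≠ 0 := by
  classical
  cases r with
  | zero => simp [HN]
  | succ r =>
    simp only [HN]
    rw [if_pos hu, if_pos h1]
    exact one_ne_zero

theorem tm_suffix_le {c : Bool} {σ : Mt H} {ω : Wt H} (hpos : ∀ g, 0 ≤ wt c σ ω g)
    {xs ys : List H} (h : xs <:+ ys) : tm c σ ω xs ≤ tm c σ ω ys := by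
  obtain ⟨zs, rfl⟩ := h
  induction zs with
  | nil => exact le_refl _
  | cons z zs ih =>
    rw [List.cons_append, tm_cons]
    have := hpos z
    linarith

/-- A path that meets `W` contains a hit from its first half-edge to its first vertex in `W`. -/
theorem hit_of_ext {vert : H → V} {c : Bool} {ok : V → ℝ → Prop} {T : ℝ} {U W : Finset V}
    {σ : Mt H} {ω : Wt H} (hpos : ∀ g, 0 ≤ wt c σ ω g) :
    ∀ (n : ℕ) (f : H) (xs γ : List H), Ext vert c ok T U σ ω n f xs γ →
      (∃ g ys, (g :: ys) <:+ γ ∧ (f :: xs) <:+ (g :: ys) ∧ vert (σ g) ∈ W) →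
      ∃ g ys, (g :: ys) <:+ γ ∧ (f :: xs) <:+ (g :: ys) ∧ vert (σ g) ∈ W ∧
        (∀ g' ys', (g' :: ys') <:+ γ → (f :: xs) <:+ (g' :: ys') → vert (σ g') ∈ W →
          (g :: ys) <:+ (g' :: ys')) ∧
        ∀ (r : ℕ) (A : Finset V) (u : ℝ), (∀ v ∈ A, v ∈ W ∨ ∃ k ∈ xs, v = vert (σ k)) →
          tm c σ ω (g :: ys) - tm c σ ω xs ≤ u → HN vert c (vert (σ g)) r A f u σ ω ≠ 0 := by
  intro n
  induction n with
  | zero => intro f xs γ h _; exact h.elim
  | succ n ih =>
    intro f xs γ hE hex
    have hcnd := hE.1
    have hsuf := Ext.suffix _ hE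
    by_cases hx : vert (σ f) ∈ W
    · refine ⟨f, xs, hsuf, List.suffix_refl _, hx, fun g' ys' _ h2 _ => h2, ?_⟩
      intro r A u _ hu
      apply HN_base rfl
      rw [tm_cons] at hu
      linarith
    · rcases hE.2 with rfl | ⟨hT, k, hk, hE'⟩
      · exfalso
        obtain ⟨g, ys, h1, h2, h3⟩ := hex
        have := h1.eq_of_length_le h2.length_le
        have h4 : g = f := by simpa using (List.cons.inj this).1
        rw [h4] at h3
        exact hx h3
      · have hex' : ∃ g ys, (g :: ys) <:+ γ ∧ (k :: f :: xs) <:+ (g :: ys) ∧
            vert (σ g) ∈ W := by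
          obtain ⟨g, ys, h1, h2, h3⟩ := hex
          refine ⟨g, ys, h1, ?_, h3⟩
          have hsk := Ext.suffix _ hE'
          rcases List.suffix_or_suffix_of_suffix hsk h1 with h4 | h4
          · exact h4
          · -- `g :: ys` is `f :: xs` or `k :: f :: xs`
            have h5 := h4.length_le
            have h6 := h2.length_le
            simp only [List.length_cons] at h5 h6
            rcases Nat.lt_or_ge ys.length (xs.length + 1) with h7 | h7
            · exfalso
              have h8 : f :: xs = g :: ys := h2.eq_of_length (by simp; omega)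
              have h9 : f = g := (List.cons.inj h8).1
              rw [← h9] at h3
              exact hx h3
            · have h8 : g :: ys = k :: f :: xs := h4.eq_of_length (by simp; omega)
              rw [h8]
        obtain ⟨g, ys, h1, h2, h3, hmin, h4⟩ := ih k (f :: xs) γ hE' hex'
        refine ⟨g, ys, h1, (List.suffix_cons _ _).trans h2, h3, ?_, ?_⟩
        · intro g' ys' ha hb hc
          apply hmin g' ys' ha ?_ hc
          have hsk := Ext.suffix _ hE'
          rcases List.suffix_or_suffix_of_suffix hsk ha with h4 | h4
          · exact h4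
          · have h5 := h4.length_le
            have h6 := hb.length_le
            simp only [List.length_cons] at h5 h6
            rcases Nat.lt_or_ge ys'.length (xs.length + 1) with h7 | h7
            · exfalso
              have h8 : f :: xs = g' :: ys' := hb.eq_of_length (by simp; omega)
              have h9 : f = g' := (List.cons.inj h8).1
              rw [← h9] at hc
              exact hx hc
            · have h8 : g' :: ys' = k :: f :: xs := h4.eq_of_length (by simp; omega)
              rw [h8]
        · intro r A u hA hu
          have hne : vert (σ f) ≠ vert (σ g) := fun he => hx (he ▸ h3)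
          have hnA : vert (σ f) ∉ A := by
            intro hc
            rcases hA _ hc with h5 | ⟨k', hk', h5⟩
            · exact hx h5
            · exact hcnd.2.1 k' hk' h5
          have hmono := tm_suffix_le hpos h2
          simp only [tm_cons] at hmono hu
          have hwk := hpos k
          apply HN_prepend (h := k) (ρ := tm c σ ω (g :: ys) - tm c σ ω (f :: xs)) hne hnA hk
          · rw [tm_cons, tm_cons]; linarith
          · simp only [tm_cons]; linarith
          · intro r' u' hu'
            apply h4 r' _ u' _ hu'
            intro v hv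
            rcases mem_insert.1 hv with rfl | hv
            · exact Or.inr ⟨f, List.mem_cons_self, rfl⟩
            · rcases hA v hv with h5 | ⟨k', hk', h5⟩
              · exact Or.inl h5
              · exact Or.inr ⟨k', List.mem_cons_of_mem _ hk', h5⟩

end Pool.Agent.H949.CX
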