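import Mathlib

/-!
# A power-law tail with a slowly varying factor gives moments of order `2 + η`

Paper proof. Put `p = τ - 1 > 2`, `q = (p + 2) / 2` (so `2 < q < p`) and
`η = min 1 ((p - 2) / 4)` (so `2 + η < q`). Since `L (2 x) / L x → 1 < 2 ^ (p - q)` there is `x0 ≥ 1`
such that for `x ≥ x0` both the tail formula holds and `L (2 x) / L x ≤ 2 ^ (p - q)`, hence
`P(D > 2 x) = L (2x) (2x)^(-p) ≤ 2 ^ (-q) P(D > x)` (if `L x ≤ 0` then, the ratio being positive for
large `x`, also `L (2 x) ≤ 0` and both sides are `0`). By induction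
`P(D > 2 ^ k x0) ≤ 2 ^ (- q k)`. Finally
`E[D ^ (2 + η)] ≤ x0 ^ (2 + η) + ∑_k (2 ^ (k + 1) x0) ^ (2 + η) P(D > 2 ^ k x0) < ∞`, a geometric
series with ratio `2 ^ (2 + η - q) < 1`.
-/

open MeasureTheory Filter Topology
open scoped ENNReal

namespace Pool.Agent.H949.CX

theorem moment_of_tail (μD : Measure ℕ) [IsProbabilityMeasure μD] (L : ℝ → ℝ) (τ : ℝ)
    (hτ : 3 < τ) (hL : ∀ a : ℝ, 0 < a → Tendsto (fun x => L (a * x) / L x) atTop (𝓝 1))
    (htail : ∀ᶠ x : ℝ in atTop,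
      μD {k : ℕ | x < (k : ℝ)} = ENNReal.ofReal (L x * x ^ (-(τ - 1)))) :
    ∃ η : ℝ, 0 < η ∧ η ≤ 1 ∧ ∫⁻ k, ENNReal.ofReal ((k : ℝ) ^ (2 + η)) ∂μD < ⊤ := by
  obtain ⟨p, hp⟩ : ∃ p, p = τ - 1 := ⟨_, rfl⟩
  rw [← hp] at htail
  have hp2 : 2 < p := by linarith
  obtain ⟨q, hq⟩ : ∃ q, q = (p + 2) / 2 := ⟨_, rfl⟩
  obtain ⟨η, hη⟩ : ∃ η : ℝ, η = min 1 ((p - 2) / 4) := ⟨_, rfl⟩
  have hη0 : 0 < η := by
    rw [hη]
    exact lt_min one_pos (by linarith)
  have hη1 : η ≤ 1 := hη ▸ min_le_left _ _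
  have hη2 : η ≤ (p - 2) / 4 := hη ▸ min_le_right _ _
  refine ⟨η, hη0, hη1, ?_⟩
  obtain ⟨s, hs⟩ : ∃ s, s = 2 + η := ⟨_, rfl⟩
  rw [← hs]
  have hs0 : 0 < s := by linarith
  have hsq : s < q := by linarith
  have hqp : q < p := by linarith
  have h2 : (1 : ℝ) < 2 ^ (p - q) := Real.one_lt_rpow (by norm_num) (by linarith)
  have e1 := (hL 2 (by norm_num)).eventually (Ioo_mem_nhds (show (1 / 2 : ℝ) < 1 by norm_num) h2)
  have e2 : ∀ᶠ x : ℝ in atTop,
      μD {k : ℕ | 2 * x < (k : ℝ)} = ENNReal.ofReal (L (2 * x) * (2 * x) ^ (-p)) :=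
    (tendsto_id.const_mul_atTop (show (0 : ℝ) < 2 by norm_num)).eventually htail
  obtain ⟨x1, hx1⟩ := (e1.and (htail.and e2)).exists_forall_of_atTop
  obtain ⟨x0, hx0⟩ : ∃ x0, x0 = max 1 x1 := ⟨_, rfl⟩
  have hx01 : 1 ≤ x0 := hx0 ▸ le_max_left _ _
  have hx02 : x1 ≤ x0 := hx0 ▸ le_max_right _ _
  -- one step
  have step : ∀ x : ℝ, x0 ≤ x → μD {k : ℕ | 2 * x < (k : ℝ)} ≤
      ENNReal.ofReal (2 ^ (-q)) * μD {k : ℕ | x < (k : ℝ)} := by
    intro x hx
    obtain ⟨⟨h3, h4⟩, h5, h6⟩ := hx1 x (hx02.trans hx)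
    have hx' : 0 < x := by linarith
    rw [h5, h6, ← ENNReal.ofReal_mul (by positivity)]
    rcases le_or_gt (L x) 0 with h | h
    · have hne : L x ≠ 0 := by
        intro h0
        rw [h0, div_zero] at h3
        linarith
      have hlt : L x < 0 := lt_of_le_of_ne h hne
      have h7 : L (2 * x) < 0 := by
        by_contra hc
        push Not at hc
        have := div_nonpos_of_nonneg_of_nonpos hc h
        linarith
      rw [ENNReal.ofReal_of_nonpos]
      · exact bot_le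
      · exact mul_nonpos_of_nonpos_of_nonneg h7.le (by positivity)
    · refine ENNReal.ofReal_le_ofReal ?_
      have h7 : L (2 * x) ≤ 2 ^ (p - q) * L x := ((div_lt_iff₀ h).1 h4).le
      rw [Real.mul_rpow (by norm_num) hx'.le]
      have h8 : (2 : ℝ) ^ (-q) = 2 ^ (p - q) * 2 ^ (-p) := by
        rw [← Real.rpow_add (by norm_num)]
        congr 1
        ring
      rw [h8]
      have h9 : (0 : ℝ) ≤ 2 ^ (-p) * x ^ (-p) := by positivity
      calc L (2 * x) * (2 ^ (-p) * x ^ (-p)) ≤ 2 ^ (p - q) * L x * (2 ^ (-p) * x ^ (-p)) :=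
            mul_le_mul_of_nonneg_right h7 h9
        _ = _ := by ring
  -- iteration
  have iter : ∀ j : ℕ, μD {k : ℕ | 2 ^ j * x0 < (k : ℝ)} ≤ ENNReal.ofReal (2 ^ (-q)) ^ j := by
    intro j
    induction j with
    | zero => simpa using prob_le_one
    | succ j ih =>
      have h3 : x0 ≤ 2 ^ j * x0 := le_mul_of_one_le_left (by linarith) (one_le_pow₀ (by norm_num))
      have h4 := step _ h3
      have h5 : (2 : ℝ) ^ (j + 1) * x0 = 2 * (2 ^ j * x0) := by ring
      rw [h5, pow_succ, mul_comm (ENNReal.ofReal (2 ^ (-q)) ^ j)]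
      exact h4.trans (mul_le_mul_right ih _)
  -- pointwise bound
  have hpt : ∀ k : ℕ, ENNReal.ofReal ((k : ℝ) ^ s) ≤ ENNReal.ofReal (x0 ^ s) +
      ∑' j : ℕ, Set.indicator {k : ℕ | 2 ^ j * x0 < (k : ℝ)}
        (fun _ => ENNReal.ofReal ((2 ^ (j + 1) * x0) ^ s)) k := by
    intro k
    rcases le_or_gt (k : ℝ) x0 with h | h
    · exact (ENNReal.ofReal_le_ofReal (Real.rpow_le_rpow (by positivity) h hs0.le)).trans
        le_self_add
    · have hex : ∃ n : ℕ, (k : ℝ) ≤ 2 ^ n * x0 := by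
        obtain ⟨n, hn⟩ := pow_unbounded_of_one_lt (k : ℝ) (show (1 : ℝ) < 2 by norm_num)
        exact ⟨n, hn.le.trans (le_mul_of_one_le_right (by positivity) hx01)⟩
      classical
      obtain ⟨n, hn1, hn2⟩ : ∃ n : ℕ, 2 ^ n * x0 < (k : ℝ) ∧ (k : ℝ) ≤ 2 ^ (n + 1) * x0 := by
        have h3 := Nat.find_spec hex
        have h4 : Nat.find hex ≠ 0 := by
          intro h0
          rw [h0] at h3
          simp at h3
          linarith
        obtain ⟨n, hn⟩ := Nat.exists_eq_succ_of_ne_zero h4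
        refine ⟨n, ?_, ?_⟩
        · have := Nat.find_min hex (m := n) (by omega)
          exact not_le.1 this
        · rw [hn] at h3
          exact h3
      refine le_trans ?_ le_add_self
      refine le_trans ?_ (ENNReal.le_tsum n)
      rw [Set.indicator_of_mem (by exact hn1)]
      exact ENNReal.ofReal_le_ofReal (Real.rpow_le_rpow (by positivity) hn2 hs0.le)
  refine lt_of_le_of_lt (lintegral_mono hpt) ?_
  rw [lintegral_add_left measurable_const, lintegral_const, measure_univ, mul_one,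
    lintegral_tsum fun j => (measurable_of_countable _).aemeasurable]
  refine ENNReal.add_lt_top.2 ⟨ENNReal.ofReal_lt_top, ?_⟩
  have hterm : ∀ j : ℕ, ∫⁻ k, Set.indicator {k : ℕ | 2 ^ j * x0 < (k : ℝ)}
        (fun _ => ENNReal.ofReal ((2 ^ (j + 1) * x0) ^ s)) k ∂μD ≤
        ENNReal.ofReal ((2 * x0) ^ s) * ENNReal.ofReal (2 ^ (s - q)) ^ j := by
    intro j
    rw [lintegral_indicator_const (MeasurableSet.of_discrete)]
    refine (mul_le_mul_right (iter j) _).trans (le_of_eq ?_)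
    rw [← ENNReal.ofReal_pow (by positivity), ← ENNReal.ofReal_pow (by positivity),
      ← ENNReal.ofReal_mul (by positivity), ← ENNReal.ofReal_mul (by positivity)]
    congr 1
    have h3 : (2 : ℝ) ^ (j + 1) * x0 = 2 * x0 * 2 ^ j := by ring
    rw [h3, Real.mul_rpow (by positivity) (by positivity), mul_assoc]
    congr 1
    rw [← Real.rpow_natCast, ← Real.rpow_natCast, ← Real.rpow_natCast, ← Real.rpow_mul (by norm_num),
      ← Real.rpow_mul (by norm_num), ← Real.rpow_mul (by norm_num), ← Real.rpow_add (by norm_num)]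
    congr 1
    ring
  refine lt_of_le_of_lt (ENNReal.tsum_le_tsum hterm) ?_
  rw [ENNReal.tsum_mul_left, ENNReal.tsum_geometric]
  refine ENNReal.mul_lt_top ENNReal.ofReal_lt_top (ENNReal.inv_lt_top.2 (tsub_pos_of_lt ?_))
  rw [← ENNReal.ofReal_one]
  exact (ENNReal.ofReal_lt_ofReal_iff one_pos).2
    (Real.rpow_lt_one_of_one_lt_of_neg (by norm_num) (by linarith))

end Pool.Agent.H949.CX
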