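import Pool.Agent.H949.CX.Graph3
import Pool.Agent.H949.CX.Deg2
import Pool.Agent.H949.CX.RV

/-!
# The law of the model with two distinct sources
-/

set_option linter.unusedSectionVars false
set_option linter.unusedSimpArgs false
set_option linter.unusedVariables false

open MeasureTheory Finset Filter Topology ProbabilityTheory
open scoped ENNReal

namespace Pool.Agent.H949.CX

open Pool.Agent.H949.CM

/-- The number of pairs of distinct vertices. -/
theorem card_offdiag (n : ℕ) :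
    (univ.filter (fun p : Fin (n + 1) × Fin (n + 1) => p.1 ≠ p.2)).card = (n + 1) * n := by
  have h1 : (univ.filter (fun p : Fin (n + 1) × Fin (n + 1) => p.1 ≠ p.2)) =
      (univ : Finset (Fin (n + 1))).offDiag := by
    ext p
    simp [mem_offDiag]
  rw [h1, offDiag_card, card_univ, Fintype.card_fin]
  have : (n + 1) * (n + 1) = (n + 1) * n + (n + 1) := by ring
  omega

theorem uniformOn_offdiag (n : ℕ) {a b : Fin (n + 1)} (hab : a ≠ b) :
    (uniformOn {p : Fin (n + 1) × Fin (n + 1) | p.1 ≠ p.2}) {(a, b)} =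
      (((n + 1) * n : ℕ) : ℝ≥0∞)⁻¹ := by
  have hfin : ({p : Fin (n + 1) × Fin (n + 1) | p.1 ≠ p.2}) =
      ((univ.filter (fun p : Fin (n + 1) × Fin (n + 1) => p.1 ≠ p.2) :
        Finset (Fin (n + 1) × Fin (n + 1))) : Set (Fin (n + 1) × Fin (n + 1))) := by
    ext p; simp
  unfold uniformOn
  rw [cond_apply (Set.toFinite _).measurableSet]
  have h1 : ({p : Fin (n + 1) × Fin (n + 1) | p.1 ≠ p.2} ∩ {(a, b)}) = {(a, b)} := by
    ext p
    simp only [Set.mem_inter_iff, Set.mem_ofPred_eq, Set.mem_singleton_iff]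
    constructor
    · exact fun h => h.2
    · rintro rfl; exact ⟨hab, rfl⟩
  rw [h1, Measure.count_singleton, mul_one]
  conv_lhs => rw [hfin]
  rw [Measure.count_apply_finset, card_offdiag]

theorem uniformOn_diag (n : ℕ) :
    (uniformOn {p : Fin (n + 1) × Fin (n + 1) | p.1 ≠ p.2}) {p | p.1 = p.2} = 0 := by
  unfold uniformOn
  rw [cond_apply (Set.toFinite _).measurableSet]
  have h1 : ({p : Fin (n + 1) × Fin (n + 1) | p.1 ≠ p.2} ∩ {p | p.1 = p.2}) = ∅ := by
    ext p
    simp only [Set.mem_inter_iff, Set.mem_ofPred_eq, Set.mem_empty_iff_false, iff_false, not_and]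
    exact fun h => h
  rw [h1, measure_empty, mul_zero]

theorem cmLaw2_prob {n : ℕ} (hn : 1 ≤ n) (κ : Measure (ℝ × ℝ)) [IsProbabilityMeasure κ]
    (d : Fin (n + 1) → ℕ) (hd : Even (∑ v, d v)) : IsProbabilityMeasure (cmLaw2 κ d) := by
  have h1 : Nonempty (Mt (HalfEdge d)) := nonempty_Mt (by rw [card_halfEdge]; exact hd)
  have h2 : IsProbabilityMeasure (uniformOn (Set.univ : Set (Mt (HalfEdge d)))) :=
    isProbabilityMeasure_uniformOn Set.finite_univ Set.univ_nonempty
  have h3 : IsProbabilityMeasure (uniformOn {p : Fin (n + 1) × Fin (n + 1) | p.1 ≠ p.2}) := by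
    apply isProbabilityMeasure_uniformOn (Set.toFinite _)
    refine ⟨(0, Fin.last n), ?_⟩
    show (0 : Fin (n + 1)) ≠ Fin.last n
    intro h
    have := congrArg Fin.val h
    simp at this
    omega
  unfold cmLaw2
  infer_instance

/-- Every probability under the law is at most one. -/
theorem cmLaw2_le_one {n : ℕ} (κ : Measure (ℝ × ℝ)) [IsProbabilityMeasure κ]
    (d : Fin (n + 1) → ℕ) (E : Set (Conf d)) : cmLaw2 κ d E ≤ 1 := by
  refine le_trans (measure_mono (Set.subset_univ E)) ?_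
  unfold cmLaw2
  rw [← Set.univ_prod_univ, Measure.prod_prod, ← Set.univ_prod_univ, Measure.prod_prod]
  have h1 : (uniformOn (Set.univ : Set (Mt (HalfEdge d)))) Set.univ ≤ 1 := prob_le_one
  have h2 : (uniformOn {p : Fin (n + 1) × Fin (n + 1) | p.1 ≠ p.2}) Set.univ ≤ 1 :=
    prob_le_one
  calc _ ≤ (1 : ℝ≥0∞) * (1 * 1) := by
        gcongr
        exact prob_le_one
    _ = 1 := by norm_num

/-- The law is bounded by the average of its sections. -/
theorem cmLaw2_le {n : ℕ} (κ : Measure (ℝ × ℝ)) [IsProbabilityMeasure κ]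
    (d : Fin (n + 1) → ℕ) (E : Set (Conf d)) :
    cmLaw2 κ d E ≤ ENNReal.ofReal ((∑ σ : Mt (HalfEdge d), ∑ a : Fin (n + 1),
      ∑ b ∈ univ.erase a, ((lawW (HalfEdge d) κ) {ω | (σ, ω, (a, b)) ∈ E}).toReal) /
        (Fintype.card (Mt (HalfEdge d)) * ((n + 1) * n))) := by
  classical
  set μ := lawW (HalfEdge d) κ with hμ
  set ν2 := uniformOn {p : Fin (n + 1) × Fin (n + 1) | p.1 ≠ p.2} with hν2
  set ν1 := (uniformOn (Set.univ : Set (Mt (HalfEdge d)))) with hν1
  have hsub : E ⊆ ((Set.univ : Set (Mt (HalfEdge d))) ×ˢ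
        ((Set.univ : Set (Sym2 (HalfEdge d) → ℝ × ℝ)) ×ˢ
          {p : Fin (n + 1) × Fin (n + 1) | p.1 = p.2})) ∪
      ⋃ σ ∈ (univ : Finset (Mt (HalfEdge d))), ⋃ a ∈ (univ : Finset (Fin (n + 1))),
      ⋃ b ∈ (univ : Finset (Fin (n + 1))).erase a, ({σ} : Set (Mt (HalfEdge d))) ×ˢ
        ({ω | (σ, ω, (a, b)) ∈ E} ×ˢ (({(a, b)} : Set (Fin (n + 1) × Fin (n + 1))))) := by
    rintro ⟨σ, ω, a, b⟩ hx
    by_cases hab : a = b
    · left
      exact ⟨Set.mem_univ _, Set.mem_univ _, hab⟩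
    · right
      simp only [Set.mem_iUnion]
      exact ⟨σ, mem_univ _, a, mem_univ _, b, mem_erase.2 ⟨Ne.symm hab, mem_univ _⟩, rfl, hx, rfl⟩
  refine le_trans (measure_mono hsub) ?_
  refine le_trans (measure_union_le _ _) ?_
  have h0 : cmLaw2 κ d ((Set.univ : Set (Mt (HalfEdge d))) ×ˢ
        ((Set.univ : Set (Sym2 (HalfEdge d) → ℝ × ℝ)) ×ˢ
          {p : Fin (n + 1) × Fin (n + 1) | p.1 = p.2})) = 0 := by
    unfold cmLaw2
    rw [Measure.prod_prod, Measure.prod_prod, uniformOn_diag, mul_zero, mul_zero]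
  rw [h0, zero_add]
  refine le_trans (measure_biUnion_finset_le _ _) ?_
  rw [Finset.sum_div, ENNReal.ofReal_sum_of_nonneg (fun _ _ => by positivity)]
  apply Finset.sum_le_sum
  intro σ _
  refine le_trans (measure_biUnion_finset_le _ _) ?_
  rw [Finset.sum_div, ENNReal.ofReal_sum_of_nonneg (fun _ _ => by positivity)]
  apply Finset.sum_le_sum
  intro a _
  refine le_trans (measure_biUnion_finset_le _ _) ?_
  rw [Finset.sum_div, ENNReal.ofReal_sum_of_nonneg (fun _ _ => by positivity)]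
  apply Finset.sum_le_sum
  intro b hb
  have hab : a ≠ b := (Finset.ne_of_mem_erase hb).symm
  have hn : 1 ≤ n := by
    by_contra hc
    have : n = 0 := by omega
    subst this
    exact hab (Fin.ext (by have := a.2; have := b.2; omega))
  unfold cmLaw2
  rw [Measure.prod_prod, Measure.prod_prod, uniformOn_univ, Measure.count_singleton,
    uniformOn_offdiag n hab]
  have hM : 0 < Fintype.card (Mt (HalfEdge d)) := Fintype.card_pos_iff.2 ⟨σ⟩
  have hnr : (0 : ℝ) < n := by exact_mod_cast hn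
  have hMr : (0 : ℝ) < Fintype.card (Mt (HalfEdge d)) := by exact_mod_cast hM
  rw [ENNReal.ofReal_div_of_pos (by positivity), ENNReal.ofReal_mul (by positivity),
    ENNReal.ofReal_natCast, ENNReal.ofReal_toReal (measure_ne_top _ _)]
  have e1 : ENNReal.ofReal (((n : ℝ) + 1) * n) = (((n + 1) * n : ℕ) : ℝ≥0∞) := by
    have : ((n : ℝ) + 1) * n = (((n + 1) * n : ℕ) : ℝ) := by push_cast; ring
    rw [this, ENNReal.ofReal_natCast]
  rw [e1]
  have hM' : (Fintype.card (Mt (HalfEdge d)) : ℝ≥0∞) ≠ 0 := by exact_mod_cast hM.ne'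
  have hM'' : (Fintype.card (Mt (HalfEdge d)) : ℝ≥0∞) ≠ ⊤ := ENNReal.natCast_ne_top _
  apply le_of_eq
  simp only [div_eq_mul_inv, one_mul]
  rw [ENNReal.mul_inv (Or.inl hM') (Or.inl hM'')]
  ring

open Classical in
/-- The law of an event that does not depend on the lengths. -/
theorem cmLaw2_ge {n : ℕ} (hn : 1 ≤ n) (κ : Measure (ℝ × ℝ)) [IsProbabilityMeasure κ]
    (d : Fin (n + 1) → ℕ) (hM : 0 < Fintype.card (Mt (HalfEdge d)))
    (A : Mt (HalfEdge d) → Fin (n + 1) → Fin (n + 1) → Prop) :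
    ENNReal.ofReal ((∑ σ : Mt (HalfEdge d), ∑ a : Fin (n + 1),
      ∑ b ∈ univ.erase a, (if A σ a b then (1 : ℝ) else 0)) /
        (Fintype.card (Mt (HalfEdge d)) * ((n + 1) * n))) ≤
      cmLaw2 κ d {x | A x.1 x.2.2.1 x.2.2.2} := by
  set T : Finset (Mt (HalfEdge d) × (Fin (n + 1) × Fin (n + 1))) :=
    univ.filter (fun p => p.2.1 ≠ p.2.2 ∧ A p.1 p.2.1 p.2.2) with hT
  set f : Mt (HalfEdge d) × (Fin (n + 1) × Fin (n + 1)) → Set (Conf d) := fun p =>
    ({p.1} : Set (Mt (HalfEdge d))) ×ˢ ((Set.univ : Set (Sym2 (HalfEdge d) → ℝ × ℝ)) ×ˢ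
      ({p.2} : Set (Fin (n + 1) × Fin (n + 1)))) with hf
  have hsub : (⋃ p ∈ T, f p) ⊆ {x : Conf d | A x.1 x.2.2.1 x.2.2.2} := by
    intro x hx
    rw [Set.mem_iUnion₂] at hx
    obtain ⟨p, hp, h1, _, h2⟩ := hx
    rw [hT, mem_filter] at hp
    have h1' : x.1 = p.1 := h1
    have h2' : x.2.2 = p.2 := h2
    show A x.1 x.2.2.1 x.2.2.2
    rw [h1', h2']
    exact hp.2.2
  have hdisj : Set.PairwiseDisjoint (T : Set (Mt (HalfEdge d) ×
      (Fin (n + 1) × Fin (n + 1)))) f := by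
    intro p _ p' _ hne
    rw [Function.onFun, Set.disjoint_left]
    rintro x ⟨h1, _, h2⟩ ⟨h3, _, h4⟩
    apply hne
    have h1' : x.1 = p.1 := h1
    have h2' : x.2.2 = p.2 := h2
    have h3' : x.1 = p'.1 := h3
    have h4' : x.2.2 = p'.2 := h4
    exact Prod.ext (h1'.symm.trans h3') (h2'.symm.trans h4')
  have hmeas : ∀ p ∈ T, MeasurableSet (f p) := fun p _ =>
    (MeasurableSet.singleton _).prod (MeasurableSet.univ.prod (MeasurableSet.singleton _))
  refine le_trans ?_ (measure_mono hsub)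
  rw [measure_biUnion_finset hdisj hmeas]
  have hval : ∀ p ∈ T, cmLaw2 κ d (f p) =
      ENNReal.ofReal (1 / (Fintype.card (Mt (HalfEdge d)) * ((n + 1) * n))) := by
    intro p hp
    rw [hT, mem_filter] at hp
    obtain ⟨σ, a, b⟩ := p
    have hab : a ≠ b := hp.2.1
    rw [hf]
    unfold cmLaw2
    rw [Measure.prod_prod, Measure.prod_prod, uniformOn_univ, Measure.count_singleton,
      uniformOn_offdiag n hab, measure_univ, one_mul]
    have hnr : (0 : ℝ) < n := by exact_mod_cast hn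
    have hMr : (0 : ℝ) < Fintype.card (Mt (HalfEdge d)) := by exact_mod_cast hM
    rw [ENNReal.ofReal_div_of_pos (by positivity), ENNReal.ofReal_mul (by positivity),
      ENNReal.ofReal_natCast]
    have e1 : ENNReal.ofReal (((n : ℝ) + 1) * n) = (((n + 1) * n : ℕ) : ℝ≥0∞) := by
      have : ((n : ℝ) + 1) * n = (((n + 1) * n : ℕ) : ℝ) := by push_cast; ring
      rw [this, ENNReal.ofReal_natCast]
    rw [e1, ENNReal.ofReal_one]
    have hM' : (Fintype.card (Mt (HalfEdge d)) : ℝ≥0∞) ≠ 0 := by exact_mod_cast hM.ne'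
    have hM'' : (Fintype.card (Mt (HalfEdge d)) : ℝ≥0∞) ≠ ⊤ := ENNReal.natCast_ne_top _
    simp only [div_eq_mul_inv, one_mul]
    rw [ENNReal.mul_inv (Or.inl hM') (Or.inl hM'')]
  rw [Finset.sum_congr rfl hval, sum_const, nsmul_eq_mul, ← ENNReal.ofReal_natCast,
    ← ENNReal.ofReal_mul (Nat.cast_nonneg _)]
  apply ENNReal.ofReal_le_ofReal
  rw [mul_one_div]
  have hcount : ∑ σ : Mt (HalfEdge d), ∑ a : Fin (n + 1),
      ∑ b ∈ univ.erase a, (if A σ a b then (1 : ℝ) else 0) = (T.card : ℝ) := by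
    rw [hT, Finset.card_filter, Nat.cast_sum, Fintype.sum_prod_type]
    apply Finset.sum_congr rfl
    intro σ _
    rw [Fintype.sum_prod_type]
    apply Finset.sum_congr rfl
    intro a _
    have h1 : (univ : Finset (Fin (n + 1))).erase a = univ.filter (fun b => a ≠ b) := by
      ext b
      simp [eq_comm]
    rw [h1, Finset.sum_filter]
    apply Finset.sum_congr rfl
    intro b _
    by_cases hab : a = b
    · simp [hab]
    · simp [hab]
  rw [hcount]

end Pool.Agent.H949.CX
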