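import Pool.Agent.H949.CX.Core

/-!
# The loss in the first moment lower bound
-/

set_option linter.unusedSectionVars false
set_option linter.unusedSimpArgs false
set_option linter.unusedVariables false

open MeasureTheory Finset Filter Topology
open scoped ENNReal

namespace Pool.Agent.H949.CX

open Pool.Agent.H949.CM

variable {κ : Measure (ℝ × ℝ)} [IsProbabilityMeasure κ]

/-- The loss of one step. -/
noncomputable def bS (T θ1 : ℝ) (δ' ct : ℝ≥0∞) (s : ℝ) : ℝ≥0∞ :=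
  δ' + ct * (ex θ1 s + ex θ1 (T - s))

/-- The total loss. -/
noncomputable def LS (α T A0 θ1 : ℝ) (nu dd ct δ' q1 ρ : ℝ≥0∞) (F1 F2 : ℝ → ℝ≥0∞) (r : ℕ)
    (s : ℝ) : ℝ≥0∞ :=
  dd ^ r * ((r : ℝ≥0∞) * δ' + ct * (q1 * ex θ1 s + F1 (T - s) + ex θ1 (-A0)) +
    (nu * ex (α / 2) A0) * (ex (α / 2) (T - s) + F2 (T - s)) + ex (-1) (T - s) * ρ ^ r)

theorem LS_zero {α T A0 θ1 : ℝ} {nu dd ct δ' q1 ρ : ℝ≥0∞} {F1 F2 : ℝ → ℝ≥0∞} (s : ℝ)
    (hs : s ≤ T) : 1 ≤ LS α T A0 θ1 nu dd ct δ' q1 ρ F1 F2 0 s := by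
  unfold LS
  rw [pow_zero, one_mul, pow_zero, mul_one]
  refine le_trans ?_ le_add_self
  exact one_le_ex_neg (by linarith)

theorem LS_step {c : Bool} {α T A0 θ1 : ℝ} {nu dd ct δ' q1 ρ : ℝ≥0∞} {F1 F2 : ℝ → ℝ≥0∞}
    (hn0 : nu ≠ 0) (hnt : nu ≠ ⊤) (hα : ∫⁻ w, ex α (pr c w) ∂κ = nu⁻¹)
    (hpos : ∀ᵐ w ∂κ, 0 < pr c w) (hα0 : 0 ≤ α) (hθ1 : 0 ≤ θ1) (hA0 : 0 ≤ A0)
    (hdd : 1 ≤ dd) (hct : ct ≠ ⊤) (hδ't : δ' ≠ ⊤) (hq1t : q1 ≠ ⊤) (hρt : ρ ≠ ⊤)
    (hF1m : Measurable F1) (hF2m : Measurable F2)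
    (hq1 : nu * (∫⁻ w, ex α (pr c w) * ex θ1 (pr c w) ∂κ) * (1 + q1) ≤ q1)
    (hρ : nu * (∫⁻ w, ex α (pr c w) * ex 1 (pr c w) ∂κ) ≤ ρ)
    (hF1 : ∀ u, 0 ≤ u → nu * ∫⁻ w, ex α (pr c w) * (if pr c w ≤ u then ex θ1 (u - pr c w) +
        F1 (u - pr c w) else 0) ∂κ ≤ F1 u)
    (hF2 : ∀ u, 0 ≤ u → nu * ∫⁻ w, ex α (pr c w) * (if pr c w ≤ u then ex (α / 2) (u - pr c w) +
        F2 (u - pr c w) else 0) ∂κ ≤ F2 u) (r : ℕ) (s : ℝ) (hs : s ≤ T) :
    ∫⁻ w, ex α (pr c w) * (if s + pr c w ≤ T then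
      bS T θ1 δ' ct (s + pr c w) + dd * LS α T A0 θ1 nu dd ct δ' q1 ρ F1 F2 r (s + pr c w)
        else if s + pr c w ≤ T + A0 then bS T θ1 δ' ct (s + pr c w)
        else 1) ∂κ ≤ nu⁻¹ * LS α T A0 θ1 nu dd ct δ' q1 ρ F1 F2 (r + 1) s := by
  classical
  have hnn : nu * nu⁻¹ = 1 := ENNReal.mul_inv_cancel hn0 hnt
  have hmα : Measurable (fun w => ex α (pr c w)) := (measurable_ex α).comp (measurable_pr c)
  have hmθ : ∀ θ : ℝ, Measurable (fun w => ex θ (pr c w)) := fun θ =>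
    (measurable_ex θ).comp (measurable_pr c)
  have hms : Measurable (fun w : ℝ × ℝ => s + pr c w) := (measurable_pr c).const_add s
  set M1 : ℝ≥0∞ := ex θ1 (-A0) with hM1
  set C0 : ℝ≥0∞ := nu * ex (α / 2) A0 with hC0
  have hC0t : C0 ≠ ⊤ := ENNReal.mul_ne_top hnt (ex_ne_top _ _)
  have hM1t : M1 ≠ ⊤ := ex_ne_top _ _
  -- the pieces
  set g3 : ℝ × ℝ → ℝ≥0∞ := fun w => ex α (pr c w) * (if s + pr c w ≤ T then
    ex θ1 (T - (s + pr c w)) + F1 (T - (s + pr c w)) else 0) with hg3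
  set g5 : ℝ × ℝ → ℝ≥0∞ := fun w => ex α (pr c w) * (if s + pr c w ≤ T then
    ex (α / 2) (T - (s + pr c w)) + F2 (T - (s + pr c w)) else 0) with hg5
  set g6 : ℝ × ℝ → ℝ≥0∞ := fun w => ex α (pr c w) * (if T + A0 < s + pr c w then 1 else 0)
    with hg6
  have hg3m : Measurable g3 := by
    refine hmα.mul (Measurable.ite (measurableSet_le hms measurable_const) ?_ measurable_const)
    exact ((measurable_ex _).comp (hms.const_sub T)).add (hF1m.comp (hms.const_sub T))
  have hg5m : Measurable g5 := by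
    refine hmα.mul (Measurable.ite (measurableSet_le hms measurable_const) ?_ measurable_const)
    exact ((measurable_ex _).comp (hms.const_sub T)).add (hF2m.comp (hms.const_sub T))
  have hg6m : Measurable g6 :=
    hmα.mul (Measurable.ite (measurableSet_lt measurable_const hms) measurable_const
      measurable_const)
  have i3 : nu * ∫⁻ w, g3 w ∂κ ≤ F1 (T - s) := by
    refine le_trans (le_of_eq ?_) (hF1 (T - s) (by linarith))
    congr 1
    apply lintegral_congr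
    intro w
    rw [hg3]
    simp only
    by_cases h : s + pr c w ≤ T
    · rw [if_pos h, if_pos (by linarith), show T - s - pr c w = T - (s + pr c w) by ring]
    · rw [if_neg h, if_neg (by intro h'; apply h; linarith)]
  have i5 : nu * ∫⁻ w, g5 w ∂κ ≤ F2 (T - s) := by
    refine le_trans (le_of_eq ?_) (hF2 (T - s) (by linarith))
    congr 1
    apply lintegral_congr
    intro w
    rw [hg5]
    simp only
    by_cases h : s + pr c w ≤ T
    · rw [if_pos h, if_pos (by linarith), show T - s - pr c w = T - (s + pr c w) by ring]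
    · rw [if_neg h, if_neg (by intro h'; apply h; linarith)]
  have i6 : nu * ∫⁻ w, g6 w ∂κ ≤ C0 * ex (α / 2) (T - s) := by
    calc nu * ∫⁻ w, g6 w ∂κ ≤ nu * ∫⁻ w, (ex (α / 2) A0 * ex (α / 2) (T - s)) ∂κ := by
          refine mul_le_mul' (le_refl _) (lintegral_mono_ae ?_)
          filter_upwards [hpos] with w hw
          rw [hg6]
          simp only
          by_cases h : T + A0 < s + pr c w
          · rw [if_pos h, mul_one, ← ex_add]
            unfold ex
            apply ENNReal.ofReal_le_ofReal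
            apply Real.exp_le_exp.2
            have h1 : 0 ≤ α / 2 * pr c w := by positivity
            have h2 : α / 2 * (A0 + (T - s)) ≤ α / 2 * pr c w :=
              mul_le_mul_of_nonneg_left (by linarith) (by linarith)
            linarith
          · rw [if_neg h, mul_zero]
            exact bot_le
      _ = C0 * ex (α / 2) (T - s) := by
          rw [lintegral_const, measure_univ, mul_one, hC0, mul_assoc]
  -- pointwise bound
  have hpt : ∀ w : ℝ × ℝ, ex α (pr c w) * (if s + pr c w ≤ T then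
      bS T θ1 δ' ct (s + pr c w) + dd * LS α T A0 θ1 nu dd ct δ' q1 ρ F1 F2 r (s + pr c w)
        else if s + pr c w ≤ T + A0 then bS T θ1 δ' ct (s + pr c w)
        else 1) ≤ dd ^ (r + 1) * ((((r + 1 : ℕ) : ℝ≥0∞) * δ') * ex α (pr c w) +
        (ct * (1 + q1) * ex θ1 s) * (ex α (pr c w) * ex θ1 (pr c w)) + ct * g3 w +
        (ct * M1) * ex α (pr c w) + C0 * g5 w + g6 w +
        (ex (-1) (T - s) * ρ ^ r) * (ex α (pr c w) * ex 1 (pr c w))) := by
    intro w
    have hdr : (1 : ℝ≥0∞) ≤ dd ^ (r + 1) := one_le_pow₀ hdd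
    have e1 : ex θ1 (s + pr c w) = ex θ1 s * ex θ1 (pr c w) := ex_add _ _ _
    have e7 : ex (-1) (T - (s + pr c w)) = ex (-1) (T - s) * ex 1 (pr c w) := by
      rw [ex_mul']
      unfold ex
      congr 2
      ring
    by_cases h1 : s + pr c w ≤ T
    · rw [if_pos h1]
      have hg3w : g3 w = ex α (pr c w) * (ex θ1 (T - (s + pr c w)) + F1 (T - (s + pr c w))) := by
        rw [hg3]; simp only; rw [if_pos h1]
      have hg5w : g5 w = ex α (pr c w) * (ex (α / 2) (T - (s + pr c w)) +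
          F2 (T - (s + pr c w))) := by
        rw [hg5]; simp only; rw [if_pos h1]
      rw [hg3w, hg5w]
      unfold bS LS
      rw [← hC0, ← hM1]
      calc ex α (pr c w) * (δ' + ct * (ex θ1 (s + pr c w) + ex θ1 (T - (s + pr c w))) +
            dd * (dd ^ r * (↑r * δ' + ct * (q1 * ex θ1 (s + pr c w) + F1 (T - (s + pr c w)) + M1) +
            C0 * (ex (α / 2) (T - (s + pr c w)) + F2 (T - (s + pr c w))) +
            ex (-1) (T - (s + pr c w)) * ρ ^ r)))
          = 1 * (ex α (pr c w) * (δ' + ct * (ex θ1 (s + pr c w) +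
              ex θ1 (T - (s + pr c w))))) + dd ^ (r + 1) * (ex α (pr c w) *
              (↑r * δ' + ct * (q1 * ex θ1 (s + pr c w) + F1 (T - (s + pr c w)) + M1) +
            C0 * (ex (α / 2) (T - (s + pr c w)) + F2 (T - (s + pr c w))) +
            ex (-1) (T - (s + pr c w)) * ρ ^ r)) := by ring
        _ ≤ dd ^ (r + 1) * (ex α (pr c w) * (δ' + ct * (ex θ1 (s + pr c w) +
              ex θ1 (T - (s + pr c w))))) + dd ^ (r + 1) * (ex α (pr c w) *
              (↑r * δ' + ct * (q1 * ex θ1 (s + pr c w) + F1 (T - (s + pr c w)) + M1) +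
            C0 * (ex (α / 2) (T - (s + pr c w)) + F2 (T - (s + pr c w))) +
            ex (-1) (T - (s + pr c w)) * ρ ^ r)) :=
            add_le_add (mul_le_mul' hdr (le_refl _)) (le_refl _)
        _ = dd ^ (r + 1) * ((((r + 1 : ℕ) : ℝ≥0∞) * δ') * ex α (pr c w) +
              (ct * (1 + q1) * ex θ1 s) * (ex α (pr c w) * ex θ1 (pr c w)) +
              ct * (ex α (pr c w) * (ex θ1 (T - (s + pr c w)) + F1 (T - (s + pr c w)))) +
              (ct * M1) * ex α (pr c w) + C0 * (ex α (pr c w) *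
                (ex (α / 2) (T - (s + pr c w)) + F2 (T - (s + pr c w)))) +
              (ex (-1) (T - s) * ρ ^ r) * (ex α (pr c w) * ex 1 (pr c w))) := by
            rw [e1, e7]; push_cast; ring
        _ ≤ _ := by
            refine mul_le_mul' (le_refl _) (add_le_add ?_ (le_refl _))
            exact le_self_add
    · rw [if_neg h1]
      by_cases h2 : s + pr c w ≤ T + A0
      · rw [if_pos h2]
        unfold bS
        have hMw : ex θ1 (T - (s + pr c w)) ≤ M1 := by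
          rw [hM1]
          exact ex_le_ex hθ1 (by linarith)
        calc ex α (pr c w) * (δ' + ct * (ex θ1 (s + pr c w) + ex θ1 (T - (s + pr c w))))
            ≤ ex α (pr c w) * (δ' + ct * (ex θ1 s * ex θ1 (pr c w) + M1)) := by
              rw [e1]
              refine mul_le_mul' (le_refl _) (add_le_add (le_refl _) (mul_le_mul' (le_refl _)
                (add_le_add (le_refl _) hMw)))
          _ = 1 * δ' * ex α (pr c w) + (ct * 1 * ex θ1 s) * (ex α (pr c w) * ex θ1 (pr c w)) +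
                (ct * M1) * ex α (pr c w) := by ring
          _ ≤ (((r + 1 : ℕ) : ℝ≥0∞) * δ') * ex α (pr c w) +
              (ct * (1 + q1) * ex θ1 s) * (ex α (pr c w) * ex θ1 (pr c w)) +
              (ct * M1) * ex α (pr c w) := by
              refine add_le_add (add_le_add (mul_le_mul' (mul_le_mul' ?_ (le_refl _))
                (le_refl _)) (mul_le_mul' (mul_le_mul' (mul_le_mul' (le_refl _) ?_)
                (le_refl _)) (le_refl _))) (le_refl _)
              · exact_mod_cast (by omega : 1 ≤ r + 1)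
              · exact le_self_add
          _ ≤ 1 * ((((r + 1 : ℕ) : ℝ≥0∞) * δ') * ex α (pr c w) +
              (ct * (1 + q1) * ex θ1 s) * (ex α (pr c w) * ex θ1 (pr c w)) + ct * g3 w +
              (ct * M1) * ex α (pr c w) + C0 * g5 w + g6 w +
              (ex (-1) (T - s) * ρ ^ r) * (ex α (pr c w) * ex 1 (pr c w))) := by
              rw [one_mul]
              refine le_trans ?_ le_self_add
              refine le_trans ?_ le_self_add
              refine le_trans ?_ le_self_add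
              refine add_le_add ?_ (le_refl _)
              exact le_self_add
          _ ≤ _ := mul_le_mul' hdr (le_refl _)
      · rw [if_neg h2]
        have hg6w : g6 w = ex α (pr c w) * 1 := by
          rw [hg6]; simp only; rw [if_pos (not_le.1 h2)]
        calc ex α (pr c w) * 1 = g6 w := hg6w.symm
          _ ≤ 1 * ((((r + 1 : ℕ) : ℝ≥0∞) * δ') * ex α (pr c w) +
              (ct * (1 + q1) * ex θ1 s) * (ex α (pr c w) * ex θ1 (pr c w)) + ct * g3 w +
              (ct * M1) * ex α (pr c w) + C0 * g5 w + g6 w +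
              (ex (-1) (T - s) * ρ ^ r) * (ex α (pr c w) * ex 1 (pr c w))) := by
              rw [one_mul]
              refine le_trans ?_ le_self_add
              exact le_add_self
          _ ≤ _ := mul_le_mul' hdr (le_refl _)
  -- integrate
  have hm12 : Measurable (fun w : ℝ × ℝ => (((r + 1 : ℕ) : ℝ≥0∞) * δ') * ex α (pr c w) +
        (ct * (1 + q1) * ex θ1 s) * (ex α (pr c w) * ex θ1 (pr c w))) :=
    (hmα.const_mul _).add ((hmα.mul (hmθ θ1)).const_mul _)
  have hm123 : Measurable (fun w : ℝ × ℝ => (((r + 1 : ℕ) : ℝ≥0∞) * δ') * ex α (pr c w) +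
        (ct * (1 + q1) * ex θ1 s) * (ex α (pr c w) * ex θ1 (pr c w)) + ct * g3 w) :=
    hm12.add (hg3m.const_mul _)
  have hm1234 : Measurable (fun w : ℝ × ℝ => (((r + 1 : ℕ) : ℝ≥0∞) * δ') * ex α (pr c w) +
        (ct * (1 + q1) * ex θ1 s) * (ex α (pr c w) * ex θ1 (pr c w)) + ct * g3 w +
        (ct * M1) * ex α (pr c w)) := hm123.add (hmα.const_mul _)
  have hm12345 : Measurable (fun w : ℝ × ℝ => (((r + 1 : ℕ) : ℝ≥0∞) * δ') * ex α (pr c w) +
        (ct * (1 + q1) * ex θ1 s) * (ex α (pr c w) * ex θ1 (pr c w)) + ct * g3 w +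
        (ct * M1) * ex α (pr c w) + C0 * g5 w) := hm1234.add (hg5m.const_mul _)
  have hm123456 : Measurable (fun w : ℝ × ℝ => (((r + 1 : ℕ) : ℝ≥0∞) * δ') * ex α (pr c w) +
        (ct * (1 + q1) * ex θ1 s) * (ex α (pr c w) * ex θ1 (pr c w)) + ct * g3 w +
        (ct * M1) * ex α (pr c w) + C0 * g5 w + g6 w) := hm12345.add hg6m
  have hmα1 : Measurable (fun w : ℝ × ℝ => (((r + 1 : ℕ) : ℝ≥0∞) * δ') * ex α (pr c w)) :=
    hmα.const_mul _
  have hmall : Measurable (fun w : ℝ × ℝ => (((r + 1 : ℕ) : ℝ≥0∞) * δ') * ex α (pr c w) +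
        (ct * (1 + q1) * ex θ1 s) * (ex α (pr c w) * ex θ1 (pr c w)) + ct * g3 w +
        (ct * M1) * ex α (pr c w) + C0 * g5 w + g6 w +
        (ex (-1) (T - s) * ρ ^ r) * (ex α (pr c w) * ex 1 (pr c w))) :=
    hm123456.add ((hmα.mul (hmθ 1)).const_mul _)
  refine le_trans (lintegral_mono hpt) ?_
  rw [lintegral_const_mul _ hmall, lintegral_add_left hm123456, lintegral_add_left hm12345,
    lintegral_add_left hm1234, lintegral_add_left hm123, lintegral_add_left hm12,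
    lintegral_add_left hmα1]
  have hmm1 : Measurable (fun w => ex α (pr c w) * ex θ1 (pr c w)) := hmα.mul (hmθ θ1)
  have hmm7 : Measurable (fun w => ex α (pr c w) * ex 1 (pr c w)) := hmα.mul (hmθ 1)
  rw [lintegral_const_mul _ hmα, lintegral_const_mul _ hmm1,
    lintegral_const_mul _ hg3m, lintegral_const_mul _ hmα, lintegral_const_mul _ hg5m,
    lintegral_const_mul _ hmm7, hα]
  set I2 := ∫⁻ w, ex α (pr c w) * ex θ1 (pr c w) ∂κ with hI2
  set I7 := ∫⁻ w, ex α (pr c w) * ex 1 (pr c w) ∂κ with hI7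
  unfold LS
  rw [← hC0, ← hM1]
  calc dd ^ (r + 1) * ((((r + 1 : ℕ) : ℝ≥0∞) * δ') * nu⁻¹ + (ct * (1 + q1) * ex θ1 s) * I2 +
        ct * (∫⁻ w, g3 w ∂κ) + (ct * M1) * nu⁻¹ + C0 * (∫⁻ w, g5 w ∂κ) + (∫⁻ w, g6 w ∂κ) +
        (ex (-1) (T - s) * ρ ^ r) * I7)
      = (nu * nu⁻¹) * (dd ^ (r + 1) * ((((r + 1 : ℕ) : ℝ≥0∞) * δ') * nu⁻¹ +
        (ct * (1 + q1) * ex θ1 s) * I2 +
        ct * (∫⁻ w, g3 w ∂κ) + (ct * M1) * nu⁻¹ + C0 * (∫⁻ w, g5 w ∂κ) + (∫⁻ w, g6 w ∂κ) +
        (ex (-1) (T - s) * ρ ^ r) * I7)) := by rw [hnn, one_mul]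
    _ = nu⁻¹ * (dd ^ (r + 1) * ((nu * nu⁻¹) * (((r + 1 : ℕ) : ℝ≥0∞) * δ') +
        (ct * ex θ1 s) * (nu * I2 * (1 + q1)) +
        ct * (nu * ∫⁻ w, g3 w ∂κ) + (nu * nu⁻¹) * (ct * M1) + C0 * (nu * ∫⁻ w, g5 w ∂κ) +
        (nu * ∫⁻ w, g6 w ∂κ) + (ex (-1) (T - s) * ρ ^ r) * (nu * I7))) := by ring
    _ ≤ nu⁻¹ * (dd ^ (r + 1) * (1 * (((r + 1 : ℕ) : ℝ≥0∞) * δ') +
        (ct * ex θ1 s) * q1 + ct * F1 (T - s) + 1 * (ct * M1) + C0 * F2 (T - s) +
        C0 * ex (α / 2) (T - s) + (ex (-1) (T - s) * ρ ^ r) * ρ)) := by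
        rw [hnn]
        refine mul_le_mul' (le_refl _) (mul_le_mul' (le_refl _) ?_)
        refine add_le_add (add_le_add (add_le_add (add_le_add (add_le_add (add_le_add
          (le_refl _) ?_) ?_) (le_refl _)) ?_) i6) ?_
        · exact mul_le_mul' (le_refl _) hq1
        · exact mul_le_mul' (le_refl _) i3
        · exact mul_le_mul' (le_refl _) i5
        · exact mul_le_mul' (le_refl _) hρ
    _ = nu⁻¹ * (dd ^ (r + 1) * (((r + 1 : ℕ) : ℝ≥0∞) * δ' +
        ct * (q1 * ex θ1 s + F1 (T - s) + M1) + C0 * (ex (α / 2) (T - s) + F2 (T - s)) +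
        ex (-1) (T - s) * ρ ^ (r + 1))) := by ring

end Pool.Agent.H949.CX
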