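import Pool.Agent.H949.CX.Quant4

/-!
# The main estimate, with the constants chosen
-/

set_option linter.unusedSectionVars false
set_option linter.unusedSimpArgs false
set_option linter.unusedVariables false

open MeasureTheory Finset Filter Topology
open scoped ENNReal

namespace Pool.Agent.H949.CX

open Pool.Agent.H949.CM

theorem MEst.mono {V H : Type} [Fintype V] [DecidableEq V] [Fintype H] [DecidableEq H]
    {κ : Measure (ℝ × ℝ)} {vert : H → V} {c : Bool} {ε ε' δ δ' : ℝ} {K0 K0' Q0 : ℕ} {S0 : ℝ}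
    (h : MEst κ vert c ε δ K0 Q0 S0) (hε : ε ≤ ε') (hδ : δ' ≤ δ) (hK : K0 ≤ K0') :
    MEst κ vert c ε' δ' K0' Q0 S0 := by
  intro l Uc Ue Rt Rr h1 h2 h3 h4 h5 h6 h7 h8 h9 h10
  obtain ⟨G, ok, T, R, a1, a2, a3⟩ := h l Uc Ue Rt Rr h1 h2 h3 h4 (le_trans hK h5) h6 h7 h8 h9 h10
  refine ⟨G, ok, T, R, a1, fun τ hτ => le_trans (a2 τ hτ) (ENNReal.ofReal_le_ofReal hε), ?_⟩
  intro σ ω hω hG
  obtain ⟨b1, b2⟩ := a3 σ ω hω hG
  refine ⟨b1, le_trans (ENNReal.ofReal_le_ofReal ?_) b2⟩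
  exact mul_le_mul_of_nonneg_right hδ (Nat.cast_nonneg _)

theorem main_est_one {κ : Measure (ℝ × ℝ)} [IsProbabilityMeasure κ] (c : Bool)
    {α ν K1 η cd c0 C0 ε : ℝ} (hpos : ∀ c, ∀ᵐ w ∂κ, 0 < pr c w) (hα0 : 0 < α) (hν1 : 1 < ν)
    (hη0 : 0 < η) (hK1 : 0 ≤ K1) (hcd : 0 < cd) (hcd1 : cd ≤ 1 / 2) (hε : 0 < ε)
    (hα : ∀ c, ∫⁻ w, ex α (pr c w) ∂κ = (ENNReal.ofReal ν)⁻¹) :
    ∃ K0 : ℕ, 1 ≤ K0 ∧ ∀ (Q0 : ℕ) (S0 : ℝ), 0 ≤ S0 → ∃ δ : ℝ, 0 < δ ∧ ∃ m0 : ℕ,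
      ∀ (V H : Type) [Fintype V] [DecidableEq V] [Fintype H] [DecidableEq H] (vert : H → V),
        m0 ≤ Fintype.card H → DegOK vert ν K1 η cd c0 C0 → MEst κ vert c ε δ K0 Q0 S0 := by
  set ε1 : ℝ := min 1 (ε / 81) with hε1
  have hε10 : 0 < ε1 := lt_min one_pos (by positivity)
  obtain ⟨F1, F2, FA1, FA2, q, q1, Fh, FAh, θ', ρ', A0, K3, A1, C⟩ := exists_cst (κ := κ) c
    (ε1 := ε1) hpos hα0 hν1 hη0 hK1 hε10 (min_le_left _ _) hα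
  have hnu0 : ENNReal.ofReal ν ≠ 0 := by simp; linarith
  have hεE : 0 < ENNReal.ofReal ε1 := by simpa using hε10
  obtain ⟨δ0, hδ0, hδ01, hδ0'⟩ := exists_small
    (C := 2 * ENNReal.ofReal ν * ((ENNReal.ofReal K3 * 2 * (ENNReal.ofReal ν)⁻¹ + 1) * q))
    (ENNReal.mul_ne_top (ENNReal.mul_ne_top (by norm_num) ENNReal.ofReal_ne_top)
      (ENNReal.mul_ne_top (ENNReal.add_ne_top.2 ⟨ENNReal.mul_ne_top (ENNReal.mul_ne_top
        ENNReal.ofReal_ne_top (by norm_num)) (ENNReal.inv_ne_top.2 hnu0), ENNReal.one_ne_top⟩)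
        C.qt)) hεE
  set K0 : ℕ := ⌈1 / δ0⌉₊ + 1 with hK0
  refine ⟨K0, by omega, ?_⟩
  intro Q0 S0 hS0
  have hC6t : C6 α A0 K3 FA2 FAh q Q0 S0 ≠ ⊤ := by
    unfold C6
    have h1 : (2 : ℝ≥0∞) * (2 * (1 + FAh) + 1) ≠ ⊤ := ENNReal.mul_ne_top (by norm_num)
      (ENNReal.add_ne_top.2 ⟨ENNReal.mul_ne_top (by norm_num) (ENNReal.add_ne_top.2
        ⟨ENNReal.one_ne_top, C.FAht⟩), ENNReal.one_ne_top⟩)
    have h2 : FA2 + ex (α / 2) (-A0) ≠ ⊤ := ENNReal.add_ne_top.2 ⟨C.FA2t, ex_ne_top _ _⟩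
    refine ENNReal.add_ne_top.2 ⟨ENNReal.add_ne_top.2 ⟨?_, ?_⟩, ?_⟩
    · exact ENNReal.mul_ne_top (by norm_num) (ENNReal.mul_ne_top (ENNReal.mul_ne_top
        (ENNReal.mul_ne_top (ENNReal.pow_ne_top ENNReal.ofReal_ne_top) h1)
        (ENNReal.add_ne_top.2 ⟨h2, ENNReal.one_ne_top⟩)) C.qt)
    · exact ENNReal.mul_ne_top (by norm_num) (ENNReal.mul_ne_top (ENNReal.mul_ne_top
        (ENNReal.mul_ne_top (ENNReal.natCast_ne_top _) h1) ENNReal.ofReal_ne_top) h2)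
    · exact ENNReal.mul_ne_top (by norm_num) (ENNReal.mul_ne_top (ENNReal.mul_ne_top
        (ENNReal.mul_ne_top (ENNReal.mul_ne_top (ENNReal.natCast_ne_top _) h1)
          ENNReal.ofReal_ne_top) (ex_ne_top _ _)) h2)
  obtain ⟨ε2, hε2, hε21, hε2'⟩ := exists_small hC6t hεE
  refine ⟨ε2 / (2 * ν), by positivity, ?_⟩
  obtain ⟨m0, hm0⟩ := Filter.eventually_atTop.1
    (eventually_big C hcd hcd1 Q0 S0 hε2 hε21)
  refine ⟨m0, ?_⟩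
  intro V H _ _ _ _ vert hm hD
  refine (main_quant C (hm0 _ hm) hD hcd hε2 hε21 hS0 (K0 := K0) (by omega) ?_ hε2').mono
    ?_ (le_refl _) (le_refl _)
  · refine le_trans (mul_le_mul' (le_refl _) ?_) hδ0'
    rw [← ENNReal.ofReal_natCast, ← ENNReal.ofReal_inv_of_pos (by positivity)]
    apply ENNReal.ofReal_le_ofReal
    have h1 : 1 / δ0 ≤ (K0 : ℝ) := by
      rw [hK0]
      push_cast
      have := Nat.le_ceil (1 / δ0)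
      linarith
    rw [inv_le_comm₀ (by positivity) hδ0, ← one_div]
    exact h1
  · have := min_le_right 1 (ε / 81)
    rw [← hε1] at this
    linarith

/-- **Main estimate.** -/
theorem main_est {κ : Measure (ℝ × ℝ)} [IsProbabilityMeasure κ]
    {α ν K1 η cd c0 C0 ε : ℝ} (hpos : ∀ c, ∀ᵐ w ∂κ, 0 < pr c w) (hα0 : 0 < α) (hν1 : 1 < ν)
    (hη0 : 0 < η) (hK1 : 0 ≤ K1) (hcd : 0 < cd) (hcd1 : cd ≤ 1 / 2) (hε : 0 < ε)
    (hα : ∀ c, ∫⁻ w, ex α (pr c w) ∂κ = (ENNReal.ofReal ν)⁻¹) :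
    ∃ K0 : ℕ, 1 ≤ K0 ∧ ∀ (Q0 : ℕ) (S0 : ℝ), 0 ≤ S0 → ∃ δ : ℝ, 0 < δ ∧ ∃ m0 : ℕ,
      ∀ (V H : Type) [Fintype V] [DecidableEq V] [Fintype H] [DecidableEq H] (vert : H → V),
        m0 ≤ Fintype.card H → DegOK vert ν K1 η cd c0 C0 →
          ∀ c, MEst κ vert c ε δ K0 Q0 S0 := by
  obtain ⟨Ka, hKa, ha⟩ := main_est_one (κ := κ) (c0 := c0) (C0 := C0) true hpos hα0 hν1 hη0 hK1
    hcd hcd1 hε hα
  obtain ⟨Kb, hKb, hb⟩ := main_est_one (κ := κ) (c0 := c0) (C0 := C0) false hpos hα0 hν1 hη0 hK1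
    hcd hcd1 hε hα
  refine ⟨max Ka Kb, le_trans hKa (le_max_left _ _), ?_⟩
  intro Q0 S0 hS0
  obtain ⟨δa, hδa, ma, ha'⟩ := ha Q0 S0 hS0
  obtain ⟨δb, hδb, mb, hb'⟩ := hb Q0 S0 hS0
  refine ⟨min δa δb, lt_min hδa hδb, max ma mb, ?_⟩
  intro V H _ _ _ _ vert hm hD c
  cases c
  · exact (hb' V H vert (le_trans (le_max_right _ _) hm) hD).mono (le_refl _)
      (min_le_right _ _) (le_max_right _ _)
  · exact (ha' V H vert (le_trans (le_max_left _ _) hm) hD).mono (le_refl _)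
      (min_le_left _ _) (le_max_left _ _)

end Pool.Agent.H949.CX
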