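import Pool.Agent.H949.CX.Pair

/-!
# Undisturbed paths get the right colour
-/

set_option linter.unusedSectionVars false
set_option linter.unusedSimpArgs false
set_option linter.unusedVariables false

open MeasureTheory Finset
open scoped ENNReal

namespace Pool.Agent.H949.CX

open Pool.Agent.H949.CM

variable {V H : Type} [Fintype V] [DecidableEq V] [Fintype H] [DecidableEq H]

theorem len_eq (ω : Wt H) (c : Bool) (e : Sym2 H) : len ω c e = ENNReal.ofReal (pr c (ω e)) := by
  cases c <;> rfl

/-- The source of a colour. -/
def src (a b : V) (c : Bool) : V := if c then a else b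

/-- A vertex outside the sources is reached through an edge. -/
theorem infect {vert : H → V} {σ : Mt H} {ω : Wt H} {a b : V} {t : V → ℝ≥0∞}
    {col : V → Option Bool} (hO : IsOutcome vert σ (len ω) a b t col) {e : Bool} {v : V}
    (hva : v ≠ a) (hvb : v ≠ b) (hc : col v = some e) :
    ∃ g, col (vert g) = some e ∧ vert (σ g) = v ∧ t (vert g) + ENNReal.ofReal (wt e σ ω g) = t v
      ∧ t v ≠ ⊤ := by
  have ht : t v ≠ ⊤ := by
    intro h
    rw [(hO.never v).2 h] at hc
    simp at hc
  have h1 := hO.colour v hva hvb e hc
  obtain ⟨g, h2, h3, h4⟩ := arr_attained (show arr vert σ (len ω) t col e v < ⊤ by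
    rw [h1]; exact lt_top_iff_ne_top.2 ht)
  refine ⟨g, h2, h3, ?_, ht⟩
  rw [h1, len_eq] at h4
  exact h4

/-- Following an infection backwards. -/
theorem chain_hit {vert : H → V} {σ : Mt H} {ω : Wt H} {a b : V} (hab : a ≠ b) {t : V → ℝ≥0∞}
    {col : V → Option Bool} (hO : IsOutcome vert σ (len ω) a b t col)
    (hpos : ∀ c g, 0 < wt c σ ω g) {e : Bool} {Z W Ue : Finset V} (hZW : Z ⊆ W)
    (hW : ∀ v ∈ W, v ∉ Z → col v = some e → v ∈ Ue) (hZU : ∀ v ∈ Z, v ∉ Ue)
    (hsrc : src a b e ∈ Ue) {z0 : V} (hz0 : z0 ∈ Z) (hcz0 : col z0 = some e) :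
    ∃ f, vert f ∈ Ue ∧ vert (σ f) ∉ Ue ∧ ∃ z ∈ Z, col z = some e ∧ t z ≤ t z0 ∧
      ∀ (r : ℕ) (u : ℝ), t z ≤ ENNReal.ofReal u → HN vert e z r W f u σ ω ≠ 0 := by
  classical
  -- vertices of colour `e` outside `Ue` are not sources
  have hns : ∀ v, col v = some e → v ∉ Ue → v ≠ a ∧ v ≠ b := by
    intro v hc hv
    constructor
    · rintro rfl
      have h1 := hO.col_a hab
      rw [h1] at hc
      have h2 : e = true := by simpa using hc.symm
      subst h2
      exact hv hsrc
    · rintro rfl
      have h1 := hO.col_b hab
      rw [h1] at hc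
      have h2 : e = false := by simpa using hc.symm
      subst h2
      exact hv hsrc
  have key : ∀ (n : ℕ) (h : H) (z : V) (ρ : ℝ),
      (univ.filter (fun v => t v < t (vert (σ h)))).card ≤ n →
      col (vert h) = some e → t (vert h) + ENNReal.ofReal (wt e σ ω h) = t (vert (σ h)) →
      t (vert (σ h)) ≠ ⊤ → vert (σ h) ∉ Ue → z ∈ Z → col z = some e → 0 ≤ ρ →
      t (vert h) + ENNReal.ofReal ρ ≤ t z → t z ≤ t z0 →
      (∀ (r : ℕ) (A : Finset V) (u : ℝ), (∀ v ∈ A, v ∈ W ∨ t v < t (vert (σ h))) → ρ ≤ u →
        HN vert e z r A h u σ ω ≠ 0) →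
      ∃ f, vert f ∈ Ue ∧ vert (σ f) ∉ Ue ∧ ∃ z ∈ Z, col z = some e ∧ t z ≤ t z0 ∧
        ∀ (r : ℕ) (u : ℝ), t z ≤ ENNReal.ofReal u → HN vert e z r W f u σ ω ≠ 0 := by
    intro n
    induction n with
    | zero =>
      intro h z ρ hcard hc ht htt hnU hz hcz hρ hle hlez hK
      exfalso
      have h1 : vert h ∈ univ.filter (fun v => t v < t (vert (σ h))) := by
        rw [mem_filter]
        refine ⟨mem_univ _, ?_⟩
        rw [← ht]
        apply ENNReal.lt_add_right
        · intro h0; rw [h0, top_add] at ht; exact htt ht.symm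
        · simpa using hpos e h
      have := Finset.card_pos.2 ⟨_, h1⟩
      omega
    | succ n ih =>
      intro h z ρ hcard hc ht htt hnU hz hcz hρ hle hlez hK
      by_cases hvU : vert h ∈ Ue
      · refine ⟨h, hvU, hnU, z, hz, hcz, hlez, ?_⟩
        intro r u hu
        apply hK r W u (fun v hv => Or.inl hv)
        have h1 : ENNReal.ofReal ρ ≤ ENNReal.ofReal u :=
          le_trans (le_trans le_add_self hle) hu
        by_cases hu0 : 0 ≤ u
        · exact (ENNReal.ofReal_le_ofReal_iff hu0).1 h1
        · exfalso
          rw [ENNReal.ofReal_of_nonpos (by linarith)] at hu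
          have h2 : t z = 0 := nonpos_iff_eq_zero.1 hu
          have h3 : t z ≠ 0 := by
            -- the colouring time of `z` is positive
            obtain ⟨hza, hzb⟩ := hns z hcz (hZU z hz)
            obtain ⟨g, _, _, h6, _⟩ := infect hO hza hzb hcz
            rw [← h6]
            intro h7
            rw [add_eq_zero] at h7
            have := hpos e g
            have h8 := h7.2
            rw [ENNReal.ofReal_eq_zero] at h8
            linarith
          exact h3 h2
      · obtain ⟨hva, hvb⟩ := hns _ hc hvU
        obtain ⟨g, hg1, hg2, hg3, hg4⟩ := infect hO hva hvb hc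
        have hlt : t (vert h) < t (vert (σ h)) := by
          rw [← ht]
          apply ENNReal.lt_add_right hg4
          simpa using hpos e h
        have hcard' : (univ.filter (fun v => t v < t (vert (σ g)))).card ≤ n := by
          have h1 : (univ.filter (fun v => t v < t (vert (σ g)))).card <
              (univ.filter (fun v => t v < t (vert (σ h)))).card := by
            apply Finset.card_lt_card
            rw [hg2]
            refine ⟨fun v hv => ?_, fun hcon => ?_⟩
            · rw [mem_filter] at hv ⊢
              exact ⟨mem_univ _, lt_trans hv.2 hlt⟩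
            · have h2 : vert h ∈ univ.filter (fun v => t v < t (vert (σ h))) := by
                rw [mem_filter]; exact ⟨mem_univ _, hlt⟩
              have h3 := hcon h2
              rw [mem_filter] at h3
              exact lt_irrefl _ h3.2
          omega
        have hgU : vert (σ g) ∉ Ue := by rw [hg2]; exact hvU
        by_cases hvZ : vert h ∈ Z
        · -- new target
          apply ih g (vert h) (wt e σ ω g) hcard' hg1 (by rw [hg2]; exact hg3)
            (by rw [hg2]; exact hg4) hgU hvZ hc (hpos e g).le (by rw [hg3])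
            (le_trans (le_trans le_self_add hle) hlez)
          intro r A u _ hu
          exact HN_base hg2 hu r
        · have hvW : vert h ∉ W := fun hc' => hvU (hW _ hc' hvZ hc)
          apply ih g z (wt e σ ω g + ρ) hcard' hg1 (by rw [hg2]; exact hg3)
            (by rw [hg2]; exact hg4) hgU hz hcz (by have := hpos e g; linarith)
            (by
              rw [ENNReal.ofReal_add (hpos e g).le hρ, ← add_assoc, hg3]
              exact hle) hlez
          intro r A u hA hu
          apply HN_prepend (h := h) (ρ := ρ) _ _ _ hρ hu _ r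
          · rw [hg2]; exact fun he => hvZ (he ▸ hz)
          · rw [hg2]
            intro hm
            rcases hA _ hm with h1 | h1
            · exact hvW h1
            · rw [hg2] at h1; exact lt_irrefl _ h1
          · rw [mem_nxt]
            refine ⟨hg2.symm, ?_⟩
            rintro rfl
            rw [Mt.invol] at hlt
            have h1 : t (vert g) ≤ t (vert (σ g)) := by
              rw [hg2, ← hg3]; exact le_self_add
            exact absurd hlt (not_lt.2 h1)
          · intro r' u' hu'
            apply hK r' _ u' _ hu'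
            intro v hv
            rcases mem_insert.1 hv with rfl | hv
            · right; rw [hg2]; exact hlt
            · rcases hA v hv with h1 | h1
              · exact Or.inl h1
              · right
                rw [hg2] at h1
                exact lt_trans h1 hlt
  obtain ⟨hza, hzb⟩ := hns z0 hcz0 (hZU z0 hz0)
  obtain ⟨g, hg1, hg2, hg3, hg4⟩ := infect hO hza hzb hcz0
  apply key _ g z0 (wt e σ ω g) (le_refl _) hg1 (by rw [hg2]; exact hg3) (by rw [hg2]; exact hg4)
    (by rw [hg2]; exact hZU z0 hz0) hz0 hcz0 (hpos e g).le (by rw [hg3]) (le_refl _)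
  intro r A u _ hu
  exact HN_base hg2 hu r

/-- The explored clusters. -/
structure Clus (vert : H → V) (l : List (H × H)) (Uc Ue : Finset V) : Prop where
  disj : ∀ v ∈ Uc, v ∉ Ue
  dom_sub : ∀ g ∈ dom l, vert g ∈ Uc ∪ Ue
  same : ∀ σ ∈ Al l, ∀ g ∈ dom l, vert g ∈ Ue → vert (σ g) ∈ Ue

section

variable {vert : H → V} {c : Bool} {ok : V → ℝ → Prop} {T : ℝ}
    {Rt Rr : Finset H} {S0 : ℝ} {R : ℕ} {σ : Mt H} {ω : Wt H}

/-- The own cluster is coloured correctly and early, if the other colour does not hit it. -/
theorem own_cluster {l : List (H × H)} {Uc Ue : Finset V} (hCl : Clus vert l Uc Ue)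
    (hσ : σ ∈ Al l) {a b : V} (hab : a ≠ b) {t : V → ℝ≥0∞}
    {col : V → Option Bool} (hO : IsOutcome vert σ (len ω) a b t col)
    (hpos : ∀ c g, 0 < wt c σ ω g) (hsc : src a b c ∈ Uc) (hse : src a b (!c) ∈ Ue)
    (hRr : ∀ f, vert f ∈ Ue → f ∉ dom l → f ∈ Rr) (dep : V → ℕ) (Wm : ℝ) (hWm : 0 ≤ Wm)
    (hdep : ∀ v ∈ Uc, v ≠ src a b c → ∃ g, vert g ∈ Uc ∧ vert (σ g) = v ∧
      dep (vert g) < dep v ∧ wt c σ ω g ≤ Wm)
    (hS0 : ∀ v ∈ Uc, (dep v : ℝ) * Wm ≤ S0)
    (hE1 : ∀ f ∈ Rr, ∀ z ∈ Uc, HN vert (!c) z R (Uc ∪ Ue) f S0 σ ω = 0) :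
    ∀ v ∈ Uc, col v = some c ∧ t v ≤ ENNReal.ofReal ((dep v : ℝ) * Wm) := by
  have key : ∀ n : ℕ, ∀ v ∈ Uc, dep v ≤ n →
      col v = some c ∧ t v ≤ ENNReal.ofReal ((dep v : ℝ) * Wm) := by
    intro n
    induction n using Nat.strong_induction_on with
    | _ n ih =>
      intro v hv hn
      by_cases hvs : v = src a b c
      · subst hvs
        unfold src
        cases c
        · simp only [Bool.false_eq_true, if_false]
          exact ⟨hO.col_b hab, by rw [hO.time_b]; exact bot_le⟩
        · simp only [if_true]
          exact ⟨hO.col_a hab, by rw [hO.time_a]; exact bot_le⟩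
      · obtain ⟨g, hg1, hg2, hg3, hg4⟩ := hdep v hv hvs
        have hp := ih (dep (vert g)) (by omega) (vert g) hg1 (le_refl _)
        have hvse : v ≠ src a b (!c) := fun h => hCl.disj v hv (h ▸ hse)
        have hvab : v ≠ a ∧ v ≠ b := by
          unfold src at hvs hvse
          cases c
          · simp only [Bool.false_eq_true, if_false, Bool.not_false, if_true] at hvs hvse
            exact ⟨hvse, hvs⟩
          · simp only [Bool.false_eq_true, if_false, Bool.not_true, if_true] at hvs hvse
            exact ⟨hvs, hvse⟩
        have htv : t v ≤ ENNReal.ofReal ((dep v : ℝ) * Wm) := by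
          have h1 : t v ≤ arr vert σ (len ω) t col c v := by
            rw [hO.time v hvab.1 hvab.2]
            cases c
            · exact min_le_right _ _
            · exact min_le_left _ _
          refine le_trans h1 (le_trans (arr_le hp.1 hg2) ?_)
          rw [len_eq]
          calc t (vert g) + ENNReal.ofReal (pr c (ω s(g, σ g)))
              ≤ ENNReal.ofReal ((dep (vert g) : ℝ) * Wm) + ENNReal.ofReal Wm := by
                apply add_le_add hp.2
                exact ENNReal.ofReal_le_ofReal hg4
            _ = ENNReal.ofReal ((dep (vert g) : ℝ) * Wm + Wm) := by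
                rw [ENNReal.ofReal_add (by positivity) hWm]
            _ ≤ ENNReal.ofReal ((dep v : ℝ) * Wm) := by
                apply ENNReal.ofReal_le_ofReal
                have h2 : (dep (vert g) : ℝ) + 1 ≤ dep v := by exact_mod_cast hg3
                nlinarith
        refine ⟨?_, htv⟩
        cases hcv : col v with
        | none =>
          exfalso
          have h2 := (hO.never v).1 hcv
          rw [h2] at htv
          exact absurd (lt_of_le_of_lt htv ENNReal.ofReal_lt_top) (lt_irrefl _)
        | some c' =>
          by_cases hcc : c' = c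
          · rw [hcc]
          · exfalso
            have hc' : c' = !c := by
              cases c <;> cases c' <;> simp_all
            subst hc'
            obtain ⟨f, hf1, hf2, z, hz, hcz, htz, hH⟩ := chain_hit hab hO hpos
              (e := !c) (Z := Uc) (W := Uc ∪ Ue) (Ue := Ue) subset_union_left
              (fun v hv hv' _ => (mem_union.1 hv).resolve_left hv') hCl.disj hse hv hcv
            have hfd : f ∉ dom l := fun hd => hf2 (hCl.same σ hσ f hd hf1)
            apply hH R S0 ?_ (hE1 f (hRr f hf1 hfd) z hz)
            exact le_trans (le_trans htz htv) (ENNReal.ofReal_le_ofReal (hS0 v hv))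
  intro v hv
  exact key (dep v) v hv (le_refl _)

/-- The vertices of an undisturbed path get the colour `c`. -/
theorem und_colour {l : List (H × H)} {Uc Ue : Finset V} (hCl : Clus vert l Uc Ue)
    (hσ : σ ∈ Al l) {a b : V} (hab : a ≠ b) {t : V → ℝ≥0∞}
    {col : V → Option Bool} (hO : IsOutcome vert σ (len ω) a b t col)
    (hpos : ∀ c g, 0 < wt c σ ω g) (hsc : src a b c ∈ Uc) (hse : src a b (!c) ∈ Ue)
    (hRr : ∀ f, vert f ∈ Ue → f ∉ dom l → f ∈ Rr) (hRt : ∀ f ∈ Rt, vert f ∈ Uc)
    (hS0 : 0 ≤ S0)
    (hown : ∀ v ∈ Uc, col v = some c ∧ t v ≤ ENNReal.ofReal S0) {e : H} (he : e ∈ Rt) {k : H}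
    {zs : List H} (hE : Ext vert c ok T (Uc ∪ Ue) σ ω R e [] (k :: zs))
    (hD : DD vert c (Uc ∪ Ue) R Rt Rr S0 k zs σ ω = 0) :
    ∀ (ys : List H) (g : H), (g :: ys) <:+ (k :: zs) →
      col (vert (σ g)) = some c ∧
        t (vert (σ g)) ≤ ENNReal.ofReal (S0 + tm c σ ω (g :: ys)) := by
  have hvp := Ext.vp R (Or.inl ⟨rfl, rfl⟩ : VX vert σ (Uc ∪ Ue) e e []) hE
  have hpos' : ∀ g, 0 ≤ wt c σ ω g := fun g => (hpos c g).le
  have htm0 : ∀ xs, 0 ≤ tm c σ ω xs := by
    intro xs
    induction xs with
    | nil => simp
    | cons a xs ih => rw [tm_cons]; have := hpos' a; linarith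
  have key : ∀ (n : ℕ) (ys : List H) (g : H), ys.length ≤ n → (g :: ys) <:+ (k :: zs) →
      col (vert (σ g)) = some c ∧
        t (vert (σ g)) ≤ ENNReal.ofReal (S0 + tm c σ ω (g :: ys)) := by
    intro n
    induction n using Nat.strong_induction_on with
    | _ n ih =>
      intro ys g hn hs
      have hv := hvp.suffix hs
      -- the previous vertex
      have hprev : col (vert g) = some c ∧ t (vert g) ≤ ENNReal.ofReal (S0 + tm c σ ω ys) := by
        cases ys with
        | nil =>
          have h1 : g = e := hv.1
          rw [h1, tm_nil, add_zero]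
          exact hown _ (hRt e he)
        | cons g' ys' =>
          have h1 := hv.1
          rw [mem_nxt] at h1
          rw [h1.1]
          simp only [List.length_cons] at hn
          exact ih ys'.length (by omega) ys' g' (le_refl _) ((List.suffix_cons _ _).trans hs)
      have hxU := hv.notMem
      have hxab : vert (σ g) ≠ a ∧ vert (σ g) ≠ b := by
        have h1 : src a b c ∈ Uc ∪ Ue := mem_union_left _ hsc
        have h2 : src a b (!c) ∈ Uc ∪ Ue := mem_union_right _ hse
        unfold src at h1 h2
        cases c
        · simp only [Bool.false_eq_true, if_false, Bool.not_false, if_true] at h1 h2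
          exact ⟨fun h => hxU (h ▸ h2), fun h => hxU (h ▸ h1)⟩
        · simp only [Bool.false_eq_true, if_false, Bool.not_true, if_true] at h1 h2
          exact ⟨fun h => hxU (h ▸ h1), fun h => hxU (h ▸ h2)⟩
      have htx : t (vert (σ g)) ≤ ENNReal.ofReal (S0 + tm c σ ω (g :: ys)) := by
        have h1 : t (vert (σ g)) ≤ arr vert σ (len ω) t col c (vert (σ g)) := by
          rw [hO.time _ hxab.1 hxab.2]
          cases c
          · exact min_le_right _ _
          · exact min_le_left _ _
        refine le_trans h1 (le_trans (arr_le hprev.1 rfl) ?_)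
        rw [len_eq, tm_cons]
        calc t (vert g) + ENNReal.ofReal (pr c (ω s(g, σ g)))
            ≤ ENNReal.ofReal (S0 + tm c σ ω ys) + ENNReal.ofReal (wt c σ ω g) :=
              add_le_add hprev.2 (le_refl _)
          _ = ENNReal.ofReal (S0 + (wt c σ ω g + tm c σ ω ys)) := by
              rw [← ENNReal.ofReal_add (by have := htm0 ys; linarith) (hpos' g)]
              congr 1
              ring
      refine ⟨?_, htx⟩
      cases hcv : col (vert (σ g)) with
      | none =>
        exfalso
        have h2 := (hO.never _).1 hcv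
        rw [h2] at htx
        exact absurd (lt_of_le_of_lt htx ENNReal.ofReal_lt_top) (lt_irrefl _)
      | some c' =>
        by_cases hcc : c' = c
        · rw [hcc]
        · exfalso
          have hc' : c' = !c := by
            cases c <;> cases c' <;> simp_all
          subst hc'
          have hzZ : vert (σ g) ∈ Va vert σ (k :: zs) :=
            mem_Va.2 ⟨g, hs.subset List.mem_cons_self, rfl⟩
          obtain ⟨f, hf1, hf2, z, hz, hcz, htz, hH⟩ := chain_hit hab hO hpos
            (e := !c) (Z := Va vert σ (k :: zs)) (W := (Uc ∪ Ue) ∪ Va vert σ (k :: zs))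
            (Ue := Ue) subset_union_right
            (by
              intro v hv hv' hcv'
              rcases mem_union.1 hv with h3 | h3
              · rcases mem_union.1 h3 with h4 | h4
                · exfalso
                  have := (hown v h4).1
                  rw [this] at hcv'
                  cases c <;> simp at hcv'
                · exact h4
              · exact absurd h3 hv')
            (by
              intro v hv hvUe
              obtain ⟨g', hg', hge⟩ := mem_Va.1 hv
              obtain ⟨y', hy'⟩ := exists_suffix_of_mem hg'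
              have := (hvp.suffix hy').notMem
              rw [← hge] at this
              exact this (mem_union_right _ hvUe)) hse hzZ hcv
          have hfd : f ∉ dom l := fun hd => hf2 (hCl.same σ hσ f hd hf1)
          obtain ⟨g2, hg2, hg2e⟩ := mem_Va.1 hz
          obtain ⟨y2, hy2⟩ := exists_suffix_of_mem hg2
          -- `f` is not used by the path
          have hfγ : f ∉ (k :: zs) := by
            intro hm
            obtain ⟨y', hy'⟩ := exists_suffix_of_mem hm
            have hv' := hvp.suffix hy'
            cases y' with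
            | nil =>
              have h5 : f = e := hv'.1
              rw [h5] at hf1
              exact hCl.disj _ (hRt e he) hf1
            | cons a' y'' =>
              have h5 := hv'.1
              rw [mem_nxt] at h5
              have h6 := (hvp.suffix ((List.suffix_cons _ _).trans hy')).notMem
              rw [← h5.1] at h6
              exact h6 (mem_union_right _ hf1)
          have hσfγ : σ f ∉ (k :: zs) := by
            intro hm
            obtain ⟨y', hy'⟩ := exists_suffix_of_mem hm
            have h6 := (hvp.suffix hy').notMem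
            rw [Mt.invol] at h6
            exact h6 (mem_union_right _ hf1)
          -- position of `z`
          have hpos2 : (g :: ys) <:+ (g2 :: y2) := by
            rcases List.suffix_or_suffix_of_suffix hs hy2 with h5 | h5
            · exact h5
            · rcases List.suffix_cons_iff.1 h5 with h6 | h6
              · rw [h6]
              · exfalso
                have h7 := h6.length_le
                simp only [List.length_cons] at h7
                have h8 := (ih y2.length (by omega) y2 g2 (le_refl _) hy2).1
                rw [← hg2e] at h8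
                rw [h8] at hcz
                cases c <;> simp at hcz
          have htm := tm_suffix_le hpos' hpos2
          have hd := SumPre_eq_zero hD g2 y2 hy2
          rw [add_eq_zero, add_eq_zero] at hd
          have hd2 := hd.2
          unfold D2 at hd2
          rw [Finset.sum_eq_zero_iff] at hd2
          have hd3 := hd2 f (mem_FE.2 ⟨hRr f hf1 hfd, hfγ, hσfγ⟩)
          rw [← hg2e] at hd3
          apply hH R _ _ hd3
          refine le_trans htz (le_trans htx (ENNReal.ofReal_le_ofReal ?_))
          linarith
  intro ys g hs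
  exact key ys.length ys g (le_refl _) hs

/-- The end vertices of the undisturbed paths get the colour `c`. -/
theorem end_colour {l : List (H × H)} {Uc Ue : Finset V} (hCl : Clus vert l Uc Ue)
    (hσ : σ ∈ Al l) {a b : V} (hab : a ≠ b) {t : V → ℝ≥0∞}
    {col : V → Option Bool} (hO : IsOutcome vert σ (len ω) a b t col)
    (hpos : ∀ c g, 0 < wt c σ ω g) (hsc : src a b c ∈ Uc) (hse : src a b (!c) ∈ Ue)
    (hRr : ∀ f, vert f ∈ Ue → f ∉ dom l → f ∈ Rr) (hRt : ∀ f ∈ Rt, vert f ∈ Uc)
    (dep : V → ℕ) (Wm : ℝ) (hWm : 0 ≤ Wm)
    (hdep : ∀ v ∈ Uc, v ≠ src a b c → ∃ g, vert g ∈ Uc ∧ vert (σ g) = v ∧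
      dep (vert g) < dep v ∧ wt c σ ω g ≤ Wm)
    (hS0 : ∀ v ∈ Uc, (dep v : ℝ) * Wm ≤ S0) (hS00 : 0 ≤ S0)
    (hE1 : ∀ f ∈ Rr, ∀ z ∈ Uc, HN vert (!c) z R (Uc ∪ Ue) f S0 σ ω = 0)
    {z : V} (hz : IsEnd vert c ok T (Uc ∪ Ue) Rt Rr S0 R σ ω z) : col z = some c := by
  obtain ⟨e, he, k, zs, hE, hD, hk⟩ := hz
  have hown : ∀ v ∈ Uc, col v = some c ∧ t v ≤ ENNReal.ofReal S0 := by
    intro v hv
    have h1 := own_cluster hCl hσ hab hO hpos hsc hse hRr dep Wm hWm hdep hS0 hE1 v hv
    exact ⟨h1.1, le_trans h1.2 (ENNReal.ofReal_le_ofReal (hS0 v hv))⟩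
  rw [← hk]
  exact (und_colour hCl hσ hab hO hpos hsc hse hRr hRt hS00 hown he hE hD zs k
    (List.suffix_refl _)).1

end

end Pool.Agent.H949.CX
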