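import Pool.Agent.H949.CX.WMeas

/-!
# Sums over paths
-/

set_option linter.unusedSectionVars false
set_option linter.unusedSimpArgs false
set_option linter.unusedVariables false

open MeasureTheory Finset
open scoped ENNReal

namespace Pool.Agent.H949.CX

open Pool.Agent.H949.CM

variable {V H : Type} [Fintype V] [DecidableEq V] [Fintype H] [DecidableEq H]

/-- The length of colour `c` (`true` is red, the first length). -/
def pr (c : Bool) (q : ℝ × ℝ) : ℝ := if c then q.1 else q.2

theorem measurable_pr (c : Bool) : Measurable (pr c) := by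
  cases c
  · exact measurable_snd
  · exact measurable_fst

/-- The length of the edge of `h` for the colour `c`. -/
def wt (c : Bool) (σ : Mt H) (ω : Wt H) (h : H) : ℝ := pr c (ω s(h, σ h))

theorem measurable_wt (c : Bool) (σ : Mt H) (h : H) : Measurable (fun ω => wt c σ ω h) :=
  (measurable_pr c).comp (measurable_pi_apply _)

/-- The total length of a path. A path is a list of half-edges by which it leaves its vertices,
the last one first. -/
def tm (c : Bool) (σ : Mt H) (ω : Wt H) (xs : List H) : ℝ := (xs.map (wt c σ ω)).sum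

@[simp] theorem tm_nil (c : Bool) (σ : Mt H) (ω : Wt H) : tm c σ ω [] = 0 := rfl

@[simp] theorem tm_cons (c : Bool) (σ : Mt H) (ω : Wt H) (h : H) (xs : List H) :
    tm c σ ω (h :: xs) = wt c σ ω h + tm c σ ω xs := by
  simp [tm]

theorem measurable_tm (c : Bool) (σ : Mt H) (xs : List H) :
    Measurable (fun ω => tm c σ ω xs) := by
  induction xs with
  | nil => simp only [tm_nil]; exact measurable_const
  | cons h xs ih => simp only [tm_cons]; exact (measurable_wt c σ h).add ih

/-- The conditions on the next vertex of a path. -/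
def cnd (vert : H → V) (c : Bool) (ok : V → ℝ → Prop) (U : Finset V) (h : H) (xs : List H)
    (σ : Mt H) (ω : Wt H) : Prop :=
  vert (σ h) ∉ U ∧ (∀ g ∈ xs, vert (σ h) ≠ vert (σ g)) ∧ ok (vert (σ h)) (tm c σ ω (h :: xs))

/-- The half-edges by which a path can leave the vertex of `y`. -/
def nxt (vert : H → V) (y : H) : Finset H := univ.filter (fun g => vert g = vert y ∧ g ≠ y)

theorem mem_nxt {vert : H → V} {y g : H} : g ∈ nxt vert y ↔ vert g = vert y ∧ g ≠ y := by
  simp [nxt]

theorem card_nxt (vert : H → V) (y : H) : (nxt vert y).card = deg vert (vert y) - 1 := by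
  have h1 : nxt vert y = (univ.filter (fun g => vert g = vert y)).erase y := by
    ext g
    rw [mem_nxt, mem_erase, mem_filter]
    simp [and_comm]
  rw [h1, card_erase_of_mem (by simp)]
  rfl

open Classical in
/-- The sum of `Θ` over the paths that extend `xs` by `h` and further steps, that avoid `U` and
themselves, that satisfy `ok`, and that stop when their length exceeds `T`. -/
noncomputable def PS (vert : H → V) (c : Bool) (ok : V → ℝ → Prop) (T : ℝ) (U : Finset V)
    (Θ : H → List H → Mt H → Wt H → ℝ≥0∞) : ℕ → H → List H → Mt H → Wt H → ℝ≥0∞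
  | 0, _, _, _, _ => 0
  | (r + 1), h, xs, σ, ω => if cnd vert c ok U h xs σ ω then
      Θ h xs σ ω + (if tm c σ ω (h :: xs) ≤ T then
        ∑ g ∈ nxt vert (σ h), PS vert c ok T U Θ r g (h :: xs) σ ω else 0) else 0

theorem measurableSet_cnd {vert : H → V} {c : Bool} {ok : V → ℝ → Prop}
    (hok : ∀ v, MeasurableSet {s | ok v s}) (U : Finset V) (h : H) (xs : List H) (σ : Mt H) :
    MeasurableSet {ω : Wt H | cnd vert c ok U h xs σ ω} := by
  have : {ω : Wt H | cnd vert c ok U h xs σ ω} =
      {ω | vert (σ h) ∉ U} ∩ ({ω | ∀ g ∈ xs, vert (σ h) ≠ vert (σ g)} ∩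
        (fun ω => tm c σ ω (h :: xs)) ⁻¹' {s | ok (vert (σ h)) s}) := by
    ext ω; rfl
  rw [this]
  exact (MeasurableSet.const _).inter ((MeasurableSet.const _).inter
    (measurable_tm c σ _ (hok _)))

theorem measurable_PS {vert : H → V} {c : Bool} {ok : V → ℝ → Prop} {T : ℝ}
    (hok : ∀ v, MeasurableSet {s | ok v s}) {U : Finset V}
    {Θ : H → List H → Mt H → Wt H → ℝ≥0∞} (hΘ : ∀ h ys σ, Measurable (Θ h ys σ)) (σ : Mt H) :
    ∀ (r : ℕ) (h : H) (xs : List H), Measurable (PS vert c ok T U Θ r h xs σ) := by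
  classical
  intro r
  induction r with
  | zero => intro h xs; exact measurable_const
  | succ r ih =>
    intro h xs
    show Measurable (fun ω => PS vert c ok T U Θ (r + 1) h xs σ ω)
    simp only [PS]
    refine Measurable.ite (measurableSet_cnd hok U h xs σ) ?_ measurable_const
    refine (hΘ _ _ σ).add ?_
    refine Measurable.ite (measurableSet_le (measurable_tm c σ _) measurable_const) ?_
      measurable_const
    exact Finset.measurable_fun_sum _ (fun g _ => ih g _)

section Lin

variable {vert : H → V} {c : Bool} {ok : V → ℝ → Prop} {T : ℝ} {U : Finset V}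

theorem PS_add (Θ Θ' : H → List H → Mt H → Wt H → ℝ≥0∞) (σ : Mt H) (ω : Wt H) :
    ∀ (r : ℕ) (h : H) (xs : List H),
      PS vert c ok T U (fun g ys σ ω => Θ g ys σ ω + Θ' g ys σ ω) r h xs σ ω =
        PS vert c ok T U Θ r h xs σ ω + PS vert c ok T U Θ' r h xs σ ω := by
  classical
  intro r
  induction r with
  | zero => intro h xs; simp [PS]
  | succ r ih =>
    intro h xs
    simp only [PS]
    by_cases h1 : cnd vert c ok U h xs σ ω
    · by_cases h2 : tm c σ ω (h :: xs) ≤ T
      · simp only [if_pos h1, if_pos h2, ih, Finset.sum_add_distrib]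
        ring
      · simp only [if_pos h1, if_neg h2]
        ring
    · simp only [if_neg h1, add_zero]

theorem PS_zero (σ : Mt H) (ω : Wt H) :
    ∀ (r : ℕ) (h : H) (xs : List H), PS vert c ok T U (fun _ _ _ _ => 0) r h xs σ ω = 0 := by
  classical
  intro r
  induction r with
  | zero => intro h xs; simp [PS]
  | succ r ih =>
    intro h xs
    simp only [PS, ih]
    simp

theorem PS_sum {ι : Type*} (s : Finset ι) (Θ : ι → H → List H → Mt H → Wt H → ℝ≥0∞) (σ : Mt H)
    (ω : Wt H) (r : ℕ) (h : H) (xs : List H) :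
    PS vert c ok T U (fun g ys σ ω => ∑ i ∈ s, Θ i g ys σ ω) r h xs σ ω =
      ∑ i ∈ s, PS vert c ok T U (Θ i) r h xs σ ω := by
  classical
  induction s using Finset.induction_on with
  | empty => simp only [Finset.sum_empty]; exact PS_zero σ ω r h xs
  | insert a s ha ih =>
    simp only [Finset.sum_insert ha]
    rw [← ih, ← PS_add]

theorem PS_mul (Θ : H → List H → Mt H → Wt H → ℝ≥0∞) (a : Mt H → Wt H → ℝ≥0∞) (σ : Mt H)
    (ω : Wt H) : ∀ (r : ℕ) (h : H) (xs : List H),
      PS vert c ok T U (fun g ys σ ω => a σ ω * Θ g ys σ ω) r h xs σ ω =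
        a σ ω * PS vert c ok T U Θ r h xs σ ω := by
  classical
  intro r
  induction r with
  | zero => intro h xs; simp [PS]
  | succ r ih =>
    intro h xs
    simp only [PS]
    by_cases h1 : cnd vert c ok U h xs σ ω
    · by_cases h2 : tm c σ ω (h :: xs) ≤ T
      · simp only [if_pos h1, if_pos h2, ih, ← Finset.mul_sum]
        ring
      · simp only [if_pos h1, if_neg h2]
        ring
    · simp only [if_neg h1, mul_zero]

end Lin

/-- `γ` is a path that extends `xs` by `h` and at most `r - 1` further steps. -/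
def Ext (vert : H → V) (c : Bool) (ok : V → ℝ → Prop) (T : ℝ) (U : Finset V)
    (σ : Mt H) (ω : Wt H) : ℕ → H → List H → List H → Prop
  | 0, _, _, _ => False
  | (r + 1), h, xs, γ => cnd vert c ok U h xs σ ω ∧ (γ = h :: xs ∨
      (tm c σ ω (h :: xs) ≤ T ∧ ∃ g ∈ nxt vert (σ h), Ext vert c ok T U σ ω r g (h :: xs) γ))

theorem Ext.suffix {vert : H → V} {c : Bool} {ok : V → ℝ → Prop} {T : ℝ} {σ : Mt H} {ω : Wt H} :
    ∀ (n : ℕ) {U : Finset V} {g : H} {zs γ : List H},
      Ext vert c ok T U σ ω n g zs γ → (g :: zs) <:+ γ := by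
  intro n
  induction n with
  | zero => intro U g zs γ hh; exact hh.elim
  | succ n ih' =>
    intro U g zs γ hh
    rcases hh.2 with rfl | ⟨_, g', _, h6⟩
    · exact List.suffix_refl _
    · exact (List.suffix_cons _ _).trans (ih' h6)

theorem Ext.length {vert : H → V} {c : Bool} {ok : V → ℝ → Prop} {T : ℝ} {σ : Mt H} {ω : Wt H}
    {n : ℕ} {U : Finset V} {g : H} {zs γ : List H} (h : Ext vert c ok T U σ ω n g zs γ) :
    zs.length < γ.length := by
  have := (Ext.suffix n h).length_le
  simp at this
  omega

theorem PS_eq_zero {vert : H → V} {c : Bool} {ok : V → ℝ → Prop} {T : ℝ} {U : Finset V}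
    {Θ : H → List H → Mt H → Wt H → ℝ≥0∞} {σ : Mt H} {ω : Wt H} :
    ∀ (n : ℕ) (g : H) (zs : List H),
      (∀ k ys, Ext vert c ok T U σ ω n g zs (k :: ys) → Θ k ys σ ω = 0) →
      PS vert c ok T U Θ n g zs σ ω = 0 := by
  classical
  intro n
  induction n with
  | zero => intro g zs _; simp [PS]
  | succ n ih' =>
    intro g zs hh
    simp only [PS]
    by_cases h1 : cnd vert c ok U g zs σ ω
    · rw [if_pos h1, hh _ _ ⟨h1, Or.inl rfl⟩, zero_add]
      by_cases h2 : tm c σ ω (g :: zs) ≤ T
      · rw [if_pos h2]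
        apply Finset.sum_eq_zero
        intro g' hg'
        apply ih'
        intro k ys hγ
        exact hh k ys ⟨h1, Or.inr ⟨h2, g', hg', hγ⟩⟩
      · rw [if_neg h2]
    · rw [if_neg h1]

/-- Comparison of sums over paths. -/
theorem PS_mono {vert : H → V} {c : Bool} {ok : V → ℝ → Prop} {T : ℝ} {U U' : Finset V}
    {Θ Θ' : H → List H → Mt H → Wt H → ℝ≥0∞} {σ : Mt H} {ω : Wt H} :
    ∀ (r : ℕ) {r' : ℕ} (_ : r ≤ r') (h : H) (xs : List H),
      (∀ k ys, Ext vert c ok T U σ ω r h xs (k :: ys) → Θ k ys σ ω ≠ 0 →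
        (Θ k ys σ ω ≤ Θ' k ys σ ω ∧ Ext vert c ok T U' σ ω r h xs (k :: ys))) →
      PS vert c ok T U Θ r h xs σ ω ≤ PS vert c ok T U' Θ' r' h xs σ ω := by
  classical
  intro r
  induction r with
  | zero => intro r' _ h xs _; simp [PS]
  | succ r ih =>
    intro r' hr h xs hyp
    obtain ⟨r'', rfl⟩ : ∃ r'', r' = r'' + 1 := ⟨r' - 1, by omega⟩
    by_cases h0 : ∃ k ys, Ext vert c ok T U σ ω (r + 1) h xs (k :: ys) ∧ Θ k ys σ ω ≠ 0
    · obtain ⟨k0, y0, hγ0, hγ0'⟩ := h0
      have h1 : cnd vert c ok U h xs σ ω := hγ0.1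
      have h1' : cnd vert c ok U' h xs σ ω := (hyp k0 y0 hγ0 hγ0').2.1
      simp only [PS, if_pos h1, if_pos h1']
      apply add_le_add
      · by_cases h2 : Θ h xs σ ω = 0
        · rw [h2]; exact bot_le
        · exact (hyp _ _ ⟨h1, Or.inl rfl⟩ h2).1
      · by_cases h2 : tm c σ ω (h :: xs) ≤ T
        · simp only [if_pos h2]
          apply Finset.sum_le_sum
          intro g hg
          apply ih (by omega)
          intro k ys hγ hγ'
          have h3 := hyp k ys ⟨h1, Or.inr ⟨h2, g, hg, hγ⟩⟩ hγ'
          refine ⟨h3.1, ?_⟩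
          obtain ⟨_, h4⟩ := h3.2
          rcases h4 with h4 | ⟨_, g', hg', h5⟩
          · exfalso
            have := hγ.length
            rw [h4] at this
            exact lt_irrefl _ this
          · have k1 := Ext.suffix _ hγ
            have k2 := Ext.suffix _ h5
            have k3 : g :: h :: xs = g' :: h :: xs := by
              rcases List.suffix_or_suffix_of_suffix k1 k2 with k | k
              · exact k.eq_of_length (by simp)
              · exact (k.eq_of_length (by simp)).symm
            have k4 : g = g' := by simpa using k3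
            rw [k4]
            exact h5
        · simp only [if_neg h2]
          exact le_refl _
    · push Not at h0
      rw [PS_eq_zero _ _ _ h0]
      exact bot_le

theorem PS_mono' {vert : H → V} {c : Bool} {ok : V → ℝ → Prop} {T : ℝ} {U : Finset V}
    {Θ Θ' : H → List H → Mt H → Wt H → ℝ≥0∞} {σ : Mt H} {ω : Wt H} {r r' : ℕ} (hr : r ≤ r')
    (h : H) (xs : List H) (hyp : ∀ k ys, Θ k ys σ ω ≤ Θ' k ys σ ω) :
    PS vert c ok T U Θ r h xs σ ω ≤ PS vert c ok T U Θ' r' h xs σ ω :=
  PS_mono r hr h xs (fun k ys hγ _ => ⟨hyp k ys, hγ⟩)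

/-- Sum over the nonempty initial parts of a path. -/
def SumPre (f : H → List H → ℝ≥0∞) : List H → ℝ≥0∞
  | [] => 0
  | (h :: xs) => f h xs + SumPre f xs

/-- Resummation: a sum over pairs (path, initial part) is a sum over the initial parts of sums over
the continuations. -/
theorem PS_resum {vert : H → V} {c : Bool} {ok : V → ℝ → Prop} {T : ℝ} {U : Finset V}
    (f : H → List H → H → List H → Mt H → Wt H → ℝ≥0∞) (σ : Mt H) (ω : Wt H) (R : ℕ) :
    ∀ (r : ℕ) (_ : r ≤ R) (h : H) (xs : List H),
      PS vert c ok T U (fun k zs σ ω => SumPre (fun g ys => f k zs g ys σ ω) (k :: zs)) r h xs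
        σ ω ≤
      PS vert c ok T U (fun g ys σ ω => f g ys g ys σ ω +
        open Classical in (if tm c σ ω (g :: ys) ≤ T then
          ∑ g' ∈ nxt vert (σ g), PS vert c ok T U (fun k zs σ ω => f k zs g ys σ ω) R g' (g :: ys)
            σ ω else 0)) r h xs σ ω +
      PS vert c ok T U (fun k zs σ ω => SumPre (fun g ys => f k zs g ys σ ω) xs) r h xs σ ω := by
  classical
  intro r
  induction r with
  | zero => intro _ h xs; simp [PS]
  | succ r ih =>
    intro hr h xs
    simp only [PS]
    by_cases h1 : cnd vert c ok U h xs σ ω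
    · simp only [if_pos h1]
      by_cases h2 : tm c σ ω (h :: xs) ≤ T
      · simp only [if_pos h2]
        have h3 : ∀ g ∈ nxt vert (σ h),
            PS vert c ok T U (fun k zs σ ω => SumPre (fun g ys => f k zs g ys σ ω) (k :: zs)) r g
              (h :: xs) σ ω ≤
            PS vert c ok T U (fun g ys σ ω => f g ys g ys σ ω +
              (if tm c σ ω (g :: ys) ≤ T then
                ∑ g' ∈ nxt vert (σ g), PS vert c ok T U (fun k zs σ ω => f k zs g ys σ ω) R g'
                  (g :: ys) σ ω else 0)) r g (h :: xs) σ ω +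
            (PS vert c ok T U (fun k zs σ ω => f k zs h xs σ ω) R g (h :: xs) σ ω +
             PS vert c ok T U (fun k zs σ ω => SumPre (fun g ys => f k zs g ys σ ω) xs) r g
              (h :: xs) σ ω) := by
          intro g hg
          refine le_trans (ih (by omega) g (h :: xs)) ?_
          gcongr
          have h4 : PS vert c ok T U (fun k zs σ ω =>
              SumPre (fun g ys => f k zs g ys σ ω) (h :: xs)) r g (h :: xs) σ ω =
              PS vert c ok T U (fun k zs σ ω => f k zs h xs σ ω +
                SumPre (fun g ys => f k zs g ys σ ω) xs) r g (h :: xs) σ ω := rfl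
          rw [h4, PS_add]
          gcongr
          exact PS_mono' (by omega) g (h :: xs) (fun _ _ => le_refl _)
        refine le_trans (add_le_add (le_refl _) (Finset.sum_le_sum h3)) ?_
        rw [Finset.sum_add_distrib, Finset.sum_add_distrib]
        apply le_of_eq
        simp only [SumPre]
        ring
      · simp only [if_neg h2, add_zero]
        exact le_refl _
    · simp only [if_neg h1, add_zero]
      exact le_refl _

end Pool.Agent.H949.CX
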