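import Pool.Agent.H949.CX.PS

/-!
# Expectations of sums over paths
-/

set_option linter.unusedSectionVars false
set_option linter.unusedSimpArgs false
set_option linter.unusedVariables false

open MeasureTheory Finset
open scoped ENNReal

namespace Pool.Agent.H949.CX

open Pool.Agent.H949.CM

variable {V H : Type} [Fintype V] [DecidableEq V] [Fintype H] [DecidableEq H]

/-- The revealed pairs `l` with lengths `τ` contain the path `xs` of length `s` and the vertices of
`l` and of the path belong to `W`. -/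
structure Adm (vert : H → V) (c : Bool) (U : Finset V) (D0 : Finset H) (l : List (H × H))
    (τ : Wt H) (W : Finset V) (xs : List H) (s : ℝ) : Prop where
  dW : ∀ g ∈ dom l, vert g ∈ W
  sub : U ⊆ W
  back : ∀ σ ∈ Al l, ∀ v ∈ W, v ∈ U ∨ ∃ g ∈ xs, v = vert (σ g)
  fwd : ∀ σ ∈ Al l, ∀ g ∈ xs, vert (σ g) ∈ W
  rv : ∀ g ∈ xs, ∃ y, (g, y) ∈ l
  time : ∀ σ ∈ Al l, tm c σ τ xs = s
  fresh : ∀ f ∈ dom l, f ∉ D0 → ∀ σ ∈ Al l, f ∈ xs ∨ σ f ∈ xs

theorem tm_congr {c : Bool} {σ : Mt H} {ω ω' : Wt H} {xs : List H}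
    (h : ∀ g ∈ xs, ω s(g, σ g) = ω' s(g, σ g)) : tm c σ ω xs = tm c σ ω' xs := by
  unfold tm
  congr 1
  apply List.map_congr_left
  intro g hg
  unfold wt
  rw [h g hg]

theorem tm_glue {c : Bool} {l : List (H × H)} {τ ω : Wt H} {xs : List H} {σ : Mt H}
    (hσ : σ ∈ Al l) (hx : ∀ g ∈ xs, ∃ y, (g, y) ∈ l) :
    tm c σ (glue l τ ω) xs = tm c σ τ xs := by
  apply tm_congr
  intro g hg
  obtain ⟨y, hy⟩ := hx g hg
  have h1 : σ g = y := mem_Al.1 hσ _ hy
  apply glue_of_mem
  rw [mem_Ed]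
  exact ⟨(g, y), hy, by rw [h1]⟩

theorem tm_update {c : Bool} {l : List (H × H)} {τ : Wt H} {xs : List H} {σ : Mt H} {h y : H}
    {w : ℝ × ℝ} (hσ : σ ∈ Al l) (hx : ∀ g ∈ xs, ∃ y, (g, y) ∈ l) (hh : h ∉ dom l) :
    tm c σ (Function.update τ s(h, y) w) xs = tm c σ τ xs := by
  apply tm_congr
  intro g hg
  obtain ⟨z, hz⟩ := hx g hg
  have h1 : σ g = z := mem_Al.1 hσ _ hz
  have h2 : s(g, σ g) ∈ Ed l := mem_Ed.2 ⟨(g, z), hz, by rw [h1]⟩
  rw [Function.update_of_ne]
  intro he
  rw [he] at h2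
  exact notMem_Ed hh h2

theorem Adm.time_step {vert : H → V} {c : Bool} {U : Finset V} {D0 : Finset H}
    {l : List (H × H)} {τ : Wt H}
    {W : Finset V} {xs : List H} {s : ℝ} (hA : Adm vert c U D0 l τ W xs s) {h y : H} {w : ℝ × ℝ}
    (hh : h ∉ dom l) {σ : Mt H} (hσ : σ ∈ Al ((h, y) :: l)) :
    tm c σ (Function.update τ s(h, y) w) (h :: xs) = s + pr c w := by
  obtain ⟨h1, h2⟩ := mem_Al_cons.1 hσ
  rw [tm_cons, tm_update h2 hA.rv hh, hA.time σ h2, add_comm]
  congr 1
  unfold wt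
  rw [h1, Function.update_self]

theorem Adm.time_glue {vert : H → V} {c : Bool} {U : Finset V} {D0 : Finset H}
    {l : List (H × H)} {τ : Wt H}
    {W : Finset V} {xs : List H} {s : ℝ} (hA : Adm vert c U D0 l τ W xs s) {h y : H} {w : ℝ × ℝ}
    (hh : h ∉ dom l) {σ : Mt H} (hσ : σ ∈ Al ((h, y) :: l)) (ω : Wt H) :
    tm c σ (glue ((h, y) :: l) (Function.update τ s(h, y) w) ω) (h :: xs) = s + pr c w := by
  rw [tm_glue hσ, hA.time_step hh hσ]
  intro g hg
  rcases List.mem_cons.1 hg with rfl | hg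
  · exact ⟨y, List.mem_cons_self⟩
  · obtain ⟨z, hz⟩ := hA.rv g hg
    exact ⟨z, List.mem_cons_of_mem _ hz⟩

theorem Adm.step {vert : H → V} {c : Bool} {U : Finset V} {D0 : Finset H}
    {l : List (H × H)} {τ : Wt H}
    {W : Finset V} {xs : List H} {s : ℝ} (hA : Adm vert c U D0 l τ W xs s) {h y : H} (w : ℝ × ℝ)
    (hh : h ∉ dom l) (hhW : vert h ∈ W) :
    Adm vert c U D0 ((h, y) :: l) (Function.update τ s(h, y) w) (insert (vert y) W) (h :: xs)
      (s + pr c w) := by
  refine ⟨?_, ?_, ?_, ?_, ?_, ?_, ?_⟩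
  · intro g hg
    rw [dom_cons, mem_insert, mem_insert] at hg
    rcases hg with rfl | rfl | hg
    · exact mem_insert_of_mem hhW
    · exact mem_insert_self _ _
    · exact mem_insert_of_mem (hA.dW g hg)
  · exact hA.sub.trans (subset_insert _ _)
  · intro σ hσ v hv
    obtain ⟨h1, h2⟩ := mem_Al_cons.1 hσ
    rcases mem_insert.1 hv with rfl | hv
    · exact Or.inr ⟨h, List.mem_cons_self, by rw [h1]⟩
    · rcases hA.back σ h2 v hv with h3 | ⟨g, hg, h3⟩
      · exact Or.inl h3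
      · exact Or.inr ⟨g, List.mem_cons_of_mem _ hg, h3⟩
  · intro σ hσ g hg
    obtain ⟨h1, h2⟩ := mem_Al_cons.1 hσ
    rcases List.mem_cons.1 hg with rfl | hg
    · rw [h1]; exact mem_insert_self _ _
    · exact mem_insert_of_mem (hA.fwd σ h2 g hg)
  · intro g hg
    rcases List.mem_cons.1 hg with rfl | hg
    · exact ⟨y, List.mem_cons_self⟩
    · obtain ⟨z, hz⟩ := hA.rv g hg
      exact ⟨z, List.mem_cons_of_mem _ hz⟩
  · intro σ hσ
    exact hA.time_step hh hσ
  · intro f hf hfU σ hσ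
    obtain ⟨h1, h2⟩ := mem_Al_cons.1 hσ
    rw [dom_cons, mem_insert, mem_insert] at hf
    rcases hf with rfl | rfl | hf
    · exact Or.inl List.mem_cons_self
    · right
      rw [← h1, Mt.invol]
      exact List.mem_cons_self
    · rcases hA.fresh f hf hfU σ h2 with h3 | h3
      · exact Or.inl (List.mem_cons_of_mem _ h3)
      · exact Or.inr (List.mem_cons_of_mem _ h3)

/-- The state `l`, `τ` extends the state `l0`, `τ0`. -/
def Sb (l0 : List (H × H)) (τ0 : Wt H) (l : List (H × H)) (τ : Wt H) : Prop :=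
  l0 <:+ l ∧ ∀ e ∈ Ed l0, τ e = τ0 e

theorem Sb.refl (l : List (H × H)) (τ : Wt H) : Sb l τ l τ := ⟨List.suffix_refl _, fun _ _ => rfl⟩

theorem Ed_mono {l0 l : List (H × H)} (h : l0 <:+ l) : Ed l0 ⊆ Ed l := by
  intro e he
  obtain ⟨p, hp, h1⟩ := mem_Ed.1 he
  exact mem_Ed.2 ⟨p, h.subset hp, h1⟩

theorem Sb.step {l0 : List (H × H)} {τ0 : Wt H} {l : List (H × H)} {τ : Wt H}
    (h : Sb l0 τ0 l τ) {g y : H} (w : ℝ × ℝ) (hg : g ∉ dom l) :
    Sb l0 τ0 ((g, y) :: l) (Function.update τ s(g, y) w) := by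
  refine ⟨h.1.trans (List.suffix_cons _ _), fun e he => ?_⟩
  rw [Function.update_of_ne, h.2 e he]
  rintro rfl
  exact notMem_Ed hg (Ed_mono h.1 he)

theorem Sb.trans {l0 l1 l2 : List (H × H)} {τ0 τ1 τ2 : Wt H} (h : Sb l0 τ0 l1 τ1)
    (h' : Sb l1 τ1 l2 τ2) : Sb l0 τ0 l2 τ2 :=
  ⟨h.1.trans h'.1, fun e he => by rw [h'.2 e (Ed_mono h.1 he), h.2 e he]⟩

theorem Sb.mem {l0 : List (H × H)} {τ0 : Wt H} {l : List (H × H)} {τ : Wt H}
    (h : Sb l0 τ0 l τ) {σ : Mt H} (hσ : σ ∈ Al l) : σ ∈ Al l0 :=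
  mem_Al.2 (fun p hp => mem_Al.1 hσ p (h.1.subset hp))

theorem Sb.tm {l0 : List (H × H)} {τ0 : Wt H} {l : List (H × H)} {τ : Wt H}
    (h : Sb l0 τ0 l τ) {σ : Mt H} (hσ : σ ∈ Al l) {c : Bool} {xs : List H}
    (hx : ∀ g ∈ xs, ∃ y, (g, y) ∈ l0) : tm c σ τ xs = tm c σ τ0 xs := by
  apply tm_congr
  intro g hg
  obtain ⟨y, hy⟩ := hx g hg
  have h1 : σ g = y := mem_Al.1 (h.mem hσ) _ hy
  apply h.2
  rw [mem_Ed]
  exact ⟨(g, y), hy, by rw [h1]⟩

/-- Further invariants: the state extends `l0`, `τ0`, `L0`, the path avoids `U0`, the half-edges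
of `F` are free. -/
structure Ctx (vert : H → V) (U0 : Finset V) (F : Finset H) (l0 : List (H × H)) (τ0 : Wt H)
    (L0 : List H) (l : List (H × H)) (τ : Wt H) (W : Finset V) (xs : List H) : Prop where
  sb : Sb l0 τ0 l τ
  suf : L0 <:+ xs
  out : ∀ σ ∈ Al l, ∀ g ∈ xs, vert (σ g) ∉ U0
  res : ∀ f ∈ F, f ∉ dom l ∧ vert f ∈ W

theorem Ctx.step {vert : H → V} {U0 : Finset V} {F : Finset H} {l0 : List (H × H)} {τ0 : Wt H}
    {L0 : List H} {l : List (H × H)} {τ : Wt H} {W : Finset V} {xs : List H}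
    (hC : Ctx vert U0 F l0 τ0 L0 l τ W xs) {h y : H} (w : ℝ × ℝ) (hh : h ∉ dom l) (hhF : h ∉ F)
    (hyW : vert y ∉ W) (hyU : vert y ∉ U0) :
    Ctx vert U0 F l0 τ0 L0 ((h, y) :: l) (Function.update τ s(h, y) w) (insert (vert y) W)
      (h :: xs) := by
  refine ⟨hC.sb.step w hh, hC.suf.trans (List.suffix_cons _ _), ?_, ?_⟩
  · intro σ hσ g hg
    obtain ⟨h1, h2⟩ := mem_Al_cons.1 hσ
    rcases List.mem_cons.1 hg with rfl | hg
    · rw [h1]; exact hyU
    · exact hC.out σ h2 g hg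
  · intro f hf
    obtain ⟨h1, h2⟩ := hC.res f hf
    refine ⟨?_, mem_insert_of_mem h2⟩
    rw [dom_cons, mem_insert, mem_insert, not_or, not_or]
    refine ⟨?_, ?_, h1⟩
    · rintro rfl; exact hhF hf
    · rintro rfl; exact hyW h2

theorem fresh_nxt {vert : H → V} {l : List (H × H)} {W : Finset V} {h y : H}
    (hdW : ∀ g ∈ dom l, vert g ∈ W) (hhW : vert h ∈ W) (hyW : vert y ∉ W) {g : H}
    (hg : g ∈ nxt vert y) : g ∉ dom ((h, y) :: l) := by
  rw [mem_nxt] at hg
  rw [dom_cons, mem_insert, mem_insert, not_or, not_or]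
  refine ⟨?_, hg.2, ?_⟩
  · rintro rfl
    exact hyW (hg.1 ▸ hhW)
  · intro hd
    exact hyW (hg.1 ▸ hdW g hd)

variable {κ : Measure (ℝ × ℝ)} [IsProbabilityMeasure κ]

theorem measurable_EE_update {l : List (H × H)} {τ : Wt H} {F : Mt H → Wt H → ℝ≥0∞}
    (hF : ∀ σ, Measurable (F σ)) (e : Sym2 H) :
    Measurable (fun w => EE κ l (Function.update τ e w) F) := by
  unfold EE
  simp only [div_eq_mul_inv]
  refine Measurable.mul_const ?_ _
  refine Finset.measurable_fun_sum _ (fun σ _ => ?_)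
  have h1 : Measurable (fun p : (ℝ × ℝ) × Wt H => F σ (glue l (Function.update τ e p.1) p.2)) := by
    refine (hF σ).comp ?_
    have h2 : Measurable (fun p : (ℝ × ℝ) × Wt H => (Function.update τ e p.1, p.2)) := by
      refine Measurable.prodMk ?_ measurable_snd
      rw [measurable_pi_iff]
      intro i
      by_cases hi : i = e
      · subst hi
        simp only [Function.update_self]
        exact measurable_fst
      · simp only [Function.update_of_ne hi]
        exact measurable_const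
    exact (measurable_glue₂ l).comp h2
  exact h1.lintegral_prod_right'

theorem inv_fr_le {B : ℕ} {c1 : ℝ≥0∞} (hc1 : ((Fintype.card H - B - 1 : ℕ) : ℝ≥0∞)⁻¹ ≤ c1)
    {l : List (H × H)} {h : H} (hh : h ∉ dom l) (hB : (dom l).card ≤ B) :
    (((fr l h).card : ℕ) : ℝ≥0∞)⁻¹ ≤ c1 := by
  refine le_trans (ENNReal.inv_le_inv.2 ?_) hc1
  have := card_fr hh
  exact_mod_cast (by omega : Fintype.card H - B - 1 ≤ (fr l h).card)

open Classical in
/-- First moment upper bound for sums over paths. -/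
theorem ps_upper {vert : H → V} {c : Bool} {ok : V → ℝ → Prop} {T : ℝ} {U : Finset V}
    {D0 : Finset H} {U0 : Finset V} (hU0 : U0 ⊆ U) (F : Finset H) (l0 : List (H × H))
    (τ0 : Wt H) (L0 : List H)
    {Θ : H → List H → Mt H → Wt H → ℝ≥0∞} {B : ℕ} {c1 : ℝ≥0∞}
    (hc1 : ((Fintype.card H - B - 1 : ℕ) : ℝ≥0∞)⁻¹ ≤ c1)
    (hokm : ∀ v, MeasurableSet {s | ok v s}) (hΘm : ∀ h ys σ, Measurable (Θ h ys σ))
    (θ : V → ℝ → ℝ≥0∞)
    (hΘ : ∀ (l : List (H × H)) (τ : Wt H) (W : Finset V) (xs : List H) (s : ℝ) (h y : H),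
      Adm vert c U D0 l τ W (h :: xs) s → Ctx vert U0 F l0 τ0 L0 l τ W (h :: xs) → (h, y) ∈ l →
      (∀ g ∈ nxt vert y, g ∉ dom l) → (dom l).card ≤ B → ok (vert y) s →
      EE κ l τ (Θ h xs) ≤ θ (vert y) s)
    (P : ℕ → ℝ → ℝ≥0∞)
    (hP : ∀ (r : ℕ) (s : ℝ), s ≤ T →
      c1 * ∫⁻ w, ∑ y : H, (if ok (vert y) (s + pr c w) then θ (vert y) (s + pr c w) +
        (if s + pr c w ≤ T then ((deg vert (vert y) - 1 : ℕ) : ℝ≥0∞) * P r (s + pr c w) else 0)
          else 0) ∂κ ≤ P (r + 1) s) :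
    ∀ (r : ℕ) (l : List (H × H)) (τ : Wt H) (W : Finset V) (xs : List H) (s : ℝ) (h : H),
      Adm vert c U D0 l τ W xs s → Ctx vert U0 F l0 τ0 L0 l τ W xs → h ∉ F → h ∉ dom l →
      vert h ∈ W →
      (dom l).card + 2 * r ≤ B → s ≤ T →
      EE κ l τ (PS vert c ok T U Θ r h xs) ≤ P r s := by
  intro r
  induction r with
  | zero =>
    intro l τ W xs s h _ _ _ _ _ _ _
    have : EE κ l τ (PS vert c ok T U Θ 0 h xs) = 0 := EE_zero l τ
    rw [this]; exact bot_le
  | succ r ih =>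
    intro l τ W xs s h hA hC hhF hh hhW hB hsT
    have hFm : ∀ σ, Measurable (PS vert c ok T U Θ (r + 1) h xs σ) := fun σ =>
      measurable_PS hokm hΘm σ (r + 1) h xs
    rw [EE_reveal hFm hh]
    have step1 : ∀ y ∈ fr l h, ∀ w : ℝ × ℝ,
        EE κ ((h, y) :: l) (Function.update τ s(h, y) w) (PS vert c ok T U Θ (r + 1) h xs) ≤
        (if ok (vert y) (s + pr c w) then θ (vert y) (s + pr c w) +
          (if s + pr c w ≤ T then ((deg vert (vert y) - 1 : ℕ) : ℝ≥0∞) * P r (s + pr c w) else 0)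
            else 0) := by
      intro y hy w
      set l' := (h, y) :: l with hl'
      set τ' := Function.update τ s(h, y) w with hτ'
      by_cases hbad : vert y ∈ W ∨ ¬ ok (vert y) (s + pr c w)
      · have h0 : EE κ l' τ' (PS vert c ok T U Θ (r + 1) h xs) = EE κ l' τ' (fun _ _ => 0) := by
          apply EE_congr
          intro σ hσ ω
          obtain ⟨h1, h2⟩ := mem_Al_cons.1 hσ
          have ht := hA.time_glue (w := w) hh hσ ω
          simp only [PS]
          rw [if_neg]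
          rintro ⟨c1, c2, c3⟩
          rw [ht, h1] at c3
          rw [h1] at c1
          rcases hbad with hb | hb
          · rcases hA.back σ h2 _ hb with h3 | ⟨g, hg, h3⟩
            · exact c1 h3
            · exact c2 g hg (by rw [h1]; exact h3)
          · exact hb c3
        rw [h0, EE_zero]
        exact bot_le
      · push Not at hbad
        obtain ⟨hyW, hoky⟩ := hbad
        have hyU : vert y ∉ U := fun hc => hyW (hA.sub hc)
        have hAs := hA.step (y := y) w hh hhW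
        have hCs := hC.step (y := y) w hh hhF hyW (fun hc => hyU (hU0 hc))
        have hdl' : (dom l').card ≤ (dom l).card + 2 := card_dom_cons_le h y l
        rw [if_pos hoky]
        have h1 : EE κ l' τ' (PS vert c ok T U Θ (r + 1) h xs) ≤
            EE κ l' τ' (fun σ ω => Θ h xs σ ω + (if s + pr c w ≤ T then
              ∑ g ∈ nxt vert y, PS vert c ok T U Θ r g (h :: xs) σ ω else 0)) := by
          apply EE_mono
          intro σ hσ ω
          obtain ⟨h1, h2⟩ := mem_Al_cons.1 hσ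
          have ht := hA.time_glue (w := w) hh hσ ω
          simp only [PS]
          by_cases hc : cnd vert c ok U h xs σ (glue l' τ' ω)
          · rw [if_pos hc, ht, h1]
          · rw [if_neg hc]
            exact bot_le
        refine le_trans h1 ?_
        rw [EE_add (fun σ => hΘm h xs σ)]
        apply add_le_add
        · exact hΘ l' τ' _ xs _ h y hAs hCs List.mem_cons_self
            (fun g hg => fresh_nxt hA.dW hhW hyW hg) (by omega) hoky
        · by_cases hT : s + pr c w ≤ T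
          · simp only [if_pos hT]
            rw [EE_sum _ (fun g _ σ => measurable_PS hokm hΘm σ r g _)]
            calc ∑ g ∈ nxt vert y, EE κ l' τ' (PS vert c ok T U Θ r g (h :: xs))
                ≤ ∑ g ∈ nxt vert y, P r (s + pr c w) := by
                  apply Finset.sum_le_sum
                  intro g hg
                  apply ih l' τ' _ (h :: xs) _ g hAs hCs _ (fresh_nxt hA.dW hhW hyW hg) _
                    (by omega) hT
                  · intro hgF
                    apply hyW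
                    rw [← (mem_nxt.1 hg).1]
                    exact (hC.res g hgF).2
                  rw [(mem_nxt.1 hg).1]
                  exact mem_insert_self _ _
              _ = ((deg vert (vert y) - 1 : ℕ) : ℝ≥0∞) * P r (s + pr c w) := by
                  rw [sum_const, nsmul_eq_mul, card_nxt]
          · simp only [if_neg hT]
            rw [EE_zero]
    rw [div_eq_mul_inv, mul_comm]
    calc (((fr l h).card : ℕ) : ℝ≥0∞)⁻¹ * ∑ y ∈ fr l h, ∫⁻ w,
          EE κ ((h, y) :: l) (Function.update τ s(h, y) w)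
            (PS vert c ok T U Θ (r + 1) h xs) ∂κ
        ≤ c1 * ∫⁻ w, ∑ y ∈ fr l h, EE κ ((h, y) :: l) (Function.update τ s(h, y) w)
            (PS vert c ok T U Θ (r + 1) h xs) ∂κ := by
          rw [lintegral_finsetSum _ (fun y _ => measurable_EE_update hFm s(h, y))]
          gcongr
          exact inv_fr_le hc1 hh (by omega)
      _ ≤ c1 * ∫⁻ w, ∑ y : H, (if ok (vert y) (s + pr c w) then θ (vert y) (s + pr c w) +
            (if s + pr c w ≤ T then ((deg vert (vert y) - 1 : ℕ) : ℝ≥0∞) * P r (s + pr c w)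
              else 0) else 0) ∂κ := by
          gcongr with w
          refine le_trans (Finset.sum_le_sum (fun y hy => step1 y hy w)) ?_
          exact Finset.sum_le_sum_of_subset (subset_univ _)
      _ ≤ P (r + 1) s := hP r s hsT

end Pool.Agent.H949.CX
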