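import Pool.Agent.H949.CX.PSE

/-!
# First moment lower bound for sums over paths
-/

set_option linter.unusedSectionVars false
set_option linter.unusedSimpArgs false
set_option linter.unusedVariables false

open MeasureTheory Finset
open scoped ENNReal

namespace Pool.Agent.H949.CX

open Pool.Agent.H949.CM

variable {V H : Type} [Fintype V] [DecidableEq V] [Fintype H] [DecidableEq H]

/-- `exp (- α s)`. -/
noncomputable def ex (α s : ℝ) : ℝ≥0∞ := ENNReal.ofReal (Real.exp (-(α * s)))

theorem ex_add (α s t : ℝ) : ex α (s + t) = ex α s * ex α t := by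
  unfold ex
  rw [← ENNReal.ofReal_mul (Real.exp_pos _).le, ← Real.exp_add]
  congr 2
  ring

theorem ex_ne_top (α s : ℝ) : ex α s ≠ ⊤ := ENNReal.ofReal_ne_top

theorem ex_ne_zero (α s : ℝ) : ex α s ≠ 0 := by
  unfold ex
  simp [Real.exp_pos]

theorem measurable_ex (α : ℝ) : Measurable (ex α) := by
  unfold ex
  fun_prop

open Classical in
/-- The weight of a path that stops in the window `(T, T + A0]`. -/
noncomputable def ww (c : Bool) (α T A0 : ℝ) (h : H) (xs : List H) (σ : Mt H) (ω : Wt H) :
    ℝ≥0∞ :=
  if T < tm c σ ω (h :: xs) ∧ tm c σ ω (h :: xs) ≤ T + A0 then ex α (tm c σ ω (h :: xs)) else 0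

theorem measurable_ww (c : Bool) (α T A0 : ℝ) (h : H) (xs : List H) (σ : Mt H) :
    Measurable (ww c α T A0 h xs σ) := by
  classical
  unfold ww
  refine Measurable.ite ?_ ((measurable_ex α).comp (measurable_tm c σ _)) measurable_const
  exact (measurableSet_lt measurable_const (measurable_tm c σ _)).inter
    (measurableSet_le (measurable_tm c σ _) measurable_const)

/-- The number of half-edges of the vertices of `W`, weighted by the degrees. -/
def Qd (vert : H → V) (W : Finset V) : ℕ := ∑ v ∈ W, deg vert v * deg vert v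

theorem Qd_insert_le (vert : H → V) (W : Finset V) (v : V) :
    Qd vert (insert v W) ≤ Qd vert W + deg vert v * deg vert v := by
  unfold Qd
  by_cases hv : v ∈ W
  · rw [insert_eq_of_mem hv]; omega
  · rw [sum_insert hv]; omega

variable {κ : Measure (ℝ × ℝ)} [IsProbabilityMeasure κ]

theorem Al_cons_nonempty {l : List (H × H)} (hl : (Al l).Nonempty) {h y : H} (hh : h ∉ dom l)
    (hy : y ∈ fr l h) : (Al ((h, y) :: l)).Nonempty := by
  rw [← Finset.card_pos]
  have h1 := ratio hh hy
  have h2 := Finset.card_pos.2 hl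
  rcases Nat.eq_zero_or_pos (Al ((h, y) :: l)).card with h0 | h0
  · rw [h0, mul_zero] at h1
    omega
  · exact h0

open Classical in
/-- First moment lower bound for sums over paths. -/
theorem ps_lower {vert : H → V} {c : Bool} {ok : V → ℝ → Prop} {T : ℝ} {U : Finset V}
    {D0 : Finset H}
    {α A0 : ℝ} {nu : ℝ≥0∞} (hnu0 : nu ≠ 0) (hnut : nu ≠ ⊤)
    (hα : ∫⁻ w, ex α (pr c w) ∂κ = nu⁻¹) (hpos : ∀ᵐ w ∂κ, 0 ≤ pr c w)
    (hokm : ∀ v, MeasurableSet {s | ok v s}) {mi : ℝ≥0∞}
    (hmi : mi = ((Fintype.card H : ℕ) : ℝ≥0∞)⁻¹) {dd : ℝ≥0∞}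
    (hq3 : mi * ∑ y : H, ((deg vert (vert y) - 1 : ℕ) : ℝ≥0∞) ≤ nu * dd)
    {Bq gm : ℕ} (b : ℝ → ℝ≥0∞)
    (hgm : ∀ v s, s ≤ T → ok v s → deg vert v * deg vert v ≤ gm)
    (hq2 : ∀ s, 0 ≤ s → s ≤ T → ∀ W : Finset V, Qd vert W ≤ Bq → nu ≤ mi * ∑ y ∈ univ.filter
      (fun y : H => vert y ∉ W ∧ ok (vert y) s), ((deg vert (vert y) - 1 : ℕ) : ℝ≥0∞) + nu * b s)
    (hq1 : ∀ s, T < s → s ≤ T + A0 → ∀ W : Finset V, Qd vert W ≤ Bq →
      1 ≤ mi * (((univ.filter (fun y : H => vert y ∉ W ∧ ok (vert y) s)).card : ℕ) : ℝ≥0∞) + b s)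
    (L : ℕ → ℝ → ℝ≥0∞) (hL0 : ∀ s, s ≤ T → 1 ≤ L 0 s)
    (hL : ∀ (r : ℕ) (s : ℝ), 0 ≤ s → s ≤ T → ∫⁻ w, ex α (pr c w) * (if s + pr c w ≤ T then
      b (s + pr c w) + dd * L r (s + pr c w) else if s + pr c w ≤ T + A0 then b (s + pr c w)
        else 1) ∂κ ≤ nu⁻¹ * L (r + 1) s) :
    ∀ (r : ℕ) (l : List (H × H)) (τ : Wt H) (W : Finset V) (xs : List H) (s : ℝ) (h : H),
      Adm vert c U D0 l τ W xs s → h ∉ dom l → vert h ∈ W → Qd vert W + r * gm ≤ Bq → 0 ≤ s →
      s ≤ T → (Al l).Nonempty →
      ex α s * nu⁻¹ ≤ EE κ l τ (PS vert c ok T U (ww c α T A0) r h xs) +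
        ex α s * nu⁻¹ * L r s := by
  intro r
  induction r with
  | zero =>
    intro l τ W xs s h _ _ _ _ _ hsT _
    calc ex α s * nu⁻¹ = ex α s * nu⁻¹ * 1 := (mul_one _).symm
      _ ≤ ex α s * nu⁻¹ * L 0 s := by gcongr; exact hL0 s hsT
      _ ≤ _ := le_add_self
  | succ r ih =>
    intro l τ W xs s h hA hh hhW hQ hs0 hsT hne
    have hwm : ∀ (h : H) (ys : List H) (σ : Mt H), Measurable (ww c α T A0 h ys σ) := fun h ys σ =>
      measurable_ww c α T A0 h ys σ
    have hFm : ∀ σ, Measurable (PS vert c ok T U (ww c α T A0) (r + 1) h xs σ) := fun σ =>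
      measurable_PS hokm hwm σ (r + 1) h xs
    set E : H → ℝ × ℝ → ℝ≥0∞ := fun y w =>
      EE κ ((h, y) :: l) (Function.update τ s(h, y) w)
        (PS vert c ok T U (ww c α T A0) (r + 1) h xs) with hE
    have hEm : ∀ y, Measurable (E y) := fun y => measurable_EE_update hFm s(h, y)
    set Lst : ℝ → ℝ≥0∞ := fun s' => if s' ≤ T then b s' + dd * L r s' else
      if s' ≤ T + A0 then b s' else 1 with hLst
    have hnn : nu * nu⁻¹ = 1 := ENNReal.mul_inv_cancel hnu0 hnut
    -- the inequality for a fixed length of the next edge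
    have pt : ∀ w : ℝ × ℝ, 0 ≤ pr c w → ex α (s + pr c w) ≤ mi * ∑ y ∈ fr l h, E y w +
        ex α (s + pr c w) * Lst (s + pr c w) := by
      intro w hw0
      set s' := s + pr c w with hs'
      have hs'0 : 0 ≤ s' := by rw [hs']; linarith
      have hQ0 : Qd vert W ≤ Bq := by
        have : 0 ≤ (r + 1) * gm := Nat.zero_le _
        omega
      -- good partners are free
      have hgoodsub : univ.filter (fun y : H => vert y ∉ W ∧ ok (vert y) s') ⊆ fr l h := by
        intro y hy
        rw [mem_filter] at hy
        rw [mem_fr]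
        refine ⟨?_, fun hc => hy.2.1 (hA.dW y hc)⟩
        rintro rfl
        exact hy.2.1 hhW
      by_cases h1 : s' ≤ T
      · have hL1 : Lst s' = b s' + dd * L r s' := by rw [hLst]; simp only [if_pos h1]
        rw [hL1]
        set G := univ.filter (fun y : H => vert y ∉ W ∧ ok (vert y) s') with hG
        have step : ∀ y ∈ G, ((deg vert (vert y) - 1 : ℕ) : ℝ≥0∞) * (ex α s' * nu⁻¹) ≤
            E y w + ((deg vert (vert y) - 1 : ℕ) : ℝ≥0∞) * (ex α s' * nu⁻¹ * L r s') := by
          intro y hy
          have hy' := (mem_filter.1 hy).2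
          have hAs := hA.step (y := y) w hh hhW
          have hyfr := hgoodsub hy
          have hQ' : Qd vert (insert (vert y) W) + r * gm ≤ Bq := by
            have h2 := Qd_insert_le vert W (vert y)
            have h3 := hgm (vert y) s' h1 hy'.2
            have h4 : (r + 1) * gm = r * gm + gm := by ring
            omega
          have hsum : ∑ g ∈ nxt vert y, EE κ ((h, y) :: l) (Function.update τ s(h, y) w)
              (PS vert c ok T U (ww c α T A0) r g (h :: xs)) ≤ E y w := by
            rw [hE, ← EE_sum _ (fun g _ σ => measurable_PS hokm hwm σ r g _)]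
            apply EE_mono
            intro σ hσ ω
            obtain ⟨h2, h3⟩ := mem_Al_cons.1 hσ
            have ht := hA.time_glue (w := w) hh hσ ω
            simp only [PS]
            have hc : cnd vert c ok U h xs σ (glue ((h, y) :: l)
                (Function.update τ s(h, y) w) ω) := by
              refine ⟨?_, ?_, ?_⟩
              · rw [h2]; exact fun hc => hy'.1 (hA.sub hc)
              · intro g hg he
                apply hy'.1
                rw [h2] at he
                rw [he]
                exact hA.fwd σ h3 g hg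
              · rw [h2, ht]; exact hy'.2
            rw [if_pos hc, ht, if_pos h1, h2]
            exact le_add_self
          have hih : ∀ g ∈ nxt vert y, ex α s' * nu⁻¹ ≤
              EE κ ((h, y) :: l) (Function.update τ s(h, y) w)
                (PS vert c ok T U (ww c α T A0) r g (h :: xs)) + ex α s' * nu⁻¹ * L r s' := by
            intro g hg
            refine ih ((h, y) :: l) (Function.update τ s(h, y) w) _ (h :: xs) s' g hAs
              (fresh_nxt hA.dW hhW hy'.1 hg) ?_ hQ' hs'0 h1 (Al_cons_nonempty hne hh hyfr)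
            rw [(mem_nxt.1 hg).1]
            exact mem_insert_self _ _
          have h5 := Finset.sum_le_sum hih
          rw [Finset.sum_add_distrib, sum_const, sum_const, nsmul_eq_mul, nsmul_eq_mul,
            card_nxt] at h5
          exact le_trans h5 (add_le_add hsum (le_refl _))
        have hq := hq2 s' hs'0 h1 W hQ0
        calc ex α s' = nu * (ex α s' * nu⁻¹) := by
              rw [mul_comm (ex α s'), ← mul_assoc, hnn, one_mul]
          _ ≤ (mi * ∑ y ∈ G, ((deg vert (vert y) - 1 : ℕ) : ℝ≥0∞) + nu * b s') *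
              (ex α s' * nu⁻¹) := by gcongr
          _ = mi * ∑ y ∈ G, ((deg vert (vert y) - 1 : ℕ) : ℝ≥0∞) * (ex α s' * nu⁻¹) +
              b s' * (nu * nu⁻¹) * ex α s' := by rw [← Finset.sum_mul]; ring
          _ ≤ mi * ∑ y ∈ G, (E y w + ((deg vert (vert y) - 1 : ℕ) : ℝ≥0∞) *
              (ex α s' * nu⁻¹ * L r s')) + b s' * (nu * nu⁻¹) * ex α s' := by
              gcongr with y hy
              exact step y hy
          _ = mi * ∑ y ∈ G, E y w + (mi * ∑ y ∈ G, ((deg vert (vert y) - 1 : ℕ) : ℝ≥0∞)) *
              (ex α s' * nu⁻¹ * L r s') + b s' * ex α s' := by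
              rw [Finset.sum_add_distrib, ← Finset.sum_mul, hnn, mul_one]; ring
          _ ≤ mi * ∑ y ∈ fr l h, E y w + (nu * dd) * (ex α s' * nu⁻¹ * L r s') +
              b s' * ex α s' := by
              refine add_le_add (add_le_add (mul_le_mul' (le_refl _)
                (Finset.sum_le_sum_of_subset hgoodsub)) (mul_le_mul' (le_trans ?_ hq3)
                (le_refl _))) (le_refl _)
              exact mul_le_mul' (le_refl _) (Finset.sum_le_sum_of_subset (subset_univ _))
          _ = mi * ∑ y ∈ fr l h, E y w + ex α s' * (b s' + dd * L r s') := by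
              have : (nu * dd) * (ex α s' * nu⁻¹ * L r s') =
                  (nu * nu⁻¹) * (dd * (ex α s' * L r s')) := by ring
              rw [this, hnn, one_mul]
              ring
      · by_cases h2 : s' ≤ T + A0
        · have hL1 : Lst s' = b s' := by rw [hLst]; simp only [if_neg h1, if_pos h2]
          rw [hL1]
          set G := univ.filter (fun y : H => vert y ∉ W ∧ ok (vert y) s') with hG
          have hq := hq1 s' (not_le.1 h1) h2 W hQ0
          have step : ∀ y ∈ G, ex α s' ≤ E y w := by
            intro y hy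
            have hy' := (mem_filter.1 hy).2
            have hyfr := hgoodsub hy
            have hne' := Al_cons_nonempty hne hh hyfr
            rw [← EE_const (κ := κ) hne' (Function.update τ s(h, y) w) (ex α s'), hE]
            apply EE_mono
            intro σ hσ ω
            obtain ⟨h2', h3⟩ := mem_Al_cons.1 hσ
            have ht := hA.time_glue (w := w) hh hσ ω
            simp only [PS]
            have hc : cnd vert c ok U h xs σ (glue ((h, y) :: l)
                (Function.update τ s(h, y) w) ω) := by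
              refine ⟨?_, ?_, ?_⟩
              · rw [h2']; exact fun hc => hy'.1 (hA.sub hc)
              · intro g hg he
                apply hy'.1
                rw [h2'] at he
                rw [he]
                exact hA.fwd σ h3 g hg
              · rw [h2', ht]; exact hy'.2
            rw [if_pos hc]
            refine le_trans ?_ le_self_add
            unfold ww
            rw [ht, if_pos ⟨not_le.1 h1, h2⟩]
          calc ex α s' = 1 * ex α s' := (one_mul _).symm
            _ ≤ (mi * (G.card : ℝ≥0∞) + b s') * ex α s' := by gcongr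
            _ = mi * ∑ y ∈ G, ex α s' + ex α s' * b s' := by
                rw [sum_const, nsmul_eq_mul]; ring
            _ ≤ mi * ∑ y ∈ G, E y w + ex α s' * b s' := by
                gcongr with y hy
                exact step y hy
            _ ≤ mi * ∑ y ∈ fr l h, E y w + ex α s' * b s' := by
                gcongr
        · have hL1 : Lst s' = 1 := by rw [hLst]; simp only [if_neg h1, if_neg h2]
          rw [hL1, mul_one]
          exact le_add_self
    have hint : ex α s * nu⁻¹ = ∫⁻ w, ex α (s + pr c w) ∂κ := by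
      simp only [ex_add]
      rw [lintegral_const_mul' _ _ (ex_ne_top α s), hα]
    have hmfr : mi ≤ (((fr l h).card : ℕ) : ℝ≥0∞)⁻¹ := by
      rw [hmi]
      refine ENNReal.inv_le_inv.2 ?_
      exact_mod_cast card_le_univ _
    calc ex α s * nu⁻¹ = ∫⁻ w, ex α (s + pr c w) ∂κ := hint
      _ ≤ ∫⁻ w, (mi * ∑ y ∈ fr l h, E y w + ex α (s + pr c w) * Lst (s + pr c w)) ∂κ :=
          lintegral_mono_ae (hpos.mono fun w hw => pt w hw)
      _ = mi * ∑ y ∈ fr l h, ∫⁻ w, E y w ∂κ +
          ∫⁻ w, ex α (s + pr c w) * Lst (s + pr c w) ∂κ := by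
          rw [lintegral_add_left ((Finset.measurable_fun_sum _ (fun y _ => hEm y)).const_mul _)]
          congr 1
          rw [lintegral_const_mul _ (Finset.measurable_fun_sum _ (fun y _ => hEm y)),
            lintegral_finsetSum _ (fun y _ => hEm y)]
      _ ≤ EE κ l τ (PS vert c ok T U (ww c α T A0) (r + 1) h xs) +
          ex α s * nu⁻¹ * L (r + 1) s := by
          apply add_le_add
          · rw [EE_reveal hFm hh, div_eq_mul_inv, mul_comm]
            gcongr
          · simp only [ex_add, mul_assoc]
            rw [lintegral_const_mul' _ _ (ex_ne_top α s)]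
            gcongr
            exact hL r s hs0 hsT

end Pool.Agent.H949.CX
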