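import Pool.Agent.H949.CX.Und

/-!
# Pairs of undisturbed paths, and their end vertices
-/

set_option linter.unusedSectionVars false
set_option linter.unusedSimpArgs false
set_option linter.unusedVariables false

open MeasureTheory Finset
open scoped ENNReal

namespace Pool.Agent.H949.CX

open Pool.Agent.H949.CM

variable {V H : Type} [Fintype V] [DecidableEq V] [Fintype H] [DecidableEq H]

section

variable (vert : H → V) (c : Bool) (ok : V → ℝ → Prop) (T : ℝ) (U : Finset V) (α A0 : ℝ)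
    (Rt Rr : Finset H) (S0 : ℝ) (R : ℕ)

open Classical in
/-- The weight of an undisturbed path. -/
noncomputable def Tu (k : H) (zs : List H) (σ : Mt H) (ω : Wt H) : ℝ≥0∞ :=
  if DD vert c U R Rt Rr S0 k zs σ ω = 0 then ww c α T A0 k zs σ ω else 0

/-- Sum over pairs of disjoint continuations of `xs`. -/
noncomputable def JN (h : H) (xs : List H) (h' : H) (σ : Mt H) (ω : Wt H) : ℝ≥0∞ :=
  PS vert c ok T U (fun k zs σ ω => ww c α T A0 k zs σ ω *
    PS vert c ok T (U ∪ Va vert σ (k :: zs)) (ww c α T A0) R h' xs σ ω) R h xs σ ω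

open Classical in
/-- The contribution of a branching at the end of `k :: zs`. -/
noncomputable def PC (k : H) (zs : List H) (σ : Mt H) (ω : Wt H) : ℝ≥0∞ :=
  ww c α T A0 k zs σ ω ^ 2 + (if tm c σ ω (k :: zs) ≤ T then
    ∑ g ∈ nxt vert (σ k), ∑ g' ∈ (nxt vert (σ k)).erase g,
      JN vert c ok T U α A0 R g (k :: zs) g' σ ω else 0)

open Classical in
/-- Indicator of an undisturbed path that ends at `z`. -/
noncomputable def Tz (z : V) (k : H) (zs : List H) (σ : Mt H) (ω : Wt H) : ℝ≥0∞ :=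
  if DD vert c U R Rt Rr S0 k zs σ ω = 0 ∧ T < tm c σ ω (k :: zs) ∧
    tm c σ ω (k :: zs) ≤ T + A0 ∧ vert (σ k) = z then 1 else 0

/-- `z` is the end of an undisturbed path. -/
def IsEnd (σ : Mt H) (ω : Wt H) (z : V) : Prop :=
  ∃ e ∈ Rt, ∃ k zs, Ext vert c ok T U σ ω R e [] (k :: zs) ∧
    DD vert c U R Rt Rr S0 k zs σ ω = 0 ∧ vert (σ k) = z

end

section

variable {vert : H → V} {c : Bool} {ok : V → ℝ → Prop} {T : ℝ} {U : Finset V} {α A0 : ℝ}
    {Rt Rr : Finset H} {S0 : ℝ} {R : ℕ} {σ : Mt H} {ω : Wt H}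

theorem Tu_le (k : H) (zs : List H) :
    Tu vert c T U α A0 Rt Rr S0 R k zs σ ω ≤ ww c α T A0 k zs σ ω := by
  unfold Tu
  split_ifs
  · exact le_refl _
  · exact bot_le

theorem dd_of_Tu {k : H} {zs : List H} (h : Tu vert c T U α A0 Rt Rr S0 R k zs σ ω ≠ 0) :
    DD vert c U R Rt Rr S0 k zs σ ω = 0 := by
  by_contra hc
  apply h
  unfold Tu
  rw [if_neg hc]

theorem Tu_zero_of_le {k : H} {zs : List H} (h : tm c σ ω (k :: zs) ≤ T) :
    Tu vert c T U α A0 Rt Rr S0 R k zs σ ω = 0 := by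
  have h0 : ww c α T A0 k zs σ ω = 0 := by
    unfold ww
    rw [if_neg (fun hc => absurd hc.1 (not_lt.2 h))]
  have h1 := Tu_le (vert := vert) (c := c) (T := T) (U := U) (α := α) (A0 := A0) (Rt := Rt)
    (Rr := Rr) (S0 := S0) (R := R) (σ := σ) (ω := ω) k zs
  rw [h0] at h1
  exact nonpos_iff_eq_zero.1 h1

/-- The product of the sums over the undisturbed paths of two branches. -/
theorem mul_le_JN (hpos : ∀ g, 0 ≤ wt c σ ω g) (hRt : ∀ e ∈ Rt, vert e ∈ U) {xs : List H}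
    {h h' : H} (hb : Br vert σ U Rt xs h h') {r : ℕ} (hr : r ≤ R) :
    PS vert c ok T U (Tu vert c T U α A0 Rt Rr S0 R) r h' xs σ ω *
      PS vert c ok T U (Tu vert c T U α A0 Rt Rr S0 R) r h xs σ ω ≤
        JN vert c ok T U α A0 R h xs h' σ ω := by
  rw [← PS_mul]
  unfold JN
  apply PS_mono r hr
  intro k zs hE hne
  refine ⟨?_, hE⟩
  have hD : DD vert c U R Rt Rr S0 k zs σ ω = 0 := by
    apply dd_of_Tu (α := α) (A0 := A0) (T := T)
    intro h0
    rw [h0, mul_zero] at hne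
    exact hne rfl
  rw [mul_comm]
  apply mul_le_mul' (Tu_le k zs)
  apply PS_mono r hr
  intro k' zs' hE' hne'
  have hD' := dd_of_Tu hne'
  refine ⟨Tu_le k' zs', hE'.avoid _ ?_⟩
  intro g' ys' h1 h2 hm
  rcases mem_union.1 hm with h3 | h3
  · exact (Ext.notMem_xs _ hE' h1 h2).1 h3
  · obtain ⟨g, hg, hge⟩ := mem_Va.1 h3
    obtain ⟨ys, hys⟩ := exists_suffix_of_mem hg
    have hsuf := Ext.suffix _ hE
    rcases List.suffix_or_suffix_of_suffix hsuf hys with h4 | h4
    · exact disj hpos hRt hb hE hE' hD hD' hys h4 h1 h2 hge.symm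
    · rcases List.suffix_cons_iff.1 h4 with h5 | h5
      · obtain ⟨rfl, rfl⟩ := List.cons.inj h5
        exact disj hpos hRt hb hE hE' hD hD' hys (List.suffix_refl _) h1 h2 hge.symm
      · have hc := (Ext.notMem_xs _ hE' h1 h2).2.1
        exact hc g (tail_subset h2 (h5.subset List.mem_cons_self)) hge

/-- The square of the sum over the undisturbed paths. -/
theorem sq_le_PC (hpos : ∀ g, 0 ≤ wt c σ ω g) (hRt : ∀ e ∈ Rt, vert e ∈ U) {e : H}
    (he : e ∈ Rt) : ∀ (r : ℕ) (_ : r ≤ R) (h : H) (xs : List H), VX vert σ U e h xs →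
      PS vert c ok T U (Tu vert c T U α A0 Rt Rr S0 R) r h xs σ ω ^ 2 ≤
        PS vert c ok T U (PC vert c ok T U α A0 R) r h xs σ ω := by
  classical
  intro r
  induction r with
  | zero => intro _ h xs _; simp [PS]
  | succ r ih =>
    intro hr h xs hv
    simp only [PS]
    by_cases h1 : cnd vert c ok U h xs σ ω
    · rw [if_pos h1, if_pos h1]
      have hvp := hv.cons h1.1 h1.2.1
      by_cases h2 : tm c σ ω (h :: xs) ≤ T
      · rw [if_pos h2, if_pos h2, Tu_zero_of_le h2, zero_add]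
        set X : H → ℝ≥0∞ := fun g =>
          PS vert c ok T U (Tu vert c T U α A0 Rt Rr S0 R) r g (h :: xs) σ ω with hX
        have e1 : (∑ g ∈ nxt vert (σ h), X g) ^ 2 = ∑ g ∈ nxt vert (σ h), X g ^ 2 +
            ∑ g ∈ nxt vert (σ h), ∑ g' ∈ (nxt vert (σ h)).erase g, X g' * X g := by
          rw [sq, Finset.sum_mul_sum, ← Finset.sum_add_distrib]
          apply Finset.sum_congr rfl
          intro g hg
          rw [← Finset.add_sum_erase _ _ hg, sq]
          congr 1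
          apply Finset.sum_congr rfl
          intro g' _
          ring
        rw [e1, add_comm (∑ g ∈ nxt vert (σ h), X g ^ 2)]
        apply add_le_add
        · unfold PC
          rw [if_pos h2]
          refine le_trans ?_ le_add_self
          apply Finset.sum_le_sum
          intro g hg
          apply Finset.sum_le_sum
          intro g' hg'
          apply mul_le_JN hpos hRt _ (by omega)
          refine ⟨(Finset.ne_of_mem_erase hg').symm, Or.inr ⟨h, xs, e, rfl, hg,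
            Finset.mem_of_mem_erase hg', hvp, he⟩⟩
        · apply Finset.sum_le_sum
          intro g hg
          exact ih (by omega) g (h :: xs) (Or.inr ⟨h, xs, rfl, hg, hvp⟩)
      · rw [if_neg h2, if_neg h2, add_zero, add_zero]
        unfold PC
        rw [if_neg h2, add_zero]
        gcongr
        exact Tu_le h xs
    · rw [if_neg h1, if_neg h1]
      simp

/-- The square of the sum over the undisturbed paths from all roots. -/
theorem total_sq_le (hpos : ∀ g, 0 ≤ wt c σ ω g) (hRt : ∀ e ∈ Rt, vert e ∈ U) :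
    (∑ e ∈ Rt, PS vert c ok T U (Tu vert c T U α A0 Rt Rr S0 R) R e [] σ ω) ^ 2 ≤
      ∑ e ∈ Rt, PS vert c ok T U (PC vert c ok T U α A0 R) R e [] σ ω +
        ∑ e ∈ Rt, ∑ e' ∈ Rt.erase e, JN vert c ok T U α A0 R e [] e' σ ω := by
  set X : H → ℝ≥0∞ := fun g =>
    PS vert c ok T U (Tu vert c T U α A0 Rt Rr S0 R) R g [] σ ω with hX
  have e1 : (∑ g ∈ Rt, X g) ^ 2 = ∑ g ∈ Rt, X g ^ 2 +
      ∑ g ∈ Rt, ∑ g' ∈ Rt.erase g, X g' * X g := by
    rw [sq, Finset.sum_mul_sum, ← Finset.sum_add_distrib]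
    apply Finset.sum_congr rfl
    intro g hg
    rw [← Finset.add_sum_erase _ _ hg, sq]
    congr 1
    apply Finset.sum_congr rfl
    intro g' _
    ring
  rw [e1]
  apply add_le_add
  · apply Finset.sum_le_sum
    intro e he
    exact sq_le_PC hpos hRt he R (le_refl _) e [] (Or.inl ⟨rfl, rfl⟩)
  · apply Finset.sum_le_sum
    intro e he
    apply Finset.sum_le_sum
    intro e' he'
    apply mul_le_JN hpos hRt _ (le_refl _)
    exact ⟨(Finset.ne_of_mem_erase he').symm, Or.inl ⟨rfl, he, Finset.mem_of_mem_erase he'⟩⟩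

theorem Tz_le_one (z : V) (k : H) (zs : List H) :
    Tz vert c T U A0 Rt Rr S0 R z k zs σ ω ≤ 1 := by
  unfold Tz
  split_ifs
  · exact le_refl _
  · exact bot_le

theorem sum_le_one_of {ι : Type*} [DecidableEq ι] {s : Finset ι} {f : ι → ℝ≥0∞}
    (h1 : ∀ i ∈ s, f i ≤ 1) (h2 : ∀ i ∈ s, ∀ j ∈ s, i ≠ j → f i ≠ 0 → f j = 0) :
    ∑ i ∈ s, f i ≤ 1 := by
  by_cases h : ∃ i ∈ s, f i ≠ 0
  · obtain ⟨i, hi, hne⟩ := h
    rw [Finset.sum_eq_single_of_mem i hi (fun j hj hji => h2 i hi j hj hji.symm hne)]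
    exact h1 i hi
  · push Not at h
    rw [Finset.sum_eq_zero h]
    exact bot_le

theorem exists_of_PS_ne_zero {Θ : H → List H → Mt H → Wt H → ℝ≥0∞} {r : ℕ} {h : H}
    {xs : List H} (hne : PS vert c ok T U Θ r h xs σ ω ≠ 0) :
    ∃ k zs, Ext vert c ok T U σ ω r h xs (k :: zs) ∧ Θ k zs σ ω ≠ 0 := by
  by_contra hc
  push Not at hc
  exact hne (PS_eq_zero _ _ _ hc)

theorem branch_zero (hpos : ∀ g, 0 ≤ wt c σ ω g) (hRt : ∀ e ∈ Rt, vert e ∈ U) {z : V}
    {xs : List H} {h h' : H} (hb : Br vert σ U Rt xs h h') {r : ℕ}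
    (h1 : PS vert c ok T U (Tz vert c T U A0 Rt Rr S0 R z) r h xs σ ω ≠ 0) :
    PS vert c ok T U (Tz vert c T U A0 Rt Rr S0 R z) r h' xs σ ω = 0 := by
  by_contra h2
  obtain ⟨k, zs, hE, hk⟩ := exists_of_PS_ne_zero h1
  obtain ⟨k', zs', hE', hk'⟩ := exists_of_PS_ne_zero h2
  have hp : DD vert c U R Rt Rr S0 k zs σ ω = 0 ∧ vert (σ k) = z := by
    by_contra hc
    apply hk
    unfold Tz
    rw [if_neg (fun h => hc ⟨h.1, h.2.2.2⟩)]
  have hp' : DD vert c U R Rt Rr S0 k' zs' σ ω = 0 ∧ vert (σ k') = z := by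
    by_contra hc
    apply hk'
    unfold Tz
    rw [if_neg (fun h => hc ⟨h.1, h.2.2.2⟩)]
  exact disj hpos hRt hb hE hE' hp.1 hp'.1 (List.suffix_refl _) (Ext.suffix _ hE)
    (List.suffix_refl _) (Ext.suffix _ hE') (by rw [hp.2, hp'.2])

/-- At most one undisturbed path ends at `z`. -/
theorem Tz_unique (hpos : ∀ g, 0 ≤ wt c σ ω g) (hRt : ∀ e ∈ Rt, vert e ∈ U) {e : H}
    (he : e ∈ Rt) (z : V) : ∀ (r : ℕ) (h : H) (xs : List H), VX vert σ U e h xs →
      PS vert c ok T U (Tz vert c T U A0 Rt Rr S0 R z) r h xs σ ω ≤ 1 := by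
  classical
  intro r
  induction r with
  | zero => intro h xs _; simp [PS]
  | succ r ih =>
    intro h xs hv
    simp only [PS]
    by_cases h1 : cnd vert c ok U h xs σ ω
    · rw [if_pos h1]
      have hvp := hv.cons h1.1 h1.2.1
      by_cases h2 : tm c σ ω (h :: xs) ≤ T
      · rw [if_pos h2]
        have h3 : Tz vert c T U A0 Rt Rr S0 R z h xs σ ω = 0 := by
          unfold Tz
          rw [if_neg (fun hc => absurd hc.2.1 (not_lt.2 h2))]
        rw [h3, zero_add]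
        apply sum_le_one_of
        · intro g hg
          exact ih g (h :: xs) (Or.inr ⟨h, xs, rfl, hg, hvp⟩)
        · intro g hg g' hg' hne hz
          exact branch_zero hpos hRt ⟨hne, Or.inr ⟨h, xs, e, rfl, hg, hg', hvp, he⟩⟩ hz
      · rw [if_neg h2, add_zero]
        exact Tz_le_one z h xs
    · rw [if_neg h1]
      exact bot_le

open Classical in
theorem Tz_total (hpos : ∀ g, 0 ≤ wt c σ ω g) (hRt : ∀ e ∈ Rt, vert e ∈ U) (z : V) :
    ∑ e ∈ Rt, PS vert c ok T U (Tz vert c T U A0 Rt Rr S0 R z) R e [] σ ω ≤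
      if IsEnd vert c ok T U Rt Rr S0 R σ ω z then 1 else 0 := by
  by_cases h : IsEnd vert c ok T U Rt Rr S0 R σ ω z
  · rw [if_pos h]
    apply sum_le_one_of
    · intro e he
      exact Tz_unique hpos hRt he z R e [] (Or.inl ⟨rfl, rfl⟩)
    · intro e he e' he' hne hz
      exact branch_zero hpos hRt ⟨hne, Or.inl ⟨rfl, he, he'⟩⟩ hz
  · rw [if_neg h]
    apply le_of_eq
    apply Finset.sum_eq_zero
    intro e he
    by_contra hne
    obtain ⟨k, zs, hE, hk⟩ := exists_of_PS_ne_zero hne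
    apply h
    have hp : DD vert c U R Rt Rr S0 k zs σ ω = 0 ∧ vert (σ k) = z := by
      by_contra hc
      apply hk
      unfold Tz
      rw [if_neg (fun h => hc ⟨h.1, h.2.2.2⟩)]
    exact ⟨e, he, k, zs, hE, hp.1, hp.2⟩

theorem ex_le_ex {α s t : ℝ} (hα : 0 ≤ α) (h : s ≤ t) : ex α t ≤ ex α s := by
  unfold ex
  apply ENNReal.ofReal_le_ofReal
  apply Real.exp_le_exp.2
  have := mul_le_mul_of_nonneg_left h hα
  linarith

open Classical in
/-- The sum over the undisturbed paths is bounded by the number of their end vertices. -/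
theorem X_le_ends (hα : 0 ≤ α) (hpos : ∀ g, 0 ≤ wt c σ ω g) (hRt : ∀ e ∈ Rt, vert e ∈ U) :
    ∑ e ∈ Rt, PS vert c ok T U (Tu vert c T U α A0 Rt Rr S0 R) R e [] σ ω ≤
      ex α T * (((univ.filter (fun z => IsEnd vert c ok T U Rt Rr S0 R σ ω z)).card : ℕ) :
        ℝ≥0∞) := by
  have h1 : ∀ e ∈ Rt, PS vert c ok T U (Tu vert c T U α A0 Rt Rr S0 R) R e [] σ ω ≤
      ex α T * ∑ z : V, PS vert c ok T U (Tz vert c T U A0 Rt Rr S0 R z) R e [] σ ω := by
    intro e he
    have h2 := PS_mul (vert := vert) (c := c) (ok := ok) (T := T) (U := U)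
      (fun g ys σ ω => ∑ z : V, Tz vert c T U A0 Rt Rr S0 R z g ys σ ω)
      (fun _ _ => ex α T) σ ω R e []
    rw [PS_sum univ (Tz vert c T U A0 Rt Rr S0 R) σ ω R e []] at h2
    rw [← h2]
    apply PS_mono' (le_refl _)
    intro k zs
    unfold Tu
    by_cases hD : DD vert c U R Rt Rr S0 k zs σ ω = 0
    · rw [if_pos hD]
      unfold ww
      by_cases hw : T < tm c σ ω (k :: zs) ∧ tm c σ ω (k :: zs) ≤ T + A0
      · rw [if_pos hw]
        have h3 : (1 : ℝ≥0∞) ≤ ∑ z : V, Tz vert c T U A0 Rt Rr S0 R z k zs σ ω := by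
          have h4 : Tz vert c T U A0 Rt Rr S0 R (vert (σ k)) k zs σ ω = 1 := by
            unfold Tz
            rw [if_pos ⟨hD, hw.1, hw.2, rfl⟩]
          rw [← h4]
          exact Finset.single_le_sum (f := fun z => Tz vert c T U A0 Rt Rr S0 R z k zs σ ω)
            (fun _ _ => bot_le) (mem_univ (vert (σ k)))
        calc ex α (tm c σ ω (k :: zs)) = ex α (tm c σ ω (k :: zs)) * 1 := (mul_one _).symm
          _ ≤ _ := mul_le_mul' (ex_le_ex hα hw.1.le) h3
      · rw [if_neg hw]; exact bot_le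
    · rw [if_neg hD]; exact bot_le
  refine le_trans (Finset.sum_le_sum h1) ?_
  rw [← Finset.mul_sum, Finset.sum_comm]
  gcongr
  refine le_trans (Finset.sum_le_sum (fun z _ => Tz_total (ok := ok) (T := T) (A0 := A0)
    (Rr := Rr) (S0 := S0) (R := R) hpos hRt z)) ?_
  rw [Finset.sum_ite, sum_const_zero, add_zero, sum_const, nsmul_eq_mul, mul_one]

theorem sum_zo {ι : Type*} (s : Finset ι) (f : ι → ℝ≥0∞) (h : ∀ i ∈ s, f i = 0 ∨ 1 ≤ f i) :
    ∑ i ∈ s, f i = 0 ∨ 1 ≤ ∑ i ∈ s, f i := by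
  by_cases h0 : ∀ i ∈ s, f i = 0
  · exact Or.inl (Finset.sum_eq_zero h0)
  · push Not at h0
    obtain ⟨i, hi, hne⟩ := h0
    right
    exact le_trans ((h i hi).resolve_left hne) (Finset.single_le_sum (fun _ _ => bot_le) hi)

theorem add_zo {a b : ℝ≥0∞} (ha : a = 0 ∨ 1 ≤ a) (hb : b = 0 ∨ 1 ≤ b) :
    a + b = 0 ∨ 1 ≤ a + b := by
  rcases ha with ha | ha
  · rw [ha, zero_add]; exact hb
  · exact Or.inr (le_trans ha le_self_add)

theorem SumPre_zo {f : H → List H → ℝ≥0∞} (h : ∀ g ys, f g ys = 0 ∨ 1 ≤ f g ys) :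
    ∀ γ, SumPre f γ = 0 ∨ 1 ≤ SumPre f γ := by
  intro γ
  induction γ with
  | nil => exact Or.inl rfl
  | cons g ys ih => exact add_zo (h g ys) ih

theorem DD_zo (k : H) (zs : List H) :
    DD vert c U R Rt Rr S0 k zs σ ω = 0 ∨ 1 ≤ DD vert c U R Rt Rr S0 k zs σ ω := by
  apply SumPre_zo
  intro g ys
  apply add_zo
  apply add_zo
  · apply SumPre_zo
    intro g' ys'
    exact sum_zo _ _ (fun f _ => HN_zo _ _ _ _ _ _ _ _ _)
  · exact sum_zo _ _ (fun f _ => HN_zo _ _ _ _ _ _ _ _ _)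
  · exact sum_zo _ _ (fun f _ => HN_zo _ _ _ _ _ _ _ _ _)

theorem ww_le (k : H) (zs : List H) : ww c α T A0 k zs σ ω ≤
    Tu vert c T U α A0 Rt Rr S0 R k zs σ ω +
      ww c α T A0 k zs σ ω * DD vert c U R Rt Rr S0 k zs σ ω := by
  by_cases hD : DD vert c U R Rt Rr S0 k zs σ ω = 0
  · unfold Tu
    rw [if_pos hD]
    exact le_self_add
  · refine le_trans ?_ le_add_self
    calc ww c α T A0 k zs σ ω = ww c α T A0 k zs σ ω * 1 := (mul_one _).symm
      _ ≤ _ := by gcongr; exact (DD_zo k zs).resolve_left hD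

/-- All paths are undisturbed or disturbed. -/
theorem Y_le (Rt' : Finset H) : ∑ e ∈ Rt', PS vert c ok T U (ww c α T A0) R e [] σ ω ≤
    ∑ e ∈ Rt', PS vert c ok T U (Tu vert c T U α A0 Rt Rr S0 R) R e [] σ ω +
    ∑ e ∈ Rt', PS vert c ok T U (fun k zs σ ω => ww c α T A0 k zs σ ω *
      DD vert c U R Rt Rr S0 k zs σ ω) R e [] σ ω := by
  rw [← Finset.sum_add_distrib]
  apply Finset.sum_le_sum
  intro e _
  rw [← PS_add]
  exact PS_mono' (le_refl _) e [] (fun k zs => ww_le k zs)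

end

end Pool.Agent.H949.CX
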