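import Pool.Agent.H949.CX.Cst
import Pool.Agent.H949.CX.Out

/-!
# The main estimate for one graph
-/

set_option linter.unusedSectionVars false
set_option linter.unusedSimpArgs false
set_option linter.unusedVariables false

open MeasureTheory Finset Filter Topology
open scoped ENNReal

namespace Pool.Agent.H949.CX

open Pool.Agent.H949.CM

variable {V H : Type} [Fintype V] [DecidableEq V] [Fintype H] [DecidableEq H]

/-- The main estimate: from `K0` to `Q0` free half-edges `Rt` at `Uc`, the colour `c` reaches a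
positive fraction of the vertices, except on an event of probability at most `ε` described by
`G`. -/
def MEst (κ : Measure (ℝ × ℝ)) (vert : H → V) (c : Bool) (ε δ : ℝ) (K0 Q0 : ℕ) (S0 : ℝ) : Prop :=
  ∀ (l : List (H × H)) (Uc Ue : Finset V) (Rt Rr : Finset H),
    (∀ g ∈ dom l, vert g ∈ Uc ∪ Ue) → (Al l).Nonempty →
    (∀ f ∈ Rt, vert f ∈ Uc ∧ f ∉ dom l) → (∀ f ∈ Rr, vert f ∈ Ue ∧ f ∉ dom l) →
    K0 ≤ Rt.card → Rt.card ≤ Q0 → Rr.card ≤ Q0 → (dom l).card ≤ Q0 →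
    Qd vert (Uc ∪ Ue) ≤ Q0 → (∀ z ∈ Uc, 1 ≤ deg vert z) →
    ∃ (G : Mt H → Wt H → ℝ≥0∞) (ok : V → ℝ → Prop) (T : ℝ) (R : ℕ), (∀ σ, Measurable (G σ)) ∧
      (∀ τ, Pos τ → EE κ l τ G ≤ ENNReal.ofReal ε) ∧
      ∀ σ ω, Pos ω → G σ ω < 1 →
        (∀ f ∈ Rr, ∀ z ∈ Uc, HN vert (!c) z R (Uc ∪ Ue) f S0 σ ω = 0) ∧
        ENNReal.ofReal (δ * (Fintype.card H : ℝ)) ≤
          open Classical in (((univ.filter (fun z =>
            IsEnd vert c ok T (Uc ∪ Ue) Rt Rr S0 R σ ω z)).card : ℕ) : ℝ≥0∞)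

theorem ofReal_sum_nat {ι : Type*} (s : Finset ι) (f : ι → ℕ) :
    ∑ i ∈ s, ((f i : ℕ) : ℝ≥0∞) = ENNReal.ofReal (∑ i ∈ s, ((f i : ℕ) : ℝ)) := by
  rw [ENNReal.ofReal_sum_of_nonneg (fun _ _ => Nat.cast_nonneg _)]
  simp

theorem ex_neg_eq (a s : ℝ) : ex (-a) s = ENNReal.ofReal (Real.exp (a * s)) := by
  unfold ex
  congr 2
  ring

section

variable {κ : Measure (ℝ × ℝ)} [IsProbabilityMeasure κ] {c : Bool} {α ν K1 η ε1 : ℝ}
    {F1 F2 : ℝ → ℝ≥0∞} {FA1 FA2 q q1 : ℝ≥0∞} {Fh : Bool → ℝ → ℝ≥0∞} {FAh : ℝ≥0∞}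
    {θ' : Bool → ℝ} {ρ' A0 K3 A1 cd c0 C0 : ℝ} {Q0 : ℕ} {S0 ε2 : ℝ} {vert : H → V}

theorem Big.Bsub (hB : Big α cd ε1 FAh θ' ρ' A0 K3 A1 Q0 S0 ε2 (Fintype.card H)) :
    ((Fintype.card H - (Q0 + 8 * Rm A1 (Fintype.card H)) - 1 : ℕ) : ℝ) =
      (Fintype.card H : ℝ) - (Q0 + 8 * Rm A1 (Fintype.card H) + 1 : ℕ) ∧
    (Fintype.card H : ℝ) / 2 ≤
      ((Fintype.card H - (Q0 + 8 * Rm A1 (Fintype.card H)) - 1 : ℕ) : ℝ) := by
  have hm0 : (0 : ℝ) < (Fintype.card H : ℝ) := by exact_mod_cast hB.m1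
  have h1 : Q0 + 8 * Rm A1 (Fintype.card H) + 1 ≤ Fintype.card H := by
    have := hB.half
    have h2 : ((Q0 + 8 * Rm A1 (Fintype.card H) + 1 : ℕ) : ℝ) ≤ (Fintype.card H : ℝ) := by
      linarith
    exact_mod_cast h2
  have h2 : Fintype.card H - (Q0 + 8 * Rm A1 (Fintype.card H)) - 1 =
      Fintype.card H - (Q0 + 8 * Rm A1 (Fintype.card H) + 1) := by omega
  rw [h2, Nat.cast_sub h1]
  refine ⟨rfl, ?_⟩
  have := hB.half
  linarith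

theorem Big.c1_eq (hB : Big α cd ε1 FAh θ' ρ' A0 K3 A1 Q0 S0 ε2 (Fintype.card H)) :
    ((Fintype.card H - (Q0 + 8 * Rm A1 (Fintype.card H)) - 1 : ℕ) : ℝ≥0∞)⁻¹ =
      ENNReal.ofReal (((Fintype.card H : ℝ) -
        (Q0 + 8 * Rm A1 (Fintype.card H) + 1 : ℕ))⁻¹) := by
  have hm0 : (0 : ℝ) < (Fintype.card H : ℝ) := by exact_mod_cast hB.m1
  obtain ⟨h1, h2⟩ := hB.Bsub
  have h3 : (0 : ℝ) < (Fintype.card H : ℝ) - (Q0 + 8 * Rm A1 (Fintype.card H) + 1 : ℕ) := by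
    rw [← h1]; linarith
  rw [← h1, ENNReal.ofReal_inv_of_pos (by rw [h1]; exact h3), ENNReal.ofReal_natCast]

theorem Big.c1_le (hB : Big α cd ε1 FAh θ' ρ' A0 K3 A1 Q0 S0 ε2 (Fintype.card H)) :
    ((Fintype.card H - (Q0 + 8 * Rm A1 (Fintype.card H)) - 1 : ℕ) : ℝ≥0∞)⁻¹ ≤
      ENNReal.ofReal (2 / (Fintype.card H : ℝ)) := by
  have hm0 : (0 : ℝ) < (Fintype.card H : ℝ) := by exact_mod_cast hB.m1
  rw [hB.c1_eq]
  apply ENNReal.ofReal_le_ofReal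
  have := hB.half
  rw [inv_le_comm₀ (by linarith) (by positivity)]
  rw [inv_div]
  linarith

theorem Big.c1_ge (hB : Big α cd ε1 FAh θ' ρ' A0 K3 A1 Q0 S0 ε2 (Fintype.card H)) :
    ENNReal.ofReal ((Fintype.card H : ℝ)⁻¹) ≤
      ((Fintype.card H - (Q0 + 8 * Rm A1 (Fintype.card H)) - 1 : ℕ) : ℝ≥0∞)⁻¹ := by
  have hm0 : (0 : ℝ) < (Fintype.card H : ℝ) := by exact_mod_cast hB.m1
  rw [hB.c1_eq]
  apply ENNReal.ofReal_le_ofReal
  have := hB.half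
  apply inv_anti₀ (by linarith)
  have : (0 : ℝ) ≤ ((Q0 + 8 * Rm A1 (Fintype.card H) + 1 : ℕ) : ℝ) := Nat.cast_nonneg _
  linarith

/-- `m ^ (-cd) ≤ m ^ (-cd/2)`. -/
theorem pow_cd_le {m : ℕ} (hm : 1 ≤ m) {cd : ℝ} (hcd : 0 < cd) :
    (m : ℝ) ^ (-cd) ≤ (m : ℝ) ^ (-(cd / 2)) :=
  Real.rpow_le_rpow_of_exponent_le (by exact_mod_cast hm) (by linarith)

theorem sum_deg_le (hD : DegOK vert ν K1 η cd c0 C0) (hν : 1 < ν) (hm : 1 ≤ Fintype.card H) :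
    ∑ y : H, ((deg vert (vert y) - 1 : ℕ) : ℝ) ≤
      ν * ((1 + (Fintype.card H : ℝ) ^ (-cd)) * (Fintype.card H : ℝ)) := by
  have hm0 : (0 : ℝ) < (Fintype.card H : ℝ) := by exact_mod_cast hm
  have h1 : (Fintype.card H : ℝ) ^ (1 - cd) =
      (Fintype.card H : ℝ) ^ (-cd) * (Fintype.card H : ℝ) := by
    nth_rewrite 3 [← Real.rpow_one (Fintype.card H : ℝ)]
    rw [← Real.rpow_add hm0]
    congr 1
    ring
  have h2 := hD.up
  rw [h1] at h2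
  have h3 : 0 ≤ (Fintype.card H : ℝ) ^ (-cd) * (Fintype.card H : ℝ) := by positivity
  nlinarith

theorem Big.hS (hB : Big α cd ε1 FAh θ' ρ' A0 K3 A1 Q0 S0 ε2 (Fintype.card H))
    (hD : DegOK vert ν K1 η cd c0 C0) (hν : 1 < ν) :
    ((Fintype.card H - (Q0 + 8 * Rm A1 (Fintype.card H)) - 1 : ℕ) : ℝ≥0∞)⁻¹ *
      ∑ y : H, ((deg vert (vert y) - 1 : ℕ) : ℝ≥0∞) ≤ ENNReal.ofReal ν *
        ENNReal.ofReal (1 + (Fintype.card H : ℝ) ^ (-(cd / 2))) := by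
  have hm0 : (0 : ℝ) < (Fintype.card H : ℝ) := by exact_mod_cast hB.m1
  rw [ofReal_sum_nat, hB.c1_eq]
  have hh := hB.half
  have h3 : (0 : ℝ) < (Fintype.card H : ℝ) - (Q0 + 8 * Rm A1 (Fintype.card H) + 1 : ℕ) := by
    linarith
  rw [← ENNReal.ofReal_mul (by positivity), ← ENNReal.ofReal_mul (by linarith)]
  apply ENNReal.ofReal_le_ofReal
  set b : ℝ := ((Q0 + 8 * Rm A1 (Fintype.card H) + 1 : ℕ) : ℝ) with hb
  calc ((Fintype.card H : ℝ) - b)⁻¹ * ∑ y : H, ((deg vert (vert y) - 1 : ℕ) : ℝ)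
      ≤ ((Fintype.card H : ℝ) - b)⁻¹ * (ν * ((1 + (Fintype.card H : ℝ) ^ (-cd)) *
          (Fintype.card H : ℝ))) := by
        gcongr
        exact sum_deg_le hD hν hB.m1
    _ = ν * ((1 + (Fintype.card H : ℝ) ^ (-cd)) *
          ((Fintype.card H : ℝ) / ((Fintype.card H : ℝ) - b))) := by
        rw [div_eq_mul_inv]; ring
    _ ≤ ν * (1 + (Fintype.card H : ℝ) ^ (-(cd / 2))) := by
        have := hB.ratio
        gcongr

theorem Big.hm (hB : Big α cd ε1 FAh θ' ρ' A0 K3 A1 Q0 S0 ε2 (Fintype.card H)) :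
    ((Fintype.card H - (Q0 + 8 * Rm A1 (Fintype.card H)) - 1 : ℕ) : ℝ≥0∞)⁻¹ *
      ((Fintype.card H : ℕ) : ℝ≥0∞) ≤
        ENNReal.ofReal (1 + (Fintype.card H : ℝ) ^ (-(cd / 2))) := by
  have hm0 : (0 : ℝ) < (Fintype.card H : ℝ) := by exact_mod_cast hB.m1
  rw [hB.c1_eq, ← ENNReal.ofReal_natCast]
  have hh := hB.half
  have h3 : (0 : ℝ) < (Fintype.card H : ℝ) - (Q0 + 8 * Rm A1 (Fintype.card H) + 1 : ℕ) := by
    linarith
  rw [← ENNReal.ofReal_mul (by positivity)]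
  apply ENNReal.ofReal_le_ofReal
  set b : ℝ := ((Q0 + 8 * Rm A1 (Fintype.card H) + 1 : ℕ) : ℝ) with hb
  refine le_trans ?_ hB.ratio
  have h4 : 0 ≤ (Fintype.card H : ℝ) ^ (-cd) := by positivity
  have h5 : 0 ≤ (Fintype.card H : ℝ) / ((Fintype.card H : ℝ) - b) := by positivity
  rw [inv_mul_eq_div]
  nlinarith

/-- The powers of `dd`. -/
theorem Big.dd_pow (hB : Big α cd ε1 FAh θ' ρ' A0 K3 A1 Q0 S0 ε2 (Fintype.card H))
    (hε1 : ε1 ≤ 1) :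
    (ENNReal.ofReal (1 + (Fintype.card H : ℝ) ^ (-(cd / 2))) ^ Rm A1 (Fintype.card H)) ^ 2 ≤
      1 + ENNReal.ofReal ε1 ∧
    ENNReal.ofReal (1 + (Fintype.card H : ℝ) ^ (-(cd / 2))) ^ Rm A1 (Fintype.card H) ≤ 2 ∧
    ENNReal.ofReal (1 + (Fintype.card H : ℝ) ^ (-(cd / 2))) ^ (2 * Rm A1 (Fintype.card H)) ≤ 2 := by
  have hm0 : (0 : ℝ) < (Fintype.card H : ℝ) := by exact_mod_cast hB.m1
  have hx0 : 0 ≤ (Fintype.card H : ℝ) ^ (-(cd / 2)) := by positivity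
  have hdd := hB.dd
  set x : ℝ := 1 + (Fintype.card H : ℝ) ^ (-(cd / 2)) with hx
  set R := Rm A1 (Fintype.card H) with hR
  have hε0 : 0 ≤ ε1 := by
    have h1 : (1 : ℝ) ≤ (x ^ R) ^ 2 := by
      have : (1 : ℝ) ≤ x := by linarith
      exact one_le_pow₀ (one_le_pow₀ this)
    linarith
  have h1 : (ENNReal.ofReal x ^ R) ^ 2 = ENNReal.ofReal ((x ^ R) ^ 2) := by
    rw [ENNReal.ofReal_pow (by positivity), ENNReal.ofReal_pow (by positivity)]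
  have h2 : ENNReal.ofReal ((x ^ R) ^ 2) ≤ 1 + ENNReal.ofReal ε1 := by
    rw [← ENNReal.ofReal_one, ← ENNReal.ofReal_add (by norm_num) hε0]
    exact ENNReal.ofReal_le_ofReal hdd
  have h3 : 1 ≤ x ^ R := one_le_pow₀ (by linarith)
  have h4 : x ^ R ≤ 2 := by nlinarith
  refine ⟨by rw [h1]; exact h2, ?_, ?_⟩
  · rw [← ENNReal.ofReal_pow (by positivity)]
    calc ENNReal.ofReal (x ^ R) ≤ ENNReal.ofReal 2 := ENNReal.ofReal_le_ofReal h4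
      _ = 2 := by simp
  · have h5 : ENNReal.ofReal x ^ (2 * R) = ENNReal.ofReal ((x ^ R) ^ 2) := by
      rw [← h1]; ring
    rw [h5]
    calc ENNReal.ofReal ((x ^ R) ^ 2) ≤ ENNReal.ofReal 2 :=
          ENNReal.ofReal_le_ofReal (by linarith)
      _ = 2 := by simp

end

end Pool.Agent.H949.CX
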