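import Pool.Agent.H949.CX.Quant

/-!
# The main estimate for one graph: the assumptions of the second moment estimate
-/

set_option linter.unusedSectionVars false
set_option linter.unusedSimpArgs false
set_option linter.unusedVariables false

open MeasureTheory Finset Filter Topology
open scoped ENNReal

namespace Pool.Agent.H949.CX

open Pool.Agent.H949.CM

variable {V H : Type} [Fintype V] [DecidableEq V] [Fintype H] [DecidableEq H]

section

variable {κ : Measure (ℝ × ℝ)} [IsProbabilityMeasure κ] {c : Bool} {α ν K1 η ε1 : ℝ}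
    {F1 F2 : ℝ → ℝ≥0∞} {FA1 FA2 q q1 : ℝ≥0∞} {Fh : Bool → ℝ → ℝ≥0∞} {FAh : ℝ≥0∞}
    {θ' : Bool → ℝ} {ρ' A0 K3 A1 cd c0 C0 : ℝ} {Q0 : ℕ} {S0 ε2 : ℝ} {vert : H → V}

/-- The time horizon. -/
noncomputable def Tm (α ε2 : ℝ) (m : ℕ) : ℝ := Real.log ((m : ℝ) * ε2) / α

theorem Big.T0 {m : ℕ} (hB : Big α cd ε1 FAh θ' ρ' A0 K3 A1 Q0 S0 ε2 m) (hα0 : 0 < α) :
    0 ≤ Tm α ε2 m := by
  unfold Tm
  exact div_nonneg (Real.log_nonneg hB.mε) hα0.le

theorem Big.expT {m : ℕ} (hB : Big α cd ε1 FAh θ' ρ' A0 K3 A1 Q0 S0 ε2 m) (hα0 : 0 < α) (x : ℝ) :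
    Real.exp (x * Tm α ε2 m) = ((m : ℝ) * ε2) ^ (x / α) := by
  have h1 : 0 < (m : ℝ) * ε2 := lt_of_lt_of_le one_pos hB.mε
  rw [Real.rpow_def_of_pos h1]
  congr 1
  unfold Tm
  field_simp

theorem Big.mε_le {m : ℕ} (hB : Big α cd ε1 FAh θ' ρ' A0 K3 A1 Q0 S0 ε2 m) (hε21 : ε2 ≤ 1) :
    (m : ℝ) * ε2 ≤ m := by
  have : (0 : ℝ) ≤ m := Nat.cast_nonneg _
  nlinarith

theorem Big.leaf (hB : Big α cd ε1 FAh θ' ρ' A0 K3 A1 Q0 S0 ε2 (Fintype.card H))
    (hα0 : 0 < α) (hε21 : ε2 ≤ 1) (hθ0 : ∀ c', 0 ≤ θ' c') (c' : Bool) :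
    (1 / 2 : ℝ≥0∞) ^ Rm A1 (Fintype.card H) *
      ex (-(θ' c')) (Tm α ε2 (Fintype.card H) + A0 + S0) ≤
      ((Fintype.card H - (Q0 + 8 * Rm A1 (Fintype.card H)) - 1 : ℕ) : ℝ≥0∞)⁻¹ := by
  have hm0 : (0 : ℝ) < (Fintype.card H : ℝ) := by exact_mod_cast hB.m1
  refine le_trans ?_ hB.c1_ge
  have h1 : (1 / 2 : ℝ≥0∞) ^ Rm A1 (Fintype.card H) =
      ENNReal.ofReal ((1 / 2) ^ Rm A1 (Fintype.card H)) := by
    rw [ENNReal.ofReal_pow (by norm_num)]
    congr 1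
    rw [ENNReal.ofReal_div_of_pos (by norm_num)]
    simp
  rw [h1, ex_neg_eq, ← ENNReal.ofReal_mul (by positivity)]
  apply ENNReal.ofReal_le_ofReal
  have h2 : Real.exp (θ' c' * (Tm α ε2 (Fintype.card H) + A0 + S0)) =
      ((Fintype.card H : ℝ) * ε2) ^ (θ' c' / α) * Real.exp (θ' c' * (A0 + S0)) := by
    rw [← hB.expT hα0, ← Real.exp_add]
    congr 1
    ring
  have h3 : ((Fintype.card H : ℝ) * ε2) ^ (θ' c' / α) ≤ (Fintype.card H : ℝ) ^ (θ' c' / α) := by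
    apply Real.rpow_le_rpow (le_trans zero_le_one hB.mε) (hB.mε_le hε21)
    exact div_nonneg (hθ0 c') hα0.le
  have h4 := hB.pow2 c'
  have h5 : (Fintype.card H : ℝ) ^ (θ' c' / α + 1) =
      (Fintype.card H : ℝ) ^ (θ' c' / α) * (Fintype.card H : ℝ) := by
    rw [Real.rpow_add hm0, Real.rpow_one]
  rw [h5] at h4
  rw [h2]
  calc (1 / 2 : ℝ) ^ Rm A1 (Fintype.card H) *
      (((Fintype.card H : ℝ) * ε2) ^ (θ' c' / α) * Real.exp (θ' c' * (A0 + S0)))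
      ≤ (1 / 2 : ℝ) ^ Rm A1 (Fintype.card H) *
      ((Fintype.card H : ℝ) ^ (θ' c' / α) * Real.exp (θ' c' * (A0 + S0))) := by gcongr
    _ = (Real.exp (θ' c' * (A0 + S0)) * ((Fintype.card H : ℝ) ^ (θ' c' / α) *
          (Fintype.card H : ℝ)) * (1 / 2) ^ Rm A1 (Fintype.card H)) *
          (Fintype.card H : ℝ)⁻¹ := by
        field_simp
    _ ≤ 1 * (Fintype.card H : ℝ)⁻¹ := by gcongr
    _ = _ := one_mul _

theorem big_env (C : Cst κ c α ν K1 η ε1 F1 F2 FA1 FA2 q q1 Fh FAh θ' ρ' A0 K3 A1)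
    (hB : Big α cd ε1 FAh θ' ρ' A0 K3 A1 Q0 S0 ε2 (Fintype.card H))
    (hD : DegOK vert ν K1 η cd c0 C0) (hcd : 0 < cd) (hε21 : ε2 ≤ 1) (hS0 : 0 ≤ S0) :
    Env κ vert c (okf vert K3 (α / 2) (Tm α ε2 (Fintype.card H))) α (α / 2)
      (Tm α ε2 (Fintype.card H)) A0 S0 (ENNReal.ofReal ν)
      (ENNReal.ofReal (1 + (Fintype.card H : ℝ) ^ (-(cd / 2))))
      (((Fintype.card H - (Q0 + 8 * Rm A1 (Fintype.card H)) - 1 : ℕ) : ℝ≥0∞)⁻¹)
      (ENNReal.ofReal K3) ((2 * (1 + FAh) + 1) *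
        (((Fintype.card H - (Q0 + 8 * Rm A1 (Fintype.card H)) - 1 : ℕ) : ℝ≥0∞)⁻¹)) q FA2
      (fun s => F2 (Tm α ε2 (Fintype.card H) - s)) (Q0 + 8 * Rm A1 (Fintype.card H))
      (Rm A1 (Fintype.card H)) := by
  have hm0 : (0 : ℝ) < (Fintype.card H : ℝ) := by exact_mod_cast hB.m1
  have hα0 := C.hα0
  have hν1 := C.hν1
  have hx0 : 0 ≤ (Fintype.card H : ℝ) ^ (-(cd / 2)) := by positivity
  have hnu0 : ENNReal.ofReal ν ≠ 0 := by simp; linarith
  have hdd1 : (1 : ℝ≥0∞) ≤ ENNReal.ofReal (1 + (Fintype.card H : ℝ) ^ (-(cd / 2))) := by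
    rw [← ENNReal.ofReal_one]
    exact ENNReal.ofReal_le_ofReal (by linarith)
  have hdd2 : ENNReal.ofReal (1 + (Fintype.card H : ℝ) ^ (-(cd / 2))) ≤ 2 := by
    have h1 : (Fintype.card H : ℝ) ^ (-(cd / 2)) ≤ 1 :=
      Real.rpow_le_one_of_one_le_of_nonpos (by exact_mod_cast hB.m1) (by linarith)
    calc ENNReal.ofReal (1 + (Fintype.card H : ℝ) ^ (-(cd / 2))) ≤ ENNReal.ofReal 2 :=
          ENNReal.ofReal_le_ofReal (by linarith)
      _ = 2 := by simp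
  have hc1t : (((Fintype.card H - (Q0 + 8 * Rm A1 (Fintype.card H)) - 1 : ℕ) : ℝ≥0∞)⁻¹) ≠ ⊤ :=
    ne_top_of_le_ne_top ENNReal.ofReal_ne_top hB.c1_le
  have hS := hB.hS hD hν1
  have hsub : α - α / 2 = α / 2 := by ring
  have hT0 := hB.T0 hα0
  exact {
    hc1 := le_refl _
    c1t := hc1t
    hS := hS
    hm := hB.hm
    nu0 := hnu0
    nut := ENNReal.ofReal_ne_top
    dd1 := hdd1
    ddt := ENNReal.ofReal_ne_top
    hα := C.hα c
    okm := okf_meas vert K3 (α / 2) _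
    ok0 := fun v s h => h.1
    ok1 := fun v s h => by
      rw [ex_neg_eq, ← ENNReal.ofReal_mul (by linarith [C.K30]), ← ENNReal.ofReal_natCast]
      exact ENNReal.ofReal_le_ofReal h.2.1
    ok2 := fun v s h => by
      rw [ex_neg_eq, ← ENNReal.ofReal_mul (by linarith [C.K30]), ← ENNReal.ofReal_natCast]
      exact ENNReal.ofReal_le_ofReal h.2.2
    T0 := hT0
    A00 := C.A00
    S00 := hS0
    g00 := by positivity
    gα := by linarith
    hit := by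
      intro c' z l τ W f u h1 h2 h3 h4 h5 h6 h7
      refine hit_bound (lf := 1 / 2) (θ := θ' c') hα0.le (C.hpos c') (le_refl _) hc1t hS hdd1
        ENNReal.ofReal_ne_top ENNReal.ofReal_ne_top (C.Fhm c') (C.FhA c') (C.Fhr c')
        (C.hθ0 c') ?_ (umax := Tm α ε2 (Fintype.card H) + A0 + S0) ?_ ?_ ?_ z l τ W f u h1 h2 h3
        h4 h5 h6 h7
      · calc ENNReal.ofReal ν * ENNReal.ofReal (1 + (Fintype.card H : ℝ) ^ (-(cd / 2))) *
              ∫⁻ w, ex (θ' c') (pr c' w) ∂κ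
            = ENNReal.ofReal (1 + (Fintype.card H : ℝ) ^ (-(cd / 2))) *
              (ENNReal.ofReal ν * ∫⁻ w, ex (θ' c') (pr c' w) ∂κ) := by ring
          _ ≤ 2 * (1 / 4) := mul_le_mul' hdd2 (C.hθ c')
          _ = 1 / 2 := by
              rw [show (4 : ℝ≥0∞) = 2 * 2 by norm_num, one_div, one_div,
                ENNReal.mul_inv (Or.inl (by norm_num)) (Or.inl (by norm_num)), ← mul_assoc,
                ENNReal.mul_inv_cancel (by norm_num) (by norm_num), one_mul]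
      · unfold Rm; omega
      · exact (hB.dd_pow C.hε11).2.1
      · exact hB.leaf hα0 hε21 C.hθ0 c'
    CHt := ENNReal.mul_ne_top (ENNReal.add_ne_top.2 ⟨ENNReal.mul_ne_top (by norm_num)
      (ENNReal.add_ne_top.2 ⟨ENNReal.one_ne_top, C.FAht⟩), ENNReal.one_ne_top⟩) hc1t
    hF := by
      intro s hs
      have h1 := C.F2r (Tm α ε2 (Fintype.card H) - s) (by linarith)
      rw [hsub]
      refine le_trans (le_of_eq ?_) h1
      congr 1
      apply lintegral_congr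
      intro w
      have e1 : Tm α ε2 (Fintype.card H) - (s + pr c w) =
        Tm α ε2 (Fintype.card H) - s - pr c w := by ring
      rw [e1]
      by_cases hw : s + pr c w ≤ Tm α ε2 (Fintype.card H)
      · rw [if_pos hw, if_pos (by linarith)]
      · rw [if_neg hw, if_neg (by intro h; apply hw; linarith)]
    Frm := C.F2m.comp (measurable_const.sub measurable_id)
    hFA := fun s _ => C.F2A _
    hq := by
      rw [hsub]
      exact C.hq }

end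

end Pool.Agent.H949.CX
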