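import Pool.Agent.H949.CX.Quant2

/-!
# The main estimate for one graph: the first moment
-/

set_option linter.unusedSectionVars false
set_option linter.unusedSimpArgs false
set_option linter.unusedVariables false

open MeasureTheory Finset Filter Topology
open scoped ENNReal

namespace Pool.Agent.H949.CX

open Pool.Agent.H949.CM

variable {V H : Type} [Fintype V] [DecidableEq V] [Fintype H] [DecidableEq H]

section

variable {κ : Measure (ℝ × ℝ)} [IsProbabilityMeasure κ] {c : Bool} {α ν K1 η ε1 : ℝ}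
    {F1 F2 : ℝ → ℝ≥0∞} {FA1 FA2 q q1 : ℝ≥0∞} {Fh : Bool → ℝ → ℝ≥0∞} {FAh : ℝ≥0∞}
    {θ' : Bool → ℝ} {ρ' A0 K3 A1 cd c0 C0 : ℝ} {Q0 : ℕ} {S0 ε2 : ℝ} {vert : H → V}

/-- The bound for the squares of the degrees on a path. -/
noncomputable def gmN (K3 ε2 : ℝ) (m : ℕ) : ℕ := ⌈K3 ^ 2 * ((m : ℝ) * ε2) ^ (1 / 2 : ℝ)⌉₊

/-- The relative loss per step that comes from the used vertices. -/
noncomputable def dlN (cd A1 K3 ε2 : ℝ) (Q0 m : ℕ) : ℝ :=
  ((m : ℝ) ^ (1 - cd) + (Q0 + Rm A1 m * gmN K3 ε2 m : ℕ)) / m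

theorem ofReal_card_inv (hm : 1 ≤ Fintype.card H) :
    (((Fintype.card H : ℕ) : ℝ≥0∞))⁻¹ = ENNReal.ofReal ((Fintype.card H : ℝ)⁻¹) := by
  have hm0 : (0 : ℝ) < (Fintype.card H : ℝ) := by exact_mod_cast hm
  rw [ENNReal.ofReal_inv_of_pos hm0, ENNReal.ofReal_natCast]

/-- The loss function is at least the real loss. -/
theorem bS_ge {T s θ1 x y : ℝ} (hx : 0 ≤ x) (hy : 0 ≤ y) :
    ENNReal.ofReal (x + y * (Real.exp (-(θ1 * s)) + Real.exp (-(θ1 * (T - s))))) =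
      bS T θ1 (ENNReal.ofReal x) (ENNReal.ofReal y) s := by
  unfold bS ex
  rw [← ENNReal.ofReal_add (Real.exp_pos _).le (Real.exp_pos _).le,
    ← ENNReal.ofReal_mul hy, ← ENNReal.ofReal_add hx (by positivity)]

theorem low_bound (C : Cst κ c α ν K1 η ε1 F1 F2 FA1 FA2 q q1 Fh FAh θ' ρ' A0 K3 A1)
    (hB : Big α cd ε1 FAh θ' ρ' A0 K3 A1 Q0 S0 ε2 (Fintype.card H))
    (hD : DegOK vert ν K1 η cd c0 C0) (hcd : 0 < cd) (hε21 : ε2 ≤ 1)
    {U : Finset V} {l : List (H × H)} {τ : Wt H} (hl : (Al l).Nonempty)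
    (hdU : ∀ g ∈ dom l, vert g ∈ U) (hQ : Qd vert U ≤ Q0) {e : H} (heU : vert e ∈ U)
    (hed : e ∉ dom l) :
    (ENNReal.ofReal ν)⁻¹ ≤ EE κ l τ (PS vert c
      (okf vert K3 (α / 2) (Tm α ε2 (Fintype.card H))) (Tm α ε2 (Fintype.card H)) U
      (ww c α (Tm α ε2 (Fintype.card H)) A0) (Rm A1 (Fintype.card H)) e []) +
      (ENNReal.ofReal ν)⁻¹ * (8 * ENNReal.ofReal ε1) := by
  classical
  have hm0 : (0 : ℝ) < (Fintype.card H : ℝ) := by exact_mod_cast hB.m1
  have hα0 := C.hα0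
  have hν1 := C.hν1
  have hnu0 : ENNReal.ofReal ν ≠ 0 := by simp; linarith
  have hT0 := hB.T0 hα0
  set m := Fintype.card H with hm
  set T := Tm α ε2 m with hT
  set R := Rm A1 m with hR
  set dd := ENNReal.ofReal (1 + (m : ℝ) ^ (-(cd / 2))) with hdd
  have hη0 := C.hη0
  have hx0 : 0 ≤ (m : ℝ) ^ (-(cd / 2)) := by positivity
  have hx0' : 0 ≤ (m : ℝ) ^ (1 - cd) := by positivity
  have hm1 : 1 ≤ m := hB.m1
  have hK30 : 0 < K3 := by linarith [C.K30]
  set gm := gmN K3 ε2 m with hgm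
  set Bq : ℕ := Q0 + R * gm with hBq
  set dl : ℝ := ((m : ℝ) ^ (1 - cd) + (Bq : ℕ)) / m with hdl
  have hdl0 : 0 ≤ dl := by rw [hdl]; positivity
  set ctr : ℝ := K1 * K3 ^ (-η) with hctr
  have hctr0 : 0 ≤ ctr := mul_nonneg C.hK1 (by positivity)
  have hpos0 : ∀ᵐ w ∂κ, 0 ≤ pr c w := by
    filter_upwards [C.hpos c] with w hw
    exact hw.le
  have hdd1 : (1 : ℝ≥0∞) ≤ dd := by
    rw [hdd, ← ENNReal.ofReal_one]
    exact ENNReal.ofReal_le_ofReal (by linarith)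
  have hεC := C.hε1
  -- the cutoff
  have hcut := fun (s : ℝ) (hs : 0 ≤ s) (W : Finset V) (φ : H → ℝ) (h1 : ∀ y, 0 ≤ φ y)
    (h2 : ∀ y, φ y ≤ ((deg vert (vert y) : ℕ) : ℝ)) =>
    cut_sum (vert := vert) (g0 := α / 2) (T := T) hη0.le hK30 hs hD.mom W φ h1 h2
  have hq3 : ((m : ℕ) : ℝ≥0∞)⁻¹ * ∑ y : H, ((deg vert (vert y) - 1 : ℕ) : ℝ≥0∞) ≤
      ENNReal.ofReal ν * dd := by
    rw [ofReal_sum_nat, ofReal_card_inv hm1, hdd, ← ENNReal.ofReal_mul (by positivity),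
      ← ENNReal.ofReal_mul (by linarith)]
    apply ENNReal.ofReal_le_ofReal
    have h1 := sum_deg_le hD hν1 hm1
    calc ((m : ℝ))⁻¹ * ∑ y : H, ((deg vert (vert y) - 1 : ℕ) : ℝ)
        ≤ ((m : ℝ))⁻¹ * (ν * ((1 + (m : ℝ) ^ (-cd)) * (m : ℝ))) := by gcongr
      _ = ν * (1 + (m : ℝ) ^ (-cd)) := by field_simp
      _ ≤ ν * (1 + (m : ℝ) ^ (-(cd / 2))) := by
          have := pow_cd_le hm1 hcd
          gcongr
  have hgmle : ∀ (v : V) (s : ℝ), s ≤ T → okf vert K3 (α / 2) T v s →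
      deg vert v * deg vert v ≤ gm := by
    intro v s _ hok
    have h1 := okf_sq hok
    have h2 : Real.exp (α / 2 * T) = ((m : ℝ) * ε2) ^ (1 / 2 : ℝ) := by
      rw [hT, hB.expT hα0]
      congr 1
      field_simp
    rw [h2] at h1
    have h3 := Nat.le_ceil (K3 ^ 2 * ((m : ℝ) * ε2) ^ (1 / 2 : ℝ))
    have h4 : ((deg vert v * deg vert v : ℕ) : ℝ) ≤ (gm : ℝ) := by
      push_cast
      exact le_trans h1 h3
    exact_mod_cast h4
  have hbS : ∀ s : ℝ, bS T (α / 2 * η) (ENNReal.ofReal dl) (ENNReal.ofReal ctr) s =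
      ENNReal.ofReal (dl + ctr * (Real.exp (-(α / 2 * η * s)) +
        Real.exp (-(α / 2 * η * (T - s))))) := fun s => (bS_ge hdl0 hctr0).symm
  have hq2 : ∀ s, 0 ≤ s → s ≤ T → ∀ W : Finset V, Qd vert W ≤ Bq → ENNReal.ofReal ν ≤
      ((m : ℕ) : ℝ≥0∞)⁻¹ * ∑ y ∈ univ.filter
      (fun y : H => vert y ∉ W ∧ okf vert K3 (α / 2) T (vert y) s),
        ((deg vert (vert y) - 1 : ℕ) : ℝ≥0∞) +
      ENNReal.ofReal ν * bS T (α / 2 * η) (ENNReal.ofReal dl) (ENNReal.ofReal ctr) s := by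
    intro s hs0 hsT W hW
    have h1 := hcut s hs0 W (fun y => ((deg vert (vert y) - 1 : ℕ) : ℝ))
      (fun y => Nat.cast_nonneg _) (fun y => by
        exact_mod_cast (Nat.sub_le _ _))
    have h2 := hD.lo
    have hWr : (Qd vert W : ℝ) ≤ (Bq : ℝ) := by exact_mod_cast hW
    set E : ℝ := Real.exp (-(α / 2 * η * s)) + Real.exp (-(α / 2 * η * (T - s))) with hE
    have hE0 : 0 ≤ E := by rw [hE]; positivity
    set Sg : ℝ := ∑ y ∈ univ.filter
      (fun y : H => vert y ∉ W ∧ okf vert K3 (α / 2) T (vert y) s),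
        ((deg vert (vert y) - 1 : ℕ) : ℝ) with hSg
    have hSg0 : 0 ≤ Sg := Finset.sum_nonneg (fun _ _ => Nat.cast_nonneg _)
    calc ENNReal.ofReal ν ≤ ENNReal.ofReal ((m : ℝ)⁻¹ * Sg + (dl + ctr * E)) := by
          apply ENNReal.ofReal_le_ofReal
          have h3 : ν * m ≤ Sg + (m : ℝ) ^ (1 - cd) + Bq + K1 * (m : ℝ) * K3 ^ (-η) * E := by
            linarith
          have h4 : (m : ℝ)⁻¹ * (ν * m) = ν := by field_simp
          rw [← h4]
          calc (m : ℝ)⁻¹ * (ν * m) ≤ (m : ℝ)⁻¹ * (Sg + (m : ℝ) ^ (1 - cd) + Bq +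
                K1 * (m : ℝ) * K3 ^ (-η) * E) := by gcongr
            _ = _ := by
                rw [hdl, hctr]
                field_simp
                ring
      _ = ENNReal.ofReal ((m : ℝ)⁻¹) * ENNReal.ofReal Sg + ENNReal.ofReal (dl + ctr * E) := by
          rw [ENNReal.ofReal_add (by positivity) (by positivity),
            ENNReal.ofReal_mul (by positivity)]
      _ ≤ _ := by
          rw [ofReal_card_inv hm1, ofReal_sum_nat, hbS]
          refine add_le_add (le_refl _) ?_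
          calc ENNReal.ofReal (dl + ctr * E) = 1 * ENNReal.ofReal (dl + ctr * E) :=
                (one_mul _).symm
            _ ≤ _ := by
                refine mul_le_mul' ?_ (le_refl _)
                rw [← ENNReal.ofReal_one]
                exact ENNReal.ofReal_le_ofReal hν1.le
  have hq1 : ∀ s, T < s → s ≤ T + A0 → ∀ W : Finset V, Qd vert W ≤ Bq →
      1 ≤ ((m : ℕ) : ℝ≥0∞)⁻¹ * (((univ.filter (fun y : H => vert y ∉ W ∧
        okf vert K3 (α / 2) T (vert y) s)).card : ℕ) : ℝ≥0∞) +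
        bS T (α / 2 * η) (ENNReal.ofReal dl) (ENNReal.ofReal ctr) s := by
    intro s hsT _ W hW
    have h1 := hcut s (by linarith) W (fun y => 1) (fun y => zero_le_one)
      (fun y => by exact_mod_cast deg_vert_pos vert y)
    have hWr : (Qd vert W : ℝ) ≤ (Bq : ℝ) := by exact_mod_cast hW
    set E : ℝ := Real.exp (-(α / 2 * η * s)) + Real.exp (-(α / 2 * η * (T - s))) with hE
    have hE0 : 0 ≤ E := by rw [hE]; positivity
    rw [Finset.sum_const, Finset.sum_const, nsmul_eq_mul, nsmul_eq_mul, mul_one, mul_one,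
      card_univ] at h1
    set Cg : ℕ := (univ.filter (fun y : H => vert y ∉ W ∧
        okf vert K3 (α / 2) T (vert y) s)).card with hCg
    calc (1 : ℝ≥0∞) = ENNReal.ofReal 1 := ENNReal.ofReal_one.symm
      _ ≤ ENNReal.ofReal ((m : ℝ)⁻¹ * Cg + (dl + ctr * E)) := by
          apply ENNReal.ofReal_le_ofReal
          have h3 : (m : ℝ) ≤ Cg + (m : ℝ) ^ (1 - cd) + Bq + K1 * (m : ℝ) * K3 ^ (-η) * E := by
            linarith
          have h4 : (m : ℝ)⁻¹ * m = 1 := by field_simp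
          rw [← h4]
          calc (m : ℝ)⁻¹ * m ≤ (m : ℝ)⁻¹ * (Cg + (m : ℝ) ^ (1 - cd) + Bq +
                K1 * (m : ℝ) * K3 ^ (-η) * E) := by gcongr
            _ = _ := by
                rw [hdl, hctr]
                field_simp
                ring
      _ = ENNReal.ofReal ((m : ℝ)⁻¹) * ENNReal.ofReal Cg + ENNReal.ofReal (dl + ctr * E) := by
          rw [ENNReal.ofReal_add (by positivity) (by positivity),
            ENNReal.ofReal_mul (by positivity)]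
      _ ≤ _ := by
          rw [ofReal_card_inv hm1, hbS, ENNReal.ofReal_natCast]
  have key := ps_lower (κ := κ) (vert := vert) (c := c)
    (ok := okf vert K3 (α / 2) T) (T := T) (U := U) (D0 := dom l) (α := α) (A0 := A0)
    hnu0 ENNReal.ofReal_ne_top (C.hα c) hpos0 (okf_meas vert K3 (α / 2) T) rfl hq3
    (Bq := Bq) (gm := gm) (bS T (α / 2 * η) (ENNReal.ofReal dl) (ENNReal.ofReal ctr))
    hgmle hq2 hq1
    (LS α T A0 (α / 2 * η) (ENNReal.ofReal ν) dd (ENNReal.ofReal ctr) (ENNReal.ofReal dl) q1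
      (ENNReal.ofReal ρ') F1 F2) (fun s hs => LS_zero s hs)
    (fun r s _ hs => LS_step hnu0 ENNReal.ofReal_ne_top (C.hα c) (C.hpos c) hα0.le
      (by positivity) C.A00 hdd1 ENNReal.ofReal_ne_top ENNReal.ofReal_ne_top C.q1t
      ENNReal.ofReal_ne_top C.F1m C.F2m C.hq1 C.hρ C.F1r C.F2r r s hs)
    R l τ U [] 0 e (adm_start hdU) hed heU (by rw [hBq]; omega) (le_refl _) hT0 hl
  have hex0 : ex α 0 = 1 := by unfold ex; simp
  rw [hex0, one_mul] at key
  refine le_trans key (add_le_add (le_refl _) (mul_le_mul' (le_refl _) ?_))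
  -- the bound for the loss
  unfold LS
  have hddR : dd ^ R ≤ 2 := (hB.dd_pow C.hε11).2.1
  have hb1 : (R : ℝ≥0∞) * ENNReal.ofReal dl ≤ ENNReal.ofReal ε1 := by
    rw [← ENNReal.ofReal_natCast, ← ENNReal.ofReal_mul (Nat.cast_nonneg _)]
    exact ENNReal.ofReal_le_ofReal hB.loss
  have hb2 : ENNReal.ofReal ctr * (q1 * ex (α / 2 * η) 0 + F1 (T - 0) + ex (α / 2 * η) (-A0)) ≤
      ENNReal.ofReal ε1 := by
    refine le_trans (mul_le_mul' (le_refl _) (add_le_add (add_le_add ?_ (C.F1A _)) (le_refl _)))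
      C.hK3
    have : ex (α / 2 * η) 0 = 1 := by unfold ex; simp
    rw [this, mul_one]
  have hb3 : ENNReal.ofReal ν * ex (α / 2) A0 * (ex (α / 2) (T - 0) + F2 (T - 0)) ≤
      ENNReal.ofReal ε1 := by
    refine le_trans (mul_le_mul' (le_refl _) (add_le_add ?_ (C.F2A _))) C.hA0
    unfold ex
    rw [← ENNReal.ofReal_one]
    apply ENNReal.ofReal_le_ofReal
    rw [Real.exp_le_one_iff, sub_zero]
    have := mul_nonneg (half_pos hα0).le hT0
    linarith
  have hb4 : ex (-1) (T - 0) * ENNReal.ofReal ρ' ^ R ≤ ENNReal.ofReal ε1 := by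
    rw [ex_neg_eq, ← ENNReal.ofReal_pow C.hρ0.le, ← ENNReal.ofReal_mul (Real.exp_pos _).le]
    apply ENNReal.ofReal_le_ofReal
    refine le_trans ?_ hB.pow1
    rw [sub_zero, hT, hB.expT hα0, one_mul]
    have h3 : ((m : ℝ) * ε2) ^ (1 / α) ≤ (m : ℝ) ^ (1 / α) := by
      apply Real.rpow_le_rpow (le_trans zero_le_one hB.mε) (hB.mε_le hε21)
      positivity
    have h4 : 0 ≤ ρ' ^ R := pow_nonneg C.hρ0.le _
    gcongr
  calc _ ≤ 2 * (ENNReal.ofReal ε1 + ENNReal.ofReal ε1 + ENNReal.ofReal ε1 + ENNReal.ofReal ε1) :=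
        mul_le_mul' hddR (add_le_add (add_le_add (add_le_add hb1 hb2) hb3) hb4)
    _ = 8 * ENNReal.ofReal ε1 := by ring

end

end Pool.Agent.H949.CX
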