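import Pool.Agent.H949.CX.Quant3

/-!
# The main estimate
-/

set_option linter.unusedSectionVars false
set_option linter.unusedSimpArgs false
set_option linter.unusedVariables false

open MeasureTheory Finset Filter Topology
open scoped ENNReal

namespace Pool.Agent.H949.CX

open Pool.Agent.H949.CM

variable {V H : Type} [Fintype V] [DecidableEq V] [Fintype H] [DecidableEq H]

/-- The constant in the disturbance bound. -/
noncomputable def C6 (α A0 K3 : ℝ) (FA2 FAh q : ℝ≥0∞) (Q0 : ℕ) (S0 : ℝ) : ℝ≥0∞ :=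
  4 * (ENNReal.ofReal K3 ^ 2 * (2 * (2 * (1 + FAh) + 1)) * (FA2 + ex (α / 2) (-A0) + 1) * q) +
  4 * (Q0 * (2 * (2 * (1 + FAh) + 1)) * ENNReal.ofReal K3 * (FA2 + ex (α / 2) (-A0))) +
  4 * (Q0 * (2 * (2 * (1 + FAh) + 1)) * ENNReal.ofReal K3 * ex (-α) S0 *
    (FA2 + ex (α / 2) (-A0)))

theorem sum_deg_le_Qd (vert : H → V) (A U : Finset V) (h : A ⊆ U) :
    ∑ z ∈ A, deg vert z ≤ Qd vert U := by
  unfold Qd
  calc ∑ z ∈ A, deg vert z ≤ ∑ z ∈ A, deg vert z * deg vert z :=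
        Finset.sum_le_sum (fun z _ => Nat.le_mul_self _)
    _ ≤ _ := Finset.sum_le_sum_of_subset h

section

variable {κ : Measure (ℝ × ℝ)} [IsProbabilityMeasure κ] {c : Bool} {α ν K1 η ε1 : ℝ}
    {F1 F2 : ℝ → ℝ≥0∞} {FA1 FA2 q q1 : ℝ≥0∞} {Fh : Bool → ℝ → ℝ≥0∞} {FAh : ℝ≥0∞}
    {θ' : Bool → ℝ} {ρ' A0 K3 A1 cd c0 C0 : ℝ} {Q0 : ℕ} {S0 ε2 : ℝ} {vert : H → V}

theorem main_quant (C : Cst κ c α ν K1 η ε1 F1 F2 FA1 FA2 q q1 Fh FAh θ' ρ' A0 K3 A1)
    (hB : Big α cd ε1 FAh θ' ρ' A0 K3 A1 Q0 S0 ε2 (Fintype.card H))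
    (hD : DegOK vert ν K1 η cd c0 C0) (hcd : 0 < cd) (hε20 : 0 < ε2) (hε21 : ε2 ≤ 1)
    (hS0 : 0 ≤ S0) {K0 : ℕ} (hK01 : 1 ≤ K0)
    (hK0 : 2 * ENNReal.ofReal ν * ((ENNReal.ofReal K3 * 2 * (ENNReal.ofReal ν)⁻¹ + 1) * q) *
      ((K0 : ℕ) : ℝ≥0∞)⁻¹ ≤ ENNReal.ofReal ε1)
    (hC6 : C6 α A0 K3 FA2 FAh q Q0 S0 * ENNReal.ofReal ε2 ≤ ENNReal.ofReal ε1) :
    MEst κ vert c (81 * ε1) (ε2 / (2 * ν)) K0 Q0 S0 := by
  classical
  intro l Uc Ue Rt Rr hdU hl hRt hRr hK hRtQ hRrQ hdQ hQ hz1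
  have hE := big_env C hB hD hcd hε21 hS0
  have hm0 : (0 : ℝ) < (Fintype.card H : ℝ) := by exact_mod_cast hB.m1
  have hα0 := C.hα0
  have hν1 := C.hν1
  have hnu0 : ENNReal.ofReal ν ≠ 0 := by simp; linarith
  have hnut : ENNReal.ofReal ν ≠ ⊤ := ENNReal.ofReal_ne_top
  have hT0 := hB.T0 hα0
  obtain ⟨hdd1, hdd2, hdd3⟩ := hB.dd_pow C.hε11
  have hc1le := hB.c1_le
  have hlowb := fun (e : H) (he : e ∈ Rt) (τ : Wt H) => low_bound C hB hD hcd hε21 (τ := τ) hl hdU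
    hQ (mem_union_left Ue (hRt e he).1) (hRt e he).2
  have he1 := hB.e1
  have hexpT : ex (-α) (Tm α ε2 (Fintype.card H)) =
      ENNReal.ofReal ((Fintype.card H : ℝ) * ε2) := by
    rw [ex_neg_eq, hB.expT hα0, div_self hα0.ne', Real.rpow_one]
  set m := Fintype.card H with hm
  set T := Tm α ε2 m with hT
  set R := Rm A1 m with hR
  set dd := ENNReal.ofReal (1 + (m : ℝ) ^ (-(cd / 2))) with hdd
  set c1 := (((m - (Q0 + 8 * R) - 1 : ℕ) : ℝ≥0∞)⁻¹) with hc1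
  set nu := ENNReal.ofReal ν with hnu
  set K3e := ENNReal.ofReal K3 with hK3e
  set ok := okf vert K3 (α / 2) T with hok
  set U := Uc ∪ Ue with hU
  set a : ℝ≥0∞ := ((Rt.card : ℕ) : ℝ≥0∞) * nu⁻¹ with ha
  have hokm : ∀ v, MeasurableSet {s | ok v s} := hE.okm
  have hXm : ∀ σ, Measurable (Xd vert c ok T U α A0 Rt Rr S0 R σ) := fun σ =>
    measurable_Xd hokm σ
  have hmH : ∀ (f : H) (z : V) (σ : Mt H), Measurable (HN vert (!c) z R U f S0 σ) :=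
    fun f z σ => measurable_HN' (u := fun _ => S0) measurable_const
  have hRtU : ∀ f ∈ Rt, vert f ∈ U ∧ f ∉ dom l := fun f hf =>
    ⟨mem_union_left _ (hRt f hf).1, (hRt f hf).2⟩
  have hRrU : ∀ f ∈ Rr, vert f ∈ U ∧ f ∉ dom l := fun f hf =>
    ⟨mem_union_right _ (hRr f hf).1, (hRr f hf).2⟩
  have hRt0 : Rt.Nonempty := by
    rw [← Finset.card_pos]; omega
  have hi1 : ∀ σ, Measurable (fun ω => if Xd vert c ok T U α A0 Rt Rr S0 R σ ω < a / 2 then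
      (1 : ℝ≥0∞) else 0) := fun σ =>
    Measurable.ite (measurableSet_lt (hXm σ) measurable_const) measurable_const measurable_const
  have hi2 : ∀ σ, Measurable (fun ω => ∑ f ∈ Rr, ∑ z ∈ Uc, HN vert (!c) z R U f S0 σ ω) :=
    fun σ => Finset.measurable_fun_sum _ (fun f _ => Finset.measurable_fun_sum _
      (fun z _ => hmH f z σ))
  have hsub : α - α / 2 = α / 2 := by ring
  have hex0 : ex (-α) 0 = 1 := by unfold ex; simp
  -- `CH * ex (-α) T`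
  have hCHT : c1 * ex (-α) T ≤ 2 * ENNReal.ofReal ε2 := by
    rw [hexpT]
    calc c1 * ENNReal.ofReal ((m : ℝ) * ε2) ≤
          ENNReal.ofReal (2 / (m : ℝ)) * ENNReal.ofReal ((m : ℝ) * ε2) :=
          mul_le_mul' hc1le (le_refl _)
      _ = ENNReal.ofReal (2 * ε2) := by
          rw [← ENNReal.ofReal_mul (by positivity)]
          congr 1
          field_simp
      _ = 2 * ENNReal.ofReal ε2 := by
          rw [ENNReal.ofReal_mul (by norm_num)]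
          simp
  set C4 : ℝ≥0∞ := 2 * (1 + FAh) + 1 with hC4
  set y : ℝ≥0∞ := (C4 * c1) * ex (-α) T with hy
  have hyle : y ≤ (2 * C4) * ENNReal.ofReal ε2 := by
    calc y = C4 * (c1 * ex (-α) T) := by rw [hy]; ring
      _ ≤ C4 * (2 * ENNReal.ofReal ε2) := mul_le_mul' (le_refl _) hCHT
      _ = _ := by ring
  set M2 : ℝ≥0∞ := ex (α / 2) (-A0) with hM2
  have hRtle : ((Rt.card : ℕ) : ℝ≥0∞) ≤ Q0 := by exact_mod_cast hRtQ
  have hRrle : ((Rr.card : ℕ) : ℝ≥0∞) ≤ Q0 := by exact_mod_cast hRrQ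
  have hdist : dd ^ R * (nu⁻¹ * ((dd ^ (2 * R) * (K3e ^ 2 * (C4 * c1) * ex (-α) T) *
        (FA2 + ex (α - α / 2) (-A0) + 1)) * q)) +
      dd ^ R * (nu⁻¹ * ((dd ^ R * (((Rt.card : ℕ) : ℝ≥0∞) * (C4 * c1) * K3e * ex (-α) 0 *
        ex (-α) T)) * (FA2 + ex (α - α / 2) (-A0)))) +
      dd ^ R * (nu⁻¹ * ((dd ^ R * (((Rr.card : ℕ) : ℝ≥0∞) * (C4 * c1) * K3e * ex (-α) S0 *
        ex (-α) T)) * (FA2 + ex (α - α / 2) (-A0)))) ≤ nu⁻¹ * ENNReal.ofReal ε1 := by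
    rw [hsub, hex0]
    calc _ = nu⁻¹ * ((dd ^ R * dd ^ (2 * R)) * (K3e ^ 2 * y * (FA2 + M2 + 1) * q) +
          (dd ^ R * dd ^ R) * (((Rt.card : ℕ) : ℝ≥0∞) * y * K3e * (FA2 + M2)) +
          (dd ^ R * dd ^ R) * (((Rr.card : ℕ) : ℝ≥0∞) * y * K3e * ex (-α) S0 *
            (FA2 + M2))) := by rw [hy]; ring
      _ ≤ nu⁻¹ * ((2 * 2) * (K3e ^ 2 * ((2 * C4) * ENNReal.ofReal ε2) * (FA2 + M2 + 1) * q) +
          (2 * 2) * (Q0 * ((2 * C4) * ENNReal.ofReal ε2) * K3e * (FA2 + M2)) +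
          (2 * 2) * (Q0 * ((2 * C4) * ENNReal.ofReal ε2) * K3e * ex (-α) S0 *
            (FA2 + M2))) := by
          gcongr
      _ = nu⁻¹ * (C6 α A0 K3 FA2 FAh q Q0 S0 * ENNReal.ofReal ε2) := by
          unfold C6
          rw [← hK3e, ← hM2, ← hC4]
          ring
      _ ≤ _ := mul_le_mul' (le_refl _) hC6
  have hγ : ENNReal.ofReal ε1 + dd ^ R * nu * ((K3e * dd ^ (2 * R) * nu⁻¹ + 1) * q) *
      (((Rt.card : ℕ) : ℝ≥0∞))⁻¹ ≤ ENNReal.ofReal ε1 + ENNReal.ofReal ε1 := by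
    refine add_le_add (le_refl _) ?_
    calc dd ^ R * nu * ((K3e * dd ^ (2 * R) * nu⁻¹ + 1) * q) * (((Rt.card : ℕ) : ℝ≥0∞))⁻¹
        ≤ 2 * nu * ((K3e * 2 * nu⁻¹ + 1) * q) * ((K0 : ℕ) : ℝ≥0∞)⁻¹ := by
          have : (((Rt.card : ℕ) : ℝ≥0∞))⁻¹ ≤ ((K0 : ℕ) : ℝ≥0∞)⁻¹ := by
            apply ENNReal.inv_le_inv.2
            exact_mod_cast hK
          gcongr
      _ ≤ _ := hK0
  refine ⟨fun σ ω => (if Xd vert c ok T U α A0 Rt Rr S0 R σ ω < a / 2 then (1 : ℝ≥0∞) else 0) +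
    ∑ f ∈ Rr, ∑ z ∈ Uc, HN vert (!c) z R U f S0 σ ω, ok, T, R, fun σ => (hi1 σ).add (hi2 σ),
    ?_, ?_⟩
  · intro τ hτ
    rw [EE_add hi1]
    have hcore := hE.core C.qt ENNReal.ofReal_ne_top C.FA2t C.hpos hτ hl hdU hRtU hRrU hRt0
      (by omega) (LR := 8 * ENNReal.ofReal ε1) (βB := ENNReal.ofReal ε1)
      (γ := ENNReal.ofReal ε1 + ENNReal.ofReal ε1) (γ1 := ENNReal.ofReal ε1)
      (fun e he => hlowb e he τ) hdist hdd1 hγ
    have hE1 : EE κ l τ (fun σ ω => ∑ f ∈ Rr, ∑ z ∈ Uc, HN vert (!c) z R U f S0 σ ω) ≤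
        ENNReal.ofReal ε1 := by
      rw [EE_sum _ (fun f _ σ => Finset.measurable_fun_sum _ (fun z _ => hmH f z σ))]
      calc ∑ f ∈ Rr, EE κ l τ (fun σ ω => ∑ z ∈ Uc, HN vert (!c) z R U f S0 σ ω)
          ≤ ∑ f ∈ Rr, ∑ z ∈ Uc, (C4 * c1) * ((deg vert z : ℕ) : ℝ≥0∞) * ex (-α) S0 := by
            apply Finset.sum_le_sum
            intro f hf
            rw [EE_sum _ (fun z _ σ => hmH f z σ)]
            apply Finset.sum_le_sum
            intro z hz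
            refine hE.hit (!c) z l τ U f S0 hdU (hRrU f hf).1 (hRrU f hf).2
              (mem_union_left _ hz) (hz1 z hz) (by omega) ?_
            have := C.A00
            linarith
        _ = ((Rr.card : ℕ) : ℝ≥0∞) * (C4 * c1 * (((∑ z ∈ Uc, deg vert z : ℕ) : ℕ) : ℝ≥0∞) *
              ex (-α) S0) := by
            rw [sum_const, nsmul_eq_mul]
            congr 1
            push_cast
            rw [Finset.mul_sum, Finset.sum_mul]
        _ ≤ Q0 * (C4 * ENNReal.ofReal (2 / (m : ℝ)) * Q0 * ex (-α) S0) := by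
            have h1 : (((∑ z ∈ Uc, deg vert z : ℕ) : ℕ) : ℝ≥0∞) ≤ Q0 := by
              exact_mod_cast le_trans (sum_deg_le_Qd vert Uc U subset_union_left) hQ
            gcongr
        _ = Q0 * Q0 * (C4 * ex (-α) S0) * ENNReal.ofReal (2 / (m : ℝ)) := by ring
        _ ≤ _ := he1
    calc _ ≤ (4 * (ENNReal.ofReal ε1 + ENNReal.ofReal ε1) + 8 * (8 * ENNReal.ofReal ε1 +
            ENNReal.ofReal ε1)) + ENNReal.ofReal ε1 := add_le_add hcore hE1
      _ = 81 * ENNReal.ofReal ε1 := by ring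
      _ = ENNReal.ofReal (81 * ε1) := by
          rw [ENNReal.ofReal_mul (by norm_num)]
          simp
  · intro σ ω hω hG
    have h1 : (if Xd vert c ok T U α A0 Rt Rr S0 R σ ω < a / 2 then (1 : ℝ≥0∞) else 0) < 1 :=
      lt_of_le_of_lt le_self_add hG
    have h2 : ∑ f ∈ Rr, ∑ z ∈ Uc, HN vert (!c) z R U f S0 σ ω < 1 :=
      lt_of_le_of_lt le_add_self hG
    refine ⟨?_, ?_⟩
    · intro f hf z hz
      rcases HN_zo vert (!c) z σ ω R U f S0 with h3 | h3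
      · exact h3
      · exfalso
        have h4 : HN vert (!c) z R U f S0 σ ω ≤ ∑ z ∈ Uc, HN vert (!c) z R U f S0 σ ω :=
          Finset.single_le_sum (f := fun z => HN vert (!c) z R U f S0 σ ω)
            (fun _ _ => bot_le) hz
        have h5 : ∑ z ∈ Uc, HN vert (!c) z R U f S0 σ ω ≤
            ∑ f ∈ Rr, ∑ z ∈ Uc, HN vert (!c) z R U f S0 σ ω :=
          Finset.single_le_sum (f := fun f => ∑ z ∈ Uc, HN vert (!c) z R U f S0 σ ω)
            (fun _ _ => bot_le) hf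
        exact absurd (lt_of_le_of_lt (le_trans h3 (le_trans h4 h5)) h2) (lt_irrefl _)
    · have h3 : ¬ Xd vert c ok T U α A0 Rt Rr S0 R σ ω < a / 2 := by
        intro hc
        rw [if_pos hc] at h1
        exact lt_irrefl _ h1
      push Not at h3
      have h4 := le_trans h3 (le_trans (Xd_le σ ω) (X_le_ends (vert := vert) (c := c) (ok := ok)
        (T := T) (U := U) (α := α) (A0 := A0) (Rt := Rt) (Rr := Rr) (S0 := S0) (R := R) (σ := σ)
        (ω := ω) hα0.le (fun g => (hω.wt c σ g).le) (fun f hf => (hRtU f hf).1)))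
      set Ne : ℝ≥0∞ := (((univ.filter (fun z =>
        IsEnd vert c ok T U Rt Rr S0 R σ ω z)).card : ℕ) : ℝ≥0∞) with hNe
      have h5 : ex (-α) T * ex α T = 1 := by
        unfold ex
        rw [← ENNReal.ofReal_mul (Real.exp_pos _).le, ← Real.exp_add]
        simp
      calc ENNReal.ofReal (ε2 / (2 * ν) * (m : ℝ))
          = ex (-α) T * (1 * nu⁻¹ / 2) := by
            rw [hexpT, hnu, one_mul, ← ENNReal.ofReal_inv_of_pos (by linarith)]
            have h6 : ENNReal.ofReal ν⁻¹ / 2 = ENNReal.ofReal (ν⁻¹ / 2) := by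
              rw [ENNReal.ofReal_div_of_pos (by norm_num)]
              simp
            rw [h6, ← ENNReal.ofReal_mul (by positivity)]
            congr 1
            field_simp
        _ ≤ ex (-α) T * (a / 2) := by
            have h6 : (1 : ℝ≥0∞) ≤ ((Rt.card : ℕ) : ℝ≥0∞) := by
              exact_mod_cast (by omega : 1 ≤ Rt.card)
            rw [ha]
            gcongr
        _ ≤ ex (-α) T * (ex α T * Ne) := mul_le_mul' (le_refl _) h4
        _ = Ne := by rw [← mul_assoc, h5, one_mul]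

end

end Pool.Agent.H949.CX
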