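import Pool.Agent.H949.CX.Dist

/-!
# Renewal potentials
-/

set_option linter.unusedSectionVars false
set_option linter.unusedSimpArgs false
set_option linter.unusedVariables false

open MeasureTheory Finset Filter Topology
open scoped ENNReal

namespace Pool.Agent.H949.CX

open Pool.Agent.H949.CM

/-- A bounded solution of the renewal inequality. -/
theorem renewal (Q : Measure ℝ) [IsProbabilityMeasure Q] (hQ : Q (Set.Iic 0) = 0) {θ : ℝ}
    (hθ : 0 < θ) : ∃ (F : ℝ → ℝ≥0∞) (A : ℝ≥0∞), A ≠ ⊤ ∧ Measurable F ∧ (∀ u, F u ≤ A) ∧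
      ∀ u, 0 ≤ u → ∫⁻ x, (if x ≤ u then ex θ (u - x) + F (u - x) else 0) ∂Q ≤ F u := by
  classical
  have hae : ∀ᵐ x ∂Q, 0 < x := by
    rw [ae_iff]
    have : {x : ℝ | ¬ 0 < x} = Set.Iic 0 := by ext x; simp
    rw [this]; exact hQ
  -- the constant `κ0`
  set m2 : ℝ := ∫ x, min (Real.exp (θ * x)) 2 ∂Q with hm2
  have hmeas2 : Measurable (fun x : ℝ => min (Real.exp (θ * x)) 2) := by fun_prop
  have hint2 : Integrable (fun x : ℝ => min (Real.exp (θ * x)) 2) Q := by
    refine Integrable.of_bound hmeas2.aestronglyMeasurable 2 (Eventually.of_forall fun x => ?_)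
    rw [Real.norm_eq_abs, abs_of_nonneg (le_min (Real.exp_pos _).le (by norm_num))]
    exact min_le_right _ _
  have hm2gt : 1 < m2 := by
    have h1 : 0 < ∫ x, (min (Real.exp (θ * x)) 2 - 1) ∂Q := by
      rw [integral_pos_iff_support_of_nonneg_ae]
      · have h2 : Set.Ioi (0 : ℝ) ⊆ Function.support
            (fun x : ℝ => min (Real.exp (θ * x)) 2 - 1) := by
          intro x hx
          have hx' : (0 : ℝ) < x := hx
          rw [Function.mem_support]
          have h3 : 1 < Real.exp (θ * x) := by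
            rw [← Real.exp_zero]; exact Real.exp_lt_exp.2 (by positivity)
          have h4 : 1 < min (Real.exp (θ * x)) 2 := lt_min h3 (by norm_num)
          linarith
        refine lt_of_lt_of_le ?_ (measure_mono h2)
        have h3 : Q (Set.Ioi 0) = 1 := by
          have h4 : (Set.Iic (0 : ℝ))ᶜ = Set.Ioi 0 := by ext x; simp
          rw [← h4, prob_compl_eq_one_iff measurableSet_Iic]
          exact hQ
        rw [h3]; exact one_pos
      · filter_upwards [hae] with x hx
        have h3 : 1 < Real.exp (θ * x) := by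
          rw [← Real.exp_zero]; exact Real.exp_lt_exp.2 (by positivity)
        have h4 : 1 < min (Real.exp (θ * x)) 2 := lt_min h3 (by norm_num)
        show (0 : ℝ) ≤ min (Real.exp (θ * x)) 2 - 1
        linarith
      · exact hint2.sub (integrable_const 1)
    rw [integral_sub hint2 (integrable_const 1)] at h1
    simp at h1
    linarith
  set κ0 : ℝ := (m2 - 1) / 2 with hκ0
  have hκ0pos : 0 < κ0 := by rw [hκ0]; linarith
  set b : ℝ := (1 + κ0) / κ0 with hb
  have hb1 : 1 < b := by rw [hb, lt_div_iff₀ hκ0pos]; linarith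
  have hbκ : (b - 1) * (1 + κ0) = b := by
    rw [hb]; field_simp; ring
  set a : ℝ := 2 * b / κ0 + b with ha
  have hab : b ≤ a := by
    rw [ha]
    have : 0 ≤ 2 * b / κ0 := by positivity
    linarith
  set F : ℝ → ℝ≥0∞ := fun u => ENNReal.ofReal (a - b * Real.exp (-(θ * u))) with hF
  refine ⟨F, ENNReal.ofReal a, ENNReal.ofReal_ne_top, by rw [hF]; fun_prop, ?_, ?_⟩
  · intro u
    rw [hF]
    apply ENNReal.ofReal_le_ofReal
    have : 0 ≤ b * Real.exp (-(θ * u)) := by positivity
    linarith
  · intro u hu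
    -- rewrite the integrand
    set g : ℝ → ℝ := fun x => if x ≤ u then a - (b - 1) * Real.exp (-(θ * (u - x))) else 0
      with hg
    have hgm : Measurable g := by
      rw [hg]
      refine Measurable.ite (measurableSet_le measurable_id measurable_const) ?_
        measurable_const
      fun_prop
    have hg0 : ∀ x, 0 ≤ g x := by
      intro x
      rw [hg]
      by_cases hx : x ≤ u
      · simp only [if_pos hx]
        have h1 : Real.exp (-(θ * (u - x))) ≤ 1 := by
          rw [← Real.exp_zero]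
          apply Real.exp_le_exp.2
          have : 0 ≤ θ * (u - x) := by apply mul_nonneg hθ.le; linarith
          linarith
        nlinarith
      · simp only [if_neg hx]; exact le_refl _
    have hgb : ∀ x, g x ≤ a := by
      intro x
      rw [hg]
      by_cases hx : x ≤ u
      · simp only [if_pos hx]
        have : 0 ≤ (b - 1) * Real.exp (-(θ * (u - x))) := by
          apply mul_nonneg (by linarith) (Real.exp_pos _).le
        linarith
      · simp only [if_neg hx]; linarith
    have hgi : Integrable g Q := by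
      refine Integrable.of_bound hgm.aestronglyMeasurable a (Eventually.of_forall fun x => ?_)
      rw [Real.norm_eq_abs, abs_of_nonneg (hg0 x)]
      exact hgb x
    have h1 : ∫⁻ x, (if x ≤ u then ex θ (u - x) + F (u - x) else 0) ∂Q =
        ∫⁻ x, ENNReal.ofReal (g x) ∂Q := by
      apply lintegral_congr
      intro x
      rw [hg]
      by_cases hx : x ≤ u
      · simp only [if_pos hx]
        rw [hF]
        unfold ex
        simp only
        have h1 : Real.exp (-(θ * (u - x))) ≤ 1 := by
          rw [← Real.exp_zero]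
          apply Real.exp_le_exp.2
          have : 0 ≤ θ * (u - x) := by apply mul_nonneg hθ.le; linarith
          linarith
        rw [← ENNReal.ofReal_add (Real.exp_pos _).le (by nlinarith)]
        congr 1
        ring
      · simp only [if_neg hx]; simp
    rw [h1, ← ofReal_integral_eq_lintegral_ofReal hgi (Eventually.of_forall hg0), hF]
    apply ENNReal.ofReal_le_ofReal
    -- the real inequality
    set e1 : ℝ → ℝ := fun x => if x ≤ u then Real.exp (θ * x) else 0 with he1
    set p1 : ℝ → ℝ := fun x => if x ≤ u then (1 : ℝ) else 0 with hp1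
    have he1m : Measurable e1 := by
      rw [he1]
      refine Measurable.ite (measurableSet_le measurable_id measurable_const) ?_
        measurable_const
      fun_prop
    have hp1m : Measurable p1 := by
      rw [hp1]
      exact Measurable.ite (measurableSet_le measurable_id measurable_const) measurable_const
        measurable_const
    have he1b : ∀ x, ‖e1 x‖ ≤ Real.exp (θ * u) := by
      intro x
      rw [he1]
      by_cases hx : x ≤ u
      · simp only [if_pos hx]
        rw [Real.norm_eq_abs, abs_of_pos (Real.exp_pos _)]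
        exact Real.exp_le_exp.2 (by nlinarith)
      · simp only [if_neg hx]
        rw [norm_zero]; exact (Real.exp_pos _).le
    have he1i : Integrable e1 Q :=
      Integrable.of_bound he1m.aestronglyMeasurable _ (Eventually.of_forall he1b)
    have hp1i : Integrable p1 Q := by
      refine Integrable.of_bound hp1m.aestronglyMeasurable 1 (Eventually.of_forall fun x => ?_)
      rw [hp1]
      by_cases hx : x ≤ u
      · simp only [if_pos hx]; simp
      · simp only [if_neg hx]; simp
    have hgsplit : ∀ x, g x = a * p1 x - (b - 1) * Real.exp (-(θ * u)) * e1 x := by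
      intro x
      rw [hg, hp1, he1]
      by_cases hx : x ≤ u
      · simp only [if_pos hx]
        have : Real.exp (-(θ * (u - x))) = Real.exp (-(θ * u)) * Real.exp (θ * x) := by
          rw [← Real.exp_add]; congr 1; ring
        rw [this]; ring
      · simp only [if_neg hx]; ring
    have hgint : ∫ x, g x ∂Q = a * ∫ x, p1 x ∂Q -
        (b - 1) * Real.exp (-(θ * u)) * ∫ x, e1 x ∂Q := by
      rw [integral_congr_ae (Eventually.of_forall hgsplit), integral_sub (hp1i.const_mul a)
        (he1i.const_mul _), integral_const_mul, integral_const_mul]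
    rw [hgint]
    set P : ℝ := ∫ x, p1 x ∂Q with hP
    set M : ℝ := ∫ x, e1 x ∂Q with hM
    have hP1 : P ≤ 1 := by
      have : P ≤ ∫ x, (1 : ℝ) ∂Q := by
        apply integral_mono hp1i (integrable_const 1)
        intro x
        rw [hp1]
        by_cases hx : x ≤ u
        · simp only [if_pos hx]; exact le_refl _
        · simp only [if_neg hx]; norm_num
      simpa using this
    have hM0 : 0 ≤ M := by
      apply integral_nonneg
      intro x
      rw [he1]
      by_cases hx : x ≤ u
      · simp only [if_pos hx]; exact (Real.exp_pos _).le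
      · simp only [if_neg hx]; exact le_refl _
    -- comparison of `M` with `m2`
    have hMm : m2 ≤ M + 2 * (1 - P) := by
      have h2 : m2 ≤ ∫ x, (e1 x + 2 * (1 - p1 x)) ∂Q := by
        apply integral_mono hint2
        · exact he1i.add (((integrable_const (1 : ℝ)).sub hp1i).const_mul 2)
        · intro x
          show min (Real.exp (θ * x)) 2 ≤ e1 x + 2 * (1 - p1 x)
          rw [he1, hp1]
          by_cases hx : x ≤ u
          · simp only [if_pos hx]
            have := min_le_left (Real.exp (θ * x)) 2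
            linarith
          · simp only [if_neg hx]
            have := min_le_right (Real.exp (θ * x)) 2
            linarith
      have h3 : ∫ x, (e1 x + 2 * (1 - p1 x)) ∂Q = M + 2 * (1 - P) := by
        have hq1 : Integrable (fun x => 2 * (1 - p1 x)) Q :=
          ((integrable_const (1 : ℝ)).sub hp1i).const_mul 2
        rw [integral_add he1i hq1,
          integral_const_mul, integral_sub (integrable_const (1 : ℝ)) hp1i]
        simp [hM, hP]
      linarith
    have heu : Real.exp (-(θ * u)) ≤ 1 := by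
      rw [← Real.exp_zero]
      apply Real.exp_le_exp.2
      have : 0 ≤ θ * u := by positivity
      linarith
    have heu0 := Real.exp_pos (-(θ * u))
    by_cases hcase : 2 * (1 - P) ≤ κ0
    · have h4 : 1 + κ0 ≤ M := by
        have : m2 = 1 + 2 * κ0 := by rw [hκ0]; ring
        linarith
      have h5 : b ≤ (b - 1) * M := by
        calc b = (b - 1) * (1 + κ0) := hbκ.symm
          _ ≤ (b - 1) * M := mul_le_mul_of_nonneg_left h4 (by linarith)
      have h6 : a * P ≤ a := by nlinarith
      nlinarith [mul_le_mul_of_nonneg_left h5 heu0.le]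
    · push Not at hcase
      have h5 : b ≤ a * (1 - P) := by
        have h7 : κ0 / 2 < 1 - P := by linarith
        calc b = (2 * b / κ0) * (κ0 / 2) := by field_simp
          _ ≤ a * (1 - P) := by
              apply mul_le_mul _ h7.le (by positivity) (by linarith)
              rw [ha]; linarith
      have h6 : 0 ≤ (b - 1) * Real.exp (-(θ * u)) * M :=
        mul_nonneg (mul_nonneg (by linarith) heu0.le) hM0
      have h8 : b * Real.exp (-(θ * u)) ≤ b := by nlinarith
      nlinarith

variable {κ : Measure (ℝ × ℝ)} [IsProbabilityMeasure κ] {c : Bool} {α : ℝ} {nu : ℝ≥0∞}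

/-- The tilted law. -/
noncomputable def tiltQ (κ : Measure (ℝ × ℝ)) (c : Bool) (α : ℝ) (nu : ℝ≥0∞) : Measure ℝ :=
  (κ.map (pr c)).withDensity (fun x => nu * ex α x)

theorem lintegral_tiltQ {g : ℝ → ℝ≥0∞} (hg : Measurable g) :
    ∫⁻ x, g x ∂(tiltQ κ c α nu) = nu * ∫⁻ w, ex α (pr c w) * g (pr c w) ∂κ := by
  unfold tiltQ
  rw [lintegral_withDensity_eq_lintegral_mul _ ((measurable_ex α).const_mul nu) hg,
    lintegral_map (((measurable_ex α).const_mul nu).mul hg) (measurable_pr c)]
  simp only [Pi.mul_apply, mul_assoc]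
  rw [lintegral_const_mul]
  exact ((measurable_ex α).comp (measurable_pr c)).mul (hg.comp (measurable_pr c))

theorem tiltQ_prob (hα : ∫⁻ w, ex α (pr c w) ∂κ = nu⁻¹) (hn0 : nu ≠ 0) (hnt : nu ≠ ⊤) :
    IsProbabilityMeasure (tiltQ κ c α nu) := by
  constructor
  have h1 := lintegral_tiltQ (κ := κ) (c := c) (α := α) (nu := nu) (g := fun _ => 1)
    measurable_const
  rw [lintegral_one] at h1
  rw [h1]
  simp only [mul_one]
  rw [hα, ENNReal.mul_inv_cancel hn0 hnt]

theorem tiltQ_zero (hpos : ∀ᵐ w ∂κ, 0 < pr c w) : (tiltQ κ c α nu) (Set.Iic 0) = 0 := by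
  apply withDensity_absolutelyContinuous
  rw [Measure.map_apply (measurable_pr c) measurableSet_Iic]
  rw [ae_iff] at hpos
  convert hpos using 2
  ext w
  simp

/-- Renewal potential for the lengths. -/
theorem exists_ren (hα : ∫⁻ w, ex α (pr c w) ∂κ = nu⁻¹) (hn0 : nu ≠ 0) (hnt : nu ≠ ⊤)
    (hpos : ∀ᵐ w ∂κ, 0 < pr c w) {θ : ℝ} (hθ : 0 < θ) :
    ∃ (F : ℝ → ℝ≥0∞) (A : ℝ≥0∞), A ≠ ⊤ ∧ Measurable F ∧ (∀ u, F u ≤ A) ∧
      ∀ u, 0 ≤ u → nu * ∫⁻ w, ex α (pr c w) * (if pr c w ≤ u then ex θ (u - pr c w) +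
        F (u - pr c w) else 0) ∂κ ≤ F u := by
  classical
  have := tiltQ_prob hα hn0 hnt
  obtain ⟨F, A, hA, hF, hFA, hren⟩ := renewal (tiltQ κ c α nu) (tiltQ_zero hpos) hθ
  refine ⟨F, A, hA, hF, hFA, fun u hu => ?_⟩
  have h1 := hren u hu
  rwa [lintegral_tiltQ (g := fun x => if x ≤ u then ex θ (u - x) + F (u - x) else 0)] at h1
  refine Measurable.ite (measurableSet_le measurable_id measurable_const) ?_ measurable_const
  exact ((measurable_ex θ).comp (measurable_id.const_sub u)).add
    (hF.comp (measurable_id.const_sub u))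

/-- The geometric factor is smaller than `1`. -/
theorem rho_lt_one (hα : ∫⁻ w, ex α (pr c w) ∂κ = nu⁻¹) (hn0 : nu ≠ 0) (hnt : nu ≠ ⊤)
    (hpos : ∀ᵐ w ∂κ, 0 < pr c w) {θ : ℝ} (hθ : 0 < θ) :
    nu * ∫⁻ w, ex α (pr c w) * ex θ (pr c w) ∂κ < 1 := by
  have := tiltQ_prob hα hn0 hnt
  rw [← lintegral_tiltQ (measurable_ex θ)]
  have h1 : ∫⁻ x, (1 : ℝ≥0∞) ∂(tiltQ κ c α nu) = 1 := by
    rw [lintegral_one, measure_univ]
  rw [← h1]
  have hae : ∀ᵐ x ∂(tiltQ κ c α nu), ex θ x < 1 := by
    have h2 : ∀ᵐ x ∂(tiltQ κ c α nu), 0 < x := by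
      rw [ae_iff]
      have : {x : ℝ | ¬ 0 < x} = Set.Iic 0 := by ext x; simp
      rw [this]; exact tiltQ_zero hpos
    filter_upwards [h2] with x hx
    unfold ex
    rw [← ENNReal.ofReal_one]
    apply (ENNReal.ofReal_lt_ofReal_iff one_pos).2
    rw [← Real.exp_zero]
    apply Real.exp_lt_exp.2
    have : 0 < θ * x := by positivity
    linarith
  refine lintegral_strict_mono (IsProbabilityMeasure.ne_zero _) measurable_const.aemeasurable
    ?_ hae
  refine ne_top_of_le_ne_top ENNReal.one_ne_top ?_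
  calc ∫⁻ x, ex θ x ∂(tiltQ κ c α nu) ≤ ∫⁻ x, 1 ∂(tiltQ κ c α nu) :=
        lintegral_mono_ae (hae.mono fun x hx => hx.le)
    _ = 1 := h1

theorem exists_q (hα : ∫⁻ w, ex α (pr c w) ∂κ = nu⁻¹) (hn0 : nu ≠ 0) (hnt : nu ≠ ⊤)
    (hpos : ∀ᵐ w ∂κ, 0 < pr c w) {θ : ℝ} (hθ : 0 < θ) :
    ∃ q : ℝ≥0∞, q ≠ ⊤ ∧
      nu * (∫⁻ w, ex α (pr c w) * ex θ (pr c w) ∂κ) * (1 + q) ≤ q := by
  have h1 := rho_lt_one hα hn0 hnt hpos hθ
  set ρ := nu * ∫⁻ w, ex α (pr c w) * ex θ (pr c w) ∂κ with hρ
  have hρt : ρ ≠ ⊤ := ne_top_of_lt h1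
  have h2 : (1 - ρ) ≠ 0 := by
    rw [Ne, tsub_eq_zero_iff_le, not_le]; exact h1
  have h3 : (1 - ρ) ≠ ⊤ := ENNReal.sub_ne_top ENNReal.one_ne_top
  refine ⟨(1 - ρ)⁻¹, ENNReal.inv_ne_top.2 h2, ?_⟩
  have h4 : ρ + (1 - ρ) = 1 := add_tsub_cancel_of_le h1.le
  calc ρ * (1 + (1 - ρ)⁻¹) = ρ * ((1 - ρ) * (1 - ρ)⁻¹ + (1 - ρ)⁻¹) := by
        rw [ENNReal.mul_inv_cancel h2 h3]
    _ = ρ * ((1 - ρ) + 1) * (1 - ρ)⁻¹ := by ring
    _ ≤ 1 * (1 - ρ)⁻¹ := by
        refine mul_le_mul' ?_ (le_refl _)
        -- ρ (2 - ρ) ≤ 1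
        have h5 : ρ * (1 - ρ) ≤ 1 - ρ := by
          calc ρ * (1 - ρ) ≤ 1 * (1 - ρ) := mul_le_mul' h1.le (le_refl _)
            _ = 1 - ρ := one_mul _
        calc ρ * ((1 - ρ) + 1) = ρ * (1 - ρ) + ρ := by ring
          _ ≤ (1 - ρ) + ρ := by gcongr
          _ = 1 := by rw [add_comm]; exact h4
    _ = (1 - ρ)⁻¹ := one_mul _

/-- A large exponent makes the factor small. -/
theorem exists_theta1 (hnt : nu ≠ ⊤) (hpos : ∀ᵐ w ∂κ, 0 < pr c w) {ε : ℝ≥0∞} (hε : 0 < ε) :
    ∃ θ : ℝ, 0 ≤ θ ∧ nu * ∫⁻ w, ex θ (pr c w) ∂κ ≤ ε := by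
  have h1 : Tendsto (fun n : ℕ => ∫⁻ w, ex (n : ℝ) (pr c w) ∂κ) atTop (𝓝 0) := by
    have h2 : ∫⁻ w, (0 : ℝ≥0∞) ∂κ = 0 := by simp
    rw [← h2]
    apply tendsto_lintegral_of_dominated_convergence (fun _ => (1 : ℝ≥0∞))
    · intro n
      exact (measurable_ex _).comp (measurable_pr c)
    · intro n
      filter_upwards [hpos] with w hw
      unfold ex
      rw [← ENNReal.ofReal_one]
      apply ENNReal.ofReal_le_ofReal
      rw [← Real.exp_zero]
      apply Real.exp_le_exp.2
      have : 0 ≤ (n : ℝ) * pr c w := by positivity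
      linarith
    · simp
    · filter_upwards [hpos] with w hw
      unfold ex
      have h3 : Tendsto (fun n : ℕ => Real.exp (-((n : ℝ) * pr c w))) atTop (𝓝 0) := by
        apply Real.tendsto_exp_atBot.comp
        apply tendsto_neg_atTop_atBot.comp
        exact (tendsto_natCast_atTop_atTop).atTop_mul_const hw
      have h4 := (ENNReal.continuous_ofReal.tendsto 0).comp h3
      rw [ENNReal.ofReal_zero] at h4
      exact h4
  have h5 : Tendsto (fun n : ℕ => nu * ∫⁻ w, ex (n : ℝ) (pr c w) ∂κ) atTop (𝓝 (nu * 0)) :=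
    ENNReal.Tendsto.const_mul h1 (Or.inr hnt)
  rw [mul_zero] at h5
  obtain ⟨n, hn⟩ := (h5.eventually (ge_mem_nhds hε)).exists
  exact ⟨n, Nat.cast_nonneg n, hn⟩

end Pool.Agent.H949.CX
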