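import Pool.Agent.H949.CX.Pair

/-!
# First moment bounds with exponential weights
-/

set_option linter.unusedSectionVars false
set_option linter.unusedSimpArgs false
set_option linter.unusedVariables false

open MeasureTheory Finset
open scoped ENNReal

namespace Pool.Agent.H949.CX

open Pool.Agent.H949.CM

variable {V H : Type} [Fintype V] [DecidableEq V] [Fintype H] [DecidableEq H]

/-- The standing assumptions for the first moment bounds. -/
structure Env (κ : Measure (ℝ × ℝ)) (vert : H → V) (c : Bool) (ok : V → ℝ → Prop)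
    (α g0 T A0 S0 : ℝ) (nu dd c1 K3 CH q FA : ℝ≥0∞) (Fr : ℝ → ℝ≥0∞) (B R : ℕ) : Prop where
  hc1 : ((Fintype.card H - B - 1 : ℕ) : ℝ≥0∞)⁻¹ ≤ c1
  c1t : c1 ≠ ⊤
  hS : c1 * ∑ y : H, ((deg vert (vert y) - 1 : ℕ) : ℝ≥0∞) ≤ nu * dd
  hm : c1 * ((Fintype.card H : ℕ) : ℝ≥0∞) ≤ dd
  nu0 : nu ≠ 0
  nut : nu ≠ ⊤
  dd1 : 1 ≤ dd
  ddt : dd ≠ ⊤
  hα : ∫⁻ w, ex α (pr c w) ∂κ = nu⁻¹
  okm : ∀ v, MeasurableSet {s | ok v s}
  ok0 : ∀ v s, ok v s → 0 ≤ s
  ok1 : ∀ v s, ok v s → ((deg vert v : ℕ) : ℝ≥0∞) ≤ K3 * ex (-g0) s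
  ok2 : ∀ v s, ok v s → ((deg vert v : ℕ) : ℝ≥0∞) ≤ K3 * ex (-g0) (T - s)
  T0 : 0 ≤ T
  A00 : 0 ≤ A0
  S00 : 0 ≤ S0
  g00 : 0 ≤ g0
  gα : g0 ≤ α
  hit : ∀ (c' : Bool) (z : V) (l : List (H × H)) (τ : Wt H) (W : Finset V) (f : H) (u : ℝ),
    (∀ g ∈ dom l, vert g ∈ W) → vert f ∈ W → f ∉ dom l → z ∈ W → 1 ≤ deg vert z →
    (dom l).card + 2 * R ≤ B → u ≤ T + A0 + S0 →
    EE κ l τ (HN vert c' z R W f u) ≤ CH * ((deg vert z : ℕ) : ℝ≥0∞) * ex (-α) u
  CHt : CH ≠ ⊤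
  hF : ∀ s, s ≤ T → nu * ∫⁻ w, ex α (pr c w) * (if s + pr c w ≤ T then
    ex (α - g0) (T - (s + pr c w)) + Fr (s + pr c w) else 0) ∂κ ≤ Fr s
  Frm : Measurable Fr
  hFA : ∀ s, s ≤ T → Fr s ≤ FA
  hq : nu * (∫⁻ w, ex α (pr c w) * ex (α - g0) (pr c w) ∂κ) * (1 + q) ≤ q

section

variable {κ : Measure (ℝ × ℝ)} [IsProbabilityMeasure κ] {vert : H → V} {c : Bool}
    {ok : V → ℝ → Prop} {α g0 T A0 S0 : ℝ} {nu dd c1 K3 CH q FA : ℝ≥0∞} {Fr : ℝ → ℝ≥0∞}
    {B R : ℕ}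

theorem Env.nn (E : Env κ vert c ok α g0 T A0 S0 nu dd c1 K3 CH q FA Fr B R) :
    nu * nu⁻¹ = 1 := ENNReal.mul_inv_cancel E.nu0 E.nut

/-- Upper bounds for sums over paths from potentials. -/
theorem Env.tilt (E : Env κ vert c ok α g0 T A0 S0 nu dd c1 K3 CH q FA Fr B R)
    {U : Finset V} {D0 : Finset H} {U0 : Finset V} (hU0 : U0 ⊆ U) (F : Finset H)
    (l0 : List (H × H)) (τ0 : Wt H) (L0 : List H)
    {Θ : H → List H → Mt H → Wt H → ℝ≥0∞} (hΘm : ∀ h ys σ, Measurable (Θ h ys σ))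
    (a b p : ℝ → ℝ≥0∞)
    (hSH : ∀ s, s ≤ T → nu * ∫⁻ w, ex α (pr c w) * (if s + pr c w ≤ T then
      a (s + pr c w) + p (s + pr c w) else if s + pr c w ≤ T + A0 then b (s + pr c w) else 0) ∂κ ≤
        p s)
    {B1 : ℕ} (hB1 : B1 ≤ B)
    (hΘ : ∀ (l : List (H × H)) (τ : Wt H) (W : Finset V) (xs : List H) (s : ℝ) (h y : H),
      Adm vert c U D0 l τ W (h :: xs) s → Ctx vert U0 F l0 τ0 L0 l τ W (h :: xs) → (h, y) ∈ l →
      (∀ g ∈ nxt vert y, g ∉ dom l) → (dom l).card ≤ B1 → ok (vert y) s →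
      EE κ l τ (Θ h xs) ≤ if s ≤ T then
        ((deg vert (vert y) - 1 : ℕ) : ℝ≥0∞) * (ex α s * nu⁻¹ * a s)
        else if s ≤ T + A0 then ex α s * b s else 0) :
    ∀ (r : ℕ) (l : List (H × H)) (τ : Wt H) (W : Finset V) (xs : List H) (s : ℝ) (h : H),
      Adm vert c U D0 l τ W xs s → Ctx vert U0 F l0 τ0 L0 l τ W xs → h ∉ F → h ∉ dom l →
      vert h ∈ W → (dom l).card + 2 * r ≤ B1 → s ≤ T →
      EE κ l τ (PS vert c ok T U Θ r h xs) ≤ dd ^ r * (ex α s * nu⁻¹ * p s) := by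
  classical
  have hc1' : ((Fintype.card H - B1 - 1 : ℕ) : ℝ≥0∞)⁻¹ ≤ c1 := by
    refine le_trans (ENNReal.inv_le_inv.2 ?_) E.hc1
    exact_mod_cast (by omega : Fintype.card H - B - 1 ≤ Fintype.card H - B1 - 1)
  refine ps_upper hU0 F l0 τ0 L0 hc1' E.okm hΘm
    (fun v s => if s ≤ T then ((deg vert v - 1 : ℕ) : ℝ≥0∞) * (ex α s * nu⁻¹ * a s)
      else if s ≤ T + A0 then ex α s * b s else 0) hΘ
    (fun r s => dd ^ r * (ex α s * nu⁻¹ * p s)) ?_
  intro r s hs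
  rw [← lintegral_const_mul' _ _ E.c1t]
  have pt : ∀ w : ℝ × ℝ, c1 * ∑ y : H, (if ok (vert y) (s + pr c w) then
      (if s + pr c w ≤ T then ((deg vert (vert y) - 1 : ℕ) : ℝ≥0∞) *
        (ex α (s + pr c w) * nu⁻¹ * a (s + pr c w))
        else if s + pr c w ≤ T + A0 then ex α (s + pr c w) * b (s + pr c w) else 0) +
      (if s + pr c w ≤ T then ((deg vert (vert y) - 1 : ℕ) : ℝ≥0∞) *
        (dd ^ r * (ex α (s + pr c w) * nu⁻¹ * p (s + pr c w))) else 0) else 0) ≤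
      dd ^ (r + 1) * ex α s * (ex α (pr c w) * (if s + pr c w ≤ T then
        a (s + pr c w) + p (s + pr c w) else if s + pr c w ≤ T + A0 then b (s + pr c w)
          else 0)) := by
    intro w
    set s' := s + pr c w with hs'
    have hex : ex α s' = ex α s * ex α (pr c w) := ex_add α s (pr c w)
    have hdr : (1 : ℝ≥0∞) ≤ dd ^ r := one_le_pow₀ E.dd1
    by_cases h1 : s' ≤ T
    · simp only [if_pos h1]
      have h2 : ∑ y : H, (if ok (vert y) s' then ((deg vert (vert y) - 1 : ℕ) : ℝ≥0∞) *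
          (ex α s' * nu⁻¹ * a s') + ((deg vert (vert y) - 1 : ℕ) : ℝ≥0∞) *
            (dd ^ r * (ex α s' * nu⁻¹ * p s')) else 0) ≤
          (∑ y : H, ((deg vert (vert y) - 1 : ℕ) : ℝ≥0∞)) *
            (ex α s' * nu⁻¹ * (dd ^ r * (a s' + p s'))) := by
        rw [Finset.sum_mul]
        apply Finset.sum_le_sum
        intro y _
        by_cases h3 : ok (vert y) s'
        · rw [if_pos h3, ← mul_add]
          gcongr
          calc ex α s' * nu⁻¹ * a s' + dd ^ r * (ex α s' * nu⁻¹ * p s')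
              = ex α s' * nu⁻¹ * (1 * a s' + dd ^ r * p s') := by ring
            _ ≤ ex α s' * nu⁻¹ * (dd ^ r * a s' + dd ^ r * p s') := by gcongr
            _ = ex α s' * nu⁻¹ * (dd ^ r * (a s' + p s')) := by ring
        · rw [if_neg h3]; exact bot_le
      calc c1 * ∑ y : H, _ ≤ c1 * ((∑ y : H, ((deg vert (vert y) - 1 : ℕ) : ℝ≥0∞)) *
            (ex α s' * nu⁻¹ * (dd ^ r * (a s' + p s')))) := by gcongr
        _ = (c1 * ∑ y : H, ((deg vert (vert y) - 1 : ℕ) : ℝ≥0∞)) *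
            (ex α s' * nu⁻¹ * (dd ^ r * (a s' + p s'))) := by ring
        _ ≤ (nu * dd) * (ex α s' * nu⁻¹ * (dd ^ r * (a s' + p s'))) :=
            mul_le_mul' E.hS (le_refl _)
        _ = (nu * nu⁻¹) * (dd ^ (r + 1) * (ex α s' * (a s' + p s'))) := by ring
        _ = _ := by rw [E.nn, hex]; ring
    · simp only [if_neg h1]
      by_cases h2 : s' ≤ T + A0
      · simp only [if_pos h2]
        have h3 : ∑ y : H, (if ok (vert y) s' then ex α s' * b s' + 0 else 0) ≤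
            ((Fintype.card H : ℕ) : ℝ≥0∞) * (ex α s' * b s') := by
          refine le_trans (Finset.sum_le_sum (g := fun _ => ex α s' * b s') ?_) ?_
          · intro y _
            split_ifs
            · rw [add_zero]
            · exact bot_le
          · rw [sum_const, nsmul_eq_mul, card_univ]
        calc c1 * ∑ y : H, _ ≤ c1 * (((Fintype.card H : ℕ) : ℝ≥0∞) * (ex α s' * b s')) := by
              gcongr
          _ = (c1 * ((Fintype.card H : ℕ) : ℝ≥0∞)) * (ex α s' * b s') := by ring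
          _ ≤ dd * (ex α s' * b s') := mul_le_mul' E.hm (le_refl _)
          _ = 1 * dd * (ex α s' * b s') := by rw [one_mul]
          _ ≤ dd ^ r * dd * (ex α s' * b s') := by gcongr
          _ = _ := by rw [hex]; ring
      · simp only [if_neg h2]
        simp
  refine le_trans (lintegral_mono pt) ?_
  rw [lintegral_const_mul' _ _ (ENNReal.mul_ne_top (ENNReal.pow_ne_top E.ddt) (ex_ne_top α s))]
  have h4 := hSH s hs
  set J := ∫⁻ w, ex α (pr c w) * (if s + pr c w ≤ T then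
        a (s + pr c w) + p (s + pr c w) else if s + pr c w ≤ T + A0 then b (s + pr c w)
          else 0) ∂κ with hJ
  calc dd ^ (r + 1) * ex α s * J = dd ^ (r + 1) * ex α s * (nu * nu⁻¹) * J := by
        rw [E.nn, mul_one]
    _ = dd ^ (r + 1) * (ex α s * nu⁻¹ * (nu * J)) := by ring
    _ ≤ dd ^ (r + 1) * (ex α s * nu⁻¹ * p s) := by gcongr

/-- The constant potential. -/
theorem Env.sh_const (E : Env κ vert c ok α g0 T A0 S0 nu dd c1 K3 CH q FA Fr B R) (C : ℝ≥0∞)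
    (s : ℝ) : nu * ∫⁻ w, ex α (pr c w) * (if s + pr c w ≤ T then
      0 + C else if s + pr c w ≤ T + A0 then C else 0) ∂κ ≤ C := by
  calc nu * ∫⁻ w, ex α (pr c w) * (if s + pr c w ≤ T then
      0 + C else if s + pr c w ≤ T + A0 then C else 0) ∂κ
      ≤ nu * ∫⁻ w, ex α (pr c w) * C ∂κ := by
        gcongr with w
        split_ifs
        · rw [zero_add]
        · exact le_refl _
        · exact bot_le
    _ = nu * (nu⁻¹ * C) := by
        have hm : Measurable (fun w => ex α (pr c w)) := (measurable_ex α).comp (measurable_pr c)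
        rw [lintegral_mul_const _ hm, E.hα]
    _ = C := by rw [← mul_assoc, E.nn, one_mul]

/-- The sum of the weights of the paths. -/
theorem Env.ww_upper (E : Env κ vert c ok α g0 T A0 S0 nu dd c1 K3 CH q FA Fr B R)
    {U : Finset V} {D0 : Finset H} {r : ℕ} {l : List (H × H)} {τ : Wt H} {W : Finset V}
    {xs : List H} {s : ℝ} {h : H} (hA : Adm vert c U D0 l τ W xs s) (hh : h ∉ dom l)
    (hhW : vert h ∈ W) (hB : (dom l).card + 2 * r ≤ B) (hs : s ≤ T) :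
    EE κ l τ (PS vert c ok T U (ww c α T A0) r h xs) ≤ dd ^ r * (ex α s * nu⁻¹) := by
  classical
  have h1 := E.tilt (U := U) (D0 := D0) (empty_subset U) ∅ l τ xs
    (Θ := ww c α T A0) (fun h ys σ => measurable_ww c α T A0 h ys σ) (fun _ => 0) (fun _ => 1)
    (fun _ => 1) (fun s _ => E.sh_const 1 s) (le_refl B) ?_ r l τ W xs s h hA
    ⟨Sb.refl l τ, List.suffix_refl _, fun _ _ _ _ => notMem_empty _, fun f hf =>
      absurd hf (notMem_empty f)⟩ (notMem_empty h) hh hhW hB hs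
  · rw [mul_one] at h1
    exact h1
  · intro l' τ' W' xs' s' h' y' hA' _ _ _ _ _
    refine le_trans (EE_mono (G := fun _ _ => if s' ≤ T then 0 else if s' ≤ T + A0 then
      ex α s' else 0) ?_) ?_
    · intro σ hσ ω
      unfold ww
      rw [tm_glue hσ hA'.rv, hA'.time σ hσ]
      by_cases h2 : s' ≤ T
      · rw [if_neg (fun hc => absurd hc.1 (not_lt.2 h2)), if_pos h2]
      · by_cases h3 : s' ≤ T + A0
        · rw [if_pos ⟨not_le.1 h2, h3⟩, if_neg h2, if_pos h3]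
        · rw [if_neg (fun hc => h3 hc.2)]
          exact bot_le
    · refine le_trans (EE_const_le _ _ _) ?_
      split_ifs
      · exact bot_le
      · rw [mul_one]
      · exact le_refl _

end

end Pool.Agent.H949.CX
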