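import Pool.Agent.H949.CX.Hit

/-!
# Undisturbed paths
-/

set_option linter.unusedSectionVars false
set_option linter.unusedSimpArgs false
set_option linter.unusedVariables false

open MeasureTheory Finset
open scoped ENNReal

namespace Pool.Agent.H949.CX

open Pool.Agent.H949.CM

variable {V H : Type} [Fintype V] [DecidableEq V] [Fintype H] [DecidableEq H]

/-- The vertices reached by a path. -/
def Va (vert : H → V) (σ : Mt H) (γ : List H) : Finset V := (γ.map (fun g => vert (σ g))).toFinset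

theorem mem_Va {vert : H → V} {σ : Mt H} {γ : List H} {v : V} :
    v ∈ Va vert σ γ ↔ ∃ g ∈ γ, v = vert (σ g) := by
  unfold Va
  rw [List.mem_toFinset, List.mem_map]
  constructor
  · rintro ⟨g, h1, h2⟩; exact ⟨g, h1, h2.symm⟩
  · rintro ⟨g, h1, h2⟩; exact ⟨g, h1, h2.symm⟩

/-- The half-edges of `S` that the path `γ` does not use. -/
def FE (σ : Mt H) (γ : List H) (S : Finset H) : Finset H := S.filter (fun f => f ∉ γ ∧ σ f ∉ γ)

theorem mem_FE {σ : Mt H} {γ : List H} {S : Finset H} {f : H} :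
    f ∈ FE σ γ S ↔ f ∈ S ∧ f ∉ γ ∧ σ f ∉ γ := by
  unfold FE; rw [mem_filter]

/-- Hits of the same colour that start on the path `k :: zs` at the end of `g' :: ys'` and end at
the end of `g :: ys`. -/
noncomputable def D1 (vert : H → V) (c : Bool) (U : Finset V) (R : ℕ) (k : H) (zs : List H)
    (g : H) (ys : List H) (g' : H) (ys' : List H) (σ : Mt H) (ω : Wt H) : ℝ≥0∞ :=
  ∑ f ∈ FE σ (k :: zs) (nxt vert (σ g')), HN vert c (vert (σ g)) R (U ∪ Va vert σ (k :: zs)) f
    (tm c σ ω (g :: ys) - tm c σ ω (g' :: ys')) σ ω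

/-- Hits of the colour `c'` that start at `Rt`, with delay `S0`. -/
noncomputable def D2 (vert : H → V) (c c' : Bool) (U : Finset V) (R : ℕ) (Rt : Finset H) (S0 : ℝ)
    (k : H) (zs : List H) (g : H) (ys : List H) (σ : Mt H) (ω : Wt H) : ℝ≥0∞ :=
  ∑ f ∈ FE σ (k :: zs) Rt, HN vert c' (vert (σ g)) R (U ∪ Va vert σ (k :: zs)) f
    (tm c σ ω (g :: ys) + S0) σ ω

/-- The number of hits that disturb the path `k :: zs`. -/
noncomputable def DD (vert : H → V) (c : Bool) (U : Finset V) (R : ℕ) (Rt Rr : Finset H) (S0 : ℝ)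
    (k : H) (zs : List H) (σ : Mt H) (ω : Wt H) : ℝ≥0∞ :=
  SumPre (fun g ys => SumPre (fun g' ys' => D1 vert c U R k zs g ys g' ys' σ ω) (g :: ys) +
    D2 vert c c U R Rt 0 k zs g ys σ ω + D2 vert c (!c) U R Rr S0 k zs g ys σ ω) (k :: zs)

theorem SumPre_eq_zero {f : H → List H → ℝ≥0∞} {γ : List H} (h : SumPre f γ = 0) :
    ∀ g ys, (g :: ys) <:+ γ → f g ys = 0 := by
  induction γ with
  | nil =>
    intro g ys hs
    have := hs.length_le
    simp at this
  | cons a γ ih =>
    intro g ys hs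
    unfold SumPre at h
    rw [add_eq_zero] at h
    rcases List.suffix_cons_iff.1 hs with h1 | h1
    · obtain ⟨rfl, rfl⟩ := List.cons.inj h1
      exact h.1
    · exact ih h.2 g ys h1

/-- The paths that start with `e`. -/
def VP (vert : H → V) (σ : Mt H) (U : Finset V) (e : H) : List H → Prop
  | [] => False
  | [g] => g = e ∧ vert (σ g) ∉ U
  | g :: g' :: ys => g ∈ nxt vert (σ g') ∧ vert (σ g) ∉ U ∧
      (∀ k ∈ g' :: ys, vert (σ g) ≠ vert (σ k)) ∧ VP vert σ U e (g' :: ys)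

/-- The half-edge `h` continues the path `xs` that starts with `e`. -/
def VX (vert : H → V) (σ : Mt H) (U : Finset V) (e : H) (h : H) (xs : List H) : Prop :=
  (xs = [] ∧ h = e) ∨ ∃ g0 xs0, xs = g0 :: xs0 ∧ h ∈ nxt vert (σ g0) ∧ VP vert σ U e xs

theorem VX.cons {vert : H → V} {σ : Mt H} {U : Finset V} {e h : H} {xs : List H}
    (hv : VX vert σ U e h xs) (h1 : vert (σ h) ∉ U) (h2 : ∀ g ∈ xs, vert (σ h) ≠ vert (σ g)) :
    VP vert σ U e (h :: xs) := by
  rcases hv with ⟨rfl, rfl⟩ | ⟨g0, xs0, rfl, h3, h4⟩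
  · exact ⟨rfl, h1⟩
  · exact ⟨h3, h1, h2, h4⟩

theorem Ext.vp {vert : H → V} {c : Bool} {ok : V → ℝ → Prop} {T : ℝ} {U : Finset V} {σ : Mt H}
    {ω : Wt H} {e : H} : ∀ (n : ℕ) {h : H} {xs γ : List H}, VX vert σ U e h xs →
      Ext vert c ok T U σ ω n h xs γ → VP vert σ U e γ := by
  intro n
  induction n with
  | zero => intro h xs γ _ hE; exact hE.elim
  | succ n ih =>
    intro h xs γ hv hE
    have h1 := hv.cons hE.1.1 hE.1.2.1
    rcases hE.2 with rfl | ⟨_, g, hg, hE'⟩
    · exact h1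
    · exact ih (Or.inr ⟨h, xs, rfl, hg, h1⟩) hE'

theorem VP.suffix {vert : H → V} {σ : Mt H} {U : Finset V} {e : H} :
    ∀ {γ : List H}, VP vert σ U e γ → ∀ {g : H} {ys : List H}, (g :: ys) <:+ γ →
      VP vert σ U e (g :: ys) := by
  intro γ
  induction γ with
  | nil => intro h; exact h.elim
  | cons a γ ih =>
    intro h g ys hs
    rcases List.suffix_cons_iff.1 hs with h1 | h1
    · rw [h1]; exact h
    · cases γ with
      | nil => have := h1.length_le; simp at this
      | cons b γ => exact ih h.2.2.2 h1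

theorem VP.notMem {vert : H → V} {σ : Mt H} {U : Finset V} {e : H} :
    ∀ {g : H} {ys : List H}, VP vert σ U e (g :: ys) → vert (σ g) ∉ U := by
  intro g ys h
  cases ys with
  | nil => exact h.2
  | cons a ys => exact h.2.1

theorem VP.ne {vert : H → V} {σ : Mt H} {U : Finset V} {e : H} {g : H} {ys : List H}
    (h : VP vert σ U e (g :: ys)) : ∀ k ∈ ys, vert (σ g) ≠ vert (σ k) := by
  cases ys with
  | nil => intro k hk; simp at hk
  | cons a ys => exact h.2.2.1

/-- A vertex of a path belongs to only one initial part. -/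
theorem VP.inj {vert : H → V} {σ : Mt H} {U : Finset V} {e : H} {γ : List H}
    (h : VP vert σ U e γ) {g g' : H} {ys ys' : List H} (h1 : (g :: ys) <:+ γ)
    (h2 : (g' :: ys') <:+ γ) (he : vert (σ g) = vert (σ g')) : g :: ys = g' :: ys' := by
  rcases List.suffix_or_suffix_of_suffix h1 h2 with h3 | h3
  · rcases List.suffix_cons_iff.1 h3 with h4 | h4
    · exact h4
    · exfalso
      exact (h.suffix h2).ne g (h4.subset List.mem_cons_self) he.symm
  · rcases List.suffix_cons_iff.1 h3 with h4 | h4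
    · exact h4.symm
    · exfalso
      exact (h.suffix h1).ne g' (h4.subset List.mem_cons_self) he

theorem tail_subset {h g : H} {xs ys : List H} (hs : (h :: xs) <:+ (g :: ys)) : xs ⊆ ys := by
  rcases List.suffix_cons_iff.1 hs with h1 | h1
  · rw [(List.cons.inj h1).2]
    exact fun _ h => h
  · exact fun a ha => h1.subset (List.mem_cons_of_mem _ ha)

theorem exists_suffix_of_mem {γ : List H} {g : H} (hg : g ∈ γ) : ∃ ys, (g :: ys) <:+ γ := by
  obtain ⟨a, b, rfl⟩ := List.append_of_mem hg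
  exact ⟨b, List.suffix_append _ _⟩

/-- Two different ways to continue `xs`. -/
def Br (vert : H → V) (σ : Mt H) (U : Finset V) (Rt : Finset H) (xs : List H) (h h' : H) : Prop :=
  h ≠ h' ∧ ((xs = [] ∧ h ∈ Rt ∧ h' ∈ Rt) ∨
    ∃ g0 xs0 e, xs = g0 :: xs0 ∧ h ∈ nxt vert (σ g0) ∧ h' ∈ nxt vert (σ g0) ∧
      VP vert σ U e xs ∧ e ∈ Rt)

theorem Br.symm {vert : H → V} {σ : Mt H} {U : Finset V} {Rt : Finset H} {xs : List H} {h h' : H}
    (hb : Br vert σ U Rt xs h h') : Br vert σ U Rt xs h' h := by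
  obtain ⟨h1, h2⟩ := hb
  refine ⟨h1.symm, ?_⟩
  rcases h2 with ⟨a, b, d⟩ | ⟨g0, xs0, e, a, b, d, f, g⟩
  · exact Or.inl ⟨a, d, b⟩
  · exact Or.inr ⟨g0, xs0, e, a, d, b, f, g⟩

theorem Br.vx {vert : H → V} {σ : Mt H} {U : Finset V} {Rt : Finset H} {xs : List H} {h h' : H}
    (hb : Br vert σ U Rt xs h h') : ∃ e ∈ Rt, VX vert σ U e h xs := by
  obtain ⟨h1, h2⟩ := hb
  rcases h2 with ⟨a, b, d⟩ | ⟨g0, xs0, e, a, b, d, f, g⟩
  · exact ⟨h, b, Or.inl ⟨a, rfl⟩⟩
  · exact ⟨e, g, Or.inr ⟨g0, xs0, a, b, f⟩⟩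

/-- The path through `h` does not use `h'`. -/
theorem Br.free {vert : H → V} {c : Bool} {ok : V → ℝ → Prop} {T : ℝ} {U : Finset V}
    {Rt : Finset H} {σ : Mt H} {ω : Wt H} (hRt : ∀ e ∈ Rt, vert e ∈ U) {xs : List H} {h h' : H}
    (hb : Br vert σ U Rt xs h h') {n : ℕ} {γ : List H}
    (hE : Ext vert c ok T U σ ω n h xs γ) : h' ∉ γ ∧ σ h' ∉ γ := by
  obtain ⟨e, he, hvx⟩ := hb.vx
  have hvp := Ext.vp n hvx hE
  have hsuf := Ext.suffix n hE
  obtain ⟨hne, h2⟩ := hb
  rcases h2 with ⟨rfl, hh, hh'⟩ | ⟨g0, xs0, e', rfl, hg, hg', hvp0, he'⟩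
  · -- roots
    have hh'U := hRt h' hh'
    constructor
    · intro hm
      obtain ⟨ys, hys⟩ := exists_suffix_of_mem hm
      have hv := hvp.suffix hys
      cases ys with
      | nil =>
        have h1 : [h'] = [h] := by
          rcases List.suffix_or_suffix_of_suffix hys hsuf with k | k
          · exact k.eq_of_length (by simp)
          · exact (k.eq_of_length (by simp)).symm
        exact hne (by simpa using h1.symm)
      | cons a ys =>
        have h1 := hv.1
        rw [mem_nxt] at h1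
        have h2 := (VP.suffix hvp ((List.suffix_cons _ _).trans hys) : VP vert σ U e (a :: ys))
        rw [h1.1] at hh'U
        exact h2.notMem hh'U
    · intro hm
      obtain ⟨ys, hys⟩ := exists_suffix_of_mem hm
      have hv := (hvp.suffix hys).notMem
      rw [Mt.invol] at hv
      exact hv hh'U
  · -- inner vertices
    rw [mem_nxt] at hg hg'
    have hs0 : (g0 :: xs0) <:+ γ := (List.suffix_cons _ _).trans hsuf
    have hv0U := (hvp.suffix hs0).notMem
    constructor
    · intro hm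
      obtain ⟨ys, hys⟩ := exists_suffix_of_mem hm
      have hv := hvp.suffix hys
      cases ys with
      | nil =>
        have h1 : h' = e := hv.1
        have h2 := hRt e he
        rw [← h1, hg'.1] at h2
        exact hv0U h2
      | cons a ys =>
        have h1 := hv.1
        rw [mem_nxt] at h1
        have h3 : (a :: ys) <:+ γ := (List.suffix_cons _ _).trans hys
        have h4 : a :: ys = g0 :: xs0 := hvp.inj h3 hs0 (by rw [← h1.1, hg'.1])
        rw [h4] at hys
        have h5 : h' :: g0 :: xs0 = h :: g0 :: xs0 := by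
          rcases List.suffix_or_suffix_of_suffix hys hsuf with k | k
          · exact k.eq_of_length (by simp)
          · exact (k.eq_of_length (by simp)).symm
        exact hne (List.cons.inj h5).1.symm
    · intro hm
      obtain ⟨ys, hys⟩ := exists_suffix_of_mem hm
      have h4 : σ h' :: ys = g0 :: xs0 := hvp.inj hys hs0 (by rw [Mt.invol, hg'.1])
      have h5 := (List.cons.inj h4).1
      apply hg'.2
      rw [← h5, Mt.invol]

section

variable {vert : H → V} {c : Bool} {ok : V → ℝ → Prop} {T : ℝ} {U : Finset V}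
    {Rt Rr : Finset H} {S0 : ℝ} {R : ℕ} {σ : Mt H} {ω : Wt H}

/-- An undisturbed path is not hit. -/
theorem no_hit (hRt : ∀ e ∈ Rt, vert e ∈ U) {xs : List H} {h h' : H}
    (hb : Br vert σ U Rt xs h h') {n : ℕ} {k : H} {zs : List H}
    (hE : Ext vert c ok T U σ ω n h xs (k :: zs))
    (hD : DD vert c U R Rt Rr S0 k zs σ ω = 0) {g : H} {ys : List H}
    (hs : (g :: ys) <:+ (k :: zs)) (hs' : (h :: xs) <:+ (g :: ys))
    (hH : HN vert c (vert (σ g)) R (U ∪ Va vert σ (k :: zs)) h'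
      (tm c σ ω (g :: ys) - tm c σ ω xs) σ ω ≠ 0) : False := by
  obtain ⟨hf1, hf2⟩ := hb.free hRt hE
  have h1 := SumPre_eq_zero hD g ys hs
  rw [add_eq_zero, add_eq_zero] at h1
  obtain ⟨hne, h2⟩ := hb
  rcases h2 with ⟨rfl, hh, hh'⟩ | ⟨g0, xs0, e', rfl, hg, hg', hvp0, he'⟩
  · have h3 := h1.1.2
    unfold D2 at h3
    rw [Finset.sum_eq_zero_iff] at h3
    apply hH
    have := h3 h' (mem_FE.2 ⟨hh', hf1, hf2⟩)
    rw [add_zero] at this
    rw [tm_nil, sub_zero]
    exact this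
  · have h3 := SumPre_eq_zero h1.1.1 g0 xs0 ((List.suffix_cons _ _).trans hs')
    unfold D1 at h3
    rw [Finset.sum_eq_zero_iff] at h3
    exact hH (h3 h' (mem_FE.2 ⟨hg', hf1, hf2⟩))

theorem Ext.notMem_xs : ∀ (n : ℕ) {h : H} {xs γ : List H},
    Ext vert c ok T U σ ω n h xs γ → ∀ {g : H} {ys : List H}, (g :: ys) <:+ γ →
      (h :: xs) <:+ (g :: ys) → cnd vert c ok U g ys σ ω := by
  intro n
  induction n with
  | zero => intro h xs γ hE; exact hE.elim
  | succ n ih =>
    intro h xs γ hE g ys h1 h2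
    rcases hE.2 with rfl | ⟨_, k, hk, hE'⟩
    · have h3 := h1.eq_of_length_le h2.length_le
      obtain ⟨rfl, rfl⟩ := List.cons.inj h3
      exact hE.1
    · have hsk := Ext.suffix _ hE'
      rcases List.suffix_or_suffix_of_suffix hsk h1 with h4 | h4
      · exact ih hE' h1 h4
      · have h5 := h4.length_le
        have h6 := h2.length_le
        simp only [List.length_cons] at h5 h6
        rcases Nat.lt_or_ge ys.length (xs.length + 1) with h7 | h7
        · have h8 : h :: xs = g :: ys := h2.eq_of_length (by simp; omega)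
          obtain ⟨rfl, rfl⟩ := List.cons.inj h8
          exact hE.1
        · have h8 : g :: ys = k :: h :: xs := h4.eq_of_length (by simp; omega)
          rw [h8] at h1
          exact ih hE' (by rw [h8]; exact h1) (by rw [h8])

/-- Undisturbed paths that branch are disjoint after the branching. -/
theorem disj (hpos : ∀ g, 0 ≤ wt c σ ω g) (hRt : ∀ e ∈ Rt, vert e ∈ U) {xs : List H} {h h' : H}
    (hb : Br vert σ U Rt xs h h') {n n' : ℕ} {k k' : H} {zs zs' : List H}
    (hE : Ext vert c ok T U σ ω n h xs (k :: zs))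
    (hE' : Ext vert c ok T U σ ω n' h' xs (k' :: zs'))
    (hD : DD vert c U R Rt Rr S0 k zs σ ω = 0) (hD' : DD vert c U R Rt Rr S0 k' zs' σ ω = 0)
    {g g' : H} {ys ys' : List H}
    (hg : (g :: ys) <:+ (k :: zs)) (hg2 : (h :: xs) <:+ (g :: ys))
    (hg' : (g' :: ys') <:+ (k' :: zs')) (hg2' : (h' :: xs) <:+ (g' :: ys')) :
    vert (σ g) ≠ vert (σ g') := by
  intro heq
  obtain ⟨e, he, hvx⟩ := hb.vx
  obtain ⟨e', he', hvx'⟩ := hb.symm.vx
  have hvp := Ext.vp n hvx hE
  have hvp' := Ext.vp n' hvx' hE'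
  -- first vertex of the second path on the first path
  have hm1 : vert (σ g') ∈ U ∪ Va vert σ (k :: zs) :=
    mem_union_right _ (mem_Va.2 ⟨g, hg.subset List.mem_cons_self, heq.symm⟩)
  obtain ⟨g1, y1, a1, a2, a3, a4, a5⟩ := hit_of_ext (W := U ∪ Va vert σ (k :: zs)) hpos n' h' xs
    (k' :: zs') hE' ⟨g', ys', hg', hg2', hm1⟩
  have hm2 : vert (σ g) ∈ U ∪ Va vert σ (k' :: zs') :=
    mem_union_right _ (mem_Va.2 ⟨g', hg'.subset List.mem_cons_self, heq⟩)
  obtain ⟨g3, y3, b1, b2, b3, b4, b5⟩ := hit_of_ext (W := U ∪ Va vert σ (k' :: zs')) hpos n h xs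
    (k :: zs) hE ⟨g, ys, hg, hg2, hm2⟩
  -- the corresponding parts of the other path
  have c1 := Ext.notMem_xs n' hE' a1 a2
  have c3 := Ext.notMem_xs n hE b1 b2
  have d1 : ∃ g2 y2, (g2 :: y2) <:+ (k :: zs) ∧ (h :: xs) <:+ (g2 :: y2) ∧
      vert (σ g2) = vert (σ g1) := by
    rcases mem_union.1 a3 with h1 | h1
    · exact absurd h1 c1.1
    · obtain ⟨g2, hg2m, hg2e⟩ := mem_Va.1 h1
      obtain ⟨y2, hy2⟩ := exists_suffix_of_mem hg2m
      refine ⟨g2, y2, hy2, ?_, hg2e.symm⟩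
      have hsuf := Ext.suffix _ hE
      rcases List.suffix_or_suffix_of_suffix hsuf hy2 with h4 | h4
      · exact h4
      · rcases List.suffix_cons_iff.1 h4 with h5 | h5
        · rw [h5]
        · exfalso
          exact c1.2.1 g2 (tail_subset a2 (h5.subset List.mem_cons_self)) hg2e
  have d3 : ∃ g4 y4, (g4 :: y4) <:+ (k' :: zs') ∧ (h' :: xs) <:+ (g4 :: y4) ∧
      vert (σ g4) = vert (σ g3) := by
    rcases mem_union.1 b3 with h1 | h1
    · exact absurd h1 c3.1
    · obtain ⟨g2, hg2m, hg2e⟩ := mem_Va.1 h1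
      obtain ⟨y2, hy2⟩ := exists_suffix_of_mem hg2m
      refine ⟨g2, y2, hy2, ?_, hg2e.symm⟩
      have hsuf := Ext.suffix _ hE'
      rcases List.suffix_or_suffix_of_suffix hsuf hy2 with h4 | h4
      · exact h4
      · rcases List.suffix_cons_iff.1 h4 with h5 | h5
        · rw [h5]
        · exfalso
          exact c3.2.1 g2 (tail_subset b2 (h5.subset List.mem_cons_self)) hg2e
  obtain ⟨g2, y2, e1, e2, e3⟩ := d1
  obtain ⟨g4, y4, f1, f2, f3⟩ := d3
  have hAp : ∀ v ∈ U ∪ Va vert σ (k :: zs), v ∈ U ∪ Va vert σ (k :: zs) ∨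
      ∃ k ∈ xs, v = vert (σ k) := fun v hv => Or.inl hv
  have hAp' : ∀ v ∈ U ∪ Va vert σ (k' :: zs'), v ∈ U ∪ Va vert σ (k' :: zs') ∨
      ∃ k ∈ xs, v = vert (σ k) := fun v hv => Or.inl hv
  by_cases hcmp : tm c σ ω (g1 :: y1) ≤ tm c σ ω (g2 :: y2)
  · apply no_hit hRt hb hE hD e1 e2
    rw [e3]
    exact a5 R _ _ hAp (by linarith)
  · push Not at hcmp
    -- `g3 :: y3` is an initial part of `g2 :: y2`, and `g1 :: y1` of `g4 :: y4`
    have k1 : (g3 :: y3) <:+ (g2 :: y2) := b4 g2 y2 e1 e2 (mem_union_right _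
      (mem_Va.2 ⟨g1, a1.subset List.mem_cons_self, e3⟩))
    have k2 : (g1 :: y1) <:+ (g4 :: y4) := a4 g4 y4 f1 f2 (mem_union_right _
      (mem_Va.2 ⟨g3, b1.subset List.mem_cons_self, f3⟩))
    have t1 := tm_suffix_le hpos k1
    have t2 := tm_suffix_le hpos k2
    apply no_hit hRt hb.symm hE' hD' f1 f2
    rw [f3]
    exact b5 R _ _ hAp' (by linarith)

/-- A path that avoids more vertices. -/
theorem Ext.avoid {U' : Finset V} : ∀ (n : ℕ) {h : H} {xs γ : List H},
    Ext vert c ok T U σ ω n h xs γ →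
    (∀ g ys, (g :: ys) <:+ γ → (h :: xs) <:+ (g :: ys) → vert (σ g) ∉ U') →
    Ext vert c ok T U' σ ω n h xs γ := by
  intro n
  induction n with
  | zero => intro h xs γ hE; exact hE.elim
  | succ n ih =>
    intro h xs γ hE hyp
    refine ⟨⟨hyp h xs (Ext.suffix _ hE) (List.suffix_refl _), hE.1.2.1, hE.1.2.2⟩, ?_⟩
    rcases hE.2 with h1 | ⟨h1, g, hg, hE'⟩
    · exact Or.inl h1
    · refine Or.inr ⟨h1, g, hg, ih hE' (fun k ys a b => hyp k ys a ?_)⟩
      exact (List.suffix_cons _ _).trans b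

end

end Pool.Agent.H949.CX
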