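import Pool.Agent.H949.CM.Model
import Pool.Agent.H949.CM.Exist

/-!
# Expectations over matchings and edge lengths, with revealed edges
-/

set_option linter.unusedSectionVars false
set_option linter.unusedSimpArgs false

open MeasureTheory Finset
open scoped ENNReal

namespace Pool.Agent.H949.CX

open Pool.Agent.H949.CM

variable {V H : Type} [Fintype V] [DecidableEq V] [Fintype H] [DecidableEq H]

/-- The pairs (red length, blue length) of all possible edges. -/
abbrev Wt (H : Type) : Type := Sym2 H → ℝ × ℝ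

/-- The edges of a list of pairs. -/
def Ed (l : List (H × H)) : Finset (Sym2 H) := (l.map (fun p => s(p.1, p.2))).toFinset

theorem mem_Ed {l : List (H × H)} {e : Sym2 H} : e ∈ Ed l ↔ ∃ p ∈ l, s(p.1, p.2) = e := by
  unfold Ed
  rw [List.mem_toFinset, List.mem_map]

theorem Ed_cons (a b : H) (l : List (H × H)) : Ed ((a, b) :: l) = insert s(a, b) (Ed l) := by
  ext e
  rw [mem_insert, mem_Ed, mem_Ed]
  constructor
  · rintro ⟨p, hp, rfl⟩
    rcases List.mem_cons.1 hp with rfl | hp
    · exact Or.inl rfl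
    · exact Or.inr ⟨p, hp, rfl⟩
  · rintro (rfl | ⟨p, hp, rfl⟩)
    · exact ⟨(a, b), List.mem_cons_self, rfl⟩
    · exact ⟨p, List.mem_cons_of_mem _ hp, rfl⟩

theorem notMem_Ed {l : List (H × H)} {h y : H} (hh : h ∉ dom l) : s(h, y) ∉ Ed l := by
  intro hc
  obtain ⟨p, hp, he⟩ := mem_Ed.1 hc
  rw [Sym2.eq_iff] at he
  rcases he with ⟨h1, _⟩ | ⟨_, h2⟩
  · exact hh (mem_dom.2 ⟨p, hp, Or.inl h1.symm⟩)
  · exact hh (mem_dom.2 ⟨p, hp, Or.inr h2.symm⟩)

/-- The lengths `τ` on the edges of `l` and `ω` elsewhere. -/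
def glue (l : List (H × H)) (τ ω : Wt H) : Wt H := fun e => if e ∈ Ed l then τ e else ω e

theorem glue_of_mem {l : List (H × H)} {τ ω : Wt H} {e : Sym2 H} (he : e ∈ Ed l) :
    glue l τ ω e = τ e := if_pos he

theorem glue_of_notMem {l : List (H × H)} {τ ω : Wt H} {e : Sym2 H} (he : e ∉ Ed l) :
    glue l τ ω e = ω e := if_neg he

theorem glue_nil (τ ω : Wt H) : glue [] τ ω = ω := by
  funext e
  exact if_neg (by simp [Ed])

theorem measurable_glue (l : List (H × H)) (τ : Wt H) : Measurable (fun ω => glue l τ ω) := by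
  rw [measurable_pi_iff]
  intro e
  by_cases he : e ∈ Ed l
  · simp only [glue, if_pos he]; exact measurable_const
  · simp only [glue, if_neg he]; exact measurable_pi_apply e

theorem measurable_glue₂ (l : List (H × H)) :
    Measurable (fun p : Wt H × Wt H => glue l p.1 p.2) := by
  rw [measurable_pi_iff]
  intro e
  by_cases he : e ∈ Ed l
  · simp only [glue, if_pos he]; exact (measurable_pi_apply e).comp measurable_fst
  · simp only [glue, if_neg he]; exact (measurable_pi_apply e).comp measurable_snd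

theorem glue_update {l : List (H × H)} {h y : H} (hh : h ∉ dom l) (τ ω : Wt H) (w : ℝ × ℝ) :
    glue l τ (Function.update ω s(h, y) w) =
      glue ((h, y) :: l) (Function.update τ s(h, y) w) ω := by
  funext e
  have h0 := notMem_Ed (y := y) hh
  by_cases he : e = s(h, y)
  · subst he
    rw [glue_of_notMem h0, glue_of_mem (by rw [Ed_cons]; exact mem_insert_self _ _)]
    simp
  · by_cases he' : e ∈ Ed l
    · rw [glue_of_mem he', glue_of_mem (by rw [Ed_cons]; exact mem_insert_of_mem he')]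
      rw [Function.update_of_ne he]
    · rw [glue_of_notMem he', glue_of_notMem (by rw [Ed_cons, mem_insert]; tauto)]
      rw [Function.update_of_ne he]

variable (κ : Measure (ℝ × ℝ)) [IsProbabilityMeasure κ]

/-- The law of the lengths. -/
noncomputable abbrev lawW (H : Type) [Fintype H] [DecidableEq H] (κ : Measure (ℝ × ℝ)) :
    Measure (Wt H) := Measure.pi fun _ => κ

theorem mp_update (e : Sym2 H) :
    MeasurePreserving (fun p : (ℝ × ℝ) × Wt H => Function.update p.2 e p.1)
      (κ.prod (lawW H κ)) (lawW H κ) := by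
  have hm : Measurable (fun p : (ℝ × ℝ) × Wt H => Function.update p.2 e p.1) := by
    rw [measurable_pi_iff]
    intro i
    by_cases hi : i = e
    · subst hi
      simp only [Function.update_self]
      exact measurable_fst
    · simp only [Function.update_of_ne hi]
      exact (measurable_pi_apply i).comp measurable_snd
  refine ⟨hm, ?_⟩
  symm
  apply Measure.pi_eq
  intro s hs
  rw [Measure.map_apply hm (MeasurableSet.univ_pi hs)]
  have h1 : (fun p : (ℝ × ℝ) × Wt H => Function.update p.2 e p.1) ⁻¹' (Set.univ.pi s) =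
      s e ×ˢ (Set.univ.pi (Function.update s e Set.univ)) := by
    ext p
    simp only [Set.mem_preimage, Set.mem_pi, Set.mem_univ, true_implies, Set.mem_prod]
    constructor
    · intro h
      refine ⟨by simpa using h e, fun i => ?_⟩
      by_cases hi : i = e
      · subst hi; simp
      · rw [Function.update_of_ne hi]
        simpa [Function.update_of_ne hi] using h i
    · rintro ⟨h1, h2⟩ i
      by_cases hi : i = e
      · subst hi; simpa using h1
      · have := h2 i
        rw [Function.update_of_ne hi] at this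
        rw [Function.update_of_ne hi]
        exact this
  rw [h1, Measure.prod_prod, Measure.pi_pi, ← Finset.mul_prod_erase univ (fun i => κ (s i))
    (mem_univ e), ← Finset.mul_prod_erase univ (fun i => κ (Function.update s e Set.univ i))
    (mem_univ e)]
  simp only [Function.update_self, measure_univ, one_mul]
  congr 1
  apply Finset.prod_congr rfl
  intro i hi
  rw [Function.update_of_ne (Finset.ne_of_mem_erase hi)]

theorem lint_update {G : Wt H → ℝ≥0∞} (hG : Measurable G) (e : Sym2 H) :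
    ∫⁻ ω, G ω ∂(lawW H κ) =
      ∫⁻ w, ∫⁻ ω, G (Function.update ω e w) ∂(lawW H κ) ∂κ := by
  have h1 := (mp_update κ e).lintegral_comp hG
  rw [← h1]
  exact lintegral_prod _ (hG.comp (mp_update κ e).measurable).aemeasurable

/-- Expectation over the matchings that contain `l` and over the lengths, when the lengths of the
edges of `l` are `τ`. -/
noncomputable def EE (l : List (H × H)) (τ : Wt H) (F : Mt H → Wt H → ℝ≥0∞) : ℝ≥0∞ :=
  (∑ σ ∈ Al l, ∫⁻ ω, F σ (glue l τ ω) ∂(lawW H κ)) / (Al l).card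

variable {κ}

theorem EE_mono {l : List (H × H)} {τ : Wt H} {F G : Mt H → Wt H → ℝ≥0∞}
    (h : ∀ σ ∈ Al l, ∀ ω, F σ (glue l τ ω) ≤ G σ (glue l τ ω)) : EE κ l τ F ≤ EE κ l τ G := by
  unfold EE
  gcongr with σ hσ ω
  exact h σ hσ ω

theorem EE_congr {l : List (H × H)} {τ : Wt H} {F G : Mt H → Wt H → ℝ≥0∞}
    (h : ∀ σ ∈ Al l, ∀ ω, F σ (glue l τ ω) = G σ (glue l τ ω)) : EE κ l τ F = EE κ l τ G :=
  le_antisymm (EE_mono fun σ hσ ω => (h σ hσ ω).le) (EE_mono fun σ hσ ω => (h σ hσ ω).ge)

theorem EE_zero (l : List (H × H)) (τ : Wt H) :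
    EE κ l τ (fun _ _ => 0) = 0 := by
  unfold EE
  simp

theorem EE_const {l : List (H × H)} (hl : (Al l).Nonempty) (τ : Wt H) (c : ℝ≥0∞) :
    EE κ l τ (fun _ _ => c) = c := by
  unfold EE
  simp only [lintegral_const, measure_univ, mul_one, sum_const, nsmul_eq_mul]
  rw [mul_comm, ENNReal.mul_div_cancel_right]
  · exact_mod_cast (Finset.card_pos.2 hl).ne'
  · exact ENNReal.natCast_ne_top _

theorem EE_const_le (l : List (H × H)) (τ : Wt H) (c : ℝ≥0∞) :
    EE κ l τ (fun _ _ => c) ≤ c := by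
  rcases Finset.eq_empty_or_nonempty (Al l) with h0 | h0
  · unfold EE
    simp [h0]
  · exact (EE_const h0 τ c).le

theorem EE_add {l : List (H × H)} {τ : Wt H} {F G : Mt H → Wt H → ℝ≥0∞}
    (hF : ∀ σ, Measurable (F σ)) :
    EE κ l τ (fun σ ω => F σ ω + G σ ω) = EE κ l τ F + EE κ l τ G := by
  unfold EE
  rw [← ENNReal.add_div, ← Finset.sum_add_distrib]
  congr 1
  apply Finset.sum_congr rfl
  intro σ _
  exact lintegral_add_left ((hF σ).comp (measurable_glue l τ)) _

theorem EE_sum {ι : Type*} (s : Finset ι) {l : List (H × H)} {τ : Wt H}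
    {F : ι → Mt H → Wt H → ℝ≥0∞} (hF : ∀ i ∈ s, ∀ σ, Measurable (F i σ)) :
    EE κ l τ (fun σ ω => ∑ i ∈ s, F i σ ω) = ∑ i ∈ s, EE κ l τ (F i) := by
  unfold EE
  simp only [div_eq_mul_inv]
  rw [← Finset.sum_mul, Finset.sum_comm]
  congr 1
  apply Finset.sum_congr rfl
  intro σ _
  exact lintegral_finsetSum _ (fun i hi => (hF i hi σ).comp (measurable_glue l τ))

theorem EE_const_mul {l : List (H × H)} {τ : Wt H} {F : Mt H → Wt H → ℝ≥0∞} {c : ℝ≥0∞}
    (hc : c ≠ ⊤) : EE κ l τ (fun σ ω => c * F σ ω) = c * EE κ l τ F := by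
  unfold EE
  rw [← mul_div_assoc, Finset.mul_sum]
  congr 1
  apply Finset.sum_congr rfl
  intro σ _
  exact lintegral_const_mul' c _ hc

/-- The revealing rule for expectations. -/
theorem EE_reveal {l : List (H × H)} {τ : Wt H} {F : Mt H → Wt H → ℝ≥0∞} {h : H}
    (hF : ∀ σ, Measurable (F σ)) (hh : h ∉ dom l) :
    EE κ l τ F = (∑ y ∈ fr l h, ∫⁻ w, EE κ ((h, y) :: l) (Function.update τ s(h, y) w) F ∂κ) /
      (fr l h).card := by
  rcases Finset.eq_empty_or_nonempty (Al l) with h0 | ⟨σ0, hσ0⟩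
  · have h1 : ∀ y, Al ((h, y) :: l) = ∅ := by
      intro y
      rw [Finset.eq_empty_iff_forall_notMem]
      intro σ hσ
      have := (mem_Al_cons.1 hσ).2
      rw [h0] at this
      exact absurd this (Finset.notMem_empty σ)
    unfold EE
    simp [h0, h1]
  have hy0 : σ0 h ∈ fr l h := apply_mem_fr hσ0 hh
  set c' : ℕ := (Al ((h, σ0 h) :: l)).card with hc'
  have hcard : ∀ y ∈ fr l h, (Al ((h, y) :: l)).card = c' := fun y hy =>
    card_Al_cons_eq hy hy0
  have hc'pos : 0 < c' := Finset.card_pos.2 ⟨σ0, mem_Al_cons.2 ⟨rfl, hσ0⟩⟩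
  have hn : (fr l h).card * c' = (Al l).card := ratio hh hy0
  have hnpos : 0 < (fr l h).card := Finset.card_pos.2 ⟨_, hy0⟩
  have key : ∀ y ∈ fr l h, ∫⁻ w, EE κ ((h, y) :: l) (Function.update τ s(h, y) w) F ∂κ =
      (∑ σ ∈ Al ((h, y) :: l), ∫⁻ ω, F σ (glue l τ ω) ∂(lawW H κ)) / c' := by
    intro y hy
    unfold EE
    rw [hcard y hy]
    simp only [div_eq_mul_inv]
    have hmeas : ∀ σ : Mt H, Measurable (fun p : (ℝ × ℝ) × Wt H =>
        F σ (glue l τ (Function.update p.2 s(h, y) p.1))) := fun σ =>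
      ((hF σ).comp (measurable_glue l τ)).comp (mp_update κ s(h, y)).measurable
    rw [lintegral_mul_const']
    · congr 1
      simp only [← glue_update hh]
      rw [lintegral_finsetSum _ (fun σ _ => (hmeas σ).lintegral_prod_right')]
      apply Finset.sum_congr rfl
      intro σ _
      exact (lint_update κ ((hF σ).comp (measurable_glue l τ)) s(h, y)).symm
    · exact ENNReal.inv_ne_top.2 (by exact_mod_cast hc'pos.ne')
  rw [Finset.sum_congr rfl key]
  unfold EE
  simp only [div_eq_mul_inv]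
  rw [← Finset.sum_mul]
  have h2 := reveal_sum hh (fun _ σ => ∫⁻ ω, F σ (glue l τ ω) ∂(lawW H κ))
  rw [h2, ← hn, mul_assoc]
  congr 1
  push_cast
  rw [ENNReal.mul_inv (Or.inr (ENNReal.natCast_ne_top _)) (Or.inl (ENNReal.natCast_ne_top _)),
    mul_comm]

end Pool.Agent.H949.CX
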